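import Pool.Agent.Helper16K9.Ver.Sub

set_option autoImplicit false
set_option linter.unusedSectionVars false
set_option linter.unusedVariables false

/-!
# Block matrices and the lower bounds for decision problems
-/

namespace Pool.Agent.Helper16K9.Ver

open Finset Matrix

section

variable {n N s : ℕ} (e : Fin N ≃ (Fin 4 × Fin n) ⊕ Fin s)

/-- the big matrix -/
def big (D : Matrix (Fin s) (Fin s) ℂ) (M : Fin 4 → Fin 4 → Matrix (Fin n) (Fin n) ℂ) :
    Matrix (Fin N) (Fin N) ℂ :=
  (Matrix.fromBlocks (Matrix.of fun p q => M p.1 q.1 p.2 q.2) 0 0 D).submatrix e e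

theorem big_mul (D D' : Matrix (Fin s) (Fin s) ℂ)
    (M M' : Fin 4 → Fin 4 → Matrix (Fin n) (Fin n) ℂ) :
    big e D M * big e D' M' = big e (D * D') (fun a b => ∑ c, M a c * M' c b) := by
  unfold big
  rw [Matrix.submatrix_mul_equiv, Matrix.fromBlocks_multiply]
  congr 2
  · ext p q
    simp only [Matrix.mul_zero, Matrix.add_apply, Matrix.mul_apply, Matrix.of_apply,
      Matrix.zero_apply, add_zero, Fintype.sum_prod_type, Matrix.sum_apply]
  · simp
  · simp
  · simp

theorem big_inj {D : Matrix (Fin s) (Fin s) ℂ}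
    {M M' : Fin 4 → Fin 4 → Matrix (Fin n) (Fin n) ℂ} :
    big e D M = big e D M' ↔ ∀ a b, M a b = M' a b := by
  constructor
  · intro h a b
    ext i j
    have h1 := congrFun (congrFun h (e.symm (.inl (a, i)))) (e.symm (.inl (b, j)))
    simpa [big] using h1
  · intro h
    have : M = M' := funext fun a => funext fun b => h a b
    rw [this]

theorem big_zero : big e 0 (fun _ _ => 0) = (0 : Matrix (Fin N) (Fin N) ℂ) := by
  unfold big
  ext i j
  rcases hi : e i with a | a <;> rcases hj : e j with b | b <;>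
    simp [hi, hj, Matrix.submatrix_apply]

theorem big_one : big e 1 (fun a b => if a = b then 1 else 0) =
    (1 : Matrix (Fin N) (Fin N) ℂ) := by
  unfold big
  have h1 : (Matrix.of fun (p q : Fin 4 × Fin n) => (if p.1 = q.1 then
      (1 : Matrix (Fin n) (Fin n) ℂ) else 0) p.2 q.2) = 1 := by
    ext p q
    rw [Matrix.of_apply, Matrix.one_apply]
    by_cases h : p.1 = q.1
    · rw [if_pos h, Matrix.one_apply]
      by_cases h' : p.2 = q.2
      · rw [if_pos h', if_pos (Prod.ext h h')]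
      · rw [if_neg h', if_neg fun h'' => h' (congrArg Prod.snd h'')]
    · rw [if_neg h, if_neg fun h'' => h (congrArg Prod.fst h'')]
      rfl
  rw [h1, Matrix.fromBlocks_one]
  exact Matrix.submatrix_one_equiv e

theorem big_aff {I : Type} [Fintype I] (D : Matrix (Fin s) (Fin s) ℂ)
    (M : (I → ℂ) → Fin 4 → Fin 4 → Matrix (Fin n) (Fin n) ℂ)
    (hM : ∀ a b i j, IsAff fun x => M x a b i j) (p : Fin N × Fin N) :
    IsAff fun x => big e D (M x) p.1 p.2 := by
  unfold big
  simp only [Matrix.submatrix_apply]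
  rcases hi : e p.1 with a | a <;> rcases hj : e p.2 with b | b
  · simp only [Matrix.fromBlocks_apply₁₁, Matrix.of_apply]
    exact hM _ _ _ _
  · simp only [Matrix.fromBlocks_apply₁₂]
    exact isAff_const _
  · simp only [Matrix.fromBlocks_apply₂₁]
    exact isAff_const _
  · simp only [Matrix.fromBlocks_apply₂₂]
    exact isAff_const _

end

/-- the identification of the indices -/
theorem exists_index (N : ℕ) : ∃ s : ℕ, Nonempty (Fin N ≃ (Fin 4 × Fin (N / 4)) ⊕ Fin s) := by
  refine ⟨N - 4 * (N / 4), ⟨Fintype.equivOfCardEq ?_⟩⟩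
  simp only [Fintype.card_fin, Fintype.card_sum, Fintype.card_prod]
  omega

section

variable {n : ℕ} {I : Type} [Fintype I]

/-- the three matrices of the input -/
def mA (x : (((Fin n × Fin n) ⊕ (Fin n × Fin n)) ⊕ (Fin n × Fin n)) → ℂ) :
    Matrix (Fin n) (Fin n) ℂ := mat fun p => x (.inl (.inl p))
/-- the second matrix -/
def mB (x : (((Fin n × Fin n) ⊕ (Fin n × Fin n)) ⊕ (Fin n × Fin n)) → ℂ) :
    Matrix (Fin n) (Fin n) ℂ := mat fun p => x (.inl (.inr p))
/-- the third matrix -/
def mC (x : (((Fin n × Fin n) ⊕ (Fin n × Fin n)) ⊕ (Fin n × Fin n)) → ℂ) :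
    Matrix (Fin n) (Fin n) ℂ := mat fun p => x (.inr p)

theorem mem_productSet (x : (((Fin n × Fin n) ⊕ (Fin n × Fin n)) ⊕ (Fin n × Fin n)) → ℂ) :
    x ∈ productSet n ↔ mA x * mB x = mC x := Iff.rfl

theorem aff_A (i j : Fin n) :
    IsAff fun x : (((Fin n × Fin n) ⊕ (Fin n × Fin n)) ⊕ (Fin n × Fin n)) → ℂ => mA x i j :=
  isAff_var _
theorem aff_B (i j : Fin n) :
    IsAff fun x : (((Fin n × Fin n) ⊕ (Fin n × Fin n)) ⊕ (Fin n × Fin n)) → ℂ => mB x i j :=
  isAff_var _
theorem aff_C (i j : Fin n) :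
    IsAff fun x : (((Fin n × Fin n) ⊕ (Fin n × Fin n)) ⊕ (Fin n × Fin n)) → ℂ => mC x i j :=
  isAff_var _

/-- a tree which decides the graph of a function verifies the function -/
theorem Decides.verifies {J M : Type} [Fintype J] [Fintype M] {f : (J → ℂ) → (M → ℂ)}
    {S : Set (J ⊕ M → ℂ)} {t : Tree (J ⊕ M)} {L : ℕ} (h : Decides S t L)
    (hS : ∀ x y, Sum.elim x y ∈ S ↔ y = f x) : Verifies f t L :=
  ⟨1, one_ne_zero, fun x _ => ⟨h.1 _ ((hS x (f x)).2 rfl), fun y L' hy =>
    (hS x y).1 (h.2 _ L' hy)⟩⟩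

theorem mem_productSet_elim (x : ((Fin n × Fin n) ⊕ (Fin n × Fin n)) → ℂ) (y : Fin n × Fin n → ℂ) :
    Sum.elim x y ∈ productSet n ↔ y = productFun n x := by
  have h1 : Sum.elim x y ∈ productSet n ↔
      mat (fun p => x (.inl p)) * mat (fun p => x (.inr p)) = mat y := Iff.rfl
  rw [h1]
  constructor
  · intro h
    funext p
    exact (congrFun (congrFun h p.1) p.2).symm
  · rintro rfl
    rfl

theorem decides_product_bound {t : Tree (((Fin n × Fin n) ⊕ (Fin n × Fin n)) ⊕ (Fin n × Fin n))}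
    {L : ℕ} (h : Decides (productSet n) t L) : borderRank n ≤ 2 * L :=
  product_bound t L (h.verifies mem_productSet_elim)

end

end Pool.Agent.Helper16K9.Ver
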