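import Pool.Agent.Helper16K9.Ver.Hahn
import Pool.Agent.H826R3.SM.Rank

set_option autoImplicit false

/-!
# From decompositions over Puiseux series to approximate decompositions
-/

namespace Pool.Agent.Helper16K9.Ver

open Pool.Agent.Helper165.P1 Pool.Agent.H826R3.SM

/-- the shifted power series of a Laurent series -/
noncomputable def shP (e : ℕ) (x : NP.LS ℂ) : PowerSeries ℂ :=
  PowerSeries.mk fun j => x.coeff ((j : ℤ) - e)

theorem shP_spec (e : ℕ) (x : NP.LS ℂ) (hx : ∀ i < -(e : ℤ), x.coeff i = 0) :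
    HahnSeries.ofPowerSeries ℤ ℂ (shP e x) = HahnSeries.single (e : ℤ) 1 * x := by
  ext i
  rw [HahnSeries.coeff_single_mul, one_mul]
  rcases lt_or_ge i 0 with h | h
  · rw [hx _ (by omega)]
    rw [HahnSeries.ofPowerSeries_apply]
    apply HahnSeries.embDomain_of_notMem_range
    rintro ⟨a, ha⟩
    simp at ha
    omega
  · obtain ⟨j, rfl⟩ := Int.eq_ofNat_of_zero_le h
    have := HahnSeries.ofPowerSeries_apply_coeff (Γ := ℤ) (shP e x) j
    have h2 : ((j : ℕ) : ℤ) = (Int.ofNat j) := rfl
    simp only [Int.ofNat_eq_natCast] at *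
    rw [this, shP, PowerSeries.coeff_mk]

theorem exists_low (S : Finset (NP.LS ℂ)) : ∃ e : ℕ, ∀ x ∈ S, ∀ i < -(e : ℤ), x.coeff i = 0 := by
  classical
  induction S using Finset.induction_on with
  | empty => exact ⟨0, by simp⟩
  | insert a S _ ih =>
    obtain ⟨e, he⟩ := ih
    refine ⟨max e (a.order.natAbs), fun x hx i hi => ?_⟩
    rcases Finset.mem_insert.1 hx with rfl | hx
    · apply HahnSeries.coeff_eq_zero_of_lt_order
      omega
    · exact he x hx i (by omega)

theorem ad_of_pui {n R : ℕ} (α β γ : Fin R → Fin n → Fin n → Pui ℂ)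
    (h : ∀ i j j' k k' l, Pos ((∑ t, α t i j * β t j' k * γ t k' l -
      cP (if j = j' ∧ k = k' ∧ l = i then 1 else 0) : Pui ℂ) : HQ ℂ)) :
    ∃ h, AD ℂ (Fin n) (Fin R) h := by
  classical
  let S : Finset (Pui ℂ) :=
    (Finset.univ.image fun p : Fin R × Fin n × Fin n => α p.1 p.2.1 p.2.2) ∪
    (Finset.univ.image fun p : Fin R × Fin n × Fin n => β p.1 p.2.1 p.2.2) ∪
    (Finset.univ.image fun p : Fin R × Fin n × Fin n => γ p.1 p.2.1 p.2.2)
  obtain ⟨m, hm, hS⟩ := exists_common S
  have ha : ∀ t i j, ∃ x : NP.LS ℂ, eHom m hm x = (α t i j : HQ ℂ) := fun t i j =>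
    hS _ (Finset.mem_union_left _ (Finset.mem_union_left _
      (Finset.mem_image.2 ⟨(t, i, j), Finset.mem_univ _, rfl⟩)))
  have hb : ∀ t i j, ∃ x : NP.LS ℂ, eHom m hm x = (β t i j : HQ ℂ) := fun t i j =>
    hS _ (Finset.mem_union_left _ (Finset.mem_union_right _
      (Finset.mem_image.2 ⟨(t, i, j), Finset.mem_univ _, rfl⟩)))
  have hc : ∀ t i j, ∃ x : NP.LS ℂ, eHom m hm x = (γ t i j : HQ ℂ) := fun t i j =>
    hS _ (Finset.mem_union_right _
      (Finset.mem_image.2 ⟨(t, i, j), Finset.mem_univ _, rfl⟩))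
  choose a ha using ha
  choose b hb using hb
  choose c hc using hc
  let S2 : Finset (NP.LS ℂ) :=
    (Finset.univ.image fun p : Fin R × Fin n × Fin n => a p.1 p.2.1 p.2.2) ∪
    (Finset.univ.image fun p : Fin R × Fin n × Fin n => b p.1 p.2.1 p.2.2) ∪
    (Finset.univ.image fun p : Fin R × Fin n × Fin n => c p.1 p.2.1 p.2.2)
  obtain ⟨e, he⟩ := exists_low S2
  have hea : ∀ t i j, HahnSeries.ofPowerSeries ℤ ℂ (shP e (a t i j)) =
      HahnSeries.single (e : ℤ) 1 * a t i j := fun t i j => shP_spec e _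
    (he _ (Finset.mem_union_left _ (Finset.mem_union_left _
      (Finset.mem_image.2 ⟨(t, i, j), Finset.mem_univ _, rfl⟩))))
  have heb : ∀ t i j, HahnSeries.ofPowerSeries ℤ ℂ (shP e (b t i j)) =
      HahnSeries.single (e : ℤ) 1 * b t i j := fun t i j => shP_spec e _
    (he _ (Finset.mem_union_left _ (Finset.mem_union_right _
      (Finset.mem_image.2 ⟨(t, i, j), Finset.mem_univ _, rfl⟩))))
  have hec : ∀ t i j, HahnSeries.ofPowerSeries ℤ ℂ (shP e (c t i j)) =
      HahnSeries.single (e : ℤ) 1 * c t i j := fun t i j => shP_spec e _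
    (he _ (Finset.mem_union_right _
      (Finset.mem_image.2 ⟨(t, i, j), Finset.mem_univ _, rfl⟩)))
  -- the identity for Laurent series
  have hL : ∀ i j j' k k' l, ∀ q : ℤ, q ≤ 0 → (∑ t, a t i j * b t j' k * c t k' l).coeff q =
      if q = 0 then (if j = j' ∧ k = k' ∧ l = i then 1 else 0) else 0 := by
    intro i j j' k k' l q hq
    have h1 := h i j j' k k' l ((q : ℚ) / m) (by
      apply div_nonpos_of_nonpos_of_nonneg
      · exact_mod_cast hq
      · exact_mod_cast Nat.zero_le m)
    have h2 : ((∑ t, α t i j * β t j' k * γ t k' l : Pui ℂ) : HQ ℂ) =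
        eHom m hm (∑ t, a t i j * b t j' k * c t k' l) := by
      rw [map_sum]
      simp only [map_mul, ha, hb, hc]
      exact map_sum (Pui ℂ).subtype _ _
    have h3 : ((∑ t, α t i j * β t j' k * γ t k' l -
      cP (if j = j' ∧ k = k' ∧ l = i then 1 else 0) : Pui ℂ) : HQ ℂ) =
      eHom m hm (∑ t, a t i j * b t j' k * c t k' l) -
        HahnSeries.C (if j = j' ∧ k = k' ∧ l = i then 1 else 0) := by
      rw [← h2]
      rfl
    rw [h3, HahnSeries.coeff_sub, eHom_coeff, coeff_C', sub_eq_zero] at h1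
    rw [h1]
    have hm' : (m : ℚ) ≠ 0 := by exact_mod_cast hm.ne'
    have h4 : ((q : ℚ) / m = 0) ↔ q = 0 := by
      rw [div_eq_zero_iff]
      constructor
      · rintro (h5 | h5)
        · exact_mod_cast h5
        · exact absurd h5 hm'
      · intro h5
        left
        exact_mod_cast h5
    simp only [h4]
  let A : Fin R → Fin n → Fin n → PowerSeries ℂ := fun t i j => shP e (a t i j)
  let B : Fin R → Fin n → Fin n → PowerSeries ℂ := fun t i j => shP e (b t i j)
  let C : Fin R → Fin n → Fin n → PowerSeries ℂ := fun t i j => shP e (c t i j)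
  have hPS : ∀ i j j' k k' l, ∀ N : ℕ, N ≤ 3 * e →
      PowerSeries.coeff N (∑ t, A t i j * B t j' k * C t k' l) =
      if N = 3 * e then (if j = j' ∧ k = k' ∧ l = i then 1 else 0) else 0 := by
    intro i j j' k k' l N hN
    have h1 : HahnSeries.ofPowerSeries ℤ ℂ (∑ t, A t i j * B t j' k * C t k' l) =
        HahnSeries.single ((3 * e : ℕ) : ℤ) 1 * (∑ t, a t i j * b t j' k * c t k' l) := by
      rw [map_sum, Finset.mul_sum]
      refine Finset.sum_congr rfl fun t _ => ?_
      rw [map_mul, map_mul]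
      change HahnSeries.ofPowerSeries ℤ ℂ (shP e (a t i j)) *
        HahnSeries.ofPowerSeries ℤ ℂ (shP e (b t j' k)) *
        HahnSeries.ofPowerSeries ℤ ℂ (shP e (c t k' l)) = _
      rw [hea, heb, hec]
      have h2 : (HahnSeries.single ((3 * e : ℕ) : ℤ) (1 : ℂ)) = HahnSeries.single (e : ℤ) 1 *
          HahnSeries.single (e : ℤ) 1 * HahnSeries.single (e : ℤ) 1 := by
        rw [HahnSeries.single_mul_single, HahnSeries.single_mul_single]
        congr 1
        · push_cast
          ring_nf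
        · simp
      rw [h2]
      ring
    have h2 := congrArg (fun f => HahnSeries.coeff f (N : ℤ)) h1
    beta_reduce at h2
    have h3 := HahnSeries.ofPowerSeries_apply_coeff (Γ := ℤ)
      (∑ t, A t i j * B t j' k * C t k' l) N
    rw [h3, HahnSeries.coeff_single_mul, one_mul, hL _ _ _ _ _ _ _ (by push_cast; omega)] at h2
    rw [h2]
    by_cases h4 : N = 3 * e
    · rw [if_pos h4, if_pos]
      rw [h4, sub_self]
    · rw [if_neg h4, if_neg]
      intro h5
      apply h4
      omega
  refine ⟨3 * e, ?_⟩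
  let K := 3 * e + 1
  have hcong : ∀ i j j' k k' l, ∀ N : ℕ, N < K →
      (∑ t, PowerSeries.trunc K (A t i j) * PowerSeries.trunc K (B t j' k) *
        PowerSeries.trunc K (C t k' l)).coeff N =
      PowerSeries.coeff N (∑ t, A t i j * B t j' k * C t k' l) := by
    intro i j j' k k' l N hN
    rw [Polynomial.finsetSum_coeff, map_sum]
    refine Finset.sum_congr rfl fun t _ => ?_
    have hd : ∀ f : PowerSeries ℂ, (PowerSeries.X : PowerSeries ℂ) ^ K ∣
        f - (PowerSeries.trunc K f : Polynomial ℂ) := by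
      intro f
      rw [PowerSeries.X_pow_dvd_iff]
      intro r hr
      rw [map_sub, Polynomial.coeff_coe, PowerSeries.coeff_trunc, if_pos hr, sub_self]
    have h5 : (PowerSeries.X : PowerSeries ℂ) ^ K ∣ A t i j * B t j' k * C t k' l -
        ((PowerSeries.trunc K (A t i j) * PowerSeries.trunc K (B t j' k) *
        PowerSeries.trunc K (C t k' l) : Polynomial ℂ) : PowerSeries ℂ) := by
      push_cast
      have e1 : A t i j * B t j' k * C t k' l -
          ((PowerSeries.trunc K (A t i j) : Polynomial ℂ) : PowerSeries ℂ) *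
          ((PowerSeries.trunc K (B t j' k) : Polynomial ℂ) : PowerSeries ℂ) *
          ((PowerSeries.trunc K (C t k' l) : Polynomial ℂ) : PowerSeries ℂ) =
          (A t i j - (PowerSeries.trunc K (A t i j) : Polynomial ℂ)) * (B t j' k * C t k' l) +
          (B t j' k - (PowerSeries.trunc K (B t j' k) : Polynomial ℂ)) *
            ((PowerSeries.trunc K (A t i j) : Polynomial ℂ) * C t k' l) +
          (C t k' l - (PowerSeries.trunc K (C t k' l) : Polynomial ℂ)) *
            ((PowerSeries.trunc K (A t i j) : Polynomial ℂ) *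
             (PowerSeries.trunc K (B t j' k) : Polynomial ℂ)) := by ring
      rw [e1]
      exact dvd_add (dvd_add (Dvd.dvd.mul_right (hd _) _) (Dvd.dvd.mul_right (hd _) _))
        (Dvd.dvd.mul_right (hd _) _)
    rw [PowerSeries.X_pow_dvd_iff] at h5
    have h6 := h5 N hN
    rw [map_sub, sub_eq_zero, Polynomial.coeff_coe] at h6
    exact h6.symm
  have hdvd : ∀ i j j' k k' l, (Polynomial.X : Polynomial ℂ) ^ (3 * e) ∣
      ∑ t, PowerSeries.trunc K (A t i j) * PowerSeries.trunc K (B t j' k) *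
        PowerSeries.trunc K (C t k' l) := by
    intro i j j' k k' l
    rw [Polynomial.X_pow_dvd_iff]
    intro N hN
    rw [hcong _ _ _ _ _ _ N (by omega), hPS _ _ _ _ _ _ N hN.le, if_neg hN.ne]
  choose P hP using hdvd
  refine ⟨fun t i j => PowerSeries.trunc K (A t i j), fun t i j => PowerSeries.trunc K (B t i j),
    fun t i j => PowerSeries.trunc K (C t i j), fun i j j' k k' l => P i j j' k k' l, ?_⟩
  intro i j j' k k' l
  refine ⟨hP i j j' k k' l, ?_⟩
  have h1 := hcong i j j' k k' l (3 * e) (by omega)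
  rw [hPS _ _ _ _ _ _ _ le_rfl, if_pos rfl, hP i j j' k k' l] at h1
  have h2 := Polynomial.coeff_X_pow_mul (P i j j' k k' l) (3 * e) 0
  rw [zero_add] at h2
  rw [h2, Polynomial.coeff_zero_eq_eval_zero] at h1
  exact h1

end Pool.Agent.Helper16K9.Ver
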