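import Pool.Agent.Helper16K9.Ver.Engine

set_option autoImplicit false
set_option linter.unusedSectionVars false
set_option linter.unusedVariables false

/-!
# Lower bounds for the product and for the trace of a triple product
-/

namespace Pool.Agent.Helper16K9.Ver

open MvPolynomial Cardinal IsLocalRing Pool.Agent.Helper165.P1 Pool.Agent.H826R3.SM

theorem borderRank_le_of_ad {n r : ℕ} (h : ∃ hh, AD ℂ (Fin n) (Fin r) hh) : borderRank n ≤ r :=
  Nat.sInf_le h

theorem borderRank_zero : borderRank 0 = 0 :=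
  Nat.le_zero.1 (borderRank_le_of_ad ⟨0, fun t => t.elim0, fun t => t.elim0, fun t => t.elim0,
    fun i => i.elim0, fun i => i.elim0⟩)

theorem br_of_pui {n : ℕ} {T : Type} [Fintype T] (α β γ : T → Fin n → Fin n → Pui ℂ)
    (h : ∀ i j j' k k' l, Pos ((∑ t, α t i j * β t j' k * γ t k' l -
      cP (if j = j' ∧ k = k' ∧ l = i then 1 else 0) : Pui ℂ) : HQ ℂ)) :
    borderRank n ≤ Fintype.card T := by
  let e := Fintype.equivFin T
  refine borderRank_le_of_ad (ad_of_pui (fun t => α (e.symm t)) (fun t => β (e.symm t))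
    (fun t => γ (e.symm t)) ?_)
  intro i j j' k k' l
  have h1 := h i j j' k k' l
  rw [← Equiv.sum_comp e.symm] at h1
  exact h1

/-! ### second order -/

section

variable {n : ℕ}

/-- the product -/
noncomputable def prodPol (n : ℕ) :
    Fin n × Fin n → MvPolynomial ((Fin n × Fin n) ⊕ (Fin n × Fin n)) ℤ :=
  fun p => ∑ l, X (Sum.inl (p.1, l)) * X (Sum.inr (l, p.2))

theorem pv_prodPol : pv (R := ℂ) (prodPol n) = productFun n := by
  funext x p
  simp only [pv, prodPol, map_sum, map_mul, aeval_X, productFun, Matrix.mul_apply, mat,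
    Matrix.of_apply]

/-- the second derivatives of the entries of the product -/
theorem second_prod (D : ((Fin n × Fin n) ⊕ (Fin n × Fin n)) → ℂ →+ ℂ)
    (x : ((Fin n × Fin n) ⊕ (Fin n × Fin n)) → ℂ)
    (hD : ∀ r a b, D r (a * b) = a * D r b + b * D r a)
    (hx : ∀ r r', D r (x r') = if r' = r then 1 else 0) (i j j' k : Fin n) (a : Fin n × Fin n) :
    D (Sum.inl (i, j)) (D (Sum.inr (j', k)) (pv (prodPol n) x a)) =
      if j = j' ∧ a.2 = k ∧ a.1 = i then 1 else 0 := by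
  have h0 : pv (prodPol n) x a = ∑ l, x (Sum.inl (a.1, l)) * x (Sum.inr (l, a.2)) := by
    simp only [pv, prodPol, map_sum, map_mul, aeval_X]
  have h1 : D (Sum.inr (j', k)) (pv (prodPol n) x a) =
      if a.2 = k then x (Sum.inl (a.1, j')) else 0 := by
    rw [h0, map_sum]
    have h2 : ∀ l, D (Sum.inr (j', k)) (x (Sum.inl (a.1, l)) * x (Sum.inr (l, a.2))) =
        if l = j' ∧ a.2 = k then x (Sum.inl (a.1, l)) else 0 := by
      intro l
      rw [hD, hx, hx, if_neg (by simp : ¬ (Sum.inl (a.1, l) : (Fin n × Fin n) ⊕ (Fin n × Fin n)) =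
        Sum.inr (j', k)), mul_zero, add_zero]
      by_cases h3 : l = j' ∧ a.2 = k
      · rw [if_pos h3, if_pos, mul_one]
        rw [h3.1, h3.2]
      · rw [if_neg h3, if_neg, mul_zero]
        intro h4
        have h5 := Sum.inr_injective h4
        exact h3 ⟨congrArg Prod.fst h5, congrArg Prod.snd h5⟩
    simp only [h2]
    by_cases h3 : a.2 = k
    · simp [h3]
    · simp [h3]
  rw [h1]
  by_cases h3 : a.2 = k
  · rw [if_pos h3, hx]
    by_cases h4 : j = j' ∧ a.1 = i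
    · rw [if_pos (by rw [h4.1, h4.2]), if_pos ⟨h4.1, h3, h4.2⟩]
    · rw [if_neg, if_neg]
      · intro h5
        exact h4 ⟨h5.1, h5.2.2⟩
      · intro h5
        have h6 := Sum.inl_injective h5
        exact h4 ⟨(congrArg Prod.snd h6).symm, congrArg Prod.fst h6⟩
  · rw [if_neg h3, map_zero, if_neg]
    intro h5
    exact h3 h5.2.1

/-- **Lower bound for the verification of a product.** -/
theorem product_bound (t : Tree (((Fin n × Fin n) ⊕ (Fin n × Fin n)) ⊕ (Fin n × Fin n))) (L : ℕ)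
    (h : Verifies (productFun n) t L) : borderRank n ≤ 2 * L := by
  classical
  rcases Nat.eq_zero_or_pos n with hn | hn
  · subst hn
    rw [borderRank_zero]
    exact Nat.zero_le _
  have hne : Nonempty (Fin n × Fin n) := ⟨(⟨0, hn⟩, ⟨0, hn⟩)⟩
  rw [← pv_prodPol] at h
  obtain ⟨x, D, ls, hD, hx, _, hlen, h2, _⟩ := engine (prodPol n) t L h
  choose c hc using h2
  have h3 := br_of_pui (n := n) (T := Fin 2 × Fin ls.length)
    (fun t i j => ![(ls.get t.2).1 (Sum.inl (i, j)), (ls.get t.2).2 (Sum.inl (i, j))] t.1)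
    (fun t i j => ![(ls.get t.2).2 (Sum.inr (i, j)), (ls.get t.2).1 (Sum.inr (i, j))] t.1)
    (fun t i j => c (j, i) t.2) (by
      intro i j j' k' k'' l
      have h4 := hc (l, k'') (Sum.inl (i, j)) (Sum.inr (j', k'))
      rw [second_prod D x hD hx] at h4
      have h5 : (if j = j' ∧ ((l, k'') : Fin n × Fin n).2 = k' ∧ ((l, k'') : Fin n × Fin n).1 = i
          then (1 : ℂ) else 0) = if j = j' ∧ k' = k'' ∧ l = i then 1 else 0 := by
        refine if_congr ?_ rfl rfl
        constructor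
        · rintro ⟨h5, h6, h7⟩
          exact ⟨h5, h6.symm, h7⟩
        · rintro ⟨h5, h6, h7⟩
          exact ⟨h5, h6.symm, h7⟩
      rw [h5] at h4
      convert h4 using 3
      rw [Fintype.sum_prod_type, Fin.sum_univ_two, ← Finset.sum_add_distrib]
      refine Finset.sum_congr rfl fun s _ => ?_
      simp only [Matrix.cons_val_zero, Matrix.cons_val_one, sy]
      ring)
  rw [Fintype.card_prod, Fintype.card_fin, Fintype.card_fin] at h3
  omega

end

/-! ### third order -/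

section

variable {n : ℕ} {J : Type}

/-- The six terms. -/
theorem br_of_third {J : Type} {N : ℕ} (a b c : Fin n × Fin n → J)
    (P : Fin N → (J → Pui ℂ) × (J → Pui ℂ)) (m : Fin N → J → Pui ℂ)
    (h : ∀ i j j' k k' l, Pos ((∑ s, S3 (m s) (sy (P s)) (a (i, j)) (b (j', k)) (c (k', l)) -
      cP (if j = j' ∧ k = k' ∧ l = i then 1 else 0) : Pui ℂ) : HQ ℂ)) :
    borderRank n ≤ 6 * N := by
  have h3 := br_of_pui (n := n) (T := Fin 6 × Fin N)
    (fun t i j => ![m t.2, m t.2, (P t.2).1, (P t.2).2, (P t.2).1,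
      (P t.2).2] t.1 (a (i, j)))
    (fun t i j => ![(P t.2).1, (P t.2).2, m t.2, m t.2, (P t.2).2,
      (P t.2).1] t.1 (b (i, j)))
    (fun t i j => ![(P t.2).2, (P t.2).1, (P t.2).2, (P t.2).1, m t.2,
      m t.2] t.1 (c (i, j))) (by
      intro i j j' k k' l
      have h4 := h i j j' k k' l
      convert h4 using 3
      rw [Fintype.sum_prod_type, Fin.sum_univ_six, ← Finset.sum_add_distrib,
        ← Finset.sum_add_distrib, ← Finset.sum_add_distrib, ← Finset.sum_add_distrib,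
        ← Finset.sum_add_distrib]
      refine Finset.sum_congr rfl fun s _ => ?_
      simp [S3, sy]
      ring)
  rw [Fintype.card_prod, Fintype.card_fin, Fintype.card_fin] at h3
  exact h3

theorem pos_cP_mul (c : ℂ) {f : Pui ℂ} (h : Pos (f : HQ ℂ)) : Pos ((cP c * f : Pui ℂ) : HQ ℂ) := by
  intro q hq
  have h1 : ((cP c * f : Pui ℂ) : HQ ℂ) = HahnSeries.C c * (f : HQ ℂ) := rfl
  rw [h1, HahnSeries.C_mul_eq_smul, HahnSeries.coeff_smul, h q hq, smul_zero]

theorem pos_sum {ι : Type} (s : Finset ι) (f : ι → Pui ℂ) (h : ∀ i ∈ s, Pos (f i : HQ ℂ)) :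
    Pos ((∑ i ∈ s, f i : Pui ℂ) : HQ ℂ) := by
  classical
  induction s using Finset.induction_on with
  | empty =>
    intro q _
    rw [Finset.sum_empty]
    rfl
  | insert a s ha ih =>
    rw [Finset.sum_insert ha]
    exact (h a (Finset.mem_insert_self a s)).add (ih fun i hi => h i (Finset.mem_insert_of_mem hi))

theorem triple_sum {J : Type} [Fintype J] (f0 f1 f2 : J → ℂ) (u v w : J → Pui ℂ) :
    (∑ p, cP (f0 p) * u p) * (∑ q, cP (f1 q) * v q) * (∑ r, cP (f2 r) * w r) =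
      ∑ p, ∑ q, ∑ r, cP (f0 p) * (cP (f1 q) * (cP (f2 r) * (u p * v q * w r))) := by
  rw [Finset.sum_mul_sum, Finset.sum_mul]
  refine Finset.sum_congr rfl fun p _ => ?_
  rw [Finset.sum_mul_sum]
  refine Finset.sum_congr rfl fun q _ => Finset.sum_congr rfl fun r _ => ?_
  ring

/-- linear combinations of the directions -/
theorem S3_comb {J : Type} [Fintype J] (f0 f1 f2 : J → ℂ) (m a b : J → Pui ℂ) :
    (∑ p, cP (f0 p) * m p) * ((∑ q, cP (f1 q) * a q) * (∑ r, cP (f2 r) * b r) +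
      (∑ r, cP (f2 r) * a r) * (∑ q, cP (f1 q) * b q)) +
    (∑ q, cP (f1 q) * m q) * ((∑ p, cP (f0 p) * a p) * (∑ r, cP (f2 r) * b r) +
      (∑ r, cP (f2 r) * a r) * (∑ p, cP (f0 p) * b p)) +
    (∑ r, cP (f2 r) * m r) * ((∑ p, cP (f0 p) * a p) * (∑ q, cP (f1 q) * b q) +
      (∑ q, cP (f1 q) * a q) * (∑ p, cP (f0 p) * b p)) =
    ∑ p, ∑ q, ∑ r, cP (f0 p) * (cP (f1 q) * (cP (f2 r) * S3 m (sy (a, b)) p q r)) := by
  have e : ∀ p q r : J, cP (f0 p) * (cP (f1 q) * (cP (f2 r) * S3 m (sy (a, b)) p q r)) =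
      cP (f0 p) * (cP (f1 q) * (cP (f2 r) * (m p * a q * b r))) +
      cP (f0 p) * (cP (f1 q) * (cP (f2 r) * (m p * b q * a r))) +
      cP (f0 p) * (cP (f1 q) * (cP (f2 r) * (a p * m q * b r))) +
      cP (f0 p) * (cP (f1 q) * (cP (f2 r) * (b p * m q * a r))) +
      cP (f0 p) * (cP (f1 q) * (cP (f2 r) * (a p * b q * m r))) +
      cP (f0 p) * (cP (f1 q) * (cP (f2 r) * (b p * a q * m r))) := by
    intro p q r
    simp only [S3, sy]
    ring
  simp only [e, Finset.sum_add_distrib]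
  simp only [← triple_sum]
  ring

/-- The six terms, with linear combinations of the directions. -/
theorem br_of_third_comb {J : Type} [Fintype J] {N : ℕ} (h : Fin 3 → Fin n × Fin n → J → ℂ)
    {δ : ℂ} (hδ : δ ≠ 0) (P : Fin N → (J → Pui ℂ) × (J → Pui ℂ)) (m : Fin N → J → Pui ℂ)
    (T : J → J → J → ℂ)
    (hT : ∀ i j j' k k' l, ∑ p, ∑ q, ∑ r, h 0 (i, j) p * (h 1 (j', k) q * (h 2 (k', l) r *
      T p q r)) = δ * (if j = j' ∧ k = k' ∧ l = i then 1 else 0))
    (hpos : ∀ p q r, Pos ((∑ s, S3 (m s) (sy (P s)) p q r - cP (T p q r) : Pui ℂ) : HQ ℂ)) :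
    borderRank n ≤ 6 * N := by
  refine br_of_third (J := Fin 3 × (Fin n × Fin n)) (fun p => (0, p)) (fun p => (1, p))
    (fun p => (2, p))
    (fun s => (fun τ => ∑ x, cP (h τ.1 τ.2 x) * (P s).1 x, fun τ => ∑ x, cP (h τ.1 τ.2 x) *
      (P s).2 x))
    (fun s τ => cP δ⁻¹ * ∑ x, cP (h τ.1 τ.2 x) * m s x) ?_
  intro i j j' k k' l
  have h1 : ∀ s, S3 (fun τ : Fin 3 × (Fin n × Fin n) => cP δ⁻¹ * ∑ x, cP (h τ.1 τ.2 x) * m s x)
      (sy (fun τ : Fin 3 × (Fin n × Fin n) => ∑ x, cP (h τ.1 τ.2 x) * (P s).1 x,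
        fun τ => ∑ x, cP (h τ.1 τ.2 x) * (P s).2 x)) (0, (i, j)) (1, (j', k)) (2, (k', l)) =
      cP δ⁻¹ * ∑ p, ∑ q, ∑ r, cP (h 0 (i, j) p) * (cP (h 1 (j', k) q) * (cP (h 2 (k', l) r) *
        S3 (m s) (sy (P s)) p q r)) := by
    intro s
    rw [← S3_comb]
    simp only [S3, sy]
    ring
  have h2 : (∑ s, S3 (fun τ : Fin 3 × (Fin n × Fin n) => cP δ⁻¹ * ∑ x, cP (h τ.1 τ.2 x) * m s x)
      (sy (fun τ : Fin 3 × (Fin n × Fin n) => ∑ x, cP (h τ.1 τ.2 x) * (P s).1 x,
        fun τ => ∑ x, cP (h τ.1 τ.2 x) * (P s).2 x)) (0, (i, j)) (1, (j', k)) (2, (k', l)) -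
      cP (if j = j' ∧ k = k' ∧ l = i then 1 else 0)) =
      cP δ⁻¹ * ∑ p, ∑ q, ∑ r, cP (h 0 (i, j) p) * (cP (h 1 (j', k) q) * (cP (h 2 (k', l) r) *
        (∑ s, S3 (m s) (sy (P s)) p q r - cP (T p q r)))) := by
    simp only [h1]
    rw [← Finset.mul_sum]
    have h3 : (if j = j' ∧ k = k' ∧ l = i then (1 : ℂ) else 0) = δ⁻¹ * (∑ p, ∑ q, ∑ r,
        h 0 (i, j) p * (h 1 (j', k) q * (h 2 (k', l) r * T p q r))) := by
      rw [hT, ← mul_assoc, inv_mul_cancel₀ hδ, one_mul]
    rw [h3, map_mul, ← mul_sub]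
    congr 1
    simp only [map_sum, map_mul, mul_sub, Finset.sum_sub_distrib]
    congr 1
    rw [Finset.sum_comm]
    refine Finset.sum_congr rfl fun p _ => ?_
    rw [Finset.sum_comm]
    refine Finset.sum_congr rfl fun q _ => ?_
    rw [Finset.sum_comm]
    refine Finset.sum_congr rfl fun r _ => ?_
    simp only [Finset.mul_sum]
  rw [h2]
  refine pos_cP_mul _ (pos_sum _ _ fun p _ => pos_sum _ _ fun q _ => pos_sum _ _ fun r _ => ?_)
  exact pos_cP_mul _ (pos_cP_mul _ (pos_cP_mul _ (hpos p q r)))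

/-- the trace of the triple product -/
noncomputable def tracePol (n : ℕ) :
    Unit → MvPolynomial (((Fin n × Fin n) ⊕ (Fin n × Fin n)) ⊕ (Fin n × Fin n)) ℤ :=
  fun _ => ∑ i, ∑ k, (∑ j, X (Sum.inl (Sum.inl (i, j))) * X (Sum.inl (Sum.inr (j, k)))) *
    X (Sum.inr (k, i))

theorem pv_tracePol : pv (R := ℂ) (tracePol n) = traceFun n := by
  funext x p
  simp only [pv, tracePol, map_sum, map_mul, aeval_X, traceFun, Matrix.mul_apply, mat,
    Matrix.of_apply, Matrix.trace, Matrix.diag_apply]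

/-- the third derivatives of the trace -/
theorem third_trace (D : (((Fin n × Fin n) ⊕ (Fin n × Fin n)) ⊕ (Fin n × Fin n)) → ℂ →+ ℂ)
    (x : (((Fin n × Fin n) ⊕ (Fin n × Fin n)) ⊕ (Fin n × Fin n)) → ℂ)
    (hD : ∀ r a b, D r (a * b) = a * D r b + b * D r a)
    (hx : ∀ r r', D r (x r') = if r' = r then 1 else 0) (i j j' k k' l : Fin n) (u : Unit) :
    D (Sum.inl (Sum.inl (i, j))) (D (Sum.inl (Sum.inr (j', k)))
      (D (Sum.inr (k', l)) (pv (tracePol n) x u))) =
      if j = j' ∧ k = k' ∧ l = i then 1 else 0 := by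
  have h0 : pv (tracePol n) x u = ∑ i, ∑ k, (∑ j, x (Sum.inl (Sum.inl (i, j))) *
      x (Sum.inl (Sum.inr (j, k)))) * x (Sum.inr (k, i)) := by
    simp only [pv, tracePol, map_sum, map_mul, aeval_X]
  have hC : ∀ (q : Fin n × Fin n) (y : (Fin n × Fin n) ⊕ (Fin n × Fin n)),
      D (Sum.inr q) (x (Sum.inl y)) = 0 := by
    intro q y
    rw [hx, if_neg (by simp)]
  have h1 : D (Sum.inr (k', l)) (pv (tracePol n) x u) =
      ∑ j, x (Sum.inl (Sum.inl (l, j))) * x (Sum.inl (Sum.inr (j, k'))) := by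
    rw [h0, map_sum]
    have h2 : ∀ i₀ k₀ : Fin n, D (Sum.inr (k', l)) ((∑ j, x (Sum.inl (Sum.inl (i₀, j))) *
        x (Sum.inl (Sum.inr (j, k₀)))) * x (Sum.inr (k₀, i₀))) =
        if k₀ = k' ∧ i₀ = l then (∑ j, x (Sum.inl (Sum.inl (i₀, j))) *
          x (Sum.inl (Sum.inr (j, k₀)))) else 0 := by
      intro i₀ k₀
      have h3 : D (Sum.inr (k', l)) (∑ j, x (Sum.inl (Sum.inl (i₀, j))) *
          x (Sum.inl (Sum.inr (j, k₀)))) = 0 := by
        rw [map_sum]
        refine Finset.sum_eq_zero fun j _ => ?_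
        rw [hD, hC, hC, mul_zero, mul_zero, add_zero]
      rw [hD, h3, mul_zero, add_zero, hx]
      by_cases h4 : k₀ = k' ∧ i₀ = l
      · rw [if_pos h4, if_pos (by rw [h4.1, h4.2]), mul_one]
      · rw [if_neg h4, if_neg, mul_zero]
        intro h5
        have h6 := Sum.inr_injective h5
        exact h4 ⟨congrArg Prod.fst h6, congrArg Prod.snd h6⟩
    simp only [map_sum, h2]
    rw [Finset.sum_eq_single l]
    · rw [Finset.sum_eq_single k']
      · rw [if_pos ⟨rfl, rfl⟩]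
      · intro k₀ _ hk
        rw [if_neg (fun h5 => hk h5.1)]
      · intro h5
        exact absurd (Finset.mem_univ _) h5
    · intro i₀ _ hi
      refine Finset.sum_eq_zero fun k₀ _ => ?_
      rw [if_neg (fun h5 => hi h5.2)]
    · intro h5
      exact absurd (Finset.mem_univ _) h5
  have h2 : D (Sum.inl (Sum.inr (j', k))) (∑ j, x (Sum.inl (Sum.inl (l, j))) *
      x (Sum.inl (Sum.inr (j, k')))) = if k' = k then x (Sum.inl (Sum.inl (l, j'))) else 0 := by
    rw [map_sum]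
    have h3 : ∀ j₀ : Fin n, D (Sum.inl (Sum.inr (j', k))) (x (Sum.inl (Sum.inl (l, j₀))) *
        x (Sum.inl (Sum.inr (j₀, k')))) =
        if j₀ = j' ∧ k' = k then x (Sum.inl (Sum.inl (l, j₀))) else 0 := by
      intro j₀
      rw [hD, hx, hx, if_neg (by simp : ¬ (Sum.inl (Sum.inl (l, j₀)) :
        ((Fin n × Fin n) ⊕ (Fin n × Fin n)) ⊕ (Fin n × Fin n)) = Sum.inl (Sum.inr (j', k))),
        mul_zero, add_zero]
      by_cases h4 : j₀ = j' ∧ k' = k
      · rw [if_pos h4, if_pos (by rw [h4.1, h4.2]), mul_one]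
      · rw [if_neg h4, if_neg, mul_zero]
        intro h5
        have h6 := Sum.inr_injective (Sum.inl_injective h5)
        exact h4 ⟨congrArg Prod.fst h6, congrArg Prod.snd h6⟩
    simp only [h3]
    by_cases h4 : k' = k
    · simp [h4]
    · simp [h4]
  rw [h1, h2]
  by_cases h4 : k' = k
  · rw [if_pos h4, hx]
    by_cases h5 : j = j' ∧ l = i
    · rw [if_pos (by rw [h5.1, h5.2]), if_pos ⟨h5.1, h4.symm, h5.2⟩]
    · rw [if_neg, if_neg]
      · intro h6
        exact h5 ⟨h6.1, h6.2.2⟩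
      · intro h6
        have h7 := Sum.inl_injective (Sum.inl_injective h6)
        exact h5 ⟨(congrArg Prod.snd h7).symm, congrArg Prod.fst h7⟩
  · rw [if_neg h4, map_zero, if_neg]
    intro h6
    exact h4 h6.2.1.symm

/-- **Lower bound for the verification of the trace of a triple product.** -/
theorem trace_bound
    (t : Tree ((((Fin n × Fin n) ⊕ (Fin n × Fin n)) ⊕ (Fin n × Fin n)) ⊕ Unit)) (L : ℕ)
    (h : Verifies (traceFun n) t L) : borderRank n ≤ 6 * L := by
  classical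
  rw [← pv_tracePol] at h
  obtain ⟨x, D, ls, hD, hx, _, hlen, _, h3⟩ := engine (tracePol n) t L h
  obtain ⟨m, hm⟩ := h3 ()
  have h4 := br_of_third (n := n) (fun p => Sum.inl (Sum.inl p)) (fun p => Sum.inl (Sum.inr p))
    (fun p => Sum.inr p) ls.get m (by
      intro i j j' k k' l
      have h5 := hm (Sum.inl (Sum.inl (i, j))) (Sum.inl (Sum.inr (j', k))) (Sum.inr (k', l))
      rw [third_trace D x hD hx] at h5
      exact h5)
  omega

end

end Pool.Agent.Helper16K9.Ver
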