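import Mathlib

set_option autoImplicit false
set_option linter.unusedSectionVars false
set_option linter.unusedVariables false

/-!
# The third derivatives of the determinant
-/

namespace Pool.Agent.Helper16K9.Ver

open Finset Matrix

theorem deriv_one (D : ℂ →+ ℂ) (hD : ∀ a b, D (a * b) = a * D b + b * D a) : D 1 = 0 := by
  have h := hD 1 1
  rw [one_mul, one_mul] at h
  linear_combination -h

theorem deriv_prod {ι : Type} [DecidableEq ι] (D : ℂ →+ ℂ)
    (hD : ∀ a b, D (a * b) = a * D b + b * D a) (f : ι → ℂ) (s : Finset ι) :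
    D (∏ i ∈ s, f i) = ∑ c ∈ s, (∏ i ∈ s.erase c, f i) * D (f c) := by
  induction s using Finset.induction_on with
  | empty => simp [deriv_one D hD]
  | insert a s ha ih =>
    rw [prod_insert ha, hD, ih, sum_insert ha, erase_insert ha, mul_sum, add_comm]
    congr 1
    refine sum_congr rfl fun c hc => ?_
    have hac : a ≠ c := by
      rintro rfl
      exact ha hc
    rw [erase_insert_of_ne hac, prod_insert (fun h => ha (mem_of_mem_erase h))]
    ring

theorem deriv_det {n : ℕ} (D : ℂ →+ ℂ) (hD : ∀ a b, D (a * b) = a * D b + b * D a)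
    (M : Matrix (Fin n) (Fin n) ℂ) :
    D M.det = ∑ c, (M.updateCol c (fun u => D (M u c))).det := by
  simp only [Matrix.det_apply']
  rw [map_sum, sum_comm]
  refine sum_congr rfl fun σ _ => ?_
  have hs : D ((Equiv.Perm.sign σ : ℤ) : ℂ) = 0 := by
    rcases Int.units_eq_one_or (Equiv.Perm.sign σ) with h | h
    · rw [h]
      simp [deriv_one D hD]
    · rw [h]
      simp [deriv_one D hD]
  rw [hD, hs, mul_zero, add_zero, deriv_prod D hD, mul_sum]
  refine sum_congr rfl fun c _ => ?_
  congr 1
  rw [← Finset.prod_erase_mul _ _ (mem_univ c)]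
  congr 1
  · refine prod_congr rfl fun i hi => ?_
    rw [Matrix.updateCol_ne (ne_of_mem_erase hi)]
  · rw [Matrix.updateCol_self]

/-- derivative with respect to one entry -/
theorem deriv_det_entry {n : ℕ} (D : ℂ →+ ℂ) (hD : ∀ a b, D (a * b) = a * D b + b * D a)
    (M : Matrix (Fin n) (Fin n) ℂ) (u c : Fin n)
    (h1 : ∀ a, D (M a c) = if a = u then 1 else 0) (h2 : ∀ a b, b ≠ c → D (M a b) = 0) :
    D M.det = (M.updateCol c (Pi.single u 1)).det := by
  rw [deriv_det D hD, Finset.sum_eq_single c]
  · congr 2
    funext a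
    rw [h1, Pi.single_apply]
  · intro b _ hb
    refine Matrix.det_eq_zero_of_column_eq_zero b fun a => ?_
    rw [Matrix.updateCol_self]
    exact h2 a b hb
  · intro h
    exact absurd (mem_univ c) h

theorem sum_updateCol {n : ℕ} (M : Matrix (Fin n) (Fin n) ℂ) (c : Fin n) (v : Fin n → ℂ) :
    ∑ u, v u * (M.updateCol c (Pi.single u 1)).det = (M.updateCol c v).det := by
  have h : ∀ w : Fin n → ℂ, (M.updateCol c w).det = Matrix.cramer M w c := by
    intro w
    rw [Matrix.cramer_apply]
  simp only [h]
  have h2 : v = ∑ u, v u • (Pi.single u 1 : Fin n → ℂ) := by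
    funext a
    rw [Finset.sum_apply]
    simp [Pi.single_apply]
  conv_rhs => rw [h2]
  rw [map_sum, Finset.sum_apply]
  refine sum_congr rfl fun u _ => ?_
  rw [map_smul]
  rfl

theorem third_det {n m : ℕ} (g : Fin 3 × Fin m → Fin n) (hg : Function.Injective g)
    (D : (Fin n × Fin n) → ℂ →+ ℂ) (x : Fin n × Fin n → ℂ)
    (hD : ∀ r a b, D r (a * b) = a * D r b + b * D r a)
    (hx : ∀ r r', D r (x r') = if r' = r then 1 else 0) (i j j' k k' l : Fin m) :
    ∑ u, ∑ u', ∑ u'', x (u, g (0, i)) * (x (u', g (1, j')) * (x (u'', g (2, k')) *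
      D (u, g (1, j)) (D (u', g (2, k)) (D (u'', g (0, l))
        (Matrix.of fun a b => x (a, b)).det)))) =
      (Matrix.of fun a b => x (a, b)).det * (if j = j' ∧ k = k' ∧ l = i then 1 else 0) := by
  set M : Matrix (Fin n) (Fin n) ℂ := Matrix.of fun a b => x (a, b) with hM
  have h12 : g (1, j) ≠ g (2, k) := fun h => by simpa using hg h
  have h13 : g (1, j) ≠ g (0, l) := fun h => by simpa using hg h
  have h23 : g (2, k) ≠ g (0, l) := fun h => by simpa using hg h
  have hMx : ∀ u c a b, D (u, c) (M a b) = if a = u ∧ b = c then 1 else 0 := by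
    intro u c a b
    rw [hM, Matrix.of_apply, hx]
    exact if_congr Prod.mk_inj rfl rfl
  have hs : ∀ r (u a : Fin n), D r ((Pi.single u 1 : Fin n → ℂ) a) = 0 := by
    intro r u a
    by_cases h : a = u
    · rw [h, Pi.single_eq_same]
      exact deriv_one (D r) (hD r)
    · rw [Pi.single_eq_of_ne h, map_zero]
  have e3 : ∀ u'', D (u'', g (0, l)) M.det = (M.updateCol (g (0, l)) (Pi.single u'' 1)).det := by
    intro u''
    refine deriv_det_entry _ (hD _) _ _ _ (fun a => ?_) (fun a b hb => ?_)
    · rw [hMx]
      simp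
    · rw [hMx, if_neg (fun h => hb h.2)]
  have e2 : ∀ u' u'', D (u', g (2, k)) (M.updateCol (g (0, l)) (Pi.single u'' 1)).det =
      ((M.updateCol (g (0, l)) (Pi.single u'' 1)).updateCol (g (2, k)) (Pi.single u' 1)).det := by
    intro u' u''
    refine deriv_det_entry _ (hD _) _ _ _ (fun a => ?_) (fun a b hb => ?_)
    · rw [Matrix.updateCol_ne h23, hMx]
      simp
    · by_cases hb' : b = g (0, l)
      · rw [hb', Matrix.updateCol_self, hs]
      · rw [Matrix.updateCol_ne hb', hMx, if_neg (fun h => hb h.2)]
  have e1 : ∀ u u' u'', D (u, g (1, j)) ((M.updateCol (g (0, l)) (Pi.single u'' 1)).updateCol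
      (g (2, k)) (Pi.single u' 1)).det = (((M.updateCol (g (0, l)) (Pi.single u'' 1)).updateCol
      (g (2, k)) (Pi.single u' 1)).updateCol (g (1, j)) (Pi.single u 1)).det := by
    intro u u' u''
    refine deriv_det_entry _ (hD _) _ _ _ (fun a => ?_) (fun a b hb => ?_)
    · rw [Matrix.updateCol_ne h12, Matrix.updateCol_ne h13, hMx]
      simp
    · by_cases hb' : b = g (2, k)
      · rw [hb', Matrix.updateCol_self, hs]
      · rw [Matrix.updateCol_ne hb']
        by_cases hb'' : b = g (0, l)
        · rw [hb'', Matrix.updateCol_self, hs]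
        · rw [Matrix.updateCol_ne hb'', hMx, if_neg (fun h => hb h.2)]
  simp only [e3, e2, e1]
  have s1 : ∀ v3 v2 v1 : Fin n → ℂ, ((((M.updateCol (g (0, l)) v3).updateCol (g (2, k)) v2).updateCol
      (g (1, j)) v1)) = (((M.updateCol (g (1, j)) v1).updateCol (g (2, k)) v2).updateCol
      (g (0, l)) v3) := by
    intro v3 v2 v1
    ext a b
    simp only [Matrix.updateCol_apply]
    by_cases hb : b = g (1, j)
    · subst hb
      simp [h12, h13]
    · by_cases hb' : b = g (2, k)
      · subst hb'
        simp [h12.symm, h23]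
      · simp [hb, hb']
  have s2 : ∀ v3 v2 v1 : Fin n → ℂ, ((((M.updateCol (g (0, l)) v3).updateCol (g (2, k)) v2).updateCol
      (g (1, j)) v1)) = (((M.updateCol (g (0, l)) v3).updateCol (g (1, j)) v1).updateCol
      (g (2, k)) v2) := by
    intro v3 v2 v1
    ext a b
    simp only [Matrix.updateCol_apply]
    by_cases hb : b = g (1, j)
    · subst hb
      simp [h12]
    · simp [hb]
  have t3 : ∀ u u', ∑ u'', x (u, g (0, i)) * (x (u', g (1, j')) * (x (u'', g (2, k')) *
      (((M.updateCol (g (0, l)) (Pi.single u'' 1)).updateCol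
      (g (2, k)) (Pi.single u' 1)).updateCol (g (1, j)) (Pi.single u 1)).det)) =
      x (u, g (0, i)) * (x (u', g (1, j')) *
      (((M.updateCol (g (0, l)) (fun a => x (a, g (2, k')))).updateCol
      (g (2, k)) (Pi.single u' 1)).updateCol (g (1, j)) (Pi.single u 1)).det) := by
    intro u u'
    rw [← mul_sum, ← mul_sum, s1, ← sum_updateCol _ _ (fun a => x (a, g (2, k')))]
    congr 2
    refine sum_congr rfl fun u'' _ => ?_
    rw [s1]
  simp only [t3]
  have t2 : ∀ u, ∑ u', x (u, g (0, i)) * (x (u', g (1, j')) *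
      (((M.updateCol (g (0, l)) (fun a => x (a, g (2, k')))).updateCol
      (g (2, k)) (Pi.single u' 1)).updateCol (g (1, j)) (Pi.single u 1)).det) =
      x (u, g (0, i)) *
      (((M.updateCol (g (0, l)) (fun a => x (a, g (2, k')))).updateCol
      (g (2, k)) (fun a => x (a, g (1, j')))).updateCol (g (1, j)) (Pi.single u 1)).det := by
    intro u
    rw [← mul_sum, s2, ← sum_updateCol _ _ (fun a => x (a, g (1, j')))]
    congr 1
    refine sum_congr rfl fun u'' _ => ?_
    rw [s2]
  simp only [t2]
  rw [sum_updateCol _ _ (fun a => x (a, g (0, i)))]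
  -- the matrix with three columns replaced
  set h : Fin n → Fin n := Function.update (Function.update (Function.update id (g (0, l))
    (g (2, k'))) (g (2, k)) (g (1, j'))) (g (1, j)) (g (0, i)) with hh
  have hM' : (((M.updateCol (g (0, l)) (fun a => x (a, g (2, k')))).updateCol
      (g (2, k)) (fun a => x (a, g (1, j')))).updateCol (g (1, j)) (fun a => x (a, g (0, i)))) =
      M.submatrix id h := by
    ext a b
    simp only [Matrix.updateCol_apply, Matrix.submatrix_apply, id, hh, Function.update_apply]
    by_cases hb : b = g (1, j)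
    · simp [hb, hM]
    · by_cases hb' : b = g (2, k)
      · simp [hb', hM, h12.symm]
      · by_cases hb'' : b = g (0, l)
        · simp [hb'', hM, h13.symm, h23.symm]
        · simp [hb, hb', hb'', hM]
  rw [hM']
  have h1 : h (g (1, j)) = g (0, i) := by rw [hh, Function.update_self]
  have h2 : h (g (2, k)) = g (1, j') := by
    rw [hh, Function.update_of_ne h12.symm, Function.update_self]
  have h3 : h (g (0, l)) = g (2, k') := by
    rw [hh, Function.update_of_ne h13.symm, Function.update_of_ne h23.symm, Function.update_self]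
  have h0 : ∀ b, b ≠ g (1, j) → b ≠ g (2, k) → b ≠ g (0, l) → h b = b := by
    intro b hb hb' hb''
    rw [hh, Function.update_of_ne hb, Function.update_of_ne hb', Function.update_of_ne hb'', id]
  have hz : ∀ b b', b ≠ b' → h b = h b' → (M.submatrix id h).det = 0 := by
    intro b b' hne he
    refine Matrix.det_zero_of_column_eq hne fun a => ?_
    rw [Matrix.submatrix_apply, Matrix.submatrix_apply, he]
  by_cases c1 : l = i
  · by_cases c2 : j = j'
    · by_cases c3 : k = k'
      · rw [if_pos ⟨c2, c3, c1⟩, mul_one]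
        subst c1 c2 c3
        have hσ : h = (Equiv.swap (g (0, l)) (g (2, k)) * Equiv.swap (g (2, k)) (g (1, j)) :
            Equiv.Perm (Fin n)) := by
          funext b
          rw [Equiv.Perm.mul_apply]
          by_cases hb : b = g (1, j)
          · rw [hb, h1, Equiv.swap_apply_right, Equiv.swap_apply_right]
          · by_cases hb' : b = g (2, k)
            · rw [hb', h2, Equiv.swap_apply_left, Equiv.swap_apply_of_ne_of_ne h13 h12]
            · rw [Equiv.swap_apply_of_ne_of_ne hb' hb]
              by_cases hb'' : b = g (0, l)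
              · rw [hb'', h3, Equiv.swap_apply_left]
              · rw [h0 b hb hb' hb'', Equiv.swap_apply_of_ne_of_ne hb'' hb']
        rw [hσ, Matrix.det_permute', Equiv.Perm.sign_mul, Equiv.Perm.sign_swap h23.symm,
          Equiv.Perm.sign_swap h12.symm]
        simp
      · rw [if_neg (fun h => c3 h.2.1), mul_zero]
        -- `g (2, k')` is not replaced
        have hne : g (2, k') ≠ g (2, k) := fun h => c3 (by simpa using (hg h).symm)
        have hne1 : g (2, k') ≠ g (1, j) := fun h => by simpa using hg h
        have hne0 : g (2, k') ≠ g (0, l) := fun h => by simpa using hg h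
        exact hz _ _ hne0 (by rw [h0 _ hne1 hne hne0, h3])
    · rw [if_neg (fun h => c2 h.1), mul_zero]
      have hne : g (1, j') ≠ g (1, j) := fun h => c2 (by simpa using (hg h).symm)
      have hne1 : g (1, j') ≠ g (2, k) := fun h => by simpa using hg h
      have hne0 : g (1, j') ≠ g (0, l) := fun h => by simpa using hg h
      exact hz _ _ hne1 (by rw [h0 _ hne hne1 hne0, h2])
  · rw [if_neg (fun h => c1 h.2.2), mul_zero]
    have hne : g (0, i) ≠ g (0, l) := fun h => c1 (by simpa using (hg h).symm)
    have hne1 : g (0, i) ≠ g (2, k) := fun h => by simpa using hg h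
    have hne0 : g (0, i) ≠ g (1, j) := fun h => by simpa using hg h
    exact hz _ _ hne0 (by rw [h0 _ hne0 hne1 hne, h1])

end Pool.Agent.Helper16K9.Ver
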