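import Pool.Agent.Helper16K9.Ver.Bounds
import Pool.Agent.Helper16K9.Ver.DetD

set_option autoImplicit false
set_option linter.unusedSectionVars false
set_option linter.unusedVariables false

/-!
# The lower bound for the determinant
-/

namespace Pool.Agent.Helper16K9.Ver

open MvPolynomial Pool.Agent.Helper165.P1

/-- the determinant of the generic matrix -/
noncomputable def detPol (N : ℕ) : Unit → MvPolynomial (Fin N × Fin N) ℤ :=
  fun _ => (Matrix.mvPolynomialX (Fin N) (Fin N) ℤ).det

theorem aeval_detPol {N : ℕ} (x : Fin N × Fin N → ℂ) (u : Unit) :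
    aeval x (detPol N u) = (Matrix.of fun a b => x (a, b)).det := by
  unfold detPol
  rw [AlgHom.map_det]
  congr 1
  ext i j
  simp [AlgHom.mapMatrix_apply, Matrix.map_apply, Matrix.mvPolynomialX_apply]

theorem pv_detPol (N : ℕ) : pv (R := ℂ) (detPol N) = detFun N := by
  funext x u
  exact aeval_detPol x u

theorem col_one {N : ℕ} (a : Fin N → ℂ) (c : Fin N) (f : Fin N × Fin N → ℂ) :
    ∑ p : Fin N × Fin N, (if p.2 = c then a p.1 else 0) * f p = ∑ u, a u * f (u, c) := by
  rw [Fintype.sum_prod_type]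
  refine Finset.sum_congr rfl fun u _ => ?_
  simp

theorem col_sum {N : ℕ} (a1 a2 a3 : Fin N → ℂ) (c1 c2 c3 : Fin N)
    (T : Fin N × Fin N → Fin N × Fin N → Fin N × Fin N → ℂ) :
    ∑ p, ∑ q, ∑ r, (if p.2 = c1 then a1 p.1 else 0) * ((if q.2 = c2 then a2 q.1 else 0) *
      ((if r.2 = c3 then a3 r.1 else 0) * T p q r)) =
    ∑ u, ∑ u', ∑ u'', a1 u * (a2 u' * (a3 u'' * T (u, c1) (u', c2) (u'', c3))) := by
  simp only [← Finset.mul_sum]
  simp only [col_one]

theorem det_bound_aux {N n : ℕ} (g : Fin 3 × Fin n → Fin N) (hg : Function.Injective g)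
    (t : Tree ((Fin N × Fin N) ⊕ Unit)) (L : ℕ) (h : Verifies (detFun N) t L) :
    borderRank n ≤ 6 * L := by
  classical
  rw [← pv_detPol] at h
  obtain ⟨x, D, ls, hD, hx, hQ, hlen, _, h3⟩ := engine (detPol N) t L h
  obtain ⟨m, hm⟩ := h3 ()
  have hdet : (Matrix.of fun a b => x (a, b)).det ≠ 0 := by
    rw [← aeval_detPol x ()]
    exact hQ _ (Matrix.det_mvPolynomialX_ne_zero _ _)
  have h4 := br_of_third_comb (n := n) (J := Fin N × Fin N)
    (fun q p y => if y.2 = g (q + 1, p.2) then x (y.1, g (q, p.1)) else 0) hdet ls.get m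
    (fun p q r => D p (D q (D r (pv (detPol N) x ())))) (by
      intro i j j' k k' l
      rw [← third_det g hg D x hD hx i j j' k k' l]
      have e0 : ((0 : Fin 3) + 1) = 1 := rfl
      have e1 : ((1 : Fin 3) + 1) = 2 := rfl
      have e2 : ((2 : Fin 3) + 1) = 0 := rfl
      simp only [e0, e1, e2]
      have e3 : pv (detPol N) x () = (Matrix.of fun a b => x (a, b)).det := aeval_detPol x ()
      rw [e3]
      exact col_sum (fun u => x (u, g (0, i))) (fun u => x (u, g (1, j')))
        (fun u => x (u, g (2, k'))) (g (1, j)) (g (2, k)) (g (0, l)) (fun p q r => D p (D q (D r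
          (Matrix.of fun a b => x (a, b)).det))))
    hm
  omega

/-- **Lower bound for the verification of the determinant.** -/
theorem det_bound {N : ℕ} (t : Tree ((Fin N × Fin N) ⊕ Unit)) (L : ℕ)
    (h : Verifies (detFun N) t L) : borderRank (N / 3) ≤ 6 * L := by
  refine det_bound_aux (fun p => ⟨p.1.1 * (N / 3) + p.2.1, ?_⟩) ?_ t L h
  · have h1 := p.1.2
    have h2 := p.2.2
    have h3 : p.1.1 * (N / 3) + p.2.1 < (p.1.1 + 1) * (N / 3) := by
      rw [Nat.add_mul, Nat.one_mul]
      omega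
    have h4 : (p.1.1 + 1) * (N / 3) ≤ 3 * (N / 3) := Nat.mul_le_mul_right _ (by omega)
    omega
  · rintro ⟨a, i⟩ ⟨b, j⟩ hab
    have h1 : a.1 * (N / 3) + i.1 = b.1 * (N / 3) + j.1 := congrArg Fin.val hab
    have hi := i.2
    have hj := j.2
    have h2 : a.1 = b.1 := by
      by_contra hne
      rcases Nat.lt_or_gt_of_ne hne with h3 | h3
      · have h4 : (a.1 + 1) * (N / 3) ≤ b.1 * (N / 3) := Nat.mul_le_mul_right _ h3
        rw [Nat.add_mul, Nat.one_mul] at h4
        omega
      · have h4 : (b.1 + 1) * (N / 3) ≤ a.1 * (N / 3) := Nat.mul_le_mul_right _ h3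
        rw [Nat.add_mul, Nat.one_mul] at h4
        omega
    rw [h2] at h1
    have h3 : i.1 = j.1 := by omega
    exact Prod.ext (Fin.ext h2) (Fin.ext h3)

end Pool.Agent.Helper16K9.Ver
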