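import Pool.Agent.Helper16K9.Ver.Upper2
import Pool.Agent.Helper16K9.Ver.DetBound

set_option autoImplicit false
set_option linter.unusedSectionVars false
set_option linter.unusedVariables false

/-!
# The lower bounds for the decision problems with determinants
-/

namespace Pool.Agent.Helper16K9.Ver

open Finset Matrix

theorem red_det {N : ℕ} {t : Tree ((Fin N × Fin N) ⊕ Unit)} {L : ℕ}
    (h : Decides (detSet N) t L) : borderRank (N / 3) ≤ 6 * L := by
  refine det_bound t L (h.verifies fun x y => ?_)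
  have h1 : Sum.elim x y ∈ detSet N ↔ (mat x).det = y () := Iff.rfl
  rw [h1]
  constructor
  · intro h2
    funext u
    exact h2.symm
  · rintro rfl
    rfl

/-- the block diagonal matrix -/
def ext1 {n N : ℕ} (e : Fin N ≃ Fin n ⊕ Unit) (x : Fin n × Fin n → ℂ) (g : ℂ) :
    Fin N × Fin N → ℂ := fun p =>
  (Matrix.fromBlocks (mat x) 0 0 (Matrix.of fun _ _ => g) : Matrix (Fin n ⊕ Unit) (Fin n ⊕ Unit) ℂ)
    (e p.1) (e p.2)

theorem det_ext1 {n N : ℕ} (e : Fin N ≃ Fin n ⊕ Unit) (x : Fin n × Fin n → ℂ) (g : ℂ) :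
    (mat (ext1 e x g)).det = (mat x).det * g := by
  have h1 : mat (ext1 e x g) = (Matrix.fromBlocks (mat x) 0 0 (Matrix.of fun _ _ => g) :
      Matrix (Fin n ⊕ Unit) (Fin n ⊕ Unit) ℂ).submatrix e e := rfl
  rw [h1, Matrix.det_submatrix_equiv_self, Matrix.det_fromBlocks_zero₂₁]
  congr 1
  rw [Matrix.det_unique]
  rfl

theorem exists_sl_verifier {n N : ℕ} (e : Fin N ≃ Fin n ⊕ Unit) {t : Tree (Fin N × Fin N)} {L : ℕ}
    (h : Decides (slSet N) t L) : ∃ t', Verifies (detFun n) t' (L + 1) := by
  let a : Fin N × Fin N → Lin ((Fin n × Fin n) ⊕ Unit) := fun p =>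
    match e p.1, e p.2 with
    | .inl i, .inl j => linIn (Pi.single (.inl (i, j)) 1)
    | .inl _, .inr _ => linIn 0
    | .inr _, .inl _ => linIn 0
    | .inr _, .inr _ => linPrev 0
  have ha : ∀ (x : Fin n × Fin n → ℂ) (y : Unit → ℂ) (w : ℕ → ℂ) (p : Fin N × Fin N),
      (a p).val (Sum.elim x y) w 2 = ext1 e x (w 0) p := by
    intro x y w p
    simp only [a, ext1]
    rcases e p.1 with i | i <;> rcases e p.2 with j | j
    · simp only [linIn_val, Matrix.fromBlocks_apply₁₁, mat, Matrix.of_apply]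
      rw [Finset.sum_eq_single (Sum.inl (i, j))]
      · rw [Pi.single_eq_same, one_mul]
        rfl
      · intro q _ hq
        rw [Pi.single_eq_of_ne hq, zero_mul]
      · intro hp
        exact absurd (Finset.mem_univ _) hp
    · simp [linIn_val]
    · simp [linIn_val]
    · simp only [Matrix.fromBlocks_apply₂₂, Matrix.of_apply]
      exact linPrev_val 0 _ w 2 (by norm_num)
  refine ⟨.guess (.mul (linPrev 0) (linIn (Pi.single (.inr ()) 1))
    (.test ⟨-1, fun _ => 0, fun j => if j = 1 then 1 else 0⟩ (t.sub a 2) .reject)), ?_⟩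
  have key : ∀ (x : Fin n × Fin n → ℂ) (y : Unit → ℂ) (L' : ℕ),
      Accepts (Sum.elim x y) (.guess (.mul (linPrev 0) (linIn (Pi.single (.inr ()) 1))
        (.test ⟨-1, fun _ => 0, fun j => if j = 1 then 1 else 0⟩ (t.sub a 2) .reject))) 0 0 L' ↔
      ∃ g : ℂ, ∃ L'', L' = L'' + 1 ∧ g * y () = 1 ∧ Accepts (ext1 e x g) t 0 0 L'' := by
    intro x y L'
    simp only [Accepts, and_false, or_false]
    refine exists_congr fun g => exists_congr fun L'' => and_congr_right fun _ => ?_
    have h1 : (linPrev 0 : Lin ((Fin n × Fin n) ⊕ Unit)).val (Sum.elim x y)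
        (Function.update 0 0 g) (0 + 1) = g := by
      rw [linPrev_val 0 _ _ _ (by norm_num), Function.update_self]
    have h2 : (linIn (Pi.single (.inr ()) 1) : Lin ((Fin n × Fin n) ⊕ Unit)).val (Sum.elim x y)
        (Function.update 0 0 g) (0 + 1) = y () := by
      rw [linIn_val, Finset.sum_eq_single (Sum.inr ())]
      · rw [Pi.single_eq_same, one_mul]
        rfl
      · intro q _ hq
        rw [Pi.single_eq_of_ne hq, zero_mul]
      · intro hp
        exact absurd (Finset.mem_univ _) hp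
    rw [h1, h2]
    have h3 : (⟨-1, fun _ => 0, fun j => if j = 1 then 1 else 0⟩ :
        Lin ((Fin n × Fin n) ⊕ Unit)).val (Sum.elim x y)
        (Function.update (Function.update 0 0 g) (0 + 1) (g * y ())) (0 + 1 + 1) =
        g * y () - 1 := by
      simp [Lin.val]
      ring
    rw [h3, sub_eq_zero]
    refine and_congr_right fun _ => ?_
    have h4 := accepts_sub a 2 (Sum.elim x y) (ext1 e x g) t 0
      (Function.update (Function.update 0 0 g) (0 + 1) (g * y ())) L'' (fun p => by
        rw [ha]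
        congr 1)
    rw [show (0 : ℕ) + 1 + 1 = 2 + 0 from rfl, h4]
    exact ⟨Accepts.congr (fun j hj => absurd hj (Nat.not_lt_zero j)),
      Accepts.congr (fun j hj => absurd hj (Nat.not_lt_zero j))⟩
  refine ⟨(Matrix.mvPolynomialX (Fin n) (Fin n) ℂ).det, Matrix.det_mvPolynomialX_ne_zero _ _,
    fun x hx => ⟨?_, ?_⟩⟩
  · have hx' : (mat x).det ≠ 0 := by
      intro h0
      apply hx
      rw [RingHom.map_det]
      rw [← h0]
      congr 1
      exact Matrix.mvPolynomialX_mapMatrix_eval (mat x)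
    rw [key]
    refine ⟨(mat x).det⁻¹, L, rfl, inv_mul_cancel₀ hx', h.1 _ ?_⟩
    change (mat _).det = 1
    rw [det_ext1, mul_inv_cancel₀ hx']
  · intro y L' hy
    rw [key] at hy
    obtain ⟨g, L'', _, h1, h2⟩ := hy
    have h3 : (mat (ext1 e x g)).det = 1 := h.2 _ _ h2
    rw [det_ext1] at h3
    funext u
    change y () = (mat x).det
    have hg : g ≠ 0 := by
      rintro rfl
      rw [zero_mul] at h1
      exact zero_ne_one h1
    have h4 : g * y () = g * (mat x).det := by rw [h1, mul_comm g, h3]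
    exact mul_left_cancel₀ hg h4

theorem red_sl {N : ℕ} {t : Tree (Fin N × Fin N)} {L : ℕ}
    (h : Decides (slSet N) t L) : borderRank ((N - 1) / 3) ≤ 6 * (L + 1) := by
  rcases Nat.eq_zero_or_pos N with hN | hN
  · subst hN
    have h0 : borderRank ((0 - 1) / 3) = 0 := borderRank_zero
    rw [h0]
    exact Nat.zero_le _
  · let e : Fin N ≃ Fin (N - 1) ⊕ Unit := Fintype.equivOfCardEq (by
      simp only [Fintype.card_fin, Fintype.card_sum, Fintype.card_unit]
      omega)
    obtain ⟨t', ht'⟩ := exists_sl_verifier e h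
    exact det_bound t' (L + 1) ht'

end Pool.Agent.Helper16K9.Ver
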