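import Pool.Agent.Helper16K9.Ver.Easy
import Pool.Agent.Helper16K9.Ver.RedDet

set_option autoImplicit false
set_option linter.unusedSectionVars false
set_option linter.unusedVariables false

/-!
# The characteristic polynomial
-/

namespace Pool.Agent.Helper16K9.Ver

open Finset Matrix Pool.Agent.W956.KF

theorem IsAff.smul {I : Type} [Fintype I] {f : (I → ℂ) → ℂ} (h : IsAff f) (c : ℂ) :
    IsAff fun x => c * f x := by
  obtain ⟨l, hl⟩ := h
  refine ⟨⟨c * l.const, fun i => c * l.inp i, fun j => c * l.prev j⟩, fun x w m => ?_⟩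
  change _ = c * f x
  rw [← hl x w m]
  simp only [Lin.val, mul_add, mul_sum, mul_assoc]

theorem red_charpoly {N : ℕ} {t : Tree ((Fin N × Fin N) ⊕ Fin N)} {L : ℕ}
    (h : Decides (charpolySet N) t L) : borderRank (N / 3) ≤ 6 * L := by
  rcases Nat.eq_zero_or_pos N with hN | hN
  · subst hN
    have h0 : borderRank (0 / 3) = 0 := borderRank_zero
    rw [h0]
    exact Nat.zero_le _
  let z0 : Fin N := ⟨0, hN⟩
  obtain ⟨t1, h1⟩ := h.pull (S := {z : ((Fin N × Fin N) ⊕ Unit) ⊕ Fin N → ℂ |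
      Sum.elim (fun p => z (.inl (.inl p))) (fun i => if i = z0 then
        (-1) ^ N * z (.inl (.inr ())) else z (.inr i)) ∈ charpolySet N})
    (fun z => Sum.elim (fun p => z (.inl (.inl p))) (fun i => if i = z0 then
        (-1) ^ N * z (.inl (.inr ())) else z (.inr i))) (by
      rintro (p | i)
      · exact isAff_var _
      · by_cases hi : i = z0
        · simp only [Sum.elim_inr, if_pos hi]
          exact (isAff_var _).smul _
        · simp only [Sum.elim_inr, if_neg hi]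
          exact isAff_var _) (fun z => Iff.rfl)
  obtain ⟨t2, h2⟩ := h1.proj
  refine red_det (t := t2) ?_
  convert h2 using 1
  ext x
  have e1 : x ∈ detSet N ↔ (mat fun p => x (.inl p)).det = x (.inr ()) := Iff.rfl
  have e2 : ∀ y : Fin N → ℂ, (Sum.elim x y ∈ {z : ((Fin N × Fin N) ⊕ Unit) ⊕ Fin N → ℂ |
      Sum.elim (fun p => z (.inl (.inl p))) (fun i => if i = z0 then
        (-1) ^ N * z (.inl (.inr ())) else z (.inr i)) ∈ charpolySet N}) ↔
      ∀ i : Fin N, (mat fun p => x (.inl p)).charpoly.coeff i =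
        if i = z0 then (-1) ^ N * x (.inr ()) else y i := fun y => Iff.rfl
  have e3 := Matrix.det_eq_sign_charpoly_coeff (mat fun p => x (.inl p))
  rw [Fintype.card_fin] at e3
  have e4 : ((-1 : ℂ) ^ N) * (-1) ^ N = 1 := by
    rw [← mul_pow]
    simp
  constructor
  · intro hx
    refine ⟨fun i => (mat fun p => x (.inl p)).charpoly.coeff i, (e2 _).2 fun i => ?_⟩
    by_cases hi : i = z0
    · rw [if_pos hi, ← e1.1 hx, e3, ← mul_assoc, e4, one_mul, hi]
    · rw [if_neg hi]
  · rintro ⟨y, hy⟩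
    have e5 := (e2 y).1 hy z0
    rw [if_pos rfl] at e5
    rw [e1, e3]
    have e6 : (mat fun p => x (.inl p)).charpoly.coeff 0 = (-1) ^ N * x (.inr ()) := e5
    rw [e6, ← mul_assoc, e4, one_mul]

/-! ### upper bound -/

open Polynomial in
/-- partial products of linear polynomials -/
noncomputable def ppol {N : ℕ} (T : Matrix (Fin N) (Fin N) ℂ) (k : ℕ) : Polynomial ℂ :=
  ∏ j : Fin N, if j.1 < k then Polynomial.X - Polynomial.C (T j j) else 1

theorem ppol_zero {N : ℕ} (T : Matrix (Fin N) (Fin N) ℂ) : ppol T 0 = 1 := by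
  simp [ppol]

theorem ppol_last {N : ℕ} (T : Matrix (Fin N) (Fin N) ℂ) :
    ppol T N = ∏ j, (Polynomial.X - Polynomial.C (T j j)) := by
  unfold ppol
  exact prod_congr rfl fun j _ => if_pos j.2

theorem ppol_succ {N : ℕ} (T : Matrix (Fin N) (Fin N) ℂ) (k : Fin N) :
    ppol T (k.1 + 1) = (Polynomial.X - Polynomial.C (T k k)) * ppol T k.1 := by
  unfold ppol
  have h : ∀ j : Fin N, (if j.1 < k.1 + 1 then Polynomial.X - Polynomial.C (T j j) else 1) =
      (if j = k then Polynomial.X - Polynomial.C (T j j) else 1) *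
        (if j.1 < k.1 then Polynomial.X - Polynomial.C (T j j) else 1) := by
    intro j
    by_cases h1 : j = k
    · subst h1
      simp
    · rw [if_neg h1, one_mul]
      have h2 : j.1 ≠ k.1 := fun h => h1 (Fin.ext h)
      exact if_congr (by omega) rfl rfl
  simp only [h]
  rw [prod_mul_distrib]
  congr 1
  simp

theorem charpoly_of_tri {N : ℕ} {X Y T A : Matrix (Fin N) (Fin N) ℂ} (h1 : X * Y = 1)
    (h2 : X * T * Y = A) (h3 : ∀ i j, j < i → T i j = 0) : A.charpoly = ppol T N := by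
  have h4 : Y * X = 1 := mul_eq_one_comm.1 h1
  rw [ppol_last, ← Matrix.charpoly_of_upperTriangular T (fun i j hij => h3 i j hij), ← h2,
    Matrix.mul_assoc, Matrix.charpoly_mul_comm, Matrix.mul_assoc, h4, Matrix.mul_one]

theorem up_triang (N : ℕ) : ∃ t, Decides {x : (Fin N × Fin N) ⊕ (Fin N × Fin N) → ℂ |
    ∃ X Y : Matrix (Fin N) (Fin N) ℂ, X * Y = 1 ∧ X * (mat fun p => x (.inr p)) * Y =
      (mat fun p => x (.inl p)) ∧ ∀ i j, j < i → (mat fun p => x (.inr p)) i j = 0} t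
    (3 * trank ℂ N N N) := by
  obtain ⟨t1, h1⟩ := up_eq (I := ((Fin N × Fin N) ⊕ (Fin N × Fin N)) ⊕ (Fin 3 × (Fin N × Fin N)))
    (fun z => mat fun p => z (.inr (0, p))) (fun z => mat fun p => z (.inr (1, p))) (fun _ => 1)
    (aff_mat fun p => Sum.inr (0, p)) (aff_mat fun p => Sum.inr (1, p)) (fun i j => isAff_const _)
  obtain ⟨t2, h2⟩ := up_eq (I := ((Fin N × Fin N) ⊕ (Fin N × Fin N)) ⊕ (Fin 3 × (Fin N × Fin N)))
    (fun z => mat fun p => z (.inr (0, p))) (fun z => mat fun p => z (.inl (.inr p)))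
    (fun z => mat fun p => z (.inr (2, p)))
    (aff_mat fun p => Sum.inr (0, p)) (aff_mat fun p => Sum.inl (Sum.inr p))
    (aff_mat fun p => Sum.inr (2, p))
  obtain ⟨t3, h3⟩ := up_eq (I := ((Fin N × Fin N) ⊕ (Fin N × Fin N)) ⊕ (Fin 3 × (Fin N × Fin N)))
    (fun z => mat fun p => z (.inr (2, p))) (fun z => mat fun p => z (.inr (1, p)))
    (fun z => mat fun p => z (.inl (.inl p)))
    (aff_mat fun p => Sum.inr (2, p)) (aff_mat fun p => Sum.inr (1, p))
    (aff_mat fun p => Sum.inl (Sum.inl p))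
  obtain ⟨t4, h4⟩ := decides_lin
    (I := ((Fin N × Fin N) ⊕ (Fin N × Fin N)) ⊕ (Fin 3 × (Fin N × Fin N))) (K := Fin N × Fin N)
    (fun p z => if p.2 < p.1 then z (.inl (.inr p)) else 0) (by
      intro p
      by_cases hp : p.2 < p.1
      · simp only [if_pos hp]
        exact isAff_var _
      · simp only [if_neg hp]
        exact isAff_const _)
  obtain ⟨s1, k1⟩ := h1.inter h2
  obtain ⟨s2, k2⟩ := k1.inter h3
  obtain ⟨s3, k3⟩ := k2.inter h4
  obtain ⟨s4, k4⟩ := k3.proj
  refine ⟨s4, ?_⟩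
  have hL : trank ℂ N N N + trank ℂ N N N + trank ℂ N N N + 0 = 3 * trank ℂ N N N := by ring
  rw [hL] at k4
  convert k4 using 1
  ext x
  simp only [Set.mem_inter_iff, Set.mem_ofPred_eq]
  constructor
  · rintro ⟨X, Y, g1, g2, g3⟩
    refine ⟨fun q => (![X, Y, X * mat fun p => x (.inr p)] q.1) q.2.1 q.2.2,
      ⟨⟨g1, rfl⟩, g2⟩, fun p => ?_⟩
    by_cases hp : p.2 < p.1
    · rw [if_pos hp]
      exact g3 p.1 p.2 hp
    · rw [if_neg hp]
  · rintro ⟨y, ⟨⟨g1, g2⟩, g3⟩, g4⟩
    refine ⟨mat fun p => y (0, p), mat fun p => y (1, p), g1, ?_, fun i j hij => ?_⟩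
    · have g2' : (mat fun p => y (0, p)) * (mat fun p => x (.inr p)) = mat fun p => y (2, p) := g2
      rw [g2']
      exact g3
    · have := g4 (i, j)
      rw [if_pos hij] at this
      exact this

/-- coefficient tables -/
def TabOK {N : ℕ} (T : Matrix (Fin N) (Fin N) ℂ) (q : Fin (N + 1) × Fin (N + 1) → ℂ) : Prop :=
  (∀ p : Fin N × Fin (N + 1), T p.1 p.1 * q (p.1.castSucc, p.2) =
    (if h : p.2.1 = 0 then 0 else q (p.1.castSucc, ⟨p.2.1 - 1, by omega⟩)) - q (p.1.succ, p.2)) ∧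
  ∀ j : Fin (N + 1), q (0, j) = if j = 0 then 1 else 0

theorem tab_ppol {N : ℕ} (T : Matrix (Fin N) (Fin N) ℂ) :
    TabOK T fun p => (ppol T p.1).coeff p.2 := by
  constructor
  · intro p
    simp only [Fin.val_castSucc, Fin.val_succ]
    rw [ppol_succ, sub_mul, Polynomial.coeff_sub, Polynomial.coeff_C_mul]
    by_cases h : p.2.1 = 0
    · rw [dif_pos h, h, Polynomial.mul_coeff_zero, Polynomial.coeff_X_zero]
      ring
    · rw [dif_neg h]
      obtain ⟨m, hm⟩ := Nat.exists_eq_succ_of_ne_zero h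
      rw [hm, Polynomial.coeff_X_mul]
      simp only [Nat.succ_eq_add_one, Nat.add_sub_cancel]
      ring
  · intro j
    simp only [Fin.val_zero, ppol_zero, Polynomial.coeff_one]
    refine if_congr ?_ rfl rfl
    rw [Fin.ext_iff, Fin.val_zero]

theorem tab_eq {N : ℕ} {T : Matrix (Fin N) (Fin N) ℂ} {q : Fin (N + 1) × Fin (N + 1) → ℂ}
    (h : TabOK T q) : ∀ k j : Fin (N + 1), q (k, j) = (ppol T k).coeff j := by
  intro k
  induction k using Fin.induction with
  | zero =>
    intro j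
    rw [h.2 j]
    exact ((tab_ppol T).2 j).symm
  | succ k ih =>
    intro j
    have h1 := h.1 (k, j)
    have h2 := (tab_ppol T).1 (k, j)
    simp only at h1 h2
    simp only [ih] at h1
    rw [h1] at h2
    exact sub_right_injective h2

theorem up_charpoly (N : ℕ) :
    ∃ t, Decides (charpolySet N) t (3 * trank ℂ N N N + N ^ 2 + N) := by
  obtain ⟨t0, h0⟩ := up_triang N
  obtain ⟨t1, h1⟩ := h0.pull (S := {z : ((Fin N × Fin N) ⊕ Fin N) ⊕
      ((Fin N × Fin N) ⊕ (Fin (N + 1) × Fin (N + 1))) → ℂ |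
      (Sum.elim (fun p => z (.inl (.inl p))) (fun p => z (.inr (.inl p))) :
        (Fin N × Fin N) ⊕ (Fin N × Fin N) → ℂ) ∈ {x : (Fin N × Fin N) ⊕ (Fin N × Fin N) → ℂ |
    ∃ X Y : Matrix (Fin N) (Fin N) ℂ, X * Y = 1 ∧ X * (mat fun p => x (.inr p)) * Y =
      (mat fun p => x (.inl p)) ∧ ∀ i j, j < i → (mat fun p => x (.inr p)) i j = 0}})
    (fun z => Sum.elim (fun p => z (.inl (.inl p))) (fun p => z (.inr (.inl p)))) (by
      rintro (p | p)
      · exact isAff_var _
      · exact isAff_var _) (fun z => Iff.rfl)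
  obtain ⟨t2, h2⟩ := decides_quad (I := ((Fin N × Fin N) ⊕ Fin N) ⊕
      ((Fin N × Fin N) ⊕ (Fin (N + 1) × Fin (N + 1)))) (K := Fin N × Fin (N + 1))
    (fun p z => z (.inr (.inl (p.1, p.1)))) (fun p z => z (.inr (.inr (p.1.castSucc, p.2))))
    (fun p z => (if h : p.2.1 = 0 then 0 else z (.inr (.inr (p.1.castSucc,
      ⟨p.2.1 - 1, by omega⟩)))) - z (.inr (.inr (p.1.succ, p.2))))
    (fun p => isAff_var _) (fun p => isAff_var _) (by
      intro p
      by_cases h : p.2.1 = 0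
      · simp only [dif_pos h]
        exact (isAff_const _).sub (isAff_var _)
      · simp only [dif_neg h]
        exact (isAff_var _).sub (isAff_var _))
  obtain ⟨t3, h3⟩ := decides_lin (I := ((Fin N × Fin N) ⊕ Fin N) ⊕
      ((Fin N × Fin N) ⊕ (Fin (N + 1) × Fin (N + 1)))) (K := Fin (N + 1) ⊕ Fin N)
    (fun k z => match k with
      | .inl j => z (.inr (.inr (0, j))) - if j = 0 then 1 else 0
      | .inr i => z (.inr (.inr (Fin.last N, i.castSucc))) - z (.inl (.inr i))) (by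
      rintro (j | i)
      · exact (isAff_var _).sub (isAff_const _)
      · exact (isAff_var _).sub (isAff_var _))
  obtain ⟨s1, k1⟩ := h1.inter h2
  obtain ⟨s2, k2⟩ := k1.inter h3
  obtain ⟨s3, k3⟩ := k2.proj
  refine ⟨s3, ?_⟩
  have hL : 3 * trank ℂ N N N + Fintype.card (Fin N × Fin (N + 1)) + 0 =
      3 * trank ℂ N N N + N ^ 2 + N := by
    rw [Fintype.card_prod, Fintype.card_fin, Fintype.card_fin]
    ring
  rw [hL] at k3
  convert k3 using 1
  ext x
  simp only [Set.mem_inter_iff, Set.mem_ofPred_eq]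
  have e1 : x ∈ charpolySet N ↔ ∀ i : Fin N, (mat fun p => x (.inl p)).charpoly.coeff i =
    x (.inr i) := Iff.rfl
  rw [e1]
  constructor
  · intro hx
    obtain ⟨X, Y, T, hXY, hA, hT⟩ := exists_triangular N (mat fun p => x (.inl p))
    have hch := charpoly_of_tri hXY hA.symm hT
    refine ⟨Sum.elim (fun p => T p.1 p.2) (fun p => (ppol T p.1).coeff p.2),
      ⟨⟨X, Y, hXY, hA.symm, hT⟩, (tab_ppol T).1⟩, ?_⟩
    rintro (j | i)
    · exact sub_eq_zero.2 ((tab_ppol T).2 j)
    · simp only [Sum.elim_inr, Sum.elim_inl, Fin.val_last, Fin.val_castSucc]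
      rw [← hch, hx i, sub_self]
  · rintro ⟨y, ⟨⟨X, Y, g1, g2, g3⟩, g4⟩, g5⟩ i
    have hch := charpoly_of_tri g1 g2 g3
    have htab : TabOK (mat fun p => y (.inl p)) (fun p => y (.inr p)) :=
      ⟨g4, fun j => sub_eq_zero.1 (g5 (.inl j))⟩
    have h6 := tab_eq htab (Fin.last N) i.castSucc
    have h7 : y (.inr (Fin.last N, i.castSucc)) = x (.inr i) := sub_eq_zero.1 (g5 (.inr i))
    simp only [Fin.val_last, Fin.val_castSucc] at h6
    rw [← h7, h6]
    exact congrArg (fun p => Polynomial.coeff p i) hch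

end Pool.Agent.Helper16K9.Ver
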