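import Pool.Agent.Helper16K9.Ver.Upper2

set_option autoImplicit false
set_option linter.unusedSectionVars false
set_option linter.unusedVariables false

/-!
# Combinators for nondeterministic trees
-/

namespace Pool.Agent.Helper16K9.Ver

open Finset

section

variable {I K : Type} [Fintype I] [Fintype K]

theorem Accepts.mono {x : I → ℂ} : ∀ {t : Tree I} {m : ℕ} {w : ℕ → ℂ} {L L' : ℕ}, L ≤ L' →
    Accepts x t m w L → Accepts x t m w L'
  | .accept, m, w, L, L', hL, h => trivial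
  | .reject, m, w, L, L', hL, h => h
  | .mul u v t, m, w, L, L', hL, h => by
    obtain ⟨L₁, rfl, h⟩ := h
    exact ⟨L' - 1, by omega, Accepts.mono (by omega) h⟩
  | .div u v t, m, w, L, L', hL, h => by
    obtain ⟨hv, L₁, rfl, h⟩ := h
    exact ⟨hv, L' - 1, by omega, Accepts.mono (by omega) h⟩
  | .guess t, m, w, L, L', hL, h => by
    obtain ⟨y, h⟩ := h
    exact ⟨y, Accepts.mono hL h⟩
  | .test u s t, m, w, L, L', hL, h => by
    rcases h with h | h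
    · exact Or.inl ⟨h.1, Accepts.mono hL h.2⟩
    · exact Or.inr ⟨h.1, Accepts.mono hL h.2⟩

/-- an input as an affine combination -/
noncomputable def linVar (i : I) : Lin I := by
  classical
  exact ⟨0, fun j => if j = i then 1 else 0, fun _ => 0⟩

theorem linVar_val (i : I) (x : I → ℂ) (w : ℕ → ℂ) (m : ℕ) : (linVar i).val x w m = x i := by
  classical
  simp [linVar, Lin.val]

/-- first `t₁`, then `t₂` -/
noncomputable def Tree.seq (t₂ : Tree I) : Tree I → ℕ → Tree I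
  | .accept, m => t₂.sub linVar m
  | .reject, _ => .reject
  | .mul u v t, m => .mul u v (Tree.seq t₂ t (m + 1))
  | .div u v t, m => .div u v (Tree.seq t₂ t (m + 1))
  | .guess t, m => .guess (Tree.seq t₂ t (m + 1))
  | .test u s t, m => .test u (Tree.seq t₂ s m) (Tree.seq t₂ t m)

theorem accepts_seq (x : I → ℂ) (t₂ : Tree I) : ∀ (t₁ : Tree I) (m : ℕ) (w : ℕ → ℂ) (L : ℕ),
    Accepts x (Tree.seq t₂ t₁ m) m w L ↔
      ∃ L₁ L₂, L = L₁ + L₂ ∧ Accepts x t₁ m w L₁ ∧ Accepts x t₂ 0 0 L₂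
  | .accept, m, w, L => by
    have h1 : Accepts x (t₂.sub linVar m) m w L ↔ Accepts x t₂ 0 0 L := by
      have h2 := accepts_sub linVar m x x t₂ 0 w L (fun i => linVar_val i x w m)
      rw [Nat.add_zero] at h2
      rw [h2]
      exact ⟨Accepts.congr (fun j hj => absurd hj (Nat.not_lt_zero j)),
        Accepts.congr (fun j hj => absurd hj (Nat.not_lt_zero j))⟩
    simp only [Tree.seq]
    rw [h1]
    constructor
    · intro h
      exact ⟨0, L, (Nat.zero_add L).symm, trivial, h⟩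
    · rintro ⟨L₁, L₂, rfl, _, h⟩
      exact Accepts.mono (Nat.le_add_left _ _) h
  | .reject, m, w, L => by
    simp only [Tree.seq, Accepts, false_and, and_false, exists_false]
  | .mul u v t, m, w, L => by
    simp only [Tree.seq, Accepts]
    constructor
    · rintro ⟨L', rfl, h⟩
      obtain ⟨L₁, L₂, rfl, h1, h2⟩ := (accepts_seq x t₂ t (m + 1) _ L').1 h
      exact ⟨L₁ + 1, L₂, by ring, ⟨L₁, rfl, h1⟩, h2⟩
    · rintro ⟨L₁, L₂, rfl, ⟨L', rfl, h1⟩, h2⟩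
      exact ⟨L' + L₂, by ring, (accepts_seq x t₂ t (m + 1) _ _).2 ⟨L', L₂, rfl, h1, h2⟩⟩
  | .div u v t, m, w, L => by
    simp only [Tree.seq, Accepts]
    constructor
    · rintro ⟨hv, L', rfl, h⟩
      obtain ⟨L₁, L₂, rfl, h1, h2⟩ := (accepts_seq x t₂ t (m + 1) _ L').1 h
      exact ⟨L₁ + 1, L₂, by ring, ⟨hv, L₁, rfl, h1⟩, h2⟩
    · rintro ⟨L₁, L₂, rfl, ⟨hv, L', rfl, h1⟩, h2⟩
      exact ⟨hv, L' + L₂, by ring, (accepts_seq x t₂ t (m + 1) _ _).2 ⟨L', L₂, rfl, h1, h2⟩⟩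
  | .guess t, m, w, L => by
    simp only [Tree.seq, Accepts]
    constructor
    · rintro ⟨y, h⟩
      obtain ⟨L₁, L₂, rfl, h1, h2⟩ := (accepts_seq x t₂ t (m + 1) _ L).1 h
      exact ⟨L₁, L₂, rfl, ⟨y, h1⟩, h2⟩
    · rintro ⟨L₁, L₂, rfl, ⟨y, h1⟩, h2⟩
      exact ⟨y, (accepts_seq x t₂ t (m + 1) _ _).2 ⟨L₁, L₂, rfl, h1, h2⟩⟩
  | .test u s t, m, w, L => by
    simp only [Tree.seq, Accepts]
    rw [accepts_seq x t₂ s m w L, accepts_seq x t₂ t m w L]
    constructor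
    · rintro (⟨hu, L₁, L₂, rfl, h1, h2⟩ | ⟨hu, L₁, L₂, rfl, h1, h2⟩)
      · exact ⟨L₁, L₂, rfl, Or.inl ⟨hu, h1⟩, h2⟩
      · exact ⟨L₁, L₂, rfl, Or.inr ⟨hu, h1⟩, h2⟩
    · rintro ⟨L₁, L₂, rfl, (⟨hu, h1⟩ | ⟨hu, h1⟩), h2⟩
      · exact Or.inl ⟨hu, L₁, L₂, rfl, h1, h2⟩
      · exact Or.inr ⟨hu, L₁, L₂, rfl, h1, h2⟩

theorem Decides.inter {S₁ S₂ : Set (I → ℂ)} {t₁ t₂ : Tree I} {L₁ L₂ : ℕ}
    (h₁ : Decides S₁ t₁ L₁) (h₂ : Decides S₂ t₂ L₂) :
    ∃ t : Tree I, Decides (S₁ ∩ S₂) t (L₁ + L₂) := by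
  refine ⟨Tree.seq t₂ t₁ 0, fun x hx => ?_, fun x L' hx => ?_⟩
  · exact (accepts_seq x t₂ t₁ 0 0 _).2 ⟨L₁, L₂, rfl, h₁.1 x hx.1, h₂.1 x hx.2⟩
  · obtain ⟨a, b, _, ha, hb⟩ := (accepts_seq x t₂ t₁ 0 0 _).1 hx
    exact ⟨h₁.2 x a ha, h₂.2 x b hb⟩

theorem Decides.mono {S : Set (I → ℂ)} {t : Tree I} {L L' : ℕ} (h : Decides S t L) (hL : L ≤ L') :
    Decides S t L' := ⟨fun x hx => Accepts.mono hL (h.1 x hx), h.2⟩

theorem Decides.proj {S : Set (I ⊕ K → ℂ)} {t : Tree (I ⊕ K)} {L : ℕ} (h : Decides S t L) :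
    ∃ t' : Tree I, Decides {x : I → ℂ | ∃ y : K → ℂ, (Sum.elim x y : I ⊕ K → ℂ) ∈ S} t' L := by
  classical
  let m₀ := Fintype.card K
  let e : K ≃ Fin m₀ := Fintype.equivFin K
  let a : I ⊕ K → Lin I := Sum.elim (fun i => linVar i) (fun k => linPrev (e k))
  have ha : ∀ (x : I → ℂ) (w : ℕ → ℂ) i', (a i').val x w m₀ =
      (Sum.elim x (fun k => w (e k)) : I ⊕ K → ℂ) i' := by
    intro x w i'
    rcases i' with i | k
    · exact linVar_val i x w m₀
    · exact linPrev_val _ _ _ _ (e k).2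
  have key : ∀ (x : I → ℂ) (L : ℕ),
      Accepts x (guessN m₀ (t.sub a m₀)) 0 0 L ↔ ∃ w : ℕ → ℂ,
        Accepts (Sum.elim x (fun k => w (e k)) : I ⊕ K → ℂ) t 0 0 L := by
    intro x L
    rw [accepts_guessN]
    have h1 : ∀ w : ℕ → ℂ, Accepts x (t.sub a m₀) (0 + m₀) w L ↔
        Accepts (Sum.elim x (fun k => w (e k)) : I ⊕ K → ℂ) t 0 0 L := by
      intro w
      rw [Nat.zero_add]
      have h2 := accepts_sub a m₀ x _ t 0 w L (ha x w)
      rw [Nat.add_zero] at h2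
      rw [h2]
      exact ⟨Accepts.congr (fun j hj => absurd hj (Nat.not_lt_zero j)),
        Accepts.congr (fun j hj => absurd hj (Nat.not_lt_zero j))⟩
    constructor
    · rintro ⟨w, _, hw⟩
      exact ⟨w, (h1 w).1 hw⟩
    · rintro ⟨w, hw⟩
      exact ⟨w, fun j hj => absurd hj (Nat.not_lt_zero j), (h1 w).2 hw⟩
  refine ⟨guessN m₀ (t.sub a m₀), fun x hx => ?_, fun x L' hx => ?_⟩
  · rw [key]
    obtain ⟨y, hy⟩ := hx
    refine ⟨fun q => if hq : q < m₀ then y (e.symm ⟨q, hq⟩) else 0, ?_⟩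
    have h1 : (fun k : K => (fun q : ℕ => if hq : q < m₀ then y (e.symm ⟨q, hq⟩) else 0) (e k)) =
        y := by
      funext k
      have : ((e k : Fin m₀) : ℕ) < m₀ := (e k).2
      simp only [dif_pos this, Fin.eta, Equiv.symm_apply_apply]
    rw [h1]
    exact h.1 _ hy
  · obtain ⟨w, hw⟩ := (key x L').1 hx
    exact ⟨_, h.2 _ L' hw⟩

theorem decides_lin (f : K → (I → ℂ) → ℂ) (hf : ∀ k, IsAff (f k)) :
    ∃ t : Tree I, Decides {x : I → ℂ | ∀ k, f k x = 0} t 0 := by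
  classical
  choose l hl using hf
  have key : ∀ (x : I → ℂ) (L : ℕ), Accepts x (testL ((univ : Finset K).toList.map l)) 0 0 L ↔
      ∀ k, f k x = 0 := by
    intro x L
    rw [accepts_testL]
    constructor
    · intro h k
      rw [← hl k x 0 0]
      exact h (l k) (List.mem_map.2 ⟨k, by simp, rfl⟩)
    · intro h u hu
      obtain ⟨k, _, rfl⟩ := List.mem_map.1 hu
      rw [hl k, h k]
  exact ⟨_, fun x hx => (key x 0).2 hx, fun x L' hx => (key x L').1 hx⟩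

theorem decides_univ : ∃ t : Tree I, Decides (Set.univ : Set (I → ℂ)) t 0 :=
  ⟨.accept, fun _ _ => trivial, fun _ _ _ => trivial⟩

/-- intersections of finitely many sets -/
theorem decides_iInter {ι : Type} (S : ι → Set (I → ℂ)) (L : ι → ℕ)
    (h : ∀ i, ∃ t : Tree I, Decides (S i) t (L i)) (s : Finset ι) :
    ∃ t : Tree I, Decides {x | ∀ i ∈ s, x ∈ S i} t (∑ i ∈ s, L i) := by
  classical
  induction s using Finset.induction_on with
  | empty =>
    obtain ⟨t, ht⟩ := decides_univ (I := I)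
    refine ⟨t, ?_⟩
    simpa using ht
  | insert i s hi ih =>
    obtain ⟨t₁, h₁⟩ := h i
    obtain ⟨t₂, h₂⟩ := ih
    obtain ⟨t, ht⟩ := h₁.inter h₂
    refine ⟨t, ?_⟩
    rw [Finset.sum_insert hi]
    have : {x | ∀ j ∈ insert i s, x ∈ S j} = S i ∩ {x | ∀ j ∈ s, x ∈ S j} := by
      ext x
      simp
    rw [this]
    exact ht

theorem decides_quad_one {f g h : (I → ℂ) → ℂ} (hf : IsAff f) (hg : IsAff g) (hh : IsAff h) :
    ∃ t : Tree I, Decides {x : I → ℂ | f x * g x = h x} t 1 := by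
  obtain ⟨lf, hf⟩ := hf
  obtain ⟨lg, hg⟩ := hg
  obtain ⟨lh, hh⟩ := hh
  let u : Lin I := ⟨-lh.const, fun i => -lh.inp i, fun j => (if j = 0 then 1 else 0) - lh.prev j⟩
  have hu : ∀ (x : I → ℂ) (w : ℕ → ℂ), u.val x w 1 = w 0 - h x := by
    intro x w
    rw [← hh x w 1]
    simp only [u, Lin.val, neg_mul, sum_neg_distrib, Finset.range_one, Finset.sum_singleton,
      if_true, sub_mul, one_mul]
    ring
  have key : ∀ (x : I → ℂ) (L : ℕ), Accepts x (.mul lf lg (.test u .accept .reject)) 0 0 L ↔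
      (∃ L', L = L' + 1) ∧ f x * g x = h x := by
    intro x L
    simp only [Accepts, and_true, and_false, or_false, hf, hg, Nat.zero_add]
    rw [hu, Function.update_self, sub_eq_zero]
    constructor
    · rintro ⟨L', hL, h⟩
      exact ⟨⟨L', hL⟩, h⟩
    · rintro ⟨⟨L', hL⟩, h⟩
      exact ⟨L', hL, h⟩
  exact ⟨_, fun x hx => (key x 1).2 ⟨⟨0, rfl⟩, hx⟩, fun x L' hx => ((key x L').1 hx).2⟩

theorem decides_quad (f g h : K → (I → ℂ) → ℂ) (hf : ∀ k, IsAff (f k)) (hg : ∀ k, IsAff (g k))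
    (hh : ∀ k, IsAff (h k)) :
    ∃ t : Tree I, Decides {x : I → ℂ | ∀ k, f k x * g k x = h k x} t (Fintype.card K) := by
  classical
  obtain ⟨t, ht⟩ := decides_iInter (fun k : K => {x : I → ℂ | f k x * g k x = h k x})
    (fun _ => 1) (fun k => decides_quad_one (hf k) (hg k) (hh k)) univ
  refine ⟨t, ?_⟩
  simpa using ht

end

end Pool.Agent.Helper16K9.Ver
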