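import Pool.Agent.Helper16K9.Ver.Hahn

set_option autoImplicit false

/-!
# Embeddings of a function field of one variable into the field of Puiseux series
-/

namespace Pool.Agent.Helper16K9.Ver

open Pool.Agent.Helper165.P1 Polynomial

/-- evaluation of polynomials at the variable -/
noncomputable def polP : ℂ[X] →+* Pui ℂ := eval₂RingHom cP TP

open scoped Classical in
theorem polP_coeff (p : ℂ[X]) (q : ℚ) :
    ((polP p : Pui ℂ) : HQ ℂ).coeff q = if ∃ n : ℕ, (n : ℚ) = q then p.coeff ⌊q⌋₊ else 0 := by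
  induction p using Polynomial.induction_on' with
  | add p r hp hr =>
    rw [map_add]
    change ((polP p : HQ ℂ) + (polP r : HQ ℂ)).coeff q = _
    rw [HahnSeries.coeff_add, hp, hr, coeff_add]
    split_ifs <;> simp
  | monomial n a =>
    have h1 : ((polP (monomial n a) : Pui ℂ) : HQ ℂ) = HahnSeries.single (n : ℚ) a := by
      unfold polP
      rw [coe_eval₂RingHom, eval₂_monomial]
      change (HahnSeries.C a : HQ ℂ) * (HahnSeries.single (1 : ℚ) (1 : ℂ)) ^ n = _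
      rw [HahnSeries.single_pow, HahnSeries.C_apply, HahnSeries.single_mul_single]
      simp
    rw [h1, HahnSeries.coeff_single, coeff_monomial]
    by_cases h : q = n
    · subst h
      simp
    · rw [if_neg h]
      split_ifs with h2 h3
      · obtain ⟨m, rfl⟩ := h2
        exfalso
        apply h
        rw [Nat.floor_natCast] at h3
        rw [h3]
      · rfl
      · rfl

theorem polP_mem (p : ℂ[X]) : ((polP p : Pui ℂ) : HQ ℂ) ∈ (OH : Subring (HQ ℂ)) := by
  intro q hq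
  rw [polP_coeff, if_neg]
  rintro ⟨n, rfl⟩
  exact absurd hq (not_lt.2 (Nat.cast_nonneg n))

theorem polP_coeff_zero (p : ℂ[X]) : ((polP p : Pui ℂ) : HQ ℂ).coeff 0 = p.eval 0 := by
  rw [polP_coeff, if_pos ⟨0, by simp⟩, Nat.floor_zero, coeff_zero_eq_eval_zero]

theorem polP_injective : Function.Injective polP := by
  rw [injective_iff_map_eq_zero]
  intro p hp
  ext n
  have h1 : ((polP p : Pui ℂ) : HQ ℂ).coeff (n : ℚ) = 0 := by
    rw [hp]
    rfl
  rw [polP_coeff, if_pos ⟨n, rfl⟩, Nat.floor_natCast] at h1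
  rw [h1, coeff_zero]

/-- rational functions in the variable -/
noncomputable def ratP : RatFunc ℂ →+* Pui ℂ :=
  IsFractionRing.lift (A := ℂ[X]) (K := RatFunc ℂ) polP_injective

theorem ratP_algebraMap (p : ℂ[X]) : ratP (algebraMap ℂ[X] (RatFunc ℂ) p) = polP p :=
  IsFractionRing.lift_algebraMap _ _

section place

variable {E : Type} [Field E] [Algebra (RatFunc ℂ) E] (V : ValuationSubring E)

theorem pol_val (hC : ∀ c : ℂ, algebraMap (RatFunc ℂ) E (algebraMap ℂ[X] _ (C c)) ∈ V)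
    (ht : V.valuation (algebraMap (RatFunc ℂ) E (algebraMap ℂ[X] _ X)) < 1) (p : ℂ[X]) :
    algebraMap (RatFunc ℂ) E (algebraMap ℂ[X] _ p) ∈ V ∧
    (p.eval 0 ≠ 0 → V.valuation (algebraMap (RatFunc ℂ) E (algebraMap ℂ[X] _ p)) = 1) := by
  have h1 : ∀ p : ℂ[X], algebraMap (RatFunc ℂ) E (algebraMap ℂ[X] _ p) ∈ V := by
    intro p
    induction p using Polynomial.induction_on with
    | C a => exact hC a
    | add p q hp hq =>
      rw [map_add, map_add]
      exact add_mem hp hq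
    | monomial n a h =>
      rw [pow_succ, ← mul_assoc, map_mul, map_mul]
      exact mul_mem h ((V.valuation_le_one_iff _).1 ht.le)
  refine ⟨h1 p, fun hp => ?_⟩
  have h2 : p = C (p.eval 0) + X * p.divX := by
    have := p.X_mul_divX_add
    rw [coeff_zero_eq_eval_zero] at this
    rw [add_comm]
    exact this.symm
  have h3 : V.valuation (algebraMap (RatFunc ℂ) E (algebraMap ℂ[X] _ (C (p.eval 0)))) = 1 := by
    refine le_antisymm ((V.valuation_le_one_iff _).2 (hC _)) ?_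
    have h4 : algebraMap (RatFunc ℂ) E (algebraMap ℂ[X] _ (C (p.eval 0))) *
        algebraMap (RatFunc ℂ) E (algebraMap ℂ[X] _ (C (p.eval 0)⁻¹)) = 1 := by
      rw [← map_mul, ← map_mul, ← C_mul, mul_inv_cancel₀ hp, C_1, map_one, map_one]
    have h5 := congrArg V.valuation h4
    rw [map_mul, map_one] at h5
    rw [← h5]
    exact mul_le_of_le_one_right' ((V.valuation_le_one_iff _).2 (hC _))
  rw [h2, map_add, map_add]
  have h6 : V.valuation (algebraMap (RatFunc ℂ) E (algebraMap ℂ[X] _ (X * p.divX))) <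
      V.valuation (algebraMap (RatFunc ℂ) E (algebraMap ℂ[X] _ (C (p.eval 0)))) := by
    rw [h3, map_mul, map_mul, map_mul]
    exact mul_lt_one_of_lt_of_le ht ((V.valuation_le_one_iff _).2 (h1 _))
  rw [V.valuation.map_add_eq_of_lt_left h6, h3]

theorem rat_mem (hC : ∀ c : ℂ, algebraMap (RatFunc ℂ) E (algebraMap ℂ[X] _ (C c)) ∈ V)
    (ht : V.valuation (algebraMap (RatFunc ℂ) E (algebraMap ℂ[X] _ X)) < 1) (f : RatFunc ℂ)
    (hf : ((ratP f : Pui ℂ) : HQ ℂ) ∈ (OH : Subring (HQ ℂ))) :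
    algebraMap (RatFunc ℂ) E f ∈ V := by
  have hd : algebraMap ℂ[X] (RatFunc ℂ) f.denom ≠ 0 :=
    (map_ne_zero_iff _ (RatFunc.algebraMap_injective ℂ)).2 f.denom_ne_zero
  have h1 : f * algebraMap ℂ[X] (RatFunc ℂ) f.denom = algebraMap ℂ[X] (RatFunc ℂ) f.num := by
    rw [eq_comm, ← div_eq_iff hd]
    exact RatFunc.num_div_denom f
  have h0 : f.denom.eval 0 ≠ 0 := by
    intro h
    have h2 : (ratP f : HQ ℂ) * (polP f.denom : HQ ℂ) = (polP f.num : HQ ℂ) := by
      have := congrArg ratP h1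
      rw [map_mul, ratP_algebraMap, ratP_algebraMap] at this
      exact congrArg Subtype.val this
    have h3 := coeff_zero_mul hf (polP_mem f.denom)
    rw [h2, polP_coeff_zero, polP_coeff_zero, h, mul_zero] at h3
    obtain ⟨u, v, huv⟩ := RatFunc.isCoprime_num_denom f
    have h4 := congrArg (eval 0) huv
    rw [eval_add, eval_mul, eval_mul, h3, h] at h4
    simp at h4
  have h2 := (pol_val V hC ht f.denom).2 h0
  rw [← V.valuation_le_one_iff]
  have h3 := congrArg (fun g => V.valuation (algebraMap (RatFunc ℂ) E g)) h1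
  simp only [map_mul] at h3
  rw [h2, mul_one] at h3
  rw [h3]
  exact (V.valuation_le_one_iff _).2 (pol_val V hC ht f.num).1

/-- the valuation ring of the field of Puiseux series -/
noncomputable def OP : Subring (Pui ℂ) := (OH : Subring (HQ ℂ)).comap (Pui ℂ).subtype

/-- residue map -/
noncomputable def resP : OP →+* ℂ where
  toFun x := (x.1 : HQ ℂ).coeff 0
  map_one' := by
    change (1 : HQ ℂ).coeff 0 = 1
    rw [HahnSeries.coeff_one, if_pos rfl]
  map_mul' x y := coeff_zero_mul x.2 y.2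
  map_zero' := rfl
  map_add' _ _ := rfl

variable (E) in
/-- the elements all whose conjugates are integral -/
noncomputable def BR [Algebra (RatFunc ℂ) (Pui ℂ)] : Subring E :=
  ⨅ τ : E →ₐ[RatFunc ℂ] Pui ℂ, OP.comap (τ : E →+* Pui ℂ)

theorem mem_BR [Algebra (RatFunc ℂ) (Pui ℂ)] (b : E) :
    b ∈ BR E ↔ ∀ τ : E →ₐ[RatFunc ℂ] Pui ℂ, τ b ∈ OP := by
  unfold BR
  rw [Subring.mem_iInf]
  rfl

/-- the prime ideal of an embedding -/
noncomputable def pI [Algebra (RatFunc ℂ) (Pui ℂ)] (τ : E →ₐ[RatFunc ℂ] Pui ℂ) :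
    Ideal (BR E) :=
  RingHom.ker (resP.comp (((τ : E →+* Pui ℂ).comp (BR E).subtype).codRestrict OP
    (fun b => (mem_BR b.1).1 b.2 τ)))

theorem pI_prime [Algebra (RatFunc ℂ) (Pui ℂ)] (τ : E →ₐ[RatFunc ℂ] Pui ℂ) :
    (pI τ).IsPrime := RingHom.ker_isPrime _

theorem mem_pI [Algebra (RatFunc ℂ) (Pui ℂ)] (τ : E →ₐ[RatFunc ℂ] Pui ℂ) (b : BR E) :
    b ∈ pI τ ↔ Pos (τ b.1 : HQ ℂ) := by
  rw [pos_iff (x := (τ b.1 : HQ ℂ)) ((mem_BR b.1).1 b.2 τ)]
  rfl

theorem BR_le [Algebra (RatFunc ℂ) (Pui ℂ)] [FiniteDimensional (RatFunc ℂ) E]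
    (hal : ∀ f, algebraMap (RatFunc ℂ) (Pui ℂ) f = ratP f)
    (hC : ∀ c : ℂ, algebraMap (RatFunc ℂ) E (algebraMap ℂ[X] _ (C c)) ∈ V)
    (ht : V.valuation (algebraMap (RatFunc ℂ) E (algebraMap ℂ[X] _ X)) < 1) (b : E)
    (hb : b ∈ BR E) : b ∈ V := by
  have hint : IsIntegral (RatFunc ℂ) b := Algebra.IsIntegral.isIntegral b
  let p := minpoly (RatFunc ℂ) b
  have hm : p.Monic := minpoly.monic hint
  -- coefficients are integral
  have h1 : ∀ i, ((ratP (p.coeff i) : Pui ℂ) : HQ ℂ) ∈ (OH : Subring (HQ ℂ)) := by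
    intro i
    have hm2 : (p.map (algebraMap (RatFunc ℂ) (Pui ℂ))).Monic := hm.map _
    have hs : (p.map (algebraMap (RatFunc ℂ) (Pui ℂ))).Splits := IsAlgClosed.splits _
    have h2 := hs.eq_prod_roots_of_monic hm2
    have h3 : p.map (algebraMap (RatFunc ℂ) (Pui ℂ)) ∈ Polynomial.lifts OP.subtype := by
      rw [h2, ← Multiset.map_id ((p.map (algebraMap (RatFunc ℂ) (Pui ℂ))).roots)]
      have h4 : ∀ s : Multiset (Pui ℂ), (∀ x ∈ s, x ∈ OP) →
          ((s.map id).map fun a => (X - C a : (Pui ℂ)[X])).prod ∈ Polynomial.lifts OP.subtype := by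
        intro s
        induction s using Multiset.induction_on with
        | empty =>
          intro _
          simp only [Multiset.map_zero, Multiset.prod_zero]
          exact one_mem _
        | cons a s ih =>
          intro h
          simp only [Multiset.map_cons, Multiset.prod_cons]
          refine mul_mem ?_ (by simpa using ih fun x hx => h x (Multiset.mem_cons_of_mem hx))
          refine (Polynomial.mem_lifts _).2 ⟨X - C ⟨a, h a (Multiset.mem_cons_self a s)⟩, ?_⟩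
          simp
      apply h4
      intro x hx
      have h5 : x ∈ p.rootSet (Pui ℂ) := by
        rw [Polynomial.mem_rootSet]
        refine ⟨hm.ne_zero, ?_⟩
        rw [Polynomial.aeval_def, ← Polynomial.eval_map]
        exact (Polynomial.mem_roots hm2.ne_zero).1 hx
      rw [← Algebra.IsAlgebraic.range_eval_eq_rootSet_minpoly] at h5
      obtain ⟨τ, rfl⟩ := h5
      exact (mem_BR b).1 hb τ
    rw [Polynomial.lifts_iff_coeff_lifts] at h3
    obtain ⟨y, hy⟩ := h3 i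
    rw [coeff_map, hal] at hy
    rw [← hy]
    exact y.2
  have h2 : ∀ i, algebraMap (RatFunc ℂ) E (p.coeff i) ∈ V := fun i => rat_mem V hC ht _ (h1 i)
  have h3 : p.map (algebraMap (RatFunc ℂ) E) ∈ Polynomial.lifts V.subtype := by
    rw [Polynomial.lifts_iff_coeff_lifts]
    intro i
    rw [coeff_map]
    exact ⟨⟨_, h2 i⟩, rfl⟩
  obtain ⟨q, hq, _, hqm⟩ := Polynomial.lifts_and_natDegree_eq_and_monic h3 (hm.map _)
  have h4 : IsIntegral V b := by
    refine ⟨q, hqm, ?_⟩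
    have h5 : algebraMap V E = V.subtype := rfl
    rw [h5, ← Polynomial.eval_map, hq, Polynomial.eval_map, ← Polynomial.aeval_def]
    exact minpoly.aeval _ _
  obtain ⟨y, hy⟩ := IsIntegrallyClosed.isIntegral_iff.1 h4
  rw [← hy]
  exact y.2

end place

/-- **Embedding a place.** -/
theorem exists_place {E : Type} [Field E] [Algebra (RatFunc ℂ) E]
    [FiniteDimensional (RatFunc ℂ) E] (V : ValuationSubring E)
    (hC : ∀ c : ℂ, algebraMap (RatFunc ℂ) E (algebraMap ℂ[X] _ (C c)) ∈ V)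
    (ht : V.valuation (algebraMap (RatFunc ℂ) E (algebraMap ℂ[X] _ X)) < 1) :
    ∃ σ : E →+* Pui ℂ, (∀ f, σ (algebraMap (RatFunc ℂ) E f) = ratP f) ∧
      ∀ w, V.valuation w < 1 → Pos (σ w : HQ ℂ) := by
  classical
  let : Algebra (RatFunc ℂ) (Pui ℂ) := ratP.toAlgebra
  have hal : ∀ f, algebraMap (RatFunc ℂ) (Pui ℂ) f = ratP f := fun f => rfl
  let : Fintype (E →ₐ[RatFunc ℂ] Pui ℂ) := Fintype.ofFinite _
  let I : Ideal (BR E) :=
    { carrier := {b | V.valuation b.1 < 1}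
      add_mem' := by
        intro a b ha hb
        exact V.valuation.map_add_lt ha hb
      zero_mem' := by
        change V.valuation (0 : E) < 1
        rw [map_zero]
        exact zero_lt_one
      smul_mem' := by
        intro c b hb
        change V.valuation (c.1 * b.1) < 1
        rw [map_mul]
        exact lt_of_le_of_lt (mul_le_of_le_one_left'
          ((V.valuation_le_one_iff _).2 (BR_le V hal hC ht c.1 c.2))) hb }
  have hI : (I : Set (BR E)) ⊆
      ⋃ τ ∈ ((Finset.univ : Finset (E →ₐ[RatFunc ℂ] Pui ℂ)) : Set (E →ₐ[RatFunc ℂ] Pui ℂ)),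
        (pI τ : Set (BR E)) := by
    intro b hb
    by_contra hcon
    simp only [Finset.coe_univ, Set.mem_univ, Set.iUnion_true, Set.mem_iUnion, SetLike.mem_coe,
      not_exists] at hcon
    have h1 : (b.1)⁻¹ ∈ BR E := by
      rw [mem_BR]
      intro τ
      have h2 := hcon τ
      rw [mem_pI, pos_iff (x := (τ b.1 : HQ ℂ)) ((mem_BR b.1).1 b.2 τ)] at h2
      rw [map_inv₀]
      exact inv_mem_of_coeff_ne_zero ((mem_BR b.1).1 b.2 τ) h2
    have h2 := BR_le V hal hC ht _ h1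
    have h3 : V.valuation b.1 < 1 := hb
    rw [← V.valuation_le_one_iff, map_inv₀] at h2
    have h4 : b.1 ≠ 0 := by
      intro h
      obtain ⟨τ⟩ : Nonempty (E →ₐ[RatFunc ℂ] Pui ℂ) := ⟨IsAlgClosed.lift⟩
      apply hcon τ
      rw [mem_pI, h, map_zero]
      intro q _
      rfl
    have h5 : V.valuation b.1 ≠ 0 := (_root_.map_ne_zero _).2 h4
    have h6 := mul_lt_one_of_lt_of_le h3 h2
    rw [mul_inv_cancel₀ h5] at h6
    exact lt_irrefl _ h6
  obtain ⟨τ₀⟩ : Nonempty (E →ₐ[RatFunc ℂ] Pui ℂ) := ⟨IsAlgClosed.lift⟩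
  obtain ⟨τ, _, hτ⟩ := (Ideal.subset_union_prime τ₀ τ₀ (fun τ _ _ _ => pI_prime τ)).1 hI
  refine ⟨(τ : E →+* Pui ℂ), fun f => τ.commutes f, fun w hw => ?_⟩
  by_cases hw0 : w = 0
  · rw [hw0, map_zero]
    intro q _
    rfl
  -- choose a constant
  obtain ⟨c, hc⟩ := Set.Infinite.exists_notMem_finset (s := (Set.univ : Set ℂ))
    Set.infinite_univ
    (Finset.univ.image fun τ : E →ₐ[RatFunc ℂ] Pui ℂ => ((τ w⁻¹ : Pui ℂ) : HQ ℂ).coeff 0)
  have hc := hc.2
  have hc1 : ∀ τ : E →ₐ[RatFunc ℂ] Pui ℂ, ((τ w⁻¹ : Pui ℂ) : HQ ℂ).coeff 0 ≠ c := by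
    intro τ h
    exact hc (Finset.mem_image.2 ⟨τ, Finset.mem_univ _, h⟩)
  let ce : E := algebraMap (RatFunc ℂ) E (algebraMap ℂ[X] _ (C c))
  have hτc : ∀ τ : E →ₐ[RatFunc ℂ] Pui ℂ, τ ce = cP c := by
    intro τ
    rw [τ.commutes, hal, ratP_algebraMap]
    exact eval₂_C _ _
  have hvw : 1 < V.valuation w⁻¹ := by
    rw [map_inv₀]
    exact (one_lt_inv₀ (zero_lt_iff.2 ((_root_.map_ne_zero _).2 hw0))).2 hw
  have hv1 : V.valuation (w⁻¹ - ce) = V.valuation w⁻¹ := by
    apply Valuation.map_sub_eq_of_lt_left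
    exact lt_of_le_of_lt ((V.valuation_le_one_iff _).2 (hC c)) hvw
  have hu : ∀ τ : E →ₐ[RatFunc ℂ] Pui ℂ, τ (w⁻¹ - ce)⁻¹ ∈ OP := by
    intro τ
    rw [map_inv₀, map_sub, hτc]
    change ((τ w⁻¹ : HQ ℂ) - HahnSeries.C c)⁻¹ ∈ (OH : Subring (HQ ℂ))
    by_cases h1 : (τ w⁻¹ : HQ ℂ) ∈ (OH : Subring (HQ ℂ))
    · apply inv_mem_of_coeff_ne_zero (sub_mem h1 (C_mem c))
      rw [HahnSeries.coeff_sub, coeff_C', if_pos rfl]
      exact sub_ne_zero.2 (hc1 τ)
    · refine (Pool.Agent.Helper165.P1.mem_or_inv_mem _).resolve_left fun h2 => h1 ?_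
      have := add_mem h2 (C_mem c)
      rwa [sub_add_cancel] at this
  have hu2 : (w⁻¹ - ce)⁻¹ ∈ BR E := (mem_BR _).2 hu
  have hu3 : (⟨(w⁻¹ - ce)⁻¹, hu2⟩ : BR E) ∈ I := by
    change V.valuation (w⁻¹ - ce)⁻¹ < 1
    rw [map_inv₀, hv1, map_inv₀, inv_inv]
    exact hw
  have hu4 := hτ hu3
  rw [mem_pI] at hu4
  apply pos_of_inv_not_mem
  intro h1
  have h2 : (τ (w⁻¹ - ce) : HQ ℂ) ∈ (OH : Subring (HQ ℂ)) := by
    rw [map_sub, hτc]
    have h3 : (τ w⁻¹ : HQ ℂ) ∈ (OH : Subring (HQ ℂ)) := by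
      rw [map_inv₀]
      exact h1
    exact sub_mem h3 (C_mem c)
  have h3 : (w⁻¹ - ce) ≠ 0 := by
    intro h
    rw [h, map_zero] at hv1
    rw [← hv1] at hvw
    exact absurd hvw (not_lt.2 zero_le)
  refine not_pos_of_inv_mem (x := (τ (w⁻¹ - ce)⁻¹ : HQ ℂ)) ?_ ?_ hu4
  · intro h
    have h5 : τ (w⁻¹ - ce)⁻¹ = 0 := Subtype.ext h
    rw [map_eq_zero] at h5
    exact inv_ne_zero h3 h5
  · rw [map_inv₀]
    change ((τ (w⁻¹ - ce) : HQ ℂ)⁻¹)⁻¹ ∈ _
    rw [inv_inv]
    exact h2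

end Pool.Agent.Helper16K9.Ver
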