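import Pool.Agent.Helper16K9.Ver.Ring
import Pool.Agent.Helper16K9.Ver.Place
import Pool.Agent.H135R2.VS.Der

set_option autoImplicit false
set_option linter.unusedSectionVars false

/-!
# A Puiseux parametrisation of a curve through the point, in a general direction
-/

namespace Pool.Agent.Helper16K9.Ver

open IsLocalRing MvPolynomial Pool.Agent.Helper165.P1

theorem exists_const {A : Type} [CommRing A] [IsDomain A] [Algebra ℂ A] {x : A}
    (hx : IsAlgebraic ℂ x) : ∃ c : ℂ, algebraMap ℂ A c = x :=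
  minpoly.mem_range_of_degree_eq_one ℂ x
    (IsAlgClosed.degree_eq_one_of_irreducible ℂ (minpoly.irreducible hx.isIntegral))

theorem exists_rat_point {κ : Type} {F : MvPolynomial κ ℂ} (hF : F ≠ 0) :
    ∃ v : κ → ℚ, eval (fun i => (v i : ℂ)) F ≠ 0 := by
  by_contra hcon
  push Not at hcon
  apply hF
  refine funext_set (fun _ => Set.range (fun q : ℚ => (q : ℂ))) (fun _ => ?_) fun x hx => ?_
  · exact Set.infinite_range_of_injective Rat.cast_injective
  · rw [map_zero]
    have hx' : ∀ i, ∃ q : ℚ, (q : ℂ) = x i := fun i => hx i (Set.mem_univ i)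
    choose v hv using hx'
    have := hcon v
    simp only [hv] at this
    exact this

theorem exists_field (R : Type) [CommRing R] [IsDomain R] [Algebra ℂ R] :
    ∃ (L : Type) (_ : Field L) (_ : Algebra ℂ L) (ι : R →ₐ[ℂ] L), Function.Injective ι :=
  ⟨FractionRing R, inferInstance, inferInstance, IsScalarTower.toAlgHom ℂ R (FractionRing R),
    IsFractionRing.injective R (FractionRing R)⟩

section abs

variable {κ : Type} [Fintype κ] [DecidableEq κ] {R : Type} [CommRing R] [IsLocalRing R]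
  [IsNoetherianRing R] [Algebra ℂ R] (g : κ → R)

theorem trans_g (hg : ∀ i, g i ∈ maximalIdeal R)
    (H : ∀ q : Ideal R, q.IsPrime → (∀ i, g i ∈ q) → q = maximalIdeal R)
    (v : κ → ℚ) (i₀ : κ) (hv : v i₀ ≠ 0) {q : Ideal R} (hq : q.IsPrime)
    (hne : q ≠ maximalIdeal R)
    (h : ∀ i, algebraMap ℂ R (v i₀) * g i - algebraMap ℂ R (v i) * g i₀ ∈ q) :
    Transcendental ℂ (Ideal.Quotient.mk q (g i₀)) := by
  intro hal
  have : IsDomain (R ⧸ q) := Ideal.Quotient.isDomain q
  obtain ⟨c, hc⟩ := exists_const hal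
  have h1 : g i₀ - algebraMap ℂ R c ∈ q := by
    rw [← Ideal.Quotient.eq]
    exact hc.symm
  have h2 : c = 0 := by
    by_contra hc0
    have h3 := sub_mem (hg i₀) (le_maximalIdeal hq.ne_top h1)
    rw [sub_sub_cancel] at h3
    exact (mem_maximalIdeal _).1 h3 ((isUnit_iff_ne_zero.2 hc0).map (algebraMap ℂ R))
  rw [h2, map_zero, sub_zero] at h1
  apply hne
  apply H q hq
  intro i
  have h3 := q.add_mem (h i) (q.mul_mem_left (algebraMap ℂ R (v i)) h1)
  rw [sub_add_cancel] at h3
  rcases hq.mem_or_mem h3 with h4 | h4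
  · exfalso
    have hv' : (v i₀ : ℂ) ≠ 0 := by exact_mod_cast hv
    exact hq.ne_top (q.eq_top_of_isUnit_mem h4 ((isUnit_iff_ne_zero.2 hv').map _))
  · exact h4

/-- a curve in a given direction -/
theorem exists_E (hM : (maximalIdeal R).height = (Fintype.card κ : ℕ∞))
    (hg : ∀ i, g i ∈ maximalIdeal R)
    (H : ∀ q : Ideal R, q.IsPrime → (∀ i, g i ∈ q) → q = maximalIdeal R)
    (v : κ → ℚ) (i₀ : κ) (hv : v i₀ ≠ 0) :
    ∃ (E : Type) (_ : Field E) (_ : Algebra ℂ E) (π : R →ₐ[ℂ] E) (t : E),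
      Transcendental ℂ t ∧ (∀ i, π (g i) = algebraMap ℂ E (v i) * t) ∧
      (∀ x, ∃ y w, π w ≠ 0 ∧ x * π w = π y) := by
  obtain ⟨q, hq, hne, h⟩ := exists_curve hM g hg v i₀ hv
  have hdom : IsDomain (R ⧸ q) := Ideal.Quotient.isDomain q
  have htr := trans_g g hg H v i₀ hv hq hne h
  let E := FractionRing (R ⧸ q)
  have hv' : (v i₀ : ℂ) ≠ 0 := by exact_mod_cast hv
  let π : R →ₐ[ℂ] E :=
    (IsScalarTower.toAlgHom ℂ (R ⧸ q) E).comp (Ideal.Quotient.mkₐ ℂ q)
  have hinj : Function.Injective (algebraMap (R ⧸ q) E) := IsFractionRing.injective _ _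
  have hpi : ∀ x ∈ q, π x = 0 := by
    intro x hx
    change algebraMap (R ⧸ q) E (Ideal.Quotient.mk q x) = 0
    rw [Ideal.Quotient.eq_zero_iff_mem.2 hx, map_zero]
  refine ⟨E, inferInstance, inferInstance, π, (algebraMap ℂ E (v i₀))⁻¹ * π (g i₀), ?_, ?_, ?_⟩
  · intro hal
    have h1 : IsAlgebraic ℂ (π (g i₀)) := by
      have h2 := (isAlgebraic_algebraMap (A := E) (v i₀ : ℂ)).mul hal
      rwa [← mul_assoc, mul_inv_cancel₀, one_mul] at h2
      exact (map_ne_zero _).2 hv'
    apply htr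
    exact (isAlgebraic_algebraMap_iff hinj).1 h1
  · intro i
    have h1 := hpi _ (h i)
    rw [map_sub, map_mul, map_mul, AlgHom.commutes, AlgHom.commutes, sub_eq_zero] at h1
    have h2 : algebraMap ℂ E (v i₀) ≠ 0 := (map_ne_zero _).2 hv'
    rw [mul_left_comm, ← h1, inv_mul_cancel_left₀ h2]
  · intro x
    obtain ⟨⟨a, b⟩, hab⟩ := IsLocalization.surj (nonZeroDivisors (R ⧸ q)) x
    obtain ⟨y, hy⟩ := Ideal.Quotient.mk_surjective a
    obtain ⟨w, hw⟩ := Ideal.Quotient.mk_surjective b.1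
    refine ⟨y, w, ?_, ?_⟩
    · change algebraMap (R ⧸ q) E (Ideal.Quotient.mk q w) ≠ 0
      rw [hw]
      exact (map_ne_zero_iff _ hinj).2 (nonZeroDivisors.ne_zero b.2)
    · change x * algebraMap (R ⧸ q) E (Ideal.Quotient.mk q w) =
        algebraMap (R ⧸ q) E (Ideal.Quotient.mk q y)
      rw [hw, hy]
      exact hab

end abs

section

variable {κ : Type} [Fintype κ] [DecidableEq κ] (z : κ → ℂ) (g : κ → LR z)

theorem aeval_ne_zero_of_trans {E : Type} [Field E] [Algebra ℂ E] {t : E}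
    (ht : Transcendental ℂ t) (v : κ → ℚ) (F : MvPolynomial κ ℂ)
    (hF : eval (fun i => (v i : ℂ)) F ≠ 0) :
    aeval (fun i => algebraMap ℂ E (v i) * t) F ≠ 0 := by
  intro h
  let p : Polynomial ℂ := aeval (fun i => Polynomial.C (v i : ℂ) * Polynomial.X) F
  have h1 : Polynomial.aeval t p = aeval (fun i => algebraMap ℂ E (v i) * t) F := by
    have : (Polynomial.aeval t).comp (aeval fun i => Polynomial.C (v i : ℂ) * Polynomial.X) =
        (aeval (fun i => algebraMap ℂ E (v i) * t) : MvPolynomial κ ℂ →ₐ[ℂ] E) := by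
      apply MvPolynomial.algHom_ext
      intro i
      simp
    exact DFunLike.congr_fun this F
  rw [h] at h1
  have h2 : p = 0 := by
    by_contra h3
    exact ht ⟨p, h3, h1⟩
  apply hF
  have h3 : Polynomial.eval 1 p = eval (fun i => (v i : ℂ)) F := by
    have : (Polynomial.aeval (1 : ℂ)).comp
        (aeval fun i => Polynomial.C (v i : ℂ) * Polynomial.X) =
        (aeval (fun i => (v i : ℂ)) : MvPolynomial κ ℂ →ₐ[ℂ] ℂ) := by
      apply MvPolynomial.algHom_ext
      intro i
      simp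
    have h4 := DFunLike.congr_fun this F
    simp only [AlgHom.comp_apply, Polynomial.coe_aeval_eq_eval] at h4
    exact h4
  rw [← h3, h2, Polynomial.eval_zero]

theorem algInd_g [Nonempty κ] (hg : ∀ i, g i ∈ maximalIdeal (LR z))
    (H : ∀ q : Ideal (LR z), q.IsPrime → (∀ i, g i ∈ q) → q = maximalIdeal (LR z)) :
    AlgebraicIndependent ℂ g := by
  rw [algebraicIndependent_iff]
  intro F hF
  by_contra hne
  obtain ⟨i₀⟩ := ‹Nonempty κ›
  obtain ⟨v, hv⟩ := exists_rat_point (mul_ne_zero hne (X_ne_zero i₀ : (X i₀ : MvPolynomial κ ℂ) ≠ 0))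
  rw [map_mul, eval_X] at hv
  have hv0 : v i₀ ≠ 0 := by
    have := right_ne_zero_of_mul hv
    exact_mod_cast this
  obtain ⟨E, _, _, π, t, ht, h1, _⟩ := exists_E g (height_LR z) hg H v i₀ hv0
  apply aeval_ne_zero_of_trans ht v F (left_ne_zero_of_mul hv)
  have h2 := congrArg π hF
  rw [map_zero] at h2
  rw [← h2]
  have : π.comp (aeval g) = (aeval (fun i => algebraMap ℂ E (v i) * t) :
      MvPolynomial κ ℂ →ₐ[ℂ] E) := by
    apply MvPolynomial.algHom_ext
    intro i
    simp [h1]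
  exact (DFunLike.congr_fun this F).symm

/-- the Jacobian matrix -/
noncomputable def JM : Matrix κ κ (LR z) := Matrix.of fun i a => dl z a (g i)

theorem det_ne_zero (hai : AlgebraicIndependent ℂ g) : (JM z g).det ≠ 0 := by
  obtain ⟨L, _, _, ι, hinj⟩ := exists_field (LR z)
  have hai2 : AlgebraicIndependent ℂ (ι ∘ g) := hai.map' hinj
  have h1 : ∀ j : κ, ∃ D : Derivation ℂ L L, ∀ i, D (ι (g i)) = if i = j then 1 else 0 :=
    fun j => Pool.Agent.H135R2.VS.exists_der hai2 (fun i => if i = j then 1 else 0)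
  choose D hD using h1
  let N : Matrix κ κ L := Matrix.of fun a j => D j (ι (Z z a))
  have h2 : ((JM z g).map ι) * N = 1 := by
    ext i j
    rw [Matrix.mul_apply, Matrix.one_apply, ← hD j i]
    have := chain z (ι : LR z →+* L) (fun x => D j (ι x)) ?_ ?_ ?_ (g i)
    · rw [this]
      rfl
    · intro x y
      rw [map_add, map_add]
    · intro x y
      rw [map_mul, Derivation.leibniz]
      rfl
    · intro c
      rw [AlgHom.commutes, Derivation.map_algebraMap]
  intro h
  have h3 := congrArg Matrix.det h2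
  rw [Matrix.det_mul, Matrix.det_one] at h3
  have h4 : ((JM z g).map ι).det = ι (JM z g).det := by
    have := RingHom.map_det (ι : LR z →+* L) (JM z g)
    exact this.symm
  rw [h4, h, map_zero, zero_mul] at h3
  exact zero_ne_one h3

theorem basis_g (hai : AlgebraicIndependent ℂ g) : IsTranscendenceBasis ℂ g := by
  have : Algebra.IsAlgebraic (MvPolynomial κ ℂ) (LR z) :=
    IsLocalization.isAlgebraic (R := MvPolynomial κ ℂ) (S := LR z) (pt z).primeCompl
  have : FaithfulSMul (MvPolynomial κ ℂ) (LR z) := by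
    rw [faithfulSMul_iff_algebraMap_injective]
    exact IsLocalization.injective _ (pt z).primeCompl_le_nonZeroDivisors
  have h1 : IsTranscendenceBasis ℂ (algebraMap (MvPolynomial κ ℂ) (LR z) ∘ X) :=
    (IsTranscendenceBasis.mvPolynomial κ ℂ).algebraMap_comp
  apply hai.isTranscendenceBasis_of_trdeg_le_of_finite
  rw [← h1.cardinalMk_eq_trdeg]

end

end Pool.Agent.Helper16K9.Ver
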