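import Pool.Agent.W956.KF.Defs
import Pool.Agent.H826R3.SM.Rank

set_option autoImplicit false

/-!
# Nondeterministic verification of matrix products: definitions
-/

namespace Pool.Agent.Helper16K9.Ver

/-- An affine combination `const + ∑ i, inp i * (i-th input) + ∑ j, prev j * (j-th computed number)`
with complex coefficients. -/
structure Lin (I : Type) where
  /-- the constant term -/
  const : ℂ
  /-- the coefficients of the inputs -/
  inp : I → ℂ
  /-- the coefficients of the numbers computed before -/
  prev : ℕ → ℂ

/-- The value of an affine combination for the input `x`, when the numbers `w 0, …, w (m - 1)` have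
been computed. -/
noncomputable def Lin.val {I : Type} [Fintype I] (l : Lin I) (x : I → ℂ) (w : ℕ → ℂ) (m : ℕ) : ℂ :=
  l.const + ∑ i, l.inp i * x i + ∑ j ∈ Finset.range m, l.prev j * w j

/-- Nondeterministic algebraic computation trees over `ℂ` with inputs indexed by `I`. A node `mul`
multiplies, and a node `div` divides, two affine combinations of the inputs and of the numbers
computed before; a node `guess` guesses a complex number; a node `test u s t` continues with `s` if
the affine combination `u` is zero, and with `t` if it is not. The leaves accept or reject. -/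
inductive Tree (I : Type) : Type
  | accept : Tree I
  | reject : Tree I
  | mul (u v : Lin I) (t : Tree I) : Tree I
  | div (u v : Lin I) (t : Tree I) : Tree I
  | guess (t : Tree I) : Tree I
  | test (u : Lin I) (s t : Tree I) : Tree I

/-- `Accepts x t m w L`: on the input `x` the tree `t`, started when the numbers
`w 0, …, w (m - 1)` have been computed, has an accepting run with at most `L` multiplications and
divisions. Guesses, tests and affine combinations are free; a run which divides by zero does not
accept. -/
noncomputable def Accepts {I : Type} [Fintype I] (x : I → ℂ) : Tree I → ℕ → (ℕ → ℂ) → ℕ → Prop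
  | .accept, _, _, _ => True
  | .reject, _, _, _ => False
  | .mul u v t, m, w, L => ∃ L', L = L' + 1 ∧
      Accepts x t (m + 1) (Function.update w m (u.val x w m * v.val x w m)) L'
  | .div u v t, m, w, L => v.val x w m ≠ 0 ∧ ∃ L', L = L' + 1 ∧
      Accepts x t (m + 1) (Function.update w m (u.val x w m / v.val x w m)) L'
  | .guess t, m, w, L => ∃ y : ℂ, Accepts x t (m + 1) (Function.update w m y) L
  | .test u s t, m, w, L => (u.val x w m = 0 ∧ Accepts x s m w L) ∨
      (u.val x w m ≠ 0 ∧ Accepts x t m w L)

/-- Let `f : ℂ ^ J → ℂ ^ M`. The tree `t`, whose inputs are `x ∈ ℂ ^ J` and `y ∈ ℂ ^ M`, verifies for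
generic `x` that `y = f x`, with `L` multiplications and divisions: there is a nonzero polynomial `P`
such that, whenever `P` does not vanish at `x`, the input `(x, f x)` has an accepting run with at most
`L` multiplications and divisions, and `(x, y)` has no accepting run (of any cost) if `y ≠ f x`. -/
def Verifies {J M : Type} [Fintype J] [Fintype M] (f : (J → ℂ) → (M → ℂ)) (t : Tree (J ⊕ M))
    (L : ℕ) : Prop :=
  ∃ P : MvPolynomial J ℂ, P ≠ 0 ∧ ∀ x : J → ℂ, MvPolynomial.eval x P ≠ 0 →
    Accepts (Sum.elim x (f x)) t 0 0 L ∧
      ∀ (y : M → ℂ) (L' : ℕ), Accepts (Sum.elim x y) t 0 0 L' → y = f x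

/-- The tree `t` decides nondeterministically whether the input lies in the set `S`: every input in
`S` has an accepting run with at most `L` multiplications and divisions, and no input outside `S` has
an accepting run. -/
def Decides {I : Type} [Fintype I] (S : Set (I → ℂ)) (t : Tree I) (L : ℕ) : Prop :=
  (∀ x ∈ S, Accepts x t 0 0 L) ∧ ∀ (x : I → ℂ) (L' : ℕ), Accepts x t 0 0 L' → x ∈ S

/-- The nondeterministic complexity of a set: the least number of multiplications and divisions with
which a nondeterministic algebraic computation tree decides the set. -/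
noncomputable def ncost {I : Type} [Fintype I] (S : Set (I → ℂ)) : ℕ :=
  sInf {L | ∃ t : Tree I, Decides S t L}

/-- The least number of multiplications and divisions with which a nondeterministic tree verifies the
function `f` for generic inputs. -/
noncomputable def gcost {J M : Type} [Fintype J] [Fintype M] (f : (J → ℂ) → (M → ℂ)) : ℕ :=
  sInf {L | ∃ t : Tree (J ⊕ M), Verifies f t L}

/-- The matrix with the entries `x (i, j)`. -/
def mat {N : ℕ} (x : Fin N × Fin N → ℂ) : Matrix (Fin N) (Fin N) ℂ := Matrix.of fun i j => x (i, j)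

/-- The product of two matrices as a function of their entries. -/
def productFun (N : ℕ) (x : (Fin N × Fin N) ⊕ (Fin N × Fin N) → ℂ) : Fin N × Fin N → ℂ :=
  fun p => (mat (fun p => x (.inl p)) * mat (fun p => x (.inr p))) p.1 p.2

/-- The trace of `A * B * C` as a function of the entries of the `N × N` matrices `A`, `B`, `C`. -/
def traceFun (N : ℕ) (x : ((Fin N × Fin N) ⊕ (Fin N × Fin N)) ⊕ (Fin N × Fin N) → ℂ) : Unit → ℂ :=
  fun _ => (mat (fun p => x (.inl (.inl p))) * mat (fun p => x (.inl (.inr p))) *
    mat (fun p => x (.inr p))).trace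

/-- The determinant as a function of the entries. -/
def detFun (N : ℕ) (x : Fin N × Fin N → ℂ) : Unit → ℂ := fun _ => (mat x).det

/-- The triples of `N × N` matrices `A`, `B`, `C` with `A * B = C`. -/
def productSet (N : ℕ) : Set ((((Fin N × Fin N) ⊕ (Fin N × Fin N)) ⊕ (Fin N × Fin N)) → ℂ) :=
  {x | mat (fun p => x (.inl (.inl p))) * mat (fun p => x (.inl (.inr p))) =
    mat (fun p => x (.inr p))}

/-- The pairs of `N × N` matrices `A`, `B` with `A * B = 0`. -/
def zeroProductSet (N : ℕ) : Set (((Fin N × Fin N) ⊕ (Fin N × Fin N)) → ℂ) :=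
  {x | mat (fun p => x (.inl p)) * mat (fun p => x (.inr p)) = 0}

/-- The pairs of `N × N` matrices `A`, `B` with `A * B = 1`. -/
def inverseSet (N : ℕ) : Set (((Fin N × Fin N) ⊕ (Fin N × Fin N)) → ℂ) :=
  {x | mat (fun p => x (.inl p)) * mat (fun p => x (.inr p)) = 1}

/-- The pairs of commuting `N × N` matrices. -/
def commutingSet (N : ℕ) : Set (((Fin N × Fin N) ⊕ (Fin N × Fin N)) → ℂ) :=
  {x | mat (fun p => x (.inl p)) * mat (fun p => x (.inr p)) =
    mat (fun p => x (.inr p)) * mat (fun p => x (.inl p))}

/-- The `N × N` matrices of square zero. -/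
def squareZeroSet (N : ℕ) : Set (Fin N × Fin N → ℂ) := {x | mat x * mat x = 0}

/-- The idempotent `N × N` matrices. -/
def idempotentSet (N : ℕ) : Set (Fin N × Fin N → ℂ) := {x | mat x * mat x = mat x}

/-- The `N × N` matrices of rank at most `r`. -/
def rankSet (N r : ℕ) : Set (Fin N × Fin N → ℂ) := {x | (mat x).rank ≤ r}

/-- The quadruples `A`, `B`, `C`, `d` of three `N × N` matrices and a number with
`trace (A * B * C) = d`. -/
def traceSet (N : ℕ) :
    Set (((((Fin N × Fin N) ⊕ (Fin N × Fin N)) ⊕ (Fin N × Fin N)) ⊕ Unit) → ℂ) :=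
  {x | (mat (fun p => x (.inl (.inl (.inl p)))) * mat (fun p => x (.inl (.inl (.inr p)))) *
    mat (fun p => x (.inl (.inr p)))).trace = x (.inr ())}

/-- The `N × N` matrices `A` with `trace (A * A * A) = 0`. -/
def cubeTraceSet (N : ℕ) : Set (Fin N × Fin N → ℂ) := {x | (mat x * mat x * mat x).trace = 0}

/-- The edge weights `A` of the complete graph on `N` vertices (symmetric `N × N` matrices with zero
diagonal) with `trace (A * A * A) = 0`, that is, with weighted number of triangles zero. -/
def triangleSet (N : ℕ) : Set (Fin N × Fin N → ℂ) :=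
  {x | (mat x).IsSymm ∧ (∀ i, mat x i i = 0) ∧ (mat x * mat x * mat x).trace = 0}

/-- The pairs of an `N × N` matrix `A` and a number `d` with `det A = d`. -/
def detSet (N : ℕ) : Set (((Fin N × Fin N) ⊕ Unit) → ℂ) :=
  {x | (mat fun p => x (.inl p)).det = x (.inr ())}

/-- The `N × N` matrices of determinant one. -/
def slSet (N : ℕ) : Set (Fin N × Fin N → ℂ) := {x | (mat x).det = 1}

/-- The orthogonal `N × N` matrices. -/
def orthogonalSet (N : ℕ) : Set (Fin N × Fin N → ℂ) := {x | (mat x).transpose * mat x = 1}

/-- The pairs of an `N × N` matrix and its characteristic polynomial, which is given by its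
coefficients of degree less than `N`. -/
def charpolySet (N : ℕ) : Set (((Fin N × Fin N) ⊕ Fin N) → ℂ) :=
  {x | ∀ i : Fin N, (mat fun p => x (.inl p)).charpoly.coeff i = x (.inr i)}

/-- The tree does not use guesses. -/
def Tree.Det {I : Type} : Tree I → Prop
  | .accept => True
  | .reject => True
  | .mul _ _ t => t.Det
  | .div _ _ t => t.Det
  | .guess _ => False
  | .test _ s t => s.Det ∧ t.Det

/-- The border rank of the tensor of `n × n` matrix multiplication over `ℂ`. -/
noncomputable def borderRank (n : ℕ) : ℕ :=
  sInf {r | ∃ h, Pool.Agent.H826R3.SM.AD ℂ (Fin n) (Fin r) h}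

/-- Some nondeterministic tree decides `S`, the nondeterministic complexity of `S` is at least `l / k`
and at most `u`. -/
def Costs {I : Type} [Fintype I] (S : Set (I → ℂ)) (l k u : ℕ) : Prop :=
  (∃ t : Tree I, Decides S t (ncost S)) ∧ l ≤ k * ncost S ∧ ncost S ≤ u

/-- The function `f` grows like matrix multiplication: its exponent, the infimum of the `τ` with
`f N = O(N ^ τ)`, is the exponent of matrix multiplication over `ℂ`, and `f` is superlinear as a
function of `N ^ 2` if and only if the circuit size of matrix multiplication over `ℂ` is. -/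
def LikeMM (f : ℕ → ℕ) : Prop :=
  Pool.Agent.W956.KF.growth f = Pool.Agent.W956.KF.omega ℂ ∧
    (Pool.Agent.W956.KF.Superlinear (Pool.Agent.W956.KF.sizeMM ℂ) ↔
      ∃ α : ℝ, 1 < α ∧ ∃ c : ℝ, 0 < c ∧ ∀ᶠ N : ℕ in Filter.atTop,
        c * (((N : ℝ) ^ 2) ^ α) ≤ f N)

end Pool.Agent.Helper16K9.Ver
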