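import Pool.Agent.Helper16K9.Ver.UpTr

set_option autoImplicit false
set_option linter.unusedSectionVars false
set_option linter.unusedVariables false

/-!
# Two easy decision problems
-/

namespace Pool.Agent.Helper16K9.Ver

open Finset Matrix Pool.Agent.W956.KF

section

variable {I : Type} [Fintype I]

theorem Decides.union {S₁ S₂ : Set (I → ℂ)} {t₁ t₂ : Tree I} {L : ℕ}
    (h₁ : Decides S₁ t₁ L) (h₂ : Decides S₂ t₂ L) : ∃ t : Tree I, Decides (S₁ ∪ S₂) t L := by
  have hsub : ∀ (t : Tree I) (x : I → ℂ) (y : ℂ) (L' : ℕ),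
      Accepts x (t.sub linVar 1) (0 + 1) (Function.update 0 0 y) L' ↔ Accepts x t 0 0 L' := by
    intro t x y L'
    rw [Nat.zero_add, show (1 : ℕ) = 1 + 0 from rfl]
    rw [accepts_sub linVar (1 + 0) x x t 0 _ L' (fun i => linVar_val i x _ _)]
    exact ⟨Accepts.congr (fun j hj => absurd hj (Nat.not_lt_zero j)),
      Accepts.congr (fun j hj => absurd hj (Nat.not_lt_zero j))⟩
  refine ⟨.guess (.test (linPrev 0) (t₁.sub linVar 1) (t₂.sub linVar 1)), ?_⟩
  have key : ∀ (x : I → ℂ) (L' : ℕ),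
      Accepts x (.guess (.test (linPrev 0) (t₁.sub linVar 1) (t₂.sub linVar 1))) 0 0 L' ↔
        (Accepts x t₁ 0 0 L' ∨ Accepts x t₂ 0 0 L') := by
    intro x L'
    simp only [Accepts, hsub]
    have h1 : ∀ y : ℂ, (linPrev 0 : Lin I).val x (Function.update 0 0 y) (0 + 1) = y := by
      intro y
      rw [linPrev_val 0 _ _ _ (by norm_num), Function.update_self]
    simp only [h1]
    constructor
    · rintro ⟨y, ⟨_, h⟩ | ⟨_, h⟩⟩
      · exact Or.inl h
      · exact Or.inr h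
    · rintro (h | h)
      · exact ⟨0, Or.inl ⟨rfl, h⟩⟩
      · exact ⟨1, Or.inr ⟨one_ne_zero, h⟩⟩
  refine ⟨fun x hx => (key x L).2 ?_, fun x L' hx => ?_⟩
  · rcases hx with hx | hx
    · exact Or.inl (h₁.1 x hx)
    · exact Or.inr (h₂.1 x hx)
  · rcases (key x L').1 hx with h | h
    · exact Or.inl (h₁.2 x L' h)
    · exact Or.inr (h₂.2 x L' h)

theorem decides_biUnion {K : Type} (s : Finset K) (S : K → Set (I → ℂ)) (L : ℕ)
    (h : ∀ k, ∃ t : Tree I, Decides (S k) t L) : ∃ t : Tree I, Decides (⋃ k ∈ s, S k) t L := by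
  classical
  induction s using Finset.induction_on with
  | empty =>
    refine ⟨.reject, fun x hx => ?_, fun x L' hx => hx.elim⟩
    simp at hx
  | insert a s ha ih =>
    obtain ⟨t1, h1⟩ := h a
    obtain ⟨t2, h2⟩ := ih
    obtain ⟨t3, h3⟩ := h1.union h2
    rw [Finset.set_biUnion_insert]
    exact ⟨t3, h3⟩

theorem decides_iUnion {K : Type} [Fintype K] (S : K → Set (I → ℂ)) (L : ℕ)
    (h : ∀ k, ∃ t : Tree I, Decides (S k) t L) : ∃ t : Tree I, Decides (⋃ k, S k) t L := by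
  obtain ⟨t, ht⟩ := decides_biUnion Finset.univ S L h
  refine ⟨t, ?_⟩
  convert ht using 1
  simp

theorem decides_ne {f : (I → ℂ) → ℂ} (hf : IsAff f) : ∃ t : Tree I, Decides {x | f x ≠ 0} t 0 := by
  obtain ⟨l, hl⟩ := hf
  refine ⟨.test l .reject .accept, fun x hx => Or.inr ⟨?_, trivial⟩, fun x L' hx => ?_⟩
  · rw [hl]
    exact hx
  · rcases hx with ⟨_, h⟩ | ⟨h, _⟩
    · exact h.elim
    · rw [hl] at h
      exact h

end

theorem up_compl (N : ℕ) : ∃ t, Decides (productSet N)ᶜ t N := by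
  have h : ∀ p : Fin N × Fin N, ∃ t, Decides {x | (mA x * mB x) p.1 p.2 ≠ mC x p.1 p.2} t N := by
    intro p
    obtain ⟨t1, h1⟩ := decides_quad
      (I := ((((Fin N × Fin N) ⊕ (Fin N × Fin N)) ⊕ (Fin N × Fin N)) ⊕ Fin N)) (K := Fin N)
      (fun j z => mA (fun i => z (.inl i)) p.1 j) (fun j z => mB (fun i => z (.inl i)) j p.2)
      (fun j z => z (.inr j)) (fun j => isAff_var _) (fun j => isAff_var _) (fun j => isAff_var _)
    obtain ⟨t2, h2⟩ := decides_ne
      (I := ((((Fin N × Fin N) ⊕ (Fin N × Fin N)) ⊕ (Fin N × Fin N)) ⊕ Fin N))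
      (f := fun z => ∑ j, z (.inr j) - mC (fun i => z (.inl i)) p.1 p.2)
      ((isAff_sum _ _ fun j => isAff_var _).sub (isAff_var _))
    obtain ⟨s1, k1⟩ := h1.inter h2
    obtain ⟨s2, k2⟩ := k1.proj
    refine ⟨s2, ?_⟩
    rw [Fintype.card_fin, add_zero] at k2
    convert k2 using 1
    ext x
    simp only [Set.mem_inter_iff, Set.mem_ofPred_eq]
    constructor
    · intro hx
      refine ⟨fun j => mA x p.1 j * mB x j p.2, fun j => rfl, ?_⟩
      intro h3
      apply hx
      rw [Matrix.mul_apply]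
      exact sub_eq_zero.1 h3
    · rintro ⟨y, g1, g2⟩ h3
      apply g2
      have e1 : ∀ j, mA x p.1 j * mB x j p.2 = y j := g1
      have e2 : ∑ j, y j = mC x p.1 p.2 := by
        rw [← h3, Matrix.mul_apply]
        exact sum_congr rfl fun j _ => (e1 j).symm
      exact sub_eq_zero.2 e2
  obtain ⟨t, ht⟩ := decides_iUnion _ N h
  refine ⟨t, ?_⟩
  convert ht using 1
  ext x
  simp only [Set.mem_compl_iff, Set.mem_iUnion, mem_productSet]
  constructor
  · intro hx
    by_contra hcon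
    apply hx
    ext i k
    by_contra h3
    exact hcon ⟨(i, k), h3⟩
  · rintro ⟨p, hp⟩ hx
    apply hp
    rw [hx]

theorem up_singular (N : ℕ) :
    ∃ t, Decides {x : Fin N × Fin N → ℂ | (mat x).det = 0} t (N ^ 2) := by
  have h : ∀ i : Fin N, ∃ t, Decides {x : Fin N × Fin N → ℂ |
      ∃ v : Fin N → ℂ, v i = 1 ∧ (mat x) *ᵥ v = 0} t (N ^ 2) := by
    intro i
    obtain ⟨t1, h1⟩ := decides_quad
      (I := (Fin N × Fin N) ⊕ (Fin N ⊕ (Fin N × Fin N))) (K := Fin N × Fin N)
      (fun p z => z (.inl p)) (fun p z => z (.inr (.inl p.2)))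
      (fun p z => z (.inr (.inr p))) (fun j => isAff_var _) (fun j => isAff_var _)
      (fun j => isAff_var _)
    obtain ⟨t2, h2⟩ := decides_lin
      (I := (Fin N × Fin N) ⊕ (Fin N ⊕ (Fin N × Fin N))) (K := Unit ⊕ Fin N)
      (fun k z => match k with
        | .inl _ => z (.inr (.inl i)) - 1
        | .inr a => ∑ b, z (.inr (.inr (a, b)))) (by
        rintro (u | a)
        · exact (isAff_var _).sub (isAff_const _)
        · exact isAff_sum _ _ fun b => isAff_var _)
    obtain ⟨s1, k1⟩ := h1.inter h2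
    obtain ⟨s2, k2⟩ := k1.proj
    refine ⟨s2, ?_⟩
    rw [Fintype.card_prod, Fintype.card_fin, add_zero, ← sq] at k2
    convert k2 using 1
    ext x
    simp only [Set.mem_inter_iff, Set.mem_ofPred_eq]
    constructor
    · rintro ⟨v, hv, hx⟩
      refine ⟨Sum.elim v fun p => x p * v p.2, fun p => rfl, ?_⟩
      rintro (u | a)
      · exact sub_eq_zero.2 hv
      · exact congrFun hx a
    · rintro ⟨y, g1, g2⟩
      refine ⟨fun b => y (.inl b), sub_eq_zero.1 (g2 (.inl ())), ?_⟩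
      funext a
      have e1 : ∀ p : Fin N × Fin N, x p * y (.inl p.2) = y (.inr p) := g1
      have e2 : ∑ b, y (.inr (a, b)) = 0 := g2 (.inr a)
      rw [Pi.zero_apply, ← e2]
      change ∑ b, mat x a b * y (.inl b) = _
      exact sum_congr rfl fun b _ => e1 (a, b)
  obtain ⟨t, ht⟩ := decides_iUnion _ (N ^ 2) h
  refine ⟨t, ?_⟩
  convert ht using 1
  ext x
  simp only [Set.mem_iUnion, Set.mem_ofPred_eq]
  rw [← Matrix.exists_mulVec_eq_zero_iff]
  constructor
  · rintro ⟨v, hv, hx⟩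
    obtain ⟨i, hi⟩ : ∃ i, v i ≠ 0 := by
      by_contra hcon
      push Not at hcon
      exact hv (funext hcon)
    refine ⟨i, (v i)⁻¹ • v, ?_, ?_⟩
    · rw [Pi.smul_apply, smul_eq_mul, inv_mul_cancel₀ hi]
    · rw [Matrix.mulVec_smul, hx, smul_zero]
  · rintro ⟨i, v, hv, hx⟩
    refine ⟨v, ?_, hx⟩
    rintro rfl
    rw [Pi.zero_apply] at hv
    exact zero_ne_one hv

end Pool.Agent.Helper16K9.Ver
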