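import Pool.Agent.Helper16K9.Ver.Ring

set_option autoImplicit false
set_option linter.unusedSectionVars false

/-!
# Embeddings into the complex numbers and generic points
-/

namespace Pool.Agent.Helper16K9.Ver

open Cardinal

theorem exists_emb {k : Type} [Field k] [Countable k] [Algebra k ℂ] {E : Type} [Field E]
    [Algebra k E] (hE : #E = 𝔠) :
    ∃ ψ : E →+* ℂ, ∀ c : k, ψ (algebraMap k E c) = algebraMap k ℂ c := by
  let Ω := AlgebraicClosure E
  have hE2 : ℵ₀ ≤ #E := hE ▸ Cardinal.aleph0_le_continuum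
  have hΩ : #Ω = 𝔠 := by
    apply le_antisymm
    · have h1 := Algebra.IsAlgebraic.cardinalMk_le_max E Ω
      rw [max_eq_left hE2, hE] at h1
      exact h1
    · rw [← hE]
      exact Cardinal.mk_le_of_injective (algebraMap E Ω).injective
  have hC : #ℂ = 𝔠 := Cardinal.mk_complex
  have hk : #k ≤ ℵ₀ := Cardinal.mk_le_aleph0
  obtain ⟨s, hs⟩ := exists_isTranscendenceBasis k Ω
  obtain ⟨t, ht⟩ := exists_isTranscendenceBasis k ℂ
  have h1 := IsAlgClosed.cardinal_eq_cardinal_transcendence_basis_of_aleph0_lt' _ hs hk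
    (by rw [hΩ]; exact Cardinal.aleph0_lt_continuum)
  have h2 := IsAlgClosed.cardinal_eq_cardinal_transcendence_basis_of_aleph0_lt' _ ht hk
    (by rw [hC]; exact Cardinal.aleph0_lt_continuum)
  have h3 : #s = #t := by rw [← h1, ← h2, hΩ, hC]
  obtain ⟨e⟩ := Cardinal.eq.1 h3
  let := IsAlgClosed.isAlgClosure_of_transcendence_basis _ hs
  let := IsAlgClosed.isAlgClosure_of_transcendence_basis _ ht
  let e1 : Algebra.adjoin k (Set.range ((↑) : s → Ω)) ≃ₐ[k] MvPolynomial s k :=
    hs.1.aevalEquiv.symm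
  let e2 : MvPolynomial s k ≃ₐ[k] MvPolynomial t k := MvPolynomial.renameEquiv k e
  let e3 : MvPolynomial t k ≃ₐ[k] Algebra.adjoin k (Set.range ((↑) : t → ℂ)) :=
    ht.1.aevalEquiv
  let e4 := (e1.trans e2).trans e3
  let F : Ω ≃+* ℂ := IsAlgClosure.equivOfEquiv Ω ℂ e4.toRingEquiv
  refine ⟨(F : Ω →+* ℂ).comp (algebraMap E Ω), fun c => ?_⟩
  have h5 := IsAlgClosure.equivOfEquiv_algebraMap Ω ℂ e4.toRingEquiv
    (algebraMap k (Algebra.adjoin k (Set.range ((↑) : s → Ω))) c)
  have h6 : algebraMap (Algebra.adjoin k (Set.range ((↑) : s → Ω))) Ω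
      (algebraMap k (Algebra.adjoin k (Set.range ((↑) : s → Ω))) c) =
      algebraMap E Ω (algebraMap k E c) := by
    rw [← IsScalarTower.algebraMap_apply, ← IsScalarTower.algebraMap_apply]
  rw [h6] at h5
  change F (algebraMap E Ω (algebraMap k E c)) = _
  have h7 : F (algebraMap E Ω (algebraMap k E c)) = algebraMap
      (Algebra.adjoin k (Set.range ((↑) : t → ℂ))) ℂ (e4 (algebraMap k _ c)) := h5
  rw [h7, AlgEquiv.commutes, ← IsScalarTower.algebraMap_apply]

theorem countable_closure (s : Set ℂ) (hs : s.Countable) : Countable (Subfield.closure s) := by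
  rw [← Cardinal.mk_le_aleph0_iff]
  refine (Subfield.cardinalMk_closure_le_max s).trans ?_
  rw [max_le_iff]
  exact ⟨Cardinal.mk_le_aleph0_iff.2 hs, le_rfl⟩

theorem exists_generic (k : Subfield ℂ) [Countable k] (J : Type) [Finite J] :
    ∃ x : J → ℂ, AlgebraicIndependent k x := by
  obtain ⟨t, ht⟩ := exists_isTranscendenceBasis k ℂ
  have hC : #ℂ = 𝔠 := Cardinal.mk_complex
  have hk : #k ≤ ℵ₀ := Cardinal.mk_le_aleph0
  have h2 := IsAlgClosed.cardinal_eq_cardinal_transcendence_basis_of_aleph0_lt' _ ht hk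
    (by rw [hC]; exact Cardinal.aleph0_lt_continuum)
  have h3 : #J ≤ #t := by
    rw [← h2, hC]
    exact (Cardinal.mk_le_aleph0 (α := J)).trans Cardinal.aleph0_le_continuum
  obtain ⟨f⟩ := Cardinal.le_def _ _ |>.1 h3
  exact ⟨fun j => f j, ht.1.comp f f.injective⟩

section

variable {κ : Type} [Fintype κ] [DecidableEq κ] {z : κ → ℂ}

theorem card_frac (R : Type) [CommRing R] [IsDomain R] [Algebra ℂ R] (hR : #R ≤ 𝔠) :
    #(FractionRing R) = 𝔠 := by
  rw [Cardinal.mk_fractionRing]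
  refine le_antisymm hR ?_
  rw [← Cardinal.mk_complex]
  exact Cardinal.mk_le_of_injective (FaithfulSMul.algebraMap_injective ℂ R)

theorem card_LR : #(LR z) ≤ 𝔠 := by
  have h1 : #(LR z) ≤ #(MvPolynomial κ ℂ) := IsLocalization.cardinalMk_le (pt z).primeCompl
  refine h1.trans ?_
  refine (MvPolynomial.cardinalMk_le_max (σ := κ) (R := ℂ)).trans ?_
  rw [Cardinal.mk_complex]
  refine max_le (max_le le_rfl ?_) Cardinal.aleph0_le_continuum
  exact (Cardinal.mk_le_aleph0 (α := κ)).trans Cardinal.aleph0_le_continuum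

end

end Pool.Agent.Helper16K9.Ver
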