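import Pool.Agent.Helper16K9.Ver.GMain

set_option autoImplicit false
set_option linter.unusedSectionVars false
set_option linter.unusedVariables false

/-!
# The derivatives of a function which can be verified cheaply
-/

namespace Pool.Agent.Helper16K9.Ver

open MvPolynomial Cardinal IsLocalRing Pool.Agent.Helper165.P1

section

variable {I : Type} [Fintype I]

theorem Lin.val_congr (l : Lin I) (x : I → ℂ) {w w' : ℕ → ℂ} {m : ℕ}
    (h : ∀ j < m, w j = w' j) : l.val x w m = l.val x w' m :=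
  Lin.ev_congr l (RingHom.id ℂ) x h

theorem update_congr {w w' : ℕ → ℂ} {m : ℕ} (h : ∀ j < m, w j = w' j) (y : ℂ) :
    ∀ j < m + 1, Function.update w m y j = Function.update w' m y j := by
  intro j hj
  by_cases hjm : j = m
  · rw [hjm, Function.update_self, Function.update_self]
  · rw [Function.update_of_ne hjm, Function.update_of_ne hjm]
    exact h j (by omega)

/-- Only the numbers computed before matter. -/
theorem Accepts.congr {x : I → ℂ} : ∀ {t : Tree I} {m : ℕ} {w w' : ℕ → ℂ} {L : ℕ},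
    (∀ j < m, w j = w' j) → Accepts x t m w L → Accepts x t m w' L
  | .accept, _, _, _, _, _, _ => trivial
  | .reject, _, _, _, _, _, h => h
  | .mul u v t, m, w, w', L, hw, h => by
    obtain ⟨L', hL, h⟩ := h
    refine ⟨L', hL, ?_⟩
    rw [Lin.val_congr u x hw, Lin.val_congr v x hw] at h
    exact Accepts.congr (update_congr hw _) h
  | .div u v t, m, w, w', L, hw, h => by
    obtain ⟨h0, L', hL, h⟩ := h
    rw [Lin.val_congr v x hw] at h0
    refine ⟨h0, L', hL, ?_⟩
    rw [Lin.val_congr u x hw, Lin.val_congr v x hw] at h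
    exact Accepts.congr (update_congr hw _) h
  | .guess t, m, w, w', L, hw, h => by
    obtain ⟨y, h⟩ := h
    exact ⟨y, Accepts.congr (update_congr hw _) h⟩
  | .test u s t, m, w, w', L, hw, h => by
    rcases h with ⟨h0, h⟩ | ⟨h0, h⟩
    · rw [Lin.val_congr u x hw] at h0
      exact Or.inl ⟨h0, Accepts.congr hw h⟩
    · rw [Lin.val_congr u x hw] at h0
      exact Or.inr ⟨h0, Accepts.congr hw h⟩

end

/-- A polynomial does not vanish at a generic point. -/
theorem eval_ne_zero_of_generic {J : Type} (k : Subfield ℂ) {P : MvPolynomial J ℂ} (hP : P ≠ 0)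
    (hk : ((P.coeffs : Finset ℂ) : Set ℂ) ⊆ k) {x : J → ℂ} (hx : AlgebraicIndependent k x) :
    eval x P ≠ 0 := by
  have h1 : P ∈ Set.range (MvPolynomial.map (algebraMap k ℂ)) := by
    rw [MvPolynomial.mem_range_map_iff_coeffs_subset]
    intro c hc
    exact ⟨⟨c, hk hc⟩, rfl⟩
  obtain ⟨P', rfl⟩ := h1
  intro h2
  rw [MvPolynomial.eval_map] at h2
  have h3 : aeval x P' = 0 := h2
  have h4 : P' = 0 := (algebraicIndependent_iff.1 hx) P' h3
  apply hP
  rw [h4, map_zero]

variable {J M : Type} [Fintype J] [Fintype M] [DecidableEq J] [DecidableEq M]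

/-- **The engine.** -/
theorem engine [Nonempty M] (F : M → MvPolynomial J ℤ) (t : Tree (J ⊕ M)) (L : ℕ)
    (h : Verifies (pv F) t L) :
    ∃ (x : J → ℂ) (D : J → ℂ →+ ℂ) (l : List ((J → Pui ℂ) × (J → Pui ℂ))),
      (∀ r a b, D r (a * b) = a * D r b + b * D r a) ∧
      (∀ r r', D r (x r') = if r' = r then 1 else 0) ∧
      (∀ Q : MvPolynomial J ℤ, Q ≠ 0 → aeval x Q ≠ 0) ∧ l.length ≤ L ∧
      (∀ a, ∃ c : Fin l.length → Pui ℂ, ∀ r r', Pos ((∑ s, c s * sy (l.get s) r r' -
        cP (D r (D r' (pv F x a))) : Pui ℂ) : HQ ℂ)) ∧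
      ∀ a, ∃ m : Fin l.length → J → Pui ℂ, ∀ r r' r'', Pos ((∑ s, S3 (m s) (sy (l.get s)) r r' r'' -
        cP (D r (D r' (D r'' (pv F x a)))) : Pui ℂ) : HQ ℂ) := by
  classical
  obtain ⟨P, hP, hall⟩ := h
  let k : Subfield ℂ := Subfield.closure (t.set ∪ ((P.coeffs : Finset ℂ) : Set ℂ))
  have hkc : Countable k :=
    countable_closure _ (t.countable_set.union (Finset.countable_toSet _))
  have ht : t.In k := Tree.in_of_subset fun c hc => Subfield.subset_closure (Or.inl hc)
  have hPk : ((P.coeffs : Finset ℂ) : Set ℂ) ⊆ k := fun c hc =>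
    Subfield.subset_closure (Or.inr hc)
  obtain ⟨x, hx⟩ := exists_generic k J
  have hgen : ∀ x : J → ℂ, AlgebraicIndependent k x → MvPolynomial.eval x P ≠ 0 :=
    fun x hx => eval_ne_zero_of_generic k hP hPk hx
  have hacc := (hall _ (hgen x hx)).1
  obtain ⟨π, h1, h2, ⟨w', _, h4⟩, h5⟩ := exists_path k t ht _ _ _ _ hacc
  -- soundness
  have hs : Sound F k π := by
    intro x c g w hx hsat
    have h6 := h5 _ _ _ hsat
    have h7 : Accepts (Sum.elim x c) t 0 0 (cost π) :=
      Accepts.congr (fun j hj => absurd hj (Nat.not_lt_zero j)) h6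
    exact (hall _ (hgen x hx)).2 c (cost π) h7
  have hgood : ∃ (T : Finset (J ⊕ Fin π.length)) (v : J ⊕ Fin π.length → ℂ) (w : ℕ → ℂ),
        Good F k π T v w := by
    refine ⟨Finset.univ.image Sum.inl, Sum.elim x (fun i => w' i), w', ?_, ?_, ?_⟩
    · intro r
      exact Finset.mem_image_of_mem _ (Finset.mem_univ r)
    · have hr : ∀ i : ((Finset.univ.image Sum.inl : Finset (J ⊕ Fin π.length)) :
          Set (J ⊕ Fin π.length)), ∃ r, Sum.inl r = i.1 := by
        intro i
        obtain ⟨r, _, hr⟩ := Finset.mem_image.1 i.2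
        exact ⟨r, hr⟩
      choose e he using hr
      have hinj : Function.Injective e := by
        intro i j hij
        apply Subtype.ext
        rw [← he i, ← he j, hij]
      have h6 := hx.comp e hinj
      have h7 : (x ∘ e) = fun i => (Sum.elim x (fun i => w' i) : J ⊕ Fin π.length → ℂ) i.1 := by
        funext i
        rw [← he i]
        rfl
      rw [h7] at h6
      exact h6
    · refine Sat.congr_g (g := w') ?_ h4
      intro j hj
      rw [Nat.zero_add] at hj
      simp only [gf, dif_pos hj, Sum.elim_inr]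
  obtain ⟨v, ρ, D, l, hD, hDx, hind, hρC, hpos, hlen, hH2, hH3⟩ := exists_data F k π h1 hs hgood
  have hQ : ∀ Q : MvPolynomial J ℤ, Q ≠ 0 → aeval (fun r => v (Sum.inl r)) Q ≠ 0 := by
    intro Q hQ0 hQ1
    have h6 : MvPolynomial.map (algebraMap ℤ k) Q ≠ 0 := by
      intro h6
      apply hQ0
      apply MvPolynomial.map_injective (algebraMap ℤ k) (algebraMap ℤ k).injective_int
      rw [h6, map_zero]
    apply h6
    apply (algebraicIndependent_iff.1 hind)
    rw [MvPolynomial.aeval_map_algebraMap]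
    exact hQ1
  have hdec : ∀ a, ρ (Z (zz F v) (Sum.inl a)) = cP (pv F (fun r => v (Sum.inl r)) a) +
      ρ (Z (zz F v) (Sum.inl a) - algebraMap ℂ (LR (zz F v)) (zz F v (Sum.inl a))) := by
    intro a
    rw [map_sub, hρC]
    have : zz F v (Sum.inl a) = pv F (fun r => v (Sum.inl r)) a := rfl
    rw [this]
    ring
  have hm : ∀ a, Pos (ρ (Z (zz F v) (Sum.inl a) -
      algebraMap ℂ (LR (zz F v)) (zz F v (Sum.inl a))) : HQ ℂ) := by
    intro a
    apply hpos
    rw [mem_max_iff, map_sub, ev_Z, ev_const, sub_self]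
  refine ⟨fun r => v (Sum.inl r), D, l, hD, hDx, hQ, hlen ▸ h2, fun a => ?_, fun a => ?_⟩
  · obtain ⟨c, hc⟩ := (Submodule.mem_span_range_iff_exists_fun (Pui ℂ)).1 (hH2 a)
    refine ⟨c, fun r r' => ?_⟩
    have h6 : ∑ s, c s * sy (l.get s) r r' = H2 D (ρ (Z (zz F v) (Sum.inl a))) r r' := by
      rw [← hc, Finset.sum_apply, Finset.sum_apply]
      rfl
    rw [h6, hdec, H2_add, Pi.add_apply, Pi.add_apply]
    have h7 : H2 D (cP (pv F (fun r => v (Sum.inl r)) a)) r r' =
        cP (D r (D r' (pv F (fun r => v (Sum.inl r)) a))) := by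
      rw [H2, pD_C, pD_C]
    rw [h7, add_sub_cancel_left]
    exact pD_pos _ _ (pD_pos _ _ (hm a))
  · obtain ⟨m, hmm⟩ := mem_TT (hH3 a)
    refine ⟨m, fun r r' r'' => ?_⟩
    have h6 : ∑ s, S3 (m s) (sy (l.get s)) r r' r'' =
        H3 D (ρ (Z (zz F v) (Sum.inl a))) r r' r'' := by
      rw [hmm, Finset.sum_apply, Finset.sum_apply, Finset.sum_apply]
    rw [h6, hdec, H3_add, Pi.add_apply, Pi.add_apply, Pi.add_apply]
    have h7 : H3 D (cP (pv F (fun r => v (Sum.inl r)) a)) r r' r'' =
        cP (D r (D r' (D r'' (pv F (fun r => v (Sum.inl r)) a)))) := by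
      rw [H3, pD_C, pD_C, pD_C]
    rw [h7, add_sub_cancel_left]
    exact pD_pos _ _ (pD_pos _ _ (pD_pos _ _ (hm a)))

end Pool.Agent.Helper16K9.Ver
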