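import Pool.Agent.Helper16K9.Ver.Char

set_option autoImplicit false
set_option linter.unusedSectionVars false
set_option linter.unusedVariables false

/-!
# Orthogonal matrices
-/

namespace Pool.Agent.Helper16K9.Ver

open Finset Matrix Pool.Agent.W956.KF

/-- an isotropic vector -/
noncomputable def av : Fin 2 → ℂ := ![1, Complex.I]

section

variable {K V : Type} [Fintype K] [DecidableEq K] [Fintype V] [DecidableEq V]

/-- the embedding -/
noncomputable def al (K : Type) [DecidableEq K] : Matrix (Fin 2 × K) K ℂ :=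
  Matrix.of fun p k => if p.2 = k then av p.1 else 0

theorem al_al : (al K).transpose * al K = 0 := by
  ext k l
  rw [Matrix.mul_apply, Fintype.sum_prod_type, Fin.sum_univ_two]
  simp only [al, Matrix.transpose_apply, Matrix.of_apply, av, Matrix.cons_val_zero,
    Matrix.cons_val_one, Matrix.zero_apply]
  rw [← Finset.sum_add_distrib]
  refine Finset.sum_eq_zero fun i _ => ?_
  split_ifs
  · rw [Complex.I_mul_I]
    ring
  · ring
  · ring
  · ring

theorem al_mul_apply (S : Matrix K K ℂ) (p q : Fin 2 × K) :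
    (al K * S * (al K).transpose) p q = av p.1 * av q.1 * S p.2 q.2 := by
  rw [Matrix.mul_apply, Finset.sum_eq_single q.2]
  · rw [Matrix.mul_apply, Finset.sum_eq_single p.2]
    · simp [al]
      ring
    · intro b _ hb
      simp only [al, Matrix.of_apply]
      rw [if_neg (fun h => hb h.symm), zero_mul]
    · intro h
      exact absurd (mem_univ _) h
  · intro b _ hb
    simp only [al, Matrix.transpose_apply, Matrix.of_apply]
    rw [if_neg (fun h => hb h.symm), mul_zero]
  · intro h
    exact absurd (mem_univ _) h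

/-- the matrix which is to be tested -/
noncomputable def orthM (S : Matrix K K ℂ) (X : Matrix V K ℂ) :
    Matrix ((Fin 2 × K) ⊕ V) ((Fin 2 × K) ⊕ V) ℂ :=
  Matrix.fromBlocks
    (Matrix.of fun p q => (if p = q then 1 else 0) + av p.1 * av q.1 * S p.2 q.2)
    (Matrix.of fun p v => -av p.1 * X v p.2) (Matrix.of fun v q => av q.1 * X v q.2) 1

theorem orthM_eq (S : Matrix K K ℂ) (X : Matrix V K ℂ) :
    orthM S X = Matrix.fromBlocks (1 + al K * S * (al K).transpose) (-(al K * X.transpose))
      (X * (al K).transpose) 1 := by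
  unfold orthM
  congr 1
  · ext p q
    rw [Matrix.add_apply, al_mul_apply, Matrix.one_apply, Matrix.of_apply]
  · ext p v
    rw [Matrix.neg_apply, Matrix.mul_apply, Finset.sum_eq_single p.2]
    · simp [al]
    · intro b _ hb
      simp only [al, Matrix.of_apply]
      rw [if_neg (fun h => hb h.symm), zero_mul]
    · intro h
      exact absurd (mem_univ _) h
  · ext v q
    rw [Matrix.mul_apply, Finset.sum_eq_single q.2]
    · simp [al]
      ring
    · intro b _ hb
      simp only [al, Matrix.of_apply, Matrix.transpose_apply]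
      rw [if_neg (fun h => hb h.symm), mul_zero]
    · intro h
      exact absurd (mem_univ _) h

theorem orthM_iff (S : Matrix K K ℂ) (X : Matrix V K ℂ) :
    (orthM S X).transpose * orthM S X = 1 ↔ S + S.transpose + X.transpose * X = 0 := by
  have haa := al_al (K := K)
  have e1 : (orthM S X).transpose * orthM S X = Matrix.fromBlocks
      (1 + al K * (S + S.transpose + X.transpose * X) * (al K).transpose) 0 0 1 := by
    rw [orthM_eq, Matrix.fromBlocks_transpose, Matrix.fromBlocks_multiply]
    simp only [Matrix.transpose_add, Matrix.transpose_mul, Matrix.transpose_one,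
      Matrix.transpose_neg, Matrix.transpose_transpose]
    have h1 : ∀ (Y : Matrix (Fin 2 × K) K ℂ) (Z : Matrix K V ℂ),
        Y * (al K).transpose * (al K * Z) = 0 := by
      intro Y Z
      rw [Matrix.mul_assoc, ← Matrix.mul_assoc (al K).transpose, haa, Matrix.zero_mul,
        Matrix.mul_zero]
    have h2 : ∀ (Y : Matrix (Fin 2 × K) K ℂ) (Z : Matrix K (Fin 2 × K) ℂ),
        Y * (al K).transpose * (al K * Z) = 0 := by
      intro Y Z
      rw [Matrix.mul_assoc, ← Matrix.mul_assoc (al K).transpose, haa, Matrix.zero_mul,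
        Matrix.mul_zero]
    have h3 : ∀ (Y : Matrix V K ℂ) (Z : Matrix K (Fin 2 × K) ℂ),
        Y * (al K).transpose * (al K * Z) = 0 := by
      intro Y Z
      rw [Matrix.mul_assoc, ← Matrix.mul_assoc (al K).transpose, haa, Matrix.zero_mul,
        Matrix.mul_zero]
    have h4 : ∀ (Y : Matrix V K ℂ) (Z : Matrix K V ℂ),
        Y * (al K).transpose * (al K * Z) = 0 := by
      intro Y Z
      rw [Matrix.mul_assoc, ← Matrix.mul_assoc (al K).transpose, haa, Matrix.zero_mul,
        Matrix.mul_zero]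
    congr 1
    · have h5 : al K * (S.transpose * (al K).transpose) * (al K * S * (al K).transpose) = 0 := by
        rw [← Matrix.mul_assoc (al K) S.transpose, Matrix.mul_assoc (al K) S (al K).transpose]
        exact h2 _ _
      rw [Matrix.add_mul, Matrix.one_mul, Matrix.mul_add _ 1, Matrix.mul_one, h5,
        Matrix.mul_add, Matrix.mul_add, Matrix.add_mul, Matrix.add_mul]
      simp only [Matrix.mul_assoc, add_zero]
      abel
    · have h5 : al K * (S.transpose * (al K).transpose) * (al K * X.transpose) = 0 := by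
        rw [← Matrix.mul_assoc (al K) S.transpose]
        exact h1 _ _
      rw [Matrix.add_mul, Matrix.one_mul, Matrix.mul_one, Matrix.mul_neg, h5]
      simp
    · have h5 : X * (al K).transpose * (al K * S * (al K).transpose) = 0 := by
        rw [Matrix.mul_assoc (al K) S]
        exact h3 _ _
      rw [Matrix.mul_add, Matrix.mul_one, Matrix.one_mul, Matrix.neg_mul, h5]
      simp
    · rw [Matrix.neg_mul, Matrix.mul_neg, neg_neg, h4, zero_add, Matrix.mul_one]
  rw [e1, ← Matrix.fromBlocks_one, Matrix.fromBlocks_inj]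
  constructor
  · rintro ⟨h, _⟩
    have h1 : al K * (S + S.transpose + X.transpose * X) * (al K).transpose = 0 := by
      have := congrArg (fun Y => Y - 1) h
      simpa using this
    ext k l
    have h2 := congrFun (congrFun h1 (0, k)) (0, l)
    rw [al_mul_apply] at h2
    simpa [av] using h2
  · intro h
    rw [h]
    simp

end

section

variable {n : ℕ}

/-- the blocks of `S` -/
def Sm (C S₁ S₂ : Matrix (Fin n) (Fin n) ℂ) : Matrix (Fin n ⊕ Fin n) (Fin n ⊕ Fin n) ℂ :=
  Matrix.fromBlocks S₁ (-C) 0 S₂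

/-- the blocks of `X` -/
def Xm (A B : Matrix (Fin n) (Fin n) ℂ) : Matrix (Fin n) (Fin n ⊕ Fin n) ℂ :=
  Matrix.of fun v k => match k with
    | .inl k => A k v
    | .inr k => B v k

theorem Xm_mul (A B : Matrix (Fin n) (Fin n) ℂ) : (Xm A B).transpose * Xm A B =
    Matrix.fromBlocks (A * A.transpose) (A * B) (B.transpose * A.transpose)
      (B.transpose * B) := by
  ext i j
  rcases i with i | i <;> rcases j with j | j <;>
    simp [Xm, Matrix.mul_apply, Matrix.fromBlocks]

theorem S_iff (A B C S₁ S₂ : Matrix (Fin n) (Fin n) ℂ) :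
    Sm C S₁ S₂ + (Sm C S₁ S₂).transpose + (Xm A B).transpose * Xm A B = 0 ↔
      S₁ + S₁.transpose + A * A.transpose = 0 ∧ A * B = C ∧
        S₂ + S₂.transpose + B.transpose * B = 0 := by
  unfold Sm
  rw [Xm_mul, Matrix.fromBlocks_transpose, Matrix.fromBlocks_add, Matrix.fromBlocks_add,
    ← Matrix.fromBlocks_zero, Matrix.fromBlocks_inj]
  constructor
  · rintro ⟨h1, h2, h3, h4⟩
    refine ⟨h1, ?_, h4⟩
    rw [Matrix.transpose_zero, add_zero, neg_add_eq_zero] at h2
    exact h2.symm
  · rintro ⟨h1, h2, h4⟩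
    refine ⟨h1, ?_, ?_, h4⟩
    · rw [Matrix.transpose_zero, add_zero, h2, neg_add_cancel]
    · rw [← h2, Matrix.transpose_neg, Matrix.transpose_mul, zero_add, neg_add_cancel]

theorem exists_half (Q : Matrix (Fin n) (Fin n) ℂ) (hQ : Q.transpose = Q) :
    ∃ S : Matrix (Fin n) (Fin n) ℂ, S + S.transpose + Q = 0 := by
  refine ⟨(-(1 / 2 : ℂ)) • Q, ?_⟩
  rw [Matrix.transpose_smul, hQ, ← add_smul]
  norm_num

/-- the inputs and the guesses -/
abbrev OI (n : ℕ) : Type :=
  (((Fin n × Fin n) ⊕ (Fin n × Fin n)) ⊕ (Fin n × Fin n)) ⊕ (Bool × (Fin n × Fin n))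

/-- the matrix as a function of the inputs and of the guesses -/
noncomputable def OM (z : OI n → ℂ) :
    Matrix ((Fin 2 × (Fin n ⊕ Fin n)) ⊕ Fin n) ((Fin 2 × (Fin n ⊕ Fin n)) ⊕ Fin n) ℂ :=
  orthM (Sm (mC fun i => z (.inl i)) (mat fun p => z (.inr (false, p)))
    (mat fun p => z (.inr (true, p)))) (Xm (mA fun i => z (.inl i)) (mB fun i => z (.inl i)))

theorem aff_OM (i j : (Fin 2 × (Fin n ⊕ Fin n)) ⊕ Fin n) : IsAff fun z : OI n → ℂ => OM z i j := by
  have hX : ∀ v k, IsAff fun z : OI n → ℂ => Xm (mA fun i => z (.inl i))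
      (mB fun i => z (.inl i)) v k := by
    rintro v (k | k)
    · exact isAff_var (I := OI n) (Sum.inl (Sum.inl (Sum.inl (k, v))))
    · exact isAff_var (I := OI n) (Sum.inl (Sum.inl (Sum.inr (v, k))))
  have hS : ∀ k l, IsAff fun z : OI n → ℂ => Sm (mC fun i => z (.inl i))
      (mat fun p => z (.inr (false, p))) (mat fun p => z (.inr (true, p))) k l := by
    rintro (k | k) (l | l)
    · exact isAff_var (I := OI n) (Sum.inr (false, (k, l)))
    · exact (isAff_var (I := OI n) (Sum.inl (Sum.inr (k, l)))).neg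
    · exact isAff_const _
    · exact isAff_var (I := OI n) (Sum.inr (true, (k, l)))
  rcases i with p | v <;> rcases j with q | u
  · exact (isAff_const _).add ((hS p.2 q.2).smul (av p.1 * av q.1))
  · exact (hX u p.2).smul (-av p.1)
  · exact (hX v q.2).smul (av q.1)
  · exact isAff_const _

end

theorem red_orthogonal {N : ℕ} {t : Tree (Fin N × Fin N)} {L : ℕ}
    (h : Decides (orthogonalSet N) t L) : borderRank (N / 5) ≤ 2 * L := by
  generalize hn : N / 5 = n
  have he : Nonempty (Fin N ≃ ((Fin 2 × (Fin n ⊕ Fin n)) ⊕ Fin n) ⊕ Fin (N - 5 * n)) := by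
    refine ⟨Fintype.equivOfCardEq ?_⟩
    simp only [Fintype.card_fin, Fintype.card_sum, Fintype.card_prod]
    omega
  obtain ⟨e⟩ := he
  have hmem : ∀ z : OI n → ℂ, (fun p : Fin N × Fin N => (Matrix.fromBlocks (OM z) 0 0 1 :
      Matrix (((Fin 2 × (Fin n ⊕ Fin n)) ⊕ Fin n) ⊕ Fin (N - 5 * n))
        (((Fin 2 × (Fin n ⊕ Fin n)) ⊕ Fin n) ⊕ Fin (N - 5 * n)) ℂ) (e p.1) (e p.2)) ∈
        orthogonalSet N ↔ (OM z).transpose * OM z = 1 := by
    intro z
    have h1 : ∀ X : Matrix (Fin N) (Fin N) ℂ, (fun p : Fin N × Fin N => X p.1 p.2) ∈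
      orthogonalSet N ↔ X.transpose * X = 1 := fun X => Iff.rfl
    have h2 := h1 ((Matrix.fromBlocks (OM z) 0 0 1 :
      Matrix (((Fin 2 × (Fin n ⊕ Fin n)) ⊕ Fin n) ⊕ Fin (N - 5 * n))
        (((Fin 2 × (Fin n ⊕ Fin n)) ⊕ Fin n) ⊕ Fin (N - 5 * n)) ℂ).submatrix e e)
    refine h2.trans ?_
    rw [Matrix.transpose_submatrix, Matrix.submatrix_mul_equiv, Matrix.fromBlocks_transpose,
      Matrix.fromBlocks_multiply]
    have h3 : ∀ M : Matrix (((Fin 2 × (Fin n ⊕ Fin n)) ⊕ Fin n) ⊕ Fin (N - 5 * n))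
        (((Fin 2 × (Fin n ⊕ Fin n)) ⊕ Fin n) ⊕ Fin (N - 5 * n)) ℂ,
        M.submatrix e e = 1 ↔ M = 1 := by
      intro M
      constructor
      · intro h4
        have h5 := congrArg (fun X => Matrix.submatrix X e.symm e.symm) h4
        simpa using h5
      · rintro rfl
        exact Matrix.submatrix_one_equiv e
    rw [h3, ← Matrix.fromBlocks_one, Matrix.fromBlocks_inj]
    simp
  obtain ⟨t1, h1⟩ := h.pull (S := {z : OI n → ℂ | (OM z).transpose * OM z = 1})
    (fun z p => (Matrix.fromBlocks (OM z) 0 0 1 :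
      Matrix (((Fin 2 × (Fin n ⊕ Fin n)) ⊕ Fin n) ⊕ Fin (N - 5 * n))
        (((Fin 2 × (Fin n ⊕ Fin n)) ⊕ Fin n) ⊕ Fin (N - 5 * n)) ℂ) (e p.1) (e p.2)) (by
      intro p
      rcases e p.1 with i | i <;> rcases e p.2 with j | j
      · exact aff_OM i j
      · exact isAff_const _
      · exact isAff_const _
      · exact isAff_const _) (fun z => (hmem z).symm)
  obtain ⟨t2, h2⟩ := h1.proj
  refine decides_product_bound (t := t2) ?_
  convert h2 using 1
  ext x
  rw [mem_productSet]
  have e2 : ∀ y : Bool × (Fin n × Fin n) → ℂ, (Sum.elim x y ∈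
      {z : OI n → ℂ | (OM z).transpose * OM z = 1}) ↔
      ((mat fun p => y (false, p)) + (mat fun p => y (false, p)).transpose +
        mA x * (mA x).transpose = 0 ∧ mA x * mB x = mC x ∧
        (mat fun p => y (true, p)) + (mat fun p => y (true, p)).transpose +
        (mB x).transpose * mB x = 0) := by
    intro y
    rw [← S_iff, ← orthM_iff]
    exact Iff.rfl
  constructor
  · intro hx
    obtain ⟨S₁, hS₁⟩ := exists_half (mA x * (mA x).transpose) (by simp)
    obtain ⟨S₂, hS₂⟩ := exists_half ((mB x).transpose * mB x) (by simp)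
    exact ⟨fun q => bif q.1 then S₂ q.2.1 q.2.2 else S₁ q.2.1 q.2.2, (e2 _).2 ⟨hS₁, hx, hS₂⟩⟩
  · rintro ⟨y, hy⟩
    exact ((e2 y).1 hy).2.1

theorem up_orthogonal (N : ℕ) : ∃ t, Decides (orthogonalSet N) t (trank ℂ N N N) :=
  up_eq (I := Fin N × Fin N) (fun x => (mat x).transpose) (fun x => mat x) (fun _ => 1)
    (fun i j => aff_mat (fun p => p) j i) (aff_mat fun p => p) (fun i j => isAff_const _)

end Pool.Agent.Helper16K9.Ver
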