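import Pool.Agent.Helper16K9.Ver.Upper2

set_option autoImplicit false
set_option linter.unusedSectionVars false
set_option linter.unusedVariables false

/-!
# The reductions for traces
-/

namespace Pool.Agent.Helper16K9.Ver

open Finset Matrix

section

variable {n : ℕ}

theorem mem_traceSet_elim (x : ((Fin n × Fin n) ⊕ (Fin n × Fin n)) ⊕ (Fin n × Fin n) → ℂ)
    (y : Unit → ℂ) : Sum.elim x y ∈ traceSet n ↔ y = traceFun n x := by
  have h1 : Sum.elim x y ∈ traceSet n ↔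
      (mat (fun p => x (.inl (.inl p))) * mat (fun p => x (.inl (.inr p))) *
        mat (fun p => x (.inr p))).trace = y () := Iff.rfl
  rw [h1]
  constructor
  · intro h
    funext u
    exact h.symm
  · rintro rfl
    rfl

theorem red_trace
    {t : Tree ((((Fin n × Fin n) ⊕ (Fin n × Fin n)) ⊕ (Fin n × Fin n)) ⊕ Unit)} {L : ℕ}
    (h : Decides (traceSet n) t L) : borderRank n ≤ 6 * L :=
  trace_bound t L (h.verifies mem_traceSet_elim)

end

section blocks

variable {m : Type} [Fintype m] [DecidableEq m]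

/-- the block matrix -/
def bl (b : Fin 3 → Fin 3 → Matrix m m ℂ) : Matrix (Fin 3 × m) (Fin 3 × m) ℂ :=
  Matrix.of fun p q => b p.1 q.1 p.2 q.2

theorem bl_mul (b b' : Fin 3 → Fin 3 → Matrix m m ℂ) :
    bl b * bl b' = bl fun a c => ∑ k, b a k * b' k c := by
  ext p q
  simp only [bl, Matrix.mul_apply, Matrix.of_apply, Fintype.sum_prod_type, Matrix.sum_apply]

theorem bl_trace (b : Fin 3 → Fin 3 → Matrix m m ℂ) :
    (bl b).trace = ∑ a, (b a a).trace := by
  simp only [bl, Matrix.trace, Matrix.diag_apply, Matrix.of_apply, Fintype.sum_prod_type]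

/-- the three matrices in a cycle -/
def cyc (X Y Z : Matrix m m ℂ) : Fin 3 → Fin 3 → Matrix m m ℂ
  | 0, 0 => 0
  | 0, 1 => X
  | 0, 2 => Zᵀ
  | 1, 0 => Xᵀ
  | 1, 1 => 0
  | 1, 2 => Y
  | 2, 0 => Z
  | 2, 1 => Yᵀ
  | 2, 2 => 0

theorem trace_sub_equiv {α β : Type} [Fintype α] [Fintype β] (e : α ≃ β) (A : Matrix β β ℂ) :
    (A.submatrix e e).trace = A.trace := by
  unfold Matrix.trace
  simp only [Matrix.diag_apply, Matrix.submatrix_apply]
  exact Equiv.sum_comp e fun i => A i i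

theorem trace_fb {α β : Type} [Fintype α] [Fintype β] (A : Matrix α α ℂ) (B : Matrix α β ℂ)
    (C : Matrix β α ℂ) (D : Matrix β β ℂ) :
    (Matrix.fromBlocks A B C D).trace = A.trace + D.trace := by
  unfold Matrix.trace
  simp only [Matrix.diag_apply, Fintype.sum_sum_type, Matrix.fromBlocks_apply₁₁,
    Matrix.fromBlocks_apply₂₂]

theorem cyc_trace (X Y Z : Matrix m m ℂ) :
    (bl (cyc X Y Z) * bl (cyc X Y Z) * bl (cyc X Y Z)).trace = 6 * (X * Y * Z).trace := by
  rw [bl_mul, bl_mul, bl_trace]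
  have c00 : cyc X Y Z 0 0 = 0 := rfl
  have c01 : cyc X Y Z 0 1 = X := rfl
  have c02 : cyc X Y Z 0 2 = Zᵀ := rfl
  have c10 : cyc X Y Z 1 0 = Xᵀ := rfl
  have c11 : cyc X Y Z 1 1 = 0 := rfl
  have c12 : cyc X Y Z 1 2 = Y := rfl
  have c20 : cyc X Y Z 2 0 = Z := rfl
  have c21 : cyc X Y Z 2 1 = Yᵀ := rfl
  have c22 : cyc X Y Z 2 2 = 0 := rfl
  simp only [Fin.sum_univ_three, c00, c01, c02, c10, c11, c12, c20, c21, c22, mul_zero, zero_mul,
    add_zero, zero_add, Matrix.trace_add]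
  have e1 : (Zᵀ * Yᵀ * Xᵀ).trace = (X * Y * Z).trace := by
    rw [← Matrix.transpose_mul, ← Matrix.transpose_mul, Matrix.trace_transpose, Matrix.mul_assoc]
  have e2 : (Y * Z * X).trace = (X * Y * Z).trace := by
    rw [Matrix.trace_mul_comm, Matrix.mul_assoc]
  have e3 : (Z * X * Y).trace = (X * Y * Z).trace := by
    rw [Matrix.mul_assoc, Matrix.trace_mul_comm]
  have e4 : (Xᵀ * Zᵀ * Yᵀ).trace = (X * Y * Z).trace := by
    rw [← e1, Matrix.mul_assoc, Matrix.trace_mul_comm]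
  have e5 : (Yᵀ * Xᵀ * Zᵀ).trace = (X * Y * Z).trace := by
    rw [← e1, Matrix.trace_mul_comm, ← Matrix.mul_assoc]
  rw [e1, e2, e3, e4, e5, Matrix.trace_zero]
  ring

theorem cyc_symm (X Y Z : Matrix m m ℂ) : (bl (cyc X Y Z))ᵀ = bl (cyc X Y Z) := by
  ext ⟨a, i⟩ ⟨b, j⟩
  rw [Matrix.transpose_apply]
  change cyc X Y Z b a j i = cyc X Y Z a b i j
  revert a b
  intro a b
  match a, b with
  | 0, 0 => rfl
  | 0, 1 => rfl
  | 0, 2 => rfl
  | 1, 0 => rfl
  | 1, 1 => rfl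
  | 1, 2 => rfl
  | 2, 0 => rfl
  | 2, 1 => rfl
  | 2, 2 => rfl

theorem cyc_diag (X Y Z : Matrix m m ℂ) (p : Fin 3 × m) : bl (cyc X Y Z) p p = 0 := by
  obtain ⟨a, i⟩ := p
  change cyc X Y Z a a i i = 0
  match a with
  | 0 => rfl
  | 1 => rfl
  | 2 => rfl

variable {N s : ℕ} (e : Fin N ≃ (Fin 3 × m) ⊕ Fin s)

/-- the big matrix -/
def bg (X Y Z : Matrix m m ℂ) : Matrix (Fin N) (Fin N) ℂ :=
  (Matrix.fromBlocks (bl (cyc X Y Z)) 0 0 (0 : Matrix (Fin s) (Fin s) ℂ)).submatrix e e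

theorem bg_trace (X Y Z : Matrix m m ℂ) :
    (bg e X Y Z * bg e X Y Z * bg e X Y Z).trace = 6 * (X * Y * Z).trace := by
  unfold bg
  rw [Matrix.submatrix_mul_equiv, Matrix.submatrix_mul_equiv, Matrix.fromBlocks_multiply,
    Matrix.fromBlocks_multiply, ← cyc_trace]
  simp only [Matrix.mul_zero, Matrix.zero_mul, add_zero]
  rw [trace_sub_equiv, trace_fb, Matrix.trace_zero, add_zero]

theorem bg_symm (X Y Z : Matrix m m ℂ) : (bg e X Y Z).IsSymm := by
  unfold bg Matrix.IsSymm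
  rw [Matrix.transpose_submatrix, Matrix.fromBlocks_transpose, cyc_symm]
  simp

theorem bg_diag (X Y Z : Matrix m m ℂ) (i : Fin N) : bg e X Y Z i i = 0 := by
  unfold bg
  rw [Matrix.submatrix_apply]
  rcases e i with p | p
  · rw [Matrix.fromBlocks_apply₁₁]
    exact cyc_diag X Y Z p
  · rw [Matrix.fromBlocks_apply₂₂]
    rfl

theorem bg_aff {I : Type} [Fintype I] (X Y Z : (I → ℂ) → Matrix m m ℂ)
    (hX : ∀ i j, IsAff fun x => X x i j) (hY : ∀ i j, IsAff fun x => Y x i j)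
    (hZ : ∀ i j, IsAff fun x => Z x i j) (p : Fin N × Fin N) :
    IsAff fun x => bg e (X x) (Y x) (Z x) p.1 p.2 := by
  unfold bg
  simp only [Matrix.submatrix_apply]
  rcases hi : e p.1 with a | a <;> rcases hj : e p.2 with b | b
  · simp only [Matrix.fromBlocks_apply₁₁, bl, Matrix.of_apply]
    obtain ⟨a, i⟩ := a
    obtain ⟨b, j⟩ := b
    match a, b with
    | 0, 0 => exact isAff_const 0
    | 0, 1 => exact hX i j
    | 0, 2 => exact hZ j i
    | 1, 0 => exact hX j i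
    | 1, 1 => exact isAff_const 0
    | 1, 2 => exact hY i j
    | 2, 0 => exact hZ i j
    | 2, 1 => exact hY j i
    | 2, 2 => exact isAff_const 0
  · simp only [Matrix.fromBlocks_apply₁₂]
    exact isAff_const _
  · simp only [Matrix.fromBlocks_apply₂₁]
    exact isAff_const _
  · simp only [Matrix.fromBlocks_apply₂₂]
    exact isAff_const _

end blocks

section red

variable {n : ℕ}

/-- bordering by one entry -/
def bd (A : Matrix (Fin n) (Fin n) ℂ) (c : ℂ) : Matrix (Fin n ⊕ Unit) (Fin n ⊕ Unit) ℂ :=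
  Matrix.fromBlocks A 0 0 (Matrix.of fun _ _ => c)

theorem bd_mul (A B : Matrix (Fin n) (Fin n) ℂ) (c d : ℂ) : bd A c * bd B d = bd (A * B) (c * d) := by
  unfold bd
  rw [Matrix.fromBlocks_multiply]
  congr 1
  · simp
  · simp
  · simp
  · ext i j
    simp [Matrix.mul_apply]

theorem bd_trace (A : Matrix (Fin n) (Fin n) ℂ) (c : ℂ) : (bd A c).trace = A.trace + c := by
  unfold bd
  rw [trace_fb]
  congr 1
  simp [Matrix.trace]

theorem bd_aff {I : Type} [Fintype I] (A : (I → ℂ) → Matrix (Fin n) (Fin n) ℂ) (c : (I → ℂ) → ℂ)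
    (hA : ∀ i j, IsAff fun x => A x i j) (hc : IsAff c) (i j : Fin n ⊕ Unit) :
    IsAff fun x => bd (A x) (c x) i j := by
  unfold bd
  rcases i with i | i <;> rcases j with j | j
  · simp only [Matrix.fromBlocks_apply₁₁]
    exact hA i j
  · simp only [Matrix.fromBlocks_apply₁₂]
    exact isAff_const _
  · simp only [Matrix.fromBlocks_apply₂₁]
    exact isAff_const _
  · simp only [Matrix.fromBlocks_apply₂₂, Matrix.of_apply]
    exact hc

/-- the inputs of the trace problem -/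
abbrev TI (n : ℕ) : Type := (((Fin n × Fin n) ⊕ (Fin n × Fin n)) ⊕ (Fin n × Fin n)) ⊕ Unit

variable {N s : ℕ} (e : Fin N ≃ (Fin 3 × (Fin n ⊕ Unit)) ⊕ Fin s)

/-- the reduction -/
def rd (x : TI n → ℂ) : Matrix (Fin N) (Fin N) ℂ :=
  bg e (bd (mat fun p => x (.inl (.inl (.inl p)))) (-x (.inr ())))
    (bd (mat fun p => x (.inl (.inl (.inr p)))) 1) (bd (mat fun p => x (.inl (.inr p))) 1)

theorem rd_trace (x : TI n → ℂ) : (rd e x * rd e x * rd e x).trace = 0 ↔ x ∈ traceSet n := by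
  unfold rd
  rw [bg_trace, bd_mul, bd_mul, bd_trace]
  have h1 : x ∈ traceSet n ↔ (mat (fun p => x (.inl (.inl (.inl p)))) *
      mat (fun p => x (.inl (.inl (.inr p)))) *
      mat (fun p => x (.inl (.inr p)))).trace = x (.inr ()) := Iff.rfl
  rw [h1, mul_eq_zero, mul_one, mul_one, ← sub_eq_add_neg, sub_eq_zero]
  constructor
  · rintro (h | h)
    · norm_num at h
    · exact h
  · exact Or.inr

theorem rd_aff (p : Fin N × Fin N) : IsAff fun x : TI n → ℂ => rd e x p.1 p.2 := by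
  have h1 : ∀ i j, IsAff fun x : TI n → ℂ => bd (mat fun p => x (.inl (.inl (.inl p))))
      (-x (.inr ())) i j :=
    bd_aff (fun x : TI n → ℂ => mat fun p => x (.inl (.inl (.inl p)))) (fun x => -x (.inr ()))
      (fun i j => isAff_var (Sum.inl (Sum.inl (Sum.inl (i, j))))) (isAff_var (Sum.inr ())).neg
  have h2 : ∀ i j, IsAff fun x : TI n → ℂ => bd (mat fun p => x (.inl (.inl (.inr p)))) 1 i j :=
    bd_aff (fun x : TI n → ℂ => mat fun p => x (.inl (.inl (.inr p)))) (fun _ => 1)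
      (fun i j => isAff_var (Sum.inl (Sum.inl (Sum.inr (i, j))))) (isAff_const 1)
  have h3 : ∀ i j, IsAff fun x : TI n → ℂ => bd (mat fun p => x (.inl (.inr p))) 1 i j :=
    bd_aff (fun x : TI n → ℂ => mat fun p => x (.inl (.inr p))) (fun _ => 1)
      (fun i j => isAff_var (Sum.inl (Sum.inr (i, j)))) (isAff_const 1)
  exact bg_aff e _ _ _ h1 h2 h3 p

/-- the identification of the indices -/
theorem exists_index3 {N n : ℕ} (h : 3 * (n + 1) ≤ N) :
    ∃ s : ℕ, Nonempty (Fin N ≃ (Fin 3 × (Fin n ⊕ Unit)) ⊕ Fin s) := by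
  refine ⟨N - 3 * (n + 1), ⟨Fintype.equivOfCardEq ?_⟩⟩
  simp only [Fintype.card_fin, Fintype.card_sum, Fintype.card_prod, Fintype.card_unit]
  omega

end red

theorem red_of_rd {N : ℕ} {S : Set (Fin N × Fin N → ℂ)} {t : Tree (Fin N × Fin N)} {L : ℕ}
    (h : Decides S t L)
    (hS : ∀ (s : ℕ) (e : Fin N ≃ (Fin 3 × (Fin (N / 3 - 1) ⊕ Unit)) ⊕ Fin s)
      (x : TI (N / 3 - 1) → ℂ), x ∈ traceSet (N / 3 - 1) ↔ (fun p => rd e x p.1 p.2) ∈ S) :
    borderRank (N / 3 - 1) ≤ 6 * L := by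
  rcases Nat.eq_zero_or_pos (N / 3) with h0 | h0
  · rw [h0, Nat.zero_sub, borderRank_zero]
    exact Nat.zero_le _
  · obtain ⟨s, ⟨e⟩⟩ := exists_index3 (N := N) (n := N / 3 - 1) (by omega)
    obtain ⟨t', ht'⟩ := h.pull (S := traceSet (N / 3 - 1)) (fun x p => rd e x p.1 p.2)
      (fun p => rd_aff e p) (hS s e)
    exact red_trace ht'

theorem red_cubeTrace {N : ℕ} {t : Tree (Fin N × Fin N)} {L : ℕ}
    (h : Decides (cubeTraceSet N) t L) : borderRank (N / 3 - 1) ≤ 6 * L := by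
  refine red_of_rd h fun s e x => ?_
  rw [← rd_trace e x]
  exact Iff.rfl

theorem red_triangle {N : ℕ} {t : Tree (Fin N × Fin N)} {L : ℕ}
    (h : Decides (triangleSet N) t L) : borderRank (N / 3 - 1) ≤ 6 * L := by
  refine red_of_rd h fun s e x => ?_
  rw [← rd_trace e x]
  constructor
  · intro h1
    exact ⟨bg_symm e _ _ _, bg_diag e _ _ _, h1⟩
  · intro h1
    exact h1.2.2

end Pool.Agent.Helper16K9.Ver
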