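import Pool.Agent.Helper16K9.Ver.Grow2
import Pool.Agent.Helper16K9.Ver.Orth
import Pool.Agent.Helper16K9.Ver.RedTr

set_option autoImplicit false
set_option linter.unusedSectionVars false
set_option linter.unusedVariables false

/-!
# The costs
-/

namespace Pool.Agent.Helper16K9.Ver

open Filter Pool.Agent.W956.KF Pool.Agent.H826R3.SM

theorem costs_of {I : Type} [Fintype I] {S : Set (I → ℂ)} {l k u : ℕ}
    (hlow : ∀ (t : Tree I) (L : ℕ), Decides S t L → l ≤ k * L)
    (hup : ∃ t : Tree I, Decides S t u) : Costs S l k u := by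
  obtain ⟨t, ht⟩ := hup
  obtain ⟨t', ht'⟩ := exists_decides ⟨t, u, ht⟩
  exact ⟨⟨t', ht'⟩, hlow _ _ ht', ncost_le ht⟩

theorem exists_verifies {J M : Type} [Fintype J] [Fintype M] {f : (J → ℂ) → (M → ℂ)}
    (h : ∃ (t : Tree (J ⊕ M)) (L : ℕ), Verifies f t L) : ∃ t, Verifies f t (gcost f) := by
  obtain ⟨t, L, h⟩ := h
  exact Nat.sInf_mem (s := {L | ∃ t : Tree (J ⊕ M), Verifies f t L}) ⟨L, t, h⟩

theorem gcost_le {J M : Type} [Fintype J] [Fintype M] {f : (J → ℂ) → (M → ℂ)}
    {t : Tree (J ⊕ M)} {L : ℕ} (h : Verifies f t L) : gcost f ≤ L :=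
  Nat.sInf_le ⟨t, h⟩

/-- growth from the inequalities -/
theorem grow_of {f : ℕ → ℕ} (q s K E C : ℕ) (hq : 1 ≤ q)
    (h : ∀ N, borderRank ((N - s) / q) ≤ K * (f N + E))
    (hup : ∀ N, f N ≤ C * (trank ℂ N N N + trank ℂ (2 * N) (2 * N) (2 * N) + N ^ 2)) : LikeMM f :=
  grow' (low_of_br q s K E hq h) ⟨C, hup⟩

theorem detSet_iff {N : ℕ} (x : Fin N × Fin N → ℂ) (y : Unit → ℂ) :
    Sum.elim x y ∈ detSet N ↔ y = detFun N x := by
  have h1 : Sum.elim x y ∈ detSet N ↔ (mat x).det = y () := Iff.rfl
  rw [h1]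
  constructor
  · intro h2
    funext u
    exact h2.symm
  · rintro rfl
    rfl

theorem costs_all (N : ℕ) :
    Costs (productSet N) (borderRank N) 2 (trank ℂ N N N) ∧
    Costs (zeroProductSet N) (borderRank (N / 4)) 2 (trank ℂ N N N) ∧
    Costs (inverseSet N) (borderRank (N / 4)) 2 (trank ℂ N N N) ∧
    Costs (commutingSet N) (borderRank (N / 4)) 2 (trank ℂ (2 * N) (2 * N) (2 * N)) ∧
    Costs (squareZeroSet N) (borderRank (N / 4)) 2 (trank ℂ N N N) ∧
    Costs (idempotentSet N) (borderRank (N / 4)) 2 (trank ℂ N N N) ∧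
    Costs (orthogonalSet N) (borderRank (N / 5)) 2 (trank ℂ N N N) ∧
    (∀ r, Costs (rankSet N r) (borderRank (min r (N - r))) 2 (trank ℂ N N N)) ∧
    Costs (traceSet N) (borderRank N) 6 (trank ℂ N N N + N ^ 2) ∧
    Costs (cubeTraceSet N) (borderRank (N / 3 - 1)) 6 (trank ℂ N N N + N ^ 2) ∧
    Costs (triangleSet N) (borderRank (N / 3 - 1)) 6 (trank ℂ N N N + N ^ 2) ∧
    Costs (detSet N) (borderRank (N / 3)) 6 (3 * trank ℂ N N N + N) ∧
    Costs (slSet N) (borderRank ((N - 1) / 3) - 6) 6 (3 * trank ℂ N N N + N) ∧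
    Costs (charpolySet N) (borderRank (N / 3)) 6 (3 * trank ℂ N N N + N ^ 2 + N) := by
  obtain ⟨s, ⟨e⟩⟩ := exists_index N
  refine ⟨costs_of (fun t L h => decides_product_bound h) (up_product N),
    costs_of (fun t L h => red_zeroProduct e h) (up_zeroProduct N),
    costs_of (fun t L h => red_inverse e h) (up_inverse N),
    costs_of (fun t L h => red_commuting e h) (up_commuting N),
    costs_of (fun t L h => red_squareZero e h) (up_squareZero N),
    costs_of (fun t L h => red_idempotent e h) (up_idempotent N),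
    costs_of (fun t L h => red_orthogonal h) (up_orthogonal N),
    fun r => costs_of (fun t L h => red_rank h) (up_rank N r),
    costs_of (fun t L h => red_trace h) (up_trace N),
    costs_of (fun t L h => red_cubeTrace h) (up_cubeTrace N),
    costs_of (fun t L h => red_triangle h) (up_triangle N),
    costs_of (fun t L h => red_det h) (up_det N),
    costs_of (fun t L h => ?_) (up_sl N),
    costs_of (fun t L h => red_charpoly h) (up_charpoly N)⟩
  have := red_sl h
  omega

theorem gcosts (N : ℕ) :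
    (borderRank N ≤ 2 * gcost (productFun N) ∧ gcost (productFun N) ≤ ncost (productSet N)) ∧
    (borderRank N ≤ 6 * gcost (traceFun N) ∧ gcost (traceFun N) ≤ ncost (traceSet N)) ∧
    (borderRank (N / 3) ≤ 6 * gcost (detFun N) ∧ gcost (detFun N) ≤ ncost (detSet N)) := by
  obtain ⟨⟨⟨t1, h1⟩, -⟩, -, -, -, -, -, -, -, ⟨⟨t2, h2⟩, -⟩, -, -, ⟨⟨t3, h3⟩, -⟩, -⟩ := costs_all N
  have k1 := h1.verifies mem_productSet_elim
  have k2 := h2.verifies mem_traceSet_elim
  have k3 := h3.verifies detSet_iff
  obtain ⟨s1, l1⟩ := exists_verifies ⟨t1, _, k1⟩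
  obtain ⟨s2, l2⟩ := exists_verifies ⟨t2, _, k2⟩
  obtain ⟨s3, l3⟩ := exists_verifies ⟨t3, _, k3⟩
  exact ⟨⟨product_bound _ _ l1, gcost_le k1⟩, ⟨trace_bound _ _ l2, gcost_le k2⟩,
    ⟨det_bound _ _ l3, gcost_le k3⟩⟩

theorem grow_all : ∀ f ∈ ([fun N => gcost (productFun N), fun N => ncost (productSet N),
      fun N => ncost (zeroProductSet N), fun N => ncost (inverseSet N),
      fun N => ncost (commutingSet N), fun N => ncost (squareZeroSet N),
      fun N => ncost (idempotentSet N), fun N => ncost (orthogonalSet N),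
      fun N => ncost (rankSet N (N / 2)), fun N => gcost (traceFun N),
      fun N => ncost (traceSet N), fun N => ncost (cubeTraceSet N),
      fun N => ncost (triangleSet N), fun N => gcost (detFun N), fun N => ncost (detSet N),
      fun N => ncost (slSet N), fun N => ncost (charpolySet N)] : List (ℕ → ℕ)), LikeMM f := by
  intro f hf
  have hN : ∀ N : ℕ, N ≤ N ^ 2 := fun N => by
    rw [sq]
    exact Nat.le_mul_self N
  simp only [List.mem_cons, List.not_mem_nil, or_false] at hf
  rcases hf with rfl | rfl | rfl | rfl | rfl | rfl | rfl | rfl | rfl | rfl | rfl | rfl | rfl |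
    rfl | rfl | rfl | rfl
  · refine grow_of 1 0 2 0 1 le_rfl (fun N => ?_) (fun N => ?_)
    · have := (gcosts N).1.1
      simpa using this
    · have := (gcosts N).1.2
      have := (costs_all N).1.2.2
      omega
  · refine grow_of 1 0 2 0 1 le_rfl (fun N => ?_) (fun N => ?_)
    · have := (costs_all N).1.2.1
      simpa using this
    · have := (costs_all N).1.2.2
      omega
  · refine grow_of 4 0 2 0 1 (by norm_num) (fun N => ?_) (fun N => ?_)
    · have := (costs_all N).2.1.2.1
      simpa using this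
    · have := (costs_all N).2.1.2.2
      omega
  · refine grow_of 4 0 2 0 1 (by norm_num) (fun N => ?_) (fun N => ?_)
    · have := (costs_all N).2.2.1.2.1
      simpa using this
    · have := (costs_all N).2.2.1.2.2
      omega
  · refine grow_of 4 0 2 0 1 (by norm_num) (fun N => ?_) (fun N => ?_)
    · have := (costs_all N).2.2.2.1.2.1
      simpa using this
    · have := (costs_all N).2.2.2.1.2.2
      omega
  · refine grow_of 4 0 2 0 1 (by norm_num) (fun N => ?_) (fun N => ?_)
    · have := (costs_all N).2.2.2.2.1.2.1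
      simpa using this
    · have := (costs_all N).2.2.2.2.1.2.2
      omega
  · refine grow_of 4 0 2 0 1 (by norm_num) (fun N => ?_) (fun N => ?_)
    · have := (costs_all N).2.2.2.2.2.1.2.1
      simpa using this
    · have := (costs_all N).2.2.2.2.2.1.2.2
      omega
  · refine grow_of 5 0 2 0 1 (by norm_num) (fun N => ?_) (fun N => ?_)
    · have := (costs_all N).2.2.2.2.2.2.1.2.1
      simpa using this
    · have := (costs_all N).2.2.2.2.2.2.1.2.2
      omega
  · refine grow_of 2 0 2 0 1 (by norm_num) (fun N => ?_) (fun N => ?_)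
    · have := ((costs_all N).2.2.2.2.2.2.2.1 (N / 2)).2.1
      have h2 : min (N / 2) (N - N / 2) = N / 2 := by omega
      rw [h2] at this
      simpa using this
    · have := ((costs_all N).2.2.2.2.2.2.2.1 (N / 2)).2.2
      omega
  · refine grow_of 1 0 6 0 1 le_rfl (fun N => ?_) (fun N => ?_)
    · have := (gcosts N).2.1.1
      simpa using this
    · have := (gcosts N).2.1.2
      have := (costs_all N).2.2.2.2.2.2.2.2.1.2.2
      omega
  · refine grow_of 1 0 6 0 1 le_rfl (fun N => ?_) (fun N => ?_)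
    · have := (costs_all N).2.2.2.2.2.2.2.2.1.2.1
      simpa using this
    · have := (costs_all N).2.2.2.2.2.2.2.2.1.2.2
      omega
  · refine grow_of 3 3 6 0 1 (by norm_num) (fun N => ?_) (fun N => ?_)
    · have := (costs_all N).2.2.2.2.2.2.2.2.2.1.2.1
      have h2 : (N - 3) / 3 = N / 3 - 1 := by omega
      rw [h2]
      simpa using this
    · have := (costs_all N).2.2.2.2.2.2.2.2.2.1.2.2
      omega
  · refine grow_of 3 3 6 0 1 (by norm_num) (fun N => ?_) (fun N => ?_)
    · have := (costs_all N).2.2.2.2.2.2.2.2.2.2.1.2.1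
      have h2 : (N - 3) / 3 = N / 3 - 1 := by omega
      rw [h2]
      simpa using this
    · have := (costs_all N).2.2.2.2.2.2.2.2.2.2.1.2.2
      omega
  · refine grow_of 3 0 6 0 3 (by norm_num) (fun N => ?_) (fun N => ?_)
    · have := (gcosts N).2.2.1
      simpa using this
    · have := (gcosts N).2.2.2
      have := (costs_all N).2.2.2.2.2.2.2.2.2.2.2.1.2.2
      have := hN N
      omega
  · refine grow_of 3 0 6 0 3 (by norm_num) (fun N => ?_) (fun N => ?_)
    · have := (costs_all N).2.2.2.2.2.2.2.2.2.2.2.1.2.1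
      simpa using this
    · have := (costs_all N).2.2.2.2.2.2.2.2.2.2.2.1.2.2
      have := hN N
      omega
  · refine grow_of 3 1 6 1 3 (by norm_num) (fun N => ?_) (fun N => ?_)
    · have := (costs_all N).2.2.2.2.2.2.2.2.2.2.2.2.1.2.1
      omega
    · have := (costs_all N).2.2.2.2.2.2.2.2.2.2.2.2.1.2.2
      have := hN N
      omega
  · refine grow_of 3 0 6 0 3 (by norm_num) (fun N => ?_) (fun N => ?_)
    · have := (costs_all N).2.2.2.2.2.2.2.2.2.2.2.2.2.2.1
      simpa using this
    · have := (costs_all N).2.2.2.2.2.2.2.2.2.2.2.2.2.2.2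
      have := hN N
      omega

end Pool.Agent.Helper16K9.Ver
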