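import Pool.Agent.Helper16K9.Ver.SpanPath
import Pool.Agent.Helper16K9.Ver.Embed

set_option autoImplicit false
set_option linter.unusedSectionVars false
set_option linter.unusedVariables false

/-!
# Soundness makes the point isolated
-/

namespace Pool.Agent.Helper16K9.Ver

open IsLocalRing MvPolynomial Pool.Agent.Helper165.P1 Cardinal

theorem exists_quot (R : Type) [CommRing R] [Algebra ℂ R] (hR : #R ≤ 𝔠) (q : Ideal R)
    (hq : q.IsPrime) : ∃ (E : Type) (_ : Field E) (_ : Algebra ℂ E) (f : R →ₐ[ℂ] E),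
      #E = 𝔠 ∧ ∀ y, f y = 0 ↔ y ∈ q := by
  have hdom : IsDomain (R ⧸ q) := Ideal.Quotient.isDomain q
  have h1 : #(R ⧸ q) ≤ 𝔠 :=
    (Cardinal.mk_le_of_surjective (Ideal.Quotient.mk_surjective (I := q))).trans hR
  refine ⟨FractionRing (R ⧸ q), inferInstance, inferInstance,
    (IsScalarTower.toAlgHom ℂ (R ⧸ q) (FractionRing (R ⧸ q))).comp (Ideal.Quotient.mkₐ ℂ q),
    card_frac _ h1, fun y => ?_⟩
  have hinj : Function.Injective (algebraMap (R ⧸ q) (FractionRing (R ⧸ q))) :=
    IsFractionRing.injective _ _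
  change algebraMap (R ⧸ q) (FractionRing (R ⧸ q)) (Ideal.Quotient.mk q y) = 0 ↔ _
  rw [map_eq_zero_iff _ hinj, Ideal.Quotient.eq_zero_iff_mem]

section

variable {J M : Type}

/-- the values of a family of polynomials with integral coefficients -/
noncomputable def pv {R : Type} [CommRing R] (F : M → MvPolynomial J ℤ) (x : J → R) : M → R :=
  fun a => MvPolynomial.aeval x (F a)

theorem pv_map {R S : Type} [CommRing R] [CommRing S] (f : R →+* S) (F : M → MvPolynomial J ℤ)
    (x : J → R) (a : M) : f (pv F x a) = pv F (fun r => f (x r)) a := by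
  have : (f.toIntAlgHom).comp (MvPolynomial.aeval x) = MvPolynomial.aeval (fun r => f (x r)) := by
    apply MvPolynomial.algHom_ext
    intro i
    simp
  exact DFunLike.congr_fun this (F a)

/-- extension by zero -/
def gf {R : Type} [CommRing R] {N : ℕ} (g : Fin N → R) : ℕ → R :=
  fun m => if h : m < N then g ⟨m, h⟩ else 0

theorem gf_map {R S : Type} [CommRing R] [CommRing S] (f : R →+* S) {N : ℕ} (g : Fin N → R)
    (m : ℕ) : f (gf g m) = gf (fun i => f (g i)) m := by
  unfold gf
  split_ifs
  · rfl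
  · exact map_zero f

variable [Fintype J] [Fintype M] [DecidableEq J] [DecidableEq M] (F : M → MvPolynomial J ℤ)

/-- soundness of a path -/
def Sound (k : Subfield ℂ)
    (π : List (Ins (J ⊕ M))) : Prop :=
  ∀ (x : J → ℂ) (c : M → ℂ) (g w : ℕ → ℂ),
    AlgebraicIndependent k x → Sat (RingHom.id ℂ) (fun y => y = 0) (Sum.elim x c) g w 0 π →
      c = pv F x

/-- a run with many independent values -/
def Good (k : Subfield ℂ)
    (π : List (Ins (J ⊕ M))) {N : ℕ}
    (T : Finset (J ⊕ Fin N))
    (v : J ⊕ Fin N → ℂ) (w : ℕ → ℂ) : Prop :=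
  (∀ r, Sum.inl r ∈ T) ∧ AlgebraicIndepOn k v (T : Set _) ∧
    Sat (RingHom.id ℂ) (fun y => y = 0) (Sum.elim (fun r => v (Sum.inl r))
      (pv F fun r => v (Sum.inl r))) (gf fun i => v (Sum.inr i)) w 0 π

/-- the point -/
noncomputable def zz {N : ℕ} (v : J ⊕ Fin N → ℂ) :
    M ⊕ Fin N → ℂ :=
  Sum.elim (pv F fun r => v (Sum.inl r)) (fun i => v (Sum.inr i))

variable {N : ℕ} (v : J ⊕ Fin N → ℂ)

/-- the inputs in the local ring -/
noncomputable def XX : J ⊕ M → LR (zz F v) :=
  Sum.elim (fun r => algebraMap ℂ (LR (zz F v)) (v (Sum.inl r))) (fun a => Z (zz F v) (Sum.inl a))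

/-- the guesses in the local ring -/
noncomputable def GG : ℕ → LR (zz F v) := gf fun i => Z (zz F v) (Sum.inr i)

theorem iso (k : Subfield ℂ) [Countable k]
    (π : List (Ins (J ⊕ M)))
    (hπ : PIn k π) (hs : Sound F k π)
    (T : Finset (J ⊕ Fin N)) (w : ℕ → ℂ)
    (hgood : Good F k π T v w)
    (hmax : ∀ (T' : Finset (J ⊕ Fin N))
      (v' : J ⊕ Fin N → ℂ) (w' : ℕ → ℂ),
      Good F k π T' v' w' → T'.card ≤ T.card)
    (W : ℕ → LR (zz F v)) {E0 : LR (zz F v) → Prop}
    (hW : Sat (algebraMap ℂ (LR (zz F v))) E0 (XX F v) (GG F v) W 0 π)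
    (q : Ideal (LR (zz F v))) (hq : q.IsPrime)
    (h1 : ∀ y ∈ eqs (algebraMap ℂ (LR (zz F v))) (XX F v) W 0 π, y ∈ q)
    (h2 : ∀ s, Sum.inr s ∈ T →
      Z (zz F v) (Sum.inr s) - algebraMap ℂ (LR (zz F v)) (v (Sum.inr s)) ∈ q) :
    q = maximalIdeal (LR (zz F v)) := by
  classical
  obtain ⟨E, _, _, f, hE, hf⟩ := exists_quot (LR (zz F v)) card_LR q hq
  obtain ⟨ψ, hψ⟩ := exists_emb (k := k) hE
  -- embeddings
  let ψk : E →ₐ[k] ℂ := { ψ with commutes' := hψ }
  let θ : ℂ →ₐ[k] E := IsScalarTower.toAlgHom k ℂ E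
  have hθ : Function.Injective θ := (algebraMap ℂ E).injective
  have hψi : Function.Injective ψk := ψ.injective
  let τ : LR (zz F v) →+* ℂ := ψ.comp (f : LR (zz F v) →+* E)
  have hτc : ∀ c ∈ k, τ (algebraMap ℂ (LR (zz F v)) c) = c := by
    intro c hc
    change ψ (f (algebraMap ℂ (LR (zz F v)) c)) = c
    rw [AlgHom.commutes]
    exact hψ ⟨c, hc⟩
  -- the transported run
  have hrun : Sat (RingHom.id ℂ) (fun y => y = 0) (τ ∘ XX F v) (τ ∘ GG F v) (τ ∘ W) 0 π := by
    have h3 : Sat (algebraMap ℂ (LR (zz F v))) (fun y => y ∈ q) (XX F v) (GG F v) W 0 π :=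
      hW.change h1
    have h4 := h3.map (E' := fun y : ℂ => y = 0) τ (by
      intro y hy
      change ψ (f y) = 0
      rw [(hf y).2 hy, map_zero])
    refine h4.congr_phi (k := k) ?_ hπ
    intro c hc
    exact hτc c hc
  let v' : J ⊕ Fin N → ℂ := Sum.elim
    (fun r => τ (algebraMap ℂ (LR (zz F v)) (v (Sum.inl r)))) (fun i => τ (Z (zz F v) (Sum.inr i)))
  have hv'1 : ∀ r, v' (Sum.inl r) = ψk (θ (v (Sum.inl r))) := by
    intro r
    change ψ (f (algebraMap ℂ (LR (zz F v)) (v (Sum.inl r)))) = ψ (algebraMap ℂ E _)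
    rw [AlgHom.commutes]
  have hx' : AlgebraicIndependent k fun r => v' (Sum.inl r) := by
    have h3 : AlgebraicIndependent k fun r => v (Sum.inl r) := by
      have h4 := hgood.2.1
      exact h4.comp (fun r => ⟨Sum.inl r, hgood.1 r⟩)
        (fun a b hab => Sum.inl_injective (congrArg Subtype.val hab))
    have h5 := (h3.map' hθ).map' hψi
    have h6 : (fun r => v' (Sum.inl r)) = ψk ∘ (θ ∘ fun r => v (Sum.inl r)) := funext hv'1
    rw [h6]
    exact h5
  have hXX : τ ∘ XX F v = Sum.elim (fun r => v' (Sum.inl r))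
      (fun a => τ (Z (zz F v) (Sum.inl a))) := by
    funext i
    rcases i with i | i <;> rfl
  have hGG : τ ∘ GG F v = gf fun i => v' (Sum.inr i) := by
    funext m
    exact gf_map τ _ m
  rw [hXX, hGG] at hrun
  have hc := hs _ _ _ _ hx' hrun
  have hC : ∀ a, Z (zz F v) (Sum.inl a) -
      algebraMap ℂ (LR (zz F v)) (zz F v (Sum.inl a)) ∈ q := by
    intro a
    rw [← hf, map_sub, sub_eq_zero]
    apply ψ.injective
    have h3 : τ (Z (zz F v) (Sum.inl a)) = pv F (fun r => v' (Sum.inl r)) a := congrFun hc a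
    change τ (Z (zz F v) (Sum.inl a)) = τ (algebraMap ℂ (LR (zz F v)) (zz F v (Sum.inl a)))
    rw [h3]
    exact (pv_map (τ.comp (algebraMap ℂ (LR (zz F v)))) F (fun r => v (Sum.inl r)) a).symm
  apply max_eq_of_mem (zz F v) hq
  intro i
  rcases i with a | s
  · exact hC a
  · by_cases hsT : Sum.inr s ∈ T
    · exact h2 s hsT
    · have halg : IsAlgebraic ℂ (f (Z (zz F v) (Sum.inr s))) := by
        by_contra htr
        have h3 : AlgebraicIndependent ℂ (fun _ : Unit => f (Z (zz F v) (Sum.inr s))) :=
          algebraicIndependent_unique_type_iff.2 htr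
        have h4 : AlgebraicIndependent k (fun i : (T : Set (J ⊕
            Fin N)) => v i.1) := hgood.2.1
        have h5 := (h4.sumElim_comp h3).map' hψi
        have h6 : AlgebraicIndepOn k v' ((insert (Sum.inr s) T : Finset _) : Set _) := by
          let e : ((insert (Sum.inr s) T : Finset _) : Set _) → Unit ⊕ (T : Set _) :=
            fun i => if h : i.1 ∈ T then Sum.inr ⟨i.1, h⟩ else Sum.inl ()
          have hor : ∀ i : ((insert (Sum.inr s) T : Finset _) : Set _), i.1 ∉ T →
              i.1 = Sum.inr s := by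
            intro i hi
            exact (Finset.mem_insert.1 i.2).resolve_right hi
          have he : Function.Injective e := by
            intro i j hij
            apply Subtype.ext
            by_cases hi : i.1 ∈ T <;> by_cases hj : j.1 ∈ T
            · simp only [e, dif_pos hi, dif_pos hj] at hij
              have h10 := Sum.inr_injective hij
              exact congrArg (fun y => y.1) h10
            · simp only [e, dif_pos hi, dif_neg hj] at hij
              cases hij
            · simp only [e, dif_neg hi, dif_pos hj] at hij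
              cases hij
            · rw [hor i hi, hor j hj]
          have h7 := h5.comp e he
          have h8 : (ψk ∘ Sum.elim (fun _ : Unit => f (Z (zz F v) (Sum.inr s)))
              (algebraMap ℂ E ∘ fun i : (T : Set (J ⊕
                Fin N)) => v i.1)) ∘ e = fun i => v' i.1 := by
            funext i
            by_cases hi : i.1 ∈ T
            · simp only [Function.comp_apply, e, dif_pos hi, Sum.elim_inr]
              rcases hi' : i.1 with r | s'
              · exact (hv'1 r).symm
              · have h9 := h2 s' (by rw [← hi']; exact hi)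
                rw [← hf, map_sub, AlgHom.commutes, sub_eq_zero] at h9
                rw [← h9]
                rfl
            · simp only [Function.comp_apply, e, dif_neg hi, Sum.elim_inl]
              rw [hor i hi]
              rfl
          rw [h8] at h7
          exact h7
        have h9 := hmax _ v' (τ ∘ W) ⟨fun r => Finset.mem_insert_of_mem (hgood.1 r), h6, by
          rw [hc] at hrun
          exact hrun⟩
        rw [Finset.card_insert_of_notMem hsT] at h9
        omega
      obtain ⟨c, hc'⟩ := exists_const halg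
      have h3 : Z (zz F v) (Sum.inr s) - algebraMap ℂ (LR (zz F v)) c ∈ q := by
        rw [← hf, map_sub, AlgHom.commutes, hc', sub_self]
      have h4 := le_maximalIdeal hq.ne_top h3
      rw [mem_max_iff, map_sub, ev_const, ev_Z, sub_eq_zero] at h4
      rw [h4]
      exact h3

end

end Pool.Agent.Helper16K9.Ver
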