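import Pool.Agent.Helper16K9.Ver.SpanPath

set_option autoImplicit false
set_option linter.unusedSectionVars false
set_option linter.unusedVariables false

/-!
# The third order identity
-/

namespace Pool.Agent.Helper16K9.Ver

open IsLocalRing MvPolynomial Pool.Agent.Helper165.P1

section

variable {κ : Type} [Fintype κ] [DecidableEq κ] {z : κ → ℂ} {J : Type} (ρ : LR z →+* Pui ℂ)
  (D : J → ℂ →+ ℂ)

/-- third derivatives -/
noncomputable def H3 (f : Pui ℂ) : J → J → J → Pui ℂ := fun r r' r'' =>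
  pD (D r) (pD (D r') (pD (D r'') f))

/-- symmetrisation -/
noncomputable def S3 (m : J → Pui ℂ) (P : J → J → Pui ℂ) : J → J → J → Pui ℂ := fun r r' r'' =>
  m r * P r' r'' + m r' * P r r'' + m r'' * P r r'

theorem H3_add (f g : Pui ℂ) : H3 D (f + g) = H3 D f + H3 D g := by
  funext r r' r''
  simp only [H3, Pi.add_apply, pD_add]

/-- first derivatives -/
noncomputable def D1 (f : Pui ℂ) : J → Pui ℂ := fun r => pD (D r) f

theorem H3_mul (hD : ∀ r a b, D r (a * b) = a * D r b + b * D r a) (f g : Pui ℂ) :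
    H3 D (f * g) = f • H3 D g + g • H3 D f + S3 (D1 D f) (H2 D g) + S3 (D1 D g) (H2 D f) := by
  funext r r' r''
  simp only [H3, H2, S3, D1, Pi.add_apply, Pi.smul_apply, smul_eq_mul]
  rw [pD_mul _ (hD r''), pD_add, pD_mul _ (hD r'), pD_mul _ (hD r'), pD_add, pD_add, pD_add,
    pD_mul _ (hD r), pD_mul _ (hD r), pD_mul _ (hD r), pD_mul _ (hD r)]
  ring

/-- the corrected third derivative -/
noncomputable def Q3 (F : LR z) : J → J → J → Pui ℂ :=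
  H3 D (ρ F) - ∑ a, ρ (dl z a F) • H3 D (ρ (Z z a))

theorem Q3_add (F G : LR z) : Q3 ρ D (F + G) = Q3 ρ D F + Q3 ρ D G := by
  unfold Q3
  simp only [map_add, H3_add, dl_add, add_smul, Finset.sum_add_distrib]
  abel

theorem Q3_mul (hD : ∀ r a b, D r (a * b) = a * D r b + b * D r a) (F G : LR z) :
    Q3 ρ D (F * G) = ρ F • Q3 ρ D G + ρ G • Q3 ρ D F +
      (S3 (D1 D (ρ F)) (H2 D (ρ G)) + S3 (D1 D (ρ G)) (H2 D (ρ F))) := by
  unfold Q3
  simp only [map_mul, H3_mul D hD, dl_mul, map_add, add_smul, Finset.sum_add_distrib, smul_sub,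
    Finset.smul_sum, mul_smul]
  abel

theorem Q3_const (hρ : ∀ c : ℂ, ρ (algebraMap ℂ (LR z) c) = cP c) {c : ℂ}
    (hc : ∀ r r', D r (D r' c) = 0) : Q3 ρ D (algebraMap ℂ (LR z) c) = 0 := by
  unfold Q3
  have h1 : H3 D (ρ (algebraMap ℂ (LR z) c)) = 0 := by
    funext r r' r''
    rw [hρ, H3, pD_C, pD_C, pD_C, hc, map_zero, map_zero]
    rfl
  rw [h1, zero_sub, neg_eq_zero]
  refine Finset.sum_eq_zero fun a _ => ?_
  rw [dl_const, map_zero, zero_smul]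

theorem Q3_Z (a : κ) : Q3 ρ D (Z z a) = 0 := by
  unfold Q3
  rw [Finset.sum_eq_single a]
  · rw [dl_Z, if_pos rfl, map_one, one_smul, sub_self]
  · intro b _ hb
    rw [dl_Z, if_neg (Ne.symm hb), map_zero, zero_smul]
  · intro h
    exact absurd (Finset.mem_univ a) h

theorem Q3_zero : Q3 ρ D 0 = 0 := by
  have := Q3_add ρ D 0 0
  rw [add_zero] at this
  simpa using this

theorem Q3_neg (F : LR z) : Q3 ρ D (-F) = - Q3 ρ D F := by
  have := Q3_add ρ D F (-F)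
  rw [add_neg_cancel, Q3_zero] at this
  exact (neg_eq_of_add_eq_zero_right this.symm).symm

theorem Q3_sub (F G : LR z) : Q3 ρ D (F - G) = Q3 ρ D F - Q3 ρ D G := by
  rw [sub_eq_add_neg, Q3_add, Q3_neg, sub_eq_add_neg]

theorem Q3_sum {ι : Type} (s : Finset ι) (F : ι → LR z) :
    Q3 ρ D (∑ i ∈ s, F i) = ∑ i ∈ s, Q3 ρ D (F i) := by
  classical
  induction s using Finset.induction_on with
  | empty => simp [Q3_zero]
  | insert a s ha ih => rw [Finset.sum_insert ha, Finset.sum_insert ha, Q3_add, ih]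

theorem Q3_const_mul (hD : ∀ r a b, D r (a * b) = a * D r b + b * D r a)
    (hρ : ∀ c : ℂ, ρ (algebraMap ℂ (LR z) c) = cP c) {c : ℂ} (hc : ∀ r, D r c = 0) (F : LR z) :
    Q3 ρ D (algebraMap ℂ (LR z) c * F) = cP c • Q3 ρ D F := by
  rw [Q3_mul ρ D hD, Q3_const ρ D hρ (fun r r' => by rw [hc, map_zero]), smul_zero, add_zero, hρ]
  have h1 : D1 D (cP c) = 0 := by
    funext r
    rw [D1, pD_C, hc, map_zero]
    rfl
  have h2 : H2 D (cP c) = 0 := by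
    funext r r'
    rw [H2, pD_C, pD_C, hc, map_zero, map_zero]
    rfl
  have h3 : S3 (D1 D (cP c)) (H2 D (ρ F)) = 0 := by
    funext r r' r''
    simp [S3, h1]
  have h4 : S3 (D1 D (ρ F)) (H2 D (cP c)) = 0 := by
    funext r r' r''
    simp [S3, h2]
  rw [h3, h4, add_zero, add_zero]

/-- **Identification**, third order. -/
theorem ident3 (𝒮 : Submodule (Pui ℂ) (J → J → J → Pui ℂ)) (g : κ → LR z) (v : κ → ℚ)
    (hD : ∀ r a b, D r (a * b) = a * D r b + b * D r a)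
    (hDv : ∀ r (q : ℚ), D r (q : ℂ) = 0)
    (hg : ∀ i, ρ (g i) = cP (v i) * TP) (hJ : ρ (JM z g).det ≠ 0)
    (hQ : ∀ i, Q3 ρ D (g i) ∈ 𝒮) (a : κ) : H3 D (ρ (Z z a)) ∈ 𝒮 := by
  have h0 : ∀ i, H3 D (ρ (g i)) = 0 := by
    intro i
    funext r r' r''
    rw [hg, H3, pD_mul _ (hD r''), pD_C, pD_T _ (by simpa using hDv r'' 1), hDv, map_zero,
      mul_zero, mul_zero, add_zero, pD_zero, pD_zero]
    rfl
  have h1 : ∀ i, ∑ b, ρ (dl z b (g i)) • H3 D (ρ (Z z b)) ∈ 𝒮 := by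
    intro i
    have h2 := hQ i
    unfold Q3 at h2
    rw [h0, zero_sub] at h2
    exact (Submodule.neg_mem_iff _).1 h2
  -- Cramer
  let M : Matrix κ κ (Pui ℂ) := (JM z g).map ρ
  have hM : M.det = ρ (JM z g).det := (RingHom.map_det ρ (JM z g)).symm
  have h2 : M.det • H3 D (ρ (Z z a)) =
      ∑ i, M.adjugate a i • ∑ b, ρ (dl z b (g i)) • H3 D (ρ (Z z b)) := by
    simp only [Finset.smul_sum, smul_smul]
    rw [Finset.sum_comm]
    have h3 : ∀ b, ∑ i, (M.adjugate a i * ρ (dl z b (g i))) • H3 D (ρ (Z z b)) =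
        (if a = b then M.det else 0) • H3 D (ρ (Z z b)) := by
      intro b
      rw [← Finset.sum_smul]
      congr 1
      have h4 := congrFun (congrFun (Matrix.adjugate_mul M) a) b
      rw [Matrix.mul_apply, Matrix.smul_apply, Matrix.one_apply, smul_eq_mul, mul_ite, mul_one,
        mul_zero] at h4
      exact h4
    simp only [h3]
    rw [Finset.sum_eq_single a]
    · rw [if_pos rfl]
    · intro b _ hb
      rw [if_neg (Ne.symm hb), zero_smul]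
    · intro h
      exact absurd (Finset.mem_univ a) h
  have h3 : M.det • H3 D (ρ (Z z a)) ∈ 𝒮 := by
    rw [h2]
    exact Submodule.sum_mem _ fun i _ => Submodule.smul_mem _ _ (h1 i)
  have h4 : M.det ≠ 0 := by
    rw [hM]
    exact hJ
  have h5 := Submodule.smul_mem 𝒮 (M.det)⁻¹ h3
  rwa [smul_smul, inv_mul_cancel₀ h4, one_smul] at h5

/-! ### the path -/

variable {I : Type} [Fintype I] (𝒮 : Submodule (Pui ℂ) (J → J → Pui ℂ))
  (𝒯 : Submodule (Pui ℂ) (J → J → J → Pui ℂ))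

/-- the combined property -/
def P3 (F : LR z) : Prop := QQ ρ D F ∈ 𝒮 ∧ Q3 ρ D F ∈ 𝒯

theorem H2_mem (hZ : ∀ a, H2 D (ρ (Z z a)) ∈ 𝒮) {F : LR z} (h : QQ ρ D F ∈ 𝒮) :
    H2 D (ρ F) ∈ 𝒮 := by
  have h1 : H2 D (ρ F) = QQ ρ D F + ∑ a, ρ (dl z a F) • H2 D (ρ (Z z a)) := by
    unfold QQ
    abel
  rw [h1]
  exact add_mem h (Submodule.sum_mem _ fun a _ => Submodule.smul_mem _ _ (hZ a))

theorem P3_ev (hD : ∀ r a b, D r (a * b) = a * D r b + b * D r a)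
    (hρ : ∀ c : ℂ, ρ (algebraMap ℂ (LR z) c) = cP c) {k : Subfield ℂ}
    (hk : ∀ r, ∀ c ∈ k, D r c = 0) {X : I → LR z} {W : ℕ → LR z}
    (hX : ∀ i, P3 ρ D 𝒮 𝒯 (X i)) {m : ℕ} (hW : ∀ j < m, P3 ρ D 𝒮 𝒯 (W j)) {u : Lin I}
    (hu : u.In k) : P3 ρ D 𝒮 𝒯 (u.ev (algebraMap ℂ (LR z)) X W m) := by
  refine ⟨QQ_ev ρ D 𝒮 hD hρ hk (fun i => (hX i).1) (fun j hj => (hW j hj).1) hu, ?_⟩
  unfold Lin.ev
  rw [Q3_add, Q3_add, Q3_sum, Q3_sum, Q3_const ρ D hρ (fun r r' => by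
    rw [hk r' _ hu.1, map_zero]), zero_add]
  refine add_mem (Submodule.sum_mem _ fun i _ => ?_) (Submodule.sum_mem _ fun j hj => ?_)
  · rw [Q3_const_mul ρ D hD hρ (fun r => hk r _ (hu.2.1 i))]
    exact Submodule.smul_mem _ _ (hX i).2
  · rw [Q3_const_mul ρ D hD hρ (fun r => hk r _ (hu.2.2 j))]
    exact Submodule.smul_mem _ _ (hW j (Finset.mem_range.1 hj)).2

theorem span_path3 (hD : ∀ r a b, D r (a * b) = a * D r b + b * D r a)
    (hρ : ∀ c : ℂ, ρ (algebraMap ℂ (LR z) c) = cP c) {k : Subfield ℂ}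
    (hk : ∀ r, ∀ c ∈ k, D r c = 0) (hZ : ∀ a, H2 D (ρ (Z z a)) ∈ 𝒮)
    (hST : ∀ (m : J → Pui ℂ), ∀ P ∈ 𝒮, S3 m P ∈ 𝒯) {X : I → LR z} {G W : ℕ → LR z}
    (hX : ∀ i, P3 ρ D 𝒮 𝒯 (X i)) (hG : ∀ j, P3 ρ D 𝒮 𝒯 (G j)) {E : LR z → Prop} :
    ∀ (m : ℕ) (π : List (Ins I)), PIn k π → Sat (algebraMap ℂ (LR z)) E X G W m π →
    (∀ j < m, P3 ρ D 𝒮 𝒯 (W j)) →
    (∀ pq ∈ prl ρ D (algebraMap ℂ (LR z)) X W m π, sy pq ∈ 𝒮) →
    ∀ y ∈ eqs (algebraMap ℂ (LR z)) X W m π, P3 ρ D 𝒮 𝒯 y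
  | _, [], _, _, _, _, y, hy => by simp [eqs] at hy
  | m, .mul u v :: l, hk1, hs, hW, hp, y, hy => by
    refine span_path3 hD hρ hk hZ hST hX hG (m + 1) l hk1.2.2 hs.2 (fun j hj => ?_)
      (fun pq hpq => hp pq (List.mem_cons_of_mem _ hpq)) y hy
    rcases Nat.lt_succ_iff_lt_or_eq.1 hj with h1 | h1
    · exact hW j h1
    · subst h1
      have h4 : sy (fun r => pD (D r) (ρ (u.ev (algebraMap ℂ (LR z)) X W j)),
          fun r => pD (D r) (ρ (v.ev (algebraMap ℂ (LR z)) X W j))) ∈ 𝒮 :=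
        hp _ List.mem_cons_self
      have hu := P3_ev ρ D 𝒮 𝒯 hD hρ hk hX hW hk1.1
      have hv := P3_ev ρ D 𝒮 𝒯 hD hρ hk hX hW hk1.2.1
      rw [hs.1]
      refine ⟨?_, ?_⟩
      · rw [QQ_mul ρ D hD, pr_eq_sy]
        exact add_mem (add_mem (Submodule.smul_mem _ _ hv.1) (Submodule.smul_mem _ _ hu.1)) h4
      · rw [Q3_mul ρ D hD]
        refine add_mem (add_mem (Submodule.smul_mem _ _ hv.2) (Submodule.smul_mem _ _ hu.2))
          (add_mem (hST _ _ ?_) (hST _ _ ?_))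
        · exact H2_mem ρ D 𝒮 hZ hv.1
        · exact H2_mem ρ D 𝒮 hZ hu.1
  | m, .div u v :: l, hk1, hs, hW, hp, y, hy => by
    refine span_path3 hD hρ hk hZ hST hX hG (m + 1) l hk1.2.2 hs.2.2 (fun j hj => ?_)
      (fun pq hpq => hp pq (List.mem_cons_of_mem _ hpq)) y hy
    rcases Nat.lt_succ_iff_lt_or_eq.1 hj with h1 | h1
    · exact hW j h1
    · subst h1
      have h4 : sy (fun r => pD (D r) (ρ (W j)),
          fun r => pD (D r) (ρ (v.ev (algebraMap ℂ (LR z)) X W j))) ∈ 𝒮 :=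
        hp _ List.mem_cons_self
      have hu := P3_ev ρ D 𝒮 𝒯 hD hρ hk hX hW hk1.1
      have hv := P3_ev ρ D 𝒮 𝒯 hD hρ hk hX hW hk1.2.1
      have h7 : ρ (v.ev (algebraMap ℂ (LR z)) X W j) ≠ 0 := (hs.1.map ρ).ne_zero
      have hQ : QQ ρ D (W j) ∈ 𝒮 := by
        have h2 := congrArg (QQ ρ D) hs.2.1
        rw [QQ_mul ρ D hD, pr_eq_sy] at h2
        have h3 := hu.1
        rw [← h2] at h3
        have h5 := (Submodule.add_mem_iff_left 𝒮 h4).1 h3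
        have h6 := (Submodule.add_mem_iff_right 𝒮
          (Submodule.smul_mem _ (ρ (W j)) hv.1)).1 h5
        have h8 := Submodule.smul_mem 𝒮 (ρ (v.ev (algebraMap ℂ (LR z)) X W j))⁻¹ h6
        rwa [smul_smul, inv_mul_cancel₀ h7, one_smul] at h8
      refine ⟨hQ, ?_⟩
      have h2 := congrArg (Q3 ρ D) hs.2.1
      rw [Q3_mul ρ D hD] at h2
      have h3 := hu.2
      rw [← h2] at h3
      have h9 : S3 (D1 D (ρ (W j))) (H2 D (ρ (v.ev (algebraMap ℂ (LR z)) X W j))) +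
          S3 (D1 D (ρ (v.ev (algebraMap ℂ (LR z)) X W j))) (H2 D (ρ (W j))) ∈ 𝒯 :=
        add_mem (hST _ _ (H2_mem ρ D 𝒮 hZ hv.1)) (hST _ _ (H2_mem ρ D 𝒮 hZ hQ))
      have h5 := (Submodule.add_mem_iff_left 𝒯 h9).1 h3
      have h6 := (Submodule.add_mem_iff_right 𝒯
        (Submodule.smul_mem _ (ρ (W j)) hv.2)).1 h5
      have h8 := Submodule.smul_mem 𝒯 (ρ (v.ev (algebraMap ℂ (LR z)) X W j))⁻¹ h6
      rwa [smul_smul, inv_mul_cancel₀ h7, one_smul] at h8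
  | m, .guess :: l, hk1, hs, hW, hp, y, hy => by
    refine span_path3 hD hρ hk hZ hST hX hG (m + 1) l hk1 hs.2 (fun j hj => ?_) hp y hy
    rcases Nat.lt_succ_iff_lt_or_eq.1 hj with h1 | h1
    · exact hW j h1
    · subst h1
      rw [hs.1]
      exact hG j
  | m, .eq u :: l, hk1, hs, hW, hp, y, hy => by
    rcases List.mem_cons.1 hy with h1 | h1
    · rw [h1]
      exact P3_ev ρ D 𝒮 𝒯 hD hρ hk hX hW hk1.1
    · exact span_path3 hD hρ hk hZ hST hX hG m l hk1.2 hs.2 hW hp y h1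
  | m, .ne u :: l, hk1, hs, hW, hp, y, hy =>
    span_path3 hD hρ hk hZ hST hX hG m l hk1.2 hs.2 hW hp y hy

end

end Pool.Agent.Helper16K9.Ver
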