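import Pool.Agent.Helper16K9.Ver.GIso
import Pool.Agent.Helper16K9.Ver.Third

set_option autoImplicit false
set_option linter.unusedSectionVars false
set_option linter.unusedVariables false

/-!
# The lower bound for a path
-/

namespace Pool.Agent.Helper16K9.Ver

open IsLocalRing MvPolynomial Pool.Agent.Helper165.P1 Cardinal

section

variable {J M : Type} [Fintype J] [Fintype M] [DecidableEq J] [DecidableEq M]
  (F : M → MvPolynomial J ℤ) {N : ℕ}

/-- a run of maximal independence -/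
theorem exists_max (k : Subfield ℂ)
    (π : List (Ins (J ⊕ M)))
    (h : ∃ (T : Finset (J ⊕ Fin N))
      (v : J ⊕ Fin N → ℂ) (w : ℕ → ℂ), Good F k π T v w) :
    ∃ (T : Finset (J ⊕ Fin N))
      (v : J ⊕ Fin N → ℂ) (w : ℕ → ℂ), Good F k π T v w ∧
      ∀ (T' : Finset (J ⊕ Fin N))
        (v' : J ⊕ Fin N → ℂ) (w' : ℕ → ℂ),
        Good F k π T' v' w' → T'.card ≤ T.card := by
  classical
  let S : Finset (Finset (J ⊕ Fin N)) :=
    Finset.univ.filter fun T => ∃ v w, Good F k π T v w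
  obtain ⟨T₀, v₀, w₀, h₀⟩ := h
  have hS : S.Nonempty := ⟨T₀, Finset.mem_filter.2 ⟨Finset.mem_univ _, v₀, w₀, h₀⟩⟩
  obtain ⟨T, hT, hmax⟩ := S.exists_max_image Finset.card hS
  obtain ⟨v, w, hg⟩ := (Finset.mem_filter.1 hT).2
  exact ⟨T, v, w, hg, fun T' v' w' h' =>
    hmax T' (Finset.mem_filter.2 ⟨Finset.mem_univ _, v', w', h'⟩)⟩

/-- a combination lies in an ideal containing its terms -/
theorem comb_mem {R : Type} [CommRing R] [Algebra ℂ R] {m : ℕ} (f : Fin m → R) (c : Fin m → ℚ)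
    (q : Ideal R) (h : ∀ j, f j ∈ q) : comb f c ∈ q :=
  Submodule.sum_mem _ fun j _ => q.mul_mem_left _ (h j)

theorem list_get_mem {α : Type} (l : List α) (p : α → Prop) :
    (∀ i : Fin l.length, p (l.get i)) ↔ ∀ y ∈ l, p y := by
  constructor
  · intro h y hy
    obtain ⟨i, rfl⟩ := List.mem_iff_get.1 hy
    exact h i
  · intro h i
    exact h _ (List.get_mem l i)

/-- the space of the third order tensors -/
noncomputable def TT (l : List ((J → Pui ℂ) × (J → Pui ℂ))) : Submodule (Pui ℂ) (J → J → J → Pui ℂ) :=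
  Submodule.span (Pui ℂ) {T | ∃ (m : J → Pui ℂ) (s : Fin l.length), T = S3 m (sy (l.get s))}

theorem S3_add_left (m m' : J → Pui ℂ) (P : J → J → Pui ℂ) :
    S3 (m + m') P = S3 m P + S3 m' P := by
  funext r r' r''
  simp only [S3, Pi.add_apply]
  ring

theorem S3_smul_left (c : Pui ℂ) (m : J → Pui ℂ) (P : J → J → Pui ℂ) :
    S3 (c • m) P = c • S3 m P := by
  funext r r' r''
  simp only [S3, Pi.smul_apply, smul_eq_mul]
  ring

theorem S3_add_right (m : J → Pui ℂ) (P P' : J → J → Pui ℂ) :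
    S3 m (P + P') = S3 m P + S3 m P' := by
  funext r r' r''
  simp only [S3, Pi.add_apply]
  ring

theorem S3_smul_right (c : Pui ℂ) (m : J → Pui ℂ) (P : J → J → Pui ℂ) :
    S3 m (c • P) = c • S3 m P := by
  funext r r' r''
  simp only [S3, Pi.smul_apply, smul_eq_mul]
  ring

theorem S3_zero_left (P : J → J → Pui ℂ) : S3 0 P = 0 := by
  funext r r' r''
  simp [S3]

theorem S3_zero_right (m : J → Pui ℂ) : S3 m 0 = 0 := by
  funext r r' r''
  simp [S3]

/-- elements of the space -/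
theorem mem_TT {l : List ((J → Pui ℂ) × (J → Pui ℂ))} {T : J → J → J → Pui ℂ} (h : T ∈ TT l) :
    ∃ m : Fin l.length → J → Pui ℂ, T = ∑ s, S3 (m s) (sy (l.get s)) := by
  classical
  unfold TT at h
  induction h using Submodule.span_induction with
  | mem T hT =>
    obtain ⟨m, s, rfl⟩ := hT
    refine ⟨fun s' => if s' = s then m else 0, ?_⟩
    rw [Finset.sum_eq_single s]
    · beta_reduce
      rw [if_pos rfl]
    · intro b _ hb
      beta_reduce
      rw [if_neg hb, S3_zero_left]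
    · intro h
      exact absurd (Finset.mem_univ s) h
  | zero => exact ⟨fun _ => 0, by simp [S3_zero_left]⟩
  | add T T' _ _ hT hT' =>
    obtain ⟨m, rfl⟩ := hT
    obtain ⟨m', rfl⟩ := hT'
    refine ⟨fun s => m s + m' s, ?_⟩
    rw [← Finset.sum_add_distrib]
    exact Finset.sum_congr rfl fun s _ => (S3_add_left _ _ _).symm
  | smul c T _ hT =>
    obtain ⟨m, rfl⟩ := hT
    refine ⟨fun s => c • m s, ?_⟩
    rw [Finset.smul_sum]
    exact Finset.sum_congr rfl fun s _ => (S3_smul_left _ _ _).symm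

theorem S3_mem_TT {l : List ((J → Pui ℂ) × (J → Pui ℂ))} (m : J → Pui ℂ) (P : J → J → Pui ℂ)
    (h : P ∈ Submodule.span (Pui ℂ) (Set.range fun s : Fin l.length => sy (l.get s))) :
    S3 m P ∈ TT l := by
  induction h using Submodule.span_induction with
  | mem P hP =>
    obtain ⟨s, rfl⟩ := hP
    exact Submodule.subset_span ⟨m, s, rfl⟩
  | zero =>
    rw [S3_zero_right]
    exact zero_mem _
  | add P P' _ _ hP hP' =>
    rw [S3_add_right]
    exact add_mem hP hP'
  | smul c P _ hP =>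
    rw [S3_smul_right]
    exact Submodule.smul_mem _ _ hP

/-- **The space spanned by the products contains the second derivatives of the entries.** -/
theorem exists_data [Nonempty M] (k : Subfield ℂ) [Countable k]
    (π : List (Ins (J ⊕ M)))
    (hπ : PIn k π) (hs : Sound F k π)
    (h : ∃ (T : Finset (J ⊕ Fin N))
      (v : J ⊕ Fin N → ℂ) (w : ℕ → ℂ), Good F k π T v w) :
    ∃ (v : J ⊕ Fin N → ℂ) (ρ : LR (zz F v) →+* Pui ℂ)
      (D : J → ℂ →+ ℂ)
      (l : List ((J → Pui ℂ) ×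
        (J → Pui ℂ))),
      (∀ r a b, D r (a * b) = a * D r b + b * D r a) ∧
      (∀ r r', D r (v (Sum.inl r')) = if r' = r then 1 else 0) ∧
      AlgebraicIndependent k (fun r => v (Sum.inl r)) ∧
      (∀ c : ℂ, ρ (algebraMap ℂ (LR (zz F v)) c) = cP c) ∧
      (∀ w ∈ maximalIdeal (LR (zz F v)), Pos (ρ w : HQ ℂ)) ∧
      l.length = cost π ∧
      (∀ a, H2 D (ρ (Z (zz F v) (Sum.inl a))) ∈
        Submodule.span (Pui ℂ) (Set.range fun s : Fin l.length => sy (l.get s))) ∧
      ∀ a, H3 D (ρ (Z (zz F v) (Sum.inl a))) ∈ TT l := by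
  classical
  obtain ⟨T, v, w, hgood, hmax⟩ := exists_max F k π h
  -- the run in the local ring
  have hX : (ev (zz F v)) ∘ XX F v = Sum.elim (fun r => v (Sum.inl r))
      (pv F fun r => v (Sum.inl r)) := by
    funext i
    rcases i with i | i
    · exact ev_const _ _
    · exact ev_Z _ _
  have hG : (ev (zz F v)) ∘ GG F v = gf fun i => v (Sum.inr i) := by
    funext m
    have := gf_map (ev (zz F v)) (fun i => Z (zz F v) (Sum.inr i)) m
    refine this.trans ?_
    congr 1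
    funext i
    exact ev_Z _ _
  have hφ : (ev (zz F v)).comp (algebraMap ℂ (LR (zz F v))) = RingHom.id ℂ :=
    RingHom.ext fun c => ev_const _ _
  have hloc : ∀ y, ev (zz F v) y ≠ 0 → IsUnit y := by
    intro y hy
    by_contra h1
    exact hy ((mem_max_iff (zz F v) y).1 ((mem_maximalIdeal y).2 h1))
  obtain ⟨W, _, hW⟩ := Sat.lift (ev (zz F v)) hloc (algebraMap ℂ (LR (zz F v))) (XX F v) (GG F v)
    (w := w) (m := 0) (π := π) (fun _ => 0) (fun j hj => absurd hj (Nat.not_lt_zero j)) (by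
      rw [hX, hG, hφ]
      exact hgood.2.2)
  -- the functions
  let ex : List (LR (zz F v)) := ((Finset.univ : Finset (Fin N)).filter
    fun s => Sum.inr s ∈ T).toList.map
      fun s => Z (zz F v) (Sum.inr s) - algebraMap ℂ (LR (zz F v)) (v (Sum.inr s))
  let fl : List (LR (zz F v)) := eqs (algebraMap ℂ (LR (zz F v))) (XX F v) W 0 π ++ ex
  have hex : ∀ y, y ∈ ex ↔ ∃ s, Sum.inr s ∈ T ∧
      Z (zz F v) (Sum.inr s) - algebraMap ℂ (LR (zz F v)) (v (Sum.inr s)) = y := by
    intro y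
    simp only [ex, List.mem_map, Finset.mem_toList, Finset.mem_filter, Finset.mem_univ, true_and]
  let fi : Fin fl.length → LR (zz F v) := fl.get
  have hiso : ∀ q : Ideal (LR (zz F v)), q.IsPrime → (∀ i, fi i ∈ q) →
      q = maximalIdeal (LR (zz F v)) := by
    intro q hq hfi
    have hfl : ∀ y ∈ fl, y ∈ q := (list_get_mem fl (· ∈ q)).1 hfi
    refine iso F v k π hπ hs T w hgood hmax W hW q hq ?_ ?_
    · intro y hy
      exact hfl y (List.mem_append_left _ hy)
    · intro s hsT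
      exact hfl _ (List.mem_append_right _ ((hex _).2 ⟨s, hsT, rfl⟩))
  have hfm : ∀ i, fi i ∈ maximalIdeal (LR (zz F v)) := by
    refine (list_get_mem fl (· ∈ maximalIdeal (LR (zz F v)))).2 ?_
    intro y hy
    rcases List.mem_append.1 hy with h1 | h1
    · exact (mem_max_iff (zz F v) y).2 (hW.eqs_mem y h1)
    · obtain ⟨s, _, rfl⟩ := (hex y).1 h1
      rw [mem_max_iff, map_sub, ev_Z, ev_const]
      exact sub_self _
  obtain ⟨Λ, hΛ⟩ := exists_combs (M := Fintype.card (M ⊕ Fin N)) fi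
    (height_LR (zz F v)) hiso
  let eq := Fintype.equivFin (M ⊕ Fin N)
  let g : M ⊕ Fin N → LR (zz F v) := fun i => comb fi (Λ (eq i))
  have hgm : ∀ i, g i ∈ maximalIdeal (LR (zz F v)) := fun i => comb_mem _ _ _ hfm
  have hgH : ∀ q : Ideal (LR (zz F v)), q.IsPrime → (∀ i, g i ∈ q) →
      q = maximalIdeal (LR (zz F v)) := by
    intro q hq h1
    apply hΛ q hq
    intro a
    have h2 := h1 (eq.symm a)
    simp only [g, Equiv.apply_symm_apply] at h2
    exact h2
  obtain ⟨ρ, vd, hρC, hρpos, hρg, hρJ⟩ := exists_rho (zz F v) g hgm hgH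
  -- the derivations
  have hD0 : ∀ r : J, ∃ D : Derivation k ℂ ℂ,
      ∀ i : (T : Set (J ⊕ Fin N)),
        D (v i.1) = if i.1 = Sum.inl r then 1 else 0 := fun r =>
    Pool.Agent.H135R2.VS.exists_der hgood.2.1 (fun i => if i.1 = Sum.inl r then 1 else 0)
  choose D0 hD0 using hD0
  let D : J → ℂ →+ ℂ := fun r =>
    (D0 r).toLinearMap.toAddMonoidHom
  have hDl : ∀ r a b, D r (a * b) = a * D r b + b * D r a := by
    intro r a b
    exact (D0 r).leibniz a b
  have hDk : ∀ r, ∀ c ∈ k, D r c = 0 := by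
    intro r c hc
    exact (D0 r).map_algebraMap ⟨c, hc⟩
  have hDx : ∀ r r', D r (v (Sum.inl r')) = if r' = r then 1 else 0 := by
    intro r r'
    have := hD0 r ⟨Sum.inl r', hgood.1 r'⟩
    simp only [Sum.inl.injEq] at this
    exact this
  have hDs : ∀ r s, Sum.inr s ∈ T → D r (v (Sum.inr s)) = 0 := by
    intro r s hsT
    have := hD0 r ⟨Sum.inr s, hsT⟩
    rw [if_neg (by simp)] at this
    exact this
  have hDq : ∀ r (q : ℚ), D r (q : ℂ) = 0 := by
    intro r q
    apply hDk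
    exact SubfieldClass.ratCast_mem k q
  let l := prl ρ D (algebraMap ℂ (LR (zz F v))) (XX F v) W 0 π
  let 𝒮 := Submodule.span (Pui ℂ) (Set.range fun s : Fin l.length => sy (l.get s))
  have hXX : ∀ i, QQ ρ D (XX F v i) ∈ 𝒮 := by
    intro i
    rcases i with r | a
    · have h1 : QQ ρ D (algebraMap ℂ (LR (zz F v)) (v (Sum.inl r))) = 0 := by
        apply QQ_const ρ D hρC
        intro r1 r2
        rw [hDx]
        split_ifs
        · have := hDq r1 1
          rwa [Rat.cast_one] at this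
        · exact map_zero _
      change QQ ρ D (algebraMap ℂ (LR (zz F v)) (v (Sum.inl r))) ∈ 𝒮
      rw [h1]
      exact zero_mem _
    · change QQ ρ D (Z (zz F v) (Sum.inl a)) ∈ 𝒮
      rw [QQ_Z]
      exact zero_mem _
  have hGG : ∀ j, QQ ρ D (GG F v j) ∈ 𝒮 := by
    intro j
    unfold GG gf
    split_ifs
    · rw [QQ_Z]
      exact zero_mem _
    · rw [QQ_zero]
      exact zero_mem _
  have hprod : ∀ pq ∈ l, sy pq ∈ 𝒮 := by
    intro pq hpq
    obtain ⟨i, rfl⟩ := List.mem_iff_get.1 hpq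
    exact Submodule.subset_span ⟨i, rfl⟩
  have heqs := span_path ρ D 𝒮 hDl hρC hDk hXX hGG 0 π hπ hW
    (fun j hj => absurd hj (Nat.not_lt_zero j)) hprod
  have hfi : ∀ i, QQ ρ D (fi i) ∈ 𝒮 := by
    refine (list_get_mem fl (fun y => QQ ρ D y ∈ 𝒮)).2 ?_
    intro y hy
    rcases List.mem_append.1 hy with h1 | h1
    · exact heqs y h1
    · obtain ⟨s, hsT, rfl⟩ := (hex y).1 h1
      rw [QQ_sub, QQ_Z, QQ_const ρ D hρC (fun r r' => by rw [hDs r' s hsT, map_zero]), sub_zero]
      exact zero_mem _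
  have hg : ∀ i, QQ ρ D (g i) ∈ 𝒮 := by
    intro i
    change QQ ρ D (∑ j, algebraMap ℂ (LR (zz F v)) (Λ (eq i) j) * fi j) ∈ 𝒮
    rw [QQ_sum]
    refine Submodule.sum_mem _ fun j _ => ?_
    rw [QQ_const_mul ρ D hDl hρC (fun r => hDq r _)]
    exact Submodule.smul_mem _ _ (hfi j)
  have hZ2 : ∀ a, H2 D (ρ (Z (zz F v) a)) ∈ 𝒮 := ident ρ D 𝒮 g vd hDl hDq hρg hρJ hg
  -- third order
  have hX3 : ∀ i, P3 ρ D 𝒮 (TT l) (XX F v i) := by
    intro i
    refine ⟨hXX i, ?_⟩
    rcases i with r | a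
    · have h1 : Q3 ρ D (algebraMap ℂ (LR (zz F v)) (v (Sum.inl r))) = 0 := by
        apply Q3_const ρ D hρC
        intro r1 r2
        rw [hDx]
        split_ifs
        · have := hDq r1 1
          rwa [Rat.cast_one] at this
        · exact map_zero _
      change Q3 ρ D (algebraMap ℂ (LR (zz F v)) (v (Sum.inl r))) ∈ TT l
      rw [h1]
      exact zero_mem _
    · change Q3 ρ D (Z (zz F v) (Sum.inl a)) ∈ TT l
      rw [Q3_Z]
      exact zero_mem _
  have hG3 : ∀ j, P3 ρ D 𝒮 (TT l) (GG F v j) := by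
    intro j
    refine ⟨hGG j, ?_⟩
    unfold GG gf
    split_ifs
    · rw [Q3_Z]
      exact zero_mem _
    · rw [Q3_zero]
      exact zero_mem _
  have heqs3 := span_path3 ρ D 𝒮 (TT l) hDl hρC hDk hZ2 (fun m P hP => S3_mem_TT m P hP)
    hX3 hG3 0 π hπ hW (fun j hj => absurd hj (Nat.not_lt_zero j)) hprod
  have hfi3 : ∀ i, Q3 ρ D (fi i) ∈ TT l := by
    refine (list_get_mem fl (fun y => Q3 ρ D y ∈ TT l)).2 ?_
    intro y hy
    rcases List.mem_append.1 hy with h1 | h1
    · exact (heqs3 y h1).2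
    · obtain ⟨s, hsT, rfl⟩ := (hex y).1 h1
      rw [Q3_sub, Q3_Z, Q3_const ρ D hρC (fun r r' => by rw [hDs r' s hsT, map_zero]), sub_zero]
      exact zero_mem _
  have hg3 : ∀ i, Q3 ρ D (g i) ∈ TT l := by
    intro i
    change Q3 ρ D (∑ j, algebraMap ℂ (LR (zz F v)) (Λ (eq i) j) * fi j) ∈ TT l
    rw [Q3_sum]
    refine Submodule.sum_mem _ fun j _ => ?_
    rw [Q3_const_mul ρ D hDl hρC (fun r => hDq r _)]
    exact Submodule.smul_mem _ _ (hfi3 j)
  have hind : AlgebraicIndependent k (fun r : J => v (Sum.inl r)) :=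
    hgood.2.1.comp (fun r : J => (⟨Sum.inl r, hgood.1 r⟩ : (T : Set (J ⊕ Fin N))))
      (fun r r' h => Sum.inl_injective (congrArg Subtype.val h))
  refine ⟨v, ρ, D, l, hDl, hDx, hind, hρC, hρpos, length_prl _ _ _ _ _ _ _,
    fun a => hZ2 (Sum.inl a), fun a => ?_⟩
  exact ident3 ρ D (TT l) g vd hDl hDq hρg hρJ hg3 (Sum.inl a)

end

end Pool.Agent.Helper16K9.Ver
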