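import Pool.Agent.Helper16K9.Ver.Upper2
import Pool.Agent.Helper16K9.Adds.Equiv

set_option autoImplicit false
set_option linter.unusedSectionVars false
set_option linter.unusedVariables false

/-!
# Growth
-/

namespace Pool.Agent.Helper16K9.Ver

open Finset Filter Pool.Agent.W956.KF Pool.Agent.H826R3.SM

theorem exists_ad (m : ℕ) : ∃ h, AD ℂ (Fin m) (Fin (trank ℂ m m m)) h := by
  rw [trank_eq_rk]
  obtain ⟨a, b, c, h⟩ := hasRank_rk (F := ℂ) m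
  refine ⟨0, fun t i j => Polynomial.C (a t i j), fun t i j => Polynomial.C (b t i j),
      fun t i j => Polynomial.C (c t i j),
      fun i j j' k k' l => Polynomial.C (if j = j' ∧ k = k' ∧ l = i then (1 : ℂ) else 0), ?_⟩
  intro i j j' k k' l
  refine ⟨?_, by simp only [Polynomial.eval_C]⟩
  simp only
  rw [h i j j' k k' l]
  simp only [map_sum, map_mul, pow_zero, one_mul]

theorem borderRank_le_trank (m : ℕ) : borderRank m ≤ trank ℂ m m m :=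
  Nat.sInf_le (exists_ad m)

theorem br_lower (m : ℕ) (hm : 1 ≤ m) : (m : ℝ) ^ omegaMM ℂ ≤ borderRank m := by
  have h : ∃ h, AD ℂ (Fin m) (Fin (borderRank m)) h :=
    Nat.sInf_mem (s := {r | ∃ h, AD ℂ (Fin m) (Fin r) h}) ⟨_, exists_ad m⟩
  obtain ⟨h, hAD⟩ := h
  exact hAD.omega_le hm

theorem trank_upper {τ : ℝ} (hτ : omegaMM ℂ < τ) :
    ∃ D : ℝ, 0 ≤ D ∧ ∀ m : ℕ, (trank ℂ m m m : ℝ) ≤ D * (m : ℝ) ^ τ := by
  obtain ⟨C, hC⟩ := sizeMM_upper (K := ℂ) hτ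
  refine ⟨2 * |C|, by positivity, fun m => ?_⟩
  have h1 : (trank ℂ m m m : ℝ) ≤ 2 * sizeMM ℂ m := by
    exact_mod_cast Pool.Agent.Helper16K9.Adds.trank_le_two_size ℂ m
  have h2 := hC m
  have h3 : C * (m : ℝ) ^ τ ≤ |C| * (m : ℝ) ^ τ :=
    mul_le_mul_of_nonneg_right (le_abs_self C) (Real.rpow_nonneg (Nat.cast_nonneg m) _)
  linarith

theorem quarter (N : ℕ) (hN : 4 ≤ N) : (N : ℝ) / 8 ≤ ((N / 4 : ℕ) : ℝ) := by
  have h1 : N ≤ 8 * (N / 4) := by omega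
  have h2 : (N : ℝ) ≤ 8 * ((N / 4 : ℕ) : ℝ) := by exact_mod_cast h1
  linarith

theorem f_lower {f : ℕ → ℕ} (hlow : ∀ N, borderRank (N / 4) ≤ 2 * f N) (N : ℕ) (hN : 4 ≤ N) :
    ((N : ℝ) / 8) ^ omegaMM ℂ ≤ 2 * f N := by
  have h1 := br_lower (N / 4) (by omega)
  have h2 : (borderRank (N / 4) : ℝ) ≤ 2 * f N := by exact_mod_cast hlow N
  have h3 : ((N : ℝ) / 8) ^ omegaMM ℂ ≤ ((N / 4 : ℕ) : ℝ) ^ omegaMM ℂ :=
    Real.rpow_le_rpow (by positivity) (quarter N hN) omega_nonneg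
  linarith

theorem f_upper {f : ℕ → ℕ} (hup : ∀ N, f N ≤ trank ℂ (2 * N) (2 * N) (2 * N)) {τ : ℝ}
    (hτ : omegaMM ℂ < τ) : ∃ D : ℝ, 0 ≤ D ∧ ∀ N : ℕ, (f N : ℝ) ≤ D * (N : ℝ) ^ τ := by
  obtain ⟨D, hD0, hD⟩ := trank_upper hτ
  refine ⟨D * 2 ^ τ, by positivity, fun N => ?_⟩
  have h1 : (f N : ℝ) ≤ trank ℂ (2 * N) (2 * N) (2 * N) := by exact_mod_cast hup N
  have h2 := hD (2 * N)
  rw [Nat.cast_mul, Real.mul_rpow (by norm_num) (Nat.cast_nonneg N)] at h2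
  calc (f N : ℝ) ≤ _ := h1
    _ ≤ _ := h2
    _ = D * 2 ^ τ * (N : ℝ) ^ τ := by push_cast; ring

theorem omega_le_of {f : ℕ → ℕ} (hlow : ∀ N, borderRank (N / 4) ≤ 2 * f N) {τ D : ℝ}
    (h : ∀ᶠ N : ℕ in atTop, (f N : ℝ) ≤ D * (N : ℝ) ^ τ) : omegaMM ℂ ≤ τ := by
  by_contra hcon
  push Not at hcon
  have hlim : Tendsto (fun q : ℕ => (q : ℝ) ^ (omegaMM ℂ - τ)) atTop atTop :=
    (tendsto_rpow_atTop (by linarith)).comp tendsto_natCast_atTop_atTop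
  obtain ⟨N, hN1, hN2, hN3⟩ := ((hlim.eventually_gt_atTop (2 * D * 8 ^ omegaMM ℂ)).and
      ((eventually_ge_atTop 4).and h)).exists
  have hN0 : (0 : ℝ) < N := by exact_mod_cast (by omega : 0 < N)
  have h1 := f_lower hlow N hN2
  rw [Real.div_rpow hN0.le (by norm_num)] at h1
  have h8 : (0 : ℝ) < 8 ^ omegaMM ℂ := Real.rpow_pos_of_pos (by norm_num) _
  rw [div_le_iff₀ h8] at h1
  have h2 : (N : ℝ) ^ omegaMM ℂ = (N : ℝ) ^ (omegaMM ℂ - τ) * (N : ℝ) ^ τ := by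
    rw [← Real.rpow_add hN0]
    congr 1
    ring
  have h3 : (0 : ℝ) < (N : ℝ) ^ τ := Real.rpow_pos_of_pos hN0 _
  have h4 := mul_lt_mul_of_pos_right hN1 h3
  have h5 : (N : ℝ) ^ omegaMM ℂ ≤ 2 * (D * (N : ℝ) ^ τ) * 8 ^ omegaMM ℂ :=
    h1.trans (mul_le_mul_of_nonneg_right (by linarith) h8.le)
  rw [h2] at h5
  nlinarith

theorem grow {f : ℕ → ℕ} (hlow : ∀ N, borderRank (N / 4) ≤ 2 * f N)
    (hup : ∀ N, f N ≤ trank ℂ (2 * N) (2 * N) (2 * N)) :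
    growth f = Pool.Agent.W956.KF.omega ℂ ∧ (Superlinear (sizeMM ℂ) ↔
      ∃ α : ℝ, 1 < α ∧ ∃ c : ℝ, 0 < c ∧ ∀ᶠ N : ℕ in atTop,
        c * (((N : ℝ) ^ 2) ^ α) ≤ f N) := by
  constructor
  · rw [omega_eq]
    have hl : ∀ τ ∈ {τ : ℝ | ∃ D : ℝ, ∀ m : ℕ, (f m : ℝ) ≤ D * (m : ℝ) ^ τ},
        omegaMM ℂ ≤ τ := by
      rintro τ ⟨D, hD⟩
      exact omega_le_of hlow (Eventually.of_forall hD)
    apply le_antisymm
    · refine le_of_forall_pos_le_add fun ε hε => ?_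
      obtain ⟨D, _, hD⟩ := f_upper hup (τ := omegaMM ℂ + ε) (by linarith)
      exact csInf_le ⟨omegaMM ℂ, hl⟩ ⟨D, hD⟩
    · obtain ⟨D, _, hD⟩ := f_upper hup (τ := omegaMM ℂ + 1) (by linarith)
      exact le_csInf ⟨_, D, hD⟩ hl
  · rw [Pool.Agent.Helper16K9.Adds.superlinear_size_iff]
    have hpow : ∀ (α : ℝ) (N : ℕ), ((N : ℝ) ^ 2) ^ α = (N : ℝ) ^ (2 * α) := by
      intro α N
      rw [← Real.rpow_natCast (N : ℝ) 2, ← Real.rpow_mul (Nat.cast_nonneg N)]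
      norm_num
    constructor
    · intro hω
      refine ⟨omegaMM ℂ / 2, by linarith, (1 / 8) ^ omegaMM ℂ / 2, by positivity, ?_⟩
      filter_upwards [eventually_ge_atTop 4] with N hN
      have h1 := f_lower hlow N hN
      rw [hpow, show 2 * (omegaMM ℂ / 2) = omegaMM ℂ by ring]
      have h2 : ((N : ℝ) / 8) ^ omegaMM ℂ = (1 / 8) ^ omegaMM ℂ * (N : ℝ) ^ omegaMM ℂ := by
        rw [← Real.mul_rpow (by norm_num) (Nat.cast_nonneg N)]
        congr 1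
        ring
      rw [h2] at h1
      linarith
    · rintro ⟨α, hα, c, hc, h⟩
      by_contra hcon
      push Not at hcon
      obtain ⟨D, hD0, hD⟩ := f_upper hup (τ := 1 + α) (by linarith)
      have hlim : Tendsto (fun q : ℕ => (q : ℝ) ^ (α - 1)) atTop atTop :=
        (tendsto_rpow_atTop (by linarith)).comp tendsto_natCast_atTop_atTop
      obtain ⟨N, hN1, hN2, hN3⟩ := ((hlim.eventually_gt_atTop (D / c)).and
        ((eventually_ge_atTop 1).and h)).exists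
      have hN0 : (0 : ℝ) < N := by exact_mod_cast (by omega : 0 < N)
      have h1 := hN3.trans (hD N)
      rw [hpow] at h1
      have h2 : (N : ℝ) ^ (2 * α) = (N : ℝ) ^ (α - 1) * (N : ℝ) ^ (1 + α) := by
        rw [← Real.rpow_add hN0]
        congr 1
        ring
      rw [h2] at h1
      have h3 : (0 : ℝ) < (N : ℝ) ^ (1 + α) := Real.rpow_pos_of_pos hN0 _
      rw [div_lt_iff₀ hc] at hN1
      have h4 := mul_lt_mul_of_pos_right hN1 h3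
      nlinarith

end Pool.Agent.Helper16K9.Ver
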