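import Pool.Agent.Helper16K9.Ver.Grow

set_option autoImplicit false
set_option linter.unusedSectionVars false
set_option linter.unusedVariables false

/-!
# Growth
-/

namespace Pool.Agent.Helper16K9.Ver

open Finset Filter Pool.Agent.W956.KF Pool.Agent.H826R3.SM

theorem two_le_omega : (2 : ℝ) ≤ omegaMM ℂ := by
  refine le_csInf omega_set_nonempty ?_
  rintro τ ⟨C, hC⟩
  by_contra hcon
  push Not at hcon
  have hlim : Tendsto (fun q : ℕ => (q : ℝ) ^ (2 - τ)) atTop atTop :=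
    (tendsto_rpow_atTop (by linarith)).comp tendsto_natCast_atTop_atTop
  obtain ⟨N, hN1, hN2⟩ := ((hlim.eventually_gt_atTop C).and (eventually_ge_atTop 1)).exists
  have hN0 : (0 : ℝ) < N := by exact_mod_cast (by omega : 0 < N)
  have h1 : ((N : ℝ) ^ 2) ≤ rk ℂ N := by
    rw [← trank_eq_rk]
    exact_mod_cast sq_le_trank ℂ N
  have h2 : (N : ℝ) ^ 2 = (N : ℝ) ^ (2 - τ) * (N : ℝ) ^ τ := by
    rw [← Real.rpow_add hN0, sub_add_cancel, ← Real.rpow_natCast]
    norm_num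
  have h3 : (0 : ℝ) < (N : ℝ) ^ τ := Real.rpow_pos_of_pos hN0 _
  have h4 := mul_lt_mul_of_pos_right hN1 h3
  have h5 := hC N
  linarith

theorem one_le_omega : (1 : ℝ) ≤ omegaMM ℂ := by
  have := two_le_omega
  linarith

/-- a lower bound by the border rank is a lower bound by the exponent -/
theorem low_of_br {f : ℕ → ℕ} (q s K E : ℕ) (hq : 1 ≤ q)
    (h : ∀ N, borderRank ((N - s) / q) ≤ K * (f N + E)) :
    ∃ C : ℝ, 0 < C ∧ ∀ᶠ N : ℕ in atTop, (N : ℝ) ^ omegaMM ℂ ≤ C * f N := by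
  have hω := one_le_omega
  refine ⟨(4 * q : ℝ) ^ omegaMM ℂ * (K + 1) * (1 + E), by positivity, ?_⟩
  have h4q : (0 : ℝ) < (4 * q : ℝ) ^ omegaMM ℂ := by
    apply Real.rpow_pos_of_pos
    have : (1 : ℝ) ≤ q := by exact_mod_cast hq
    linarith
  filter_upwards [eventually_ge_atTop (4 * s + 4 * q + 1),
    (tendsto_natCast_atTop_atTop (R := ℝ)).eventually_gt_atTop
      ((4 * q : ℝ) ^ omegaMM ℂ * (K * E))] with N hN1 hN2
  have hN0 : (1 : ℝ) ≤ N := by exact_mod_cast (by omega : 1 ≤ N)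
  have h1 : N ≤ 4 * q * ((N - s) / q) := by
    have h2 := Nat.div_add_mod (N - s) q
    have h3 := Nat.mod_lt (N - s) (by omega : 0 < q)
    have h4 : 4 * q * ((N - s) / q) = 4 * (q * ((N - s) / q)) := by ring
    rw [h4]
    omega
  have hm : 1 ≤ (N - s) / q := by
    rcases Nat.eq_zero_or_pos ((N - s) / q) with h2 | h2
    · rw [h2, mul_zero] at h1
      omega
    · exact h2
  have h5 := br_lower ((N - s) / q) hm
  have h6 : (N : ℝ) ≤ (4 * q : ℝ) * (((N - s) / q : ℕ) : ℝ) := by exact_mod_cast h1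
  have h7 : (N : ℝ) ^ omegaMM ℂ ≤ (4 * q : ℝ) ^ omegaMM ℂ *
      (((N - s) / q : ℕ) : ℝ) ^ omegaMM ℂ := by
    rw [← Real.mul_rpow (by positivity) (by positivity)]
    exact Real.rpow_le_rpow (by positivity) h6 omega_nonneg
  have h8 : (borderRank ((N - s) / q) : ℝ) ≤ K * (f N + E) := by exact_mod_cast h N
  have h9 : (N : ℝ) ^ omegaMM ℂ ≤ (4 * q : ℝ) ^ omegaMM ℂ * (K * (f N + E)) :=
    h7.trans (mul_le_mul_of_nonneg_left (h5.trans h8) h4q.le)
  have hf : 1 ≤ f N := by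
    by_contra hcon
    have h0 : f N = 0 := by omega
    rw [h0, Nat.cast_zero, zero_add] at h9
    have h10 : (N : ℝ) ≤ (N : ℝ) ^ omegaMM ℂ := by
      have := Real.rpow_le_rpow_of_exponent_le hN0 hω
      rwa [Real.rpow_one] at this
    linarith
  have hf' : (1 : ℝ) ≤ f N := by exact_mod_cast hf
  refine h9.trans ?_
  rw [mul_assoc, mul_assoc]
  refine mul_le_mul_of_nonneg_left ?_ h4q.le
  have hE : (0 : ℝ) ≤ E := Nat.cast_nonneg E
  have hK : (0 : ℝ) ≤ K := Nat.cast_nonneg K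
  have h11 : (f N : ℝ) + E ≤ (1 + E) * f N := by nlinarith
  calc (K : ℝ) * (f N + E) ≤ (K + 1) * (f N + E) :=
        mul_le_mul_of_nonneg_right (by linarith) (by positivity)
    _ ≤ (K + 1) * ((1 + E) * f N) := mul_le_mul_of_nonneg_left h11 (by positivity)

/-- the upper bound -/
theorem up_of {f : ℕ → ℕ} (C : ℕ)
    (hup : ∀ N, f N ≤ C * (trank ℂ N N N + trank ℂ (2 * N) (2 * N) (2 * N) + N ^ 2)) {τ : ℝ}
    (hτ : omegaMM ℂ < τ) : ∃ D : ℝ, 0 ≤ D ∧ ∀ N : ℕ, (f N : ℝ) ≤ D * (N : ℝ) ^ τ := by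
  obtain ⟨D, hD0, hD⟩ := trank_upper hτ
  have h2ω := two_le_omega
  refine ⟨C * (D + D * 2 ^ τ + 1), by positivity, fun N => ?_⟩
  have h1 : (f N : ℝ) ≤ C * (trank ℂ N N N + trank ℂ (2 * N) (2 * N) (2 * N) + (N : ℝ) ^ 2) := by
    exact_mod_cast hup N
  have h0 := hD N
  have h2 := hD (2 * N)
  rw [Nat.cast_mul, Real.mul_rpow (by norm_num) (Nat.cast_nonneg N)] at h2
  have h3 : (N : ℝ) ^ 2 ≤ (N : ℝ) ^ τ := by
    rcases Nat.eq_zero_or_pos N with h0 | h0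
    · subst h0
      rw [Nat.cast_zero, Real.zero_rpow (by linarith)]
      norm_num
    · have h4 : (1 : ℝ) ≤ N := by exact_mod_cast h0
      rw [← Real.rpow_natCast]
      exact Real.rpow_le_rpow_of_exponent_le h4 (by push_cast; linarith)
  refine h1.trans ?_
  rw [mul_assoc]
  refine mul_le_mul_of_nonneg_left ?_ (Nat.cast_nonneg C)
  push_cast at h2 ⊢
  nlinarith

theorem grow' {f : ℕ → ℕ} (hlow : ∃ C : ℝ, 0 < C ∧ ∀ᶠ N : ℕ in atTop,
      (N : ℝ) ^ omegaMM ℂ ≤ C * f N)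
    (hup : ∃ C : ℕ, ∀ N, f N ≤ C * (trank ℂ N N N + trank ℂ (2 * N) (2 * N) (2 * N) + N ^ 2)) :
    LikeMM f := by
  obtain ⟨C, hC, hlow⟩ := hlow
  obtain ⟨C', hup⟩ := hup
  have hom : ∀ {τ D : ℝ}, (∀ᶠ N : ℕ in atTop, (f N : ℝ) ≤ D * (N : ℝ) ^ τ) →
      omegaMM ℂ ≤ τ := by
    intro τ D h
    by_contra hcon
    push Not at hcon
    have hlim : Tendsto (fun q : ℕ => (q : ℝ) ^ (omegaMM ℂ - τ)) atTop atTop :=
      (tendsto_rpow_atTop (by linarith)).comp tendsto_natCast_atTop_atTop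
    obtain ⟨N, hN1, hN2, hN3, hN4⟩ := ((hlim.eventually_gt_atTop (C * D)).and
        ((eventually_ge_atTop 1).and (h.and hlow))).exists
    have hN0 : (0 : ℝ) < N := by exact_mod_cast (by omega : 0 < N)
    have h2 : (N : ℝ) ^ omegaMM ℂ = (N : ℝ) ^ (omegaMM ℂ - τ) * (N : ℝ) ^ τ := by
      rw [← Real.rpow_add hN0]
      congr 1
      ring
    have h3 : (0 : ℝ) < (N : ℝ) ^ τ := Real.rpow_pos_of_pos hN0 _
    have h4 := mul_lt_mul_of_pos_right hN1 h3
    have h5 : C * f N ≤ C * (D * (N : ℝ) ^ τ) := mul_le_mul_of_nonneg_left hN3 hC.le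
    rw [h2] at hN4
    nlinarith
  constructor
  · rw [omega_eq]
    have hl : ∀ τ ∈ {τ : ℝ | ∃ D : ℝ, ∀ m : ℕ, (f m : ℝ) ≤ D * (m : ℝ) ^ τ},
        omegaMM ℂ ≤ τ := by
      rintro τ ⟨D, hD⟩
      exact hom (Eventually.of_forall hD)
    apply le_antisymm
    · refine le_of_forall_pos_le_add fun ε hε => ?_
      obtain ⟨D, _, hD⟩ := up_of C' hup (τ := omegaMM ℂ + ε) (by linarith)
      exact csInf_le ⟨omegaMM ℂ, hl⟩ ⟨D, hD⟩
    · obtain ⟨D, _, hD⟩ := up_of C' hup (τ := omegaMM ℂ + 1) (by linarith)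
      exact le_csInf ⟨_, D, hD⟩ hl
  · rw [Pool.Agent.Helper16K9.Adds.superlinear_size_iff]
    have hpow : ∀ (α : ℝ) (N : ℕ), ((N : ℝ) ^ 2) ^ α = (N : ℝ) ^ (2 * α) := by
      intro α N
      rw [← Real.rpow_natCast (N : ℝ) 2, ← Real.rpow_mul (Nat.cast_nonneg N)]
      norm_num
    constructor
    · intro hω
      refine ⟨omegaMM ℂ / 2, by linarith, C⁻¹, by positivity, ?_⟩
      filter_upwards [hlow] with N hN
      rw [hpow, show 2 * (omegaMM ℂ / 2) = omegaMM ℂ by ring]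
      rw [inv_mul_le_iff₀ hC]
      exact hN
    · rintro ⟨α, hα, c, hc, h⟩
      by_contra hcon
      push Not at hcon
      obtain ⟨D, hD0, hD⟩ := up_of C' hup (τ := 1 + α) (by linarith)
      have hlim : Tendsto (fun q : ℕ => (q : ℝ) ^ (α - 1)) atTop atTop :=
        (tendsto_rpow_atTop (by linarith)).comp tendsto_natCast_atTop_atTop
      obtain ⟨N, hN1, hN2, hN3⟩ := ((hlim.eventually_gt_atTop (D / c)).and
        ((eventually_ge_atTop 1).and h)).exists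
      have hN0 : (0 : ℝ) < N := by exact_mod_cast (by omega : 0 < N)
      have h1 := hN3.trans (hD N)
      rw [hpow] at h1
      have h2 : (N : ℝ) ^ (2 * α) = (N : ℝ) ^ (α - 1) * (N : ℝ) ^ (1 + α) := by
        rw [← Real.rpow_add hN0]
        congr 1
        ring
      rw [h2] at h1
      have h3 : (0 : ℝ) < (N : ℝ) ^ (1 + α) := Real.rpow_pos_of_pos hN0 _
      rw [div_lt_iff₀ hc] at hN1
      have h4 := mul_lt_mul_of_pos_right hN1 h3
      nlinarith

end Pool.Agent.Helper16K9.Ver
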