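import Pool.Agent.Helper165.P1.Fields

set_option autoImplicit false

/-!
# Derivations of the field of Puiseux series
-/

namespace Pool.Agent.Helper16K9.Ver

open Pool.Agent.Helper165.P1

/-- no exponent `≤ 0` -/
def Pos (x : HQ ℂ) : Prop := ∀ q ≤ 0, x.coeff q = 0

theorem coeff_C' {Γ : Type} [AddCommMonoid Γ] [PartialOrder Γ] [IsOrderedCancelAddMonoid Γ]
    [DecidableEq Γ] (c : ℂ) (q : Γ) :
    (HahnSeries.C c : HahnSeries Γ ℂ).coeff q = if q = 0 then c else 0 := by
  rw [HahnSeries.C_apply, HahnSeries.coeff_single]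
  split_ifs <;> rfl

/-- constants -/
noncomputable def cP : ℂ →+* Pui ℂ :=
  (HahnSeries.C : ℂ →+* HQ ℂ).codRestrict (Pui ℂ) (by
    intro c
    refine ⟨1, one_pos, HahnSeries.C c, ?_⟩
    ext q
    by_cases hq : ∃ n : ℤ, (n : ℚ) / (1 : ℕ) = q
    · obtain ⟨n, rfl⟩ := hq
      rw [eHom_coeff]
      rw [coeff_C', coeff_C']
      by_cases hn : n = 0
      · simp [hn]
      · rw [if_neg hn, if_neg]
        simpa using hn
    · push Not at hq
      rw [eHom_coeff_of_ne _ _ _ _ hq, coeff_C', if_neg]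
      rintro rfl
      exact hq 0 (by simp))

theorem cP_coe (c : ℂ) : ((cP c : Pui ℂ) : HQ ℂ) = HahnSeries.C c := rfl

/-- the variable -/
noncomputable def TP : Pui ℂ := ⟨HahnSeries.single 1 1, by
    refine ⟨1, one_pos, HahnSeries.single 1 1, ?_⟩
    ext q
    by_cases hq : ∃ n : ℤ, (n : ℚ) / (1 : ℕ) = q
    · obtain ⟨n, rfl⟩ := hq
      rw [eHom_coeff]
      rw [HahnSeries.coeff_single, HahnSeries.coeff_single]
      by_cases hn : n = 1
      · simp [hn]
      · rw [if_neg hn, if_neg]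
        simpa using hn
    · push Not at hq
      rw [eHom_coeff_of_ne _ _ _ _ hq, HahnSeries.coeff_single, if_neg]
      rintro rfl
      exact hq 1 (by simp)⟩

theorem TP_coe : ((TP : Pui ℂ) : HQ ℂ) = HahnSeries.single 1 1 := rfl

section der

variable (D : ℂ →+ ℂ)

/-- the coefficientwise extension -/
noncomputable def hatD (f : HQ ℂ) : HQ ℂ := f.map D

theorem hatD_coeff (f : HQ ℂ) (q : ℚ) : (hatD D f).coeff q = D (f.coeff q) := rfl

theorem hatD_add (f g : HQ ℂ) : hatD D (f + g) = hatD D f + hatD D g := by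
  ext q
  simp [hatD_coeff]

theorem hatD_mul (hD : ∀ a b, D (a * b) = a * D b + b * D a) (f g : HQ ℂ) :
    hatD D (f * g) = f * hatD D g + g * hatD D f := by
  ext q
  have h1 : (hatD D g).support ⊆ g.support := by
    intro r hr h
    apply hr
    rw [hatD_coeff, h, map_zero]
  have h2 : (hatD D f).support ⊆ f.support := by
    intro r hr h
    apply hr
    rw [hatD_coeff, h, map_zero]
  rw [hatD_coeff, HahnSeries.coeff_add, mul_comm g (hatD D f),
    HahnSeries.coeff_mul_right' g.isPWO_support h1, HahnSeries.coeff_mul_left' f.isPWO_support h2,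
    HahnSeries.coeff_mul, map_sum, ← Finset.sum_add_distrib]
  refine Finset.sum_congr rfl fun ij _ => ?_
  rw [hD, hatD_coeff, hatD_coeff]
  ring

theorem hatD_C (c : ℂ) : hatD D (HahnSeries.C c) = HahnSeries.C (D c) := by
  ext q
  rw [hatD_coeff, coeff_C', coeff_C']
  split_ifs
  · rfl
  · rw [map_zero]

theorem hatD_pos (f : HQ ℂ) (h : Pos f) : Pos (hatD D f) := by
  intro q hq
  rw [hatD_coeff, h q hq, map_zero]

theorem hatD_mem (f : HQ ℂ) (h : f ∈ Pui ℂ) : hatD D f ∈ Pui ℂ := by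
  obtain ⟨m, hm, x, rfl⟩ := h
  refine ⟨m, hm, x.map D, ?_⟩
  ext q
  by_cases hq : ∃ n : ℤ, (n : ℚ) / m = q
  · obtain ⟨n, rfl⟩ := hq
    rw [eHom_coeff, hatD_coeff, eHom_coeff]
    rfl
  · push Not at hq
    rw [eHom_coeff_of_ne _ _ _ _ hq, hatD_coeff, eHom_coeff_of_ne _ _ _ _ hq, map_zero]

/-- the extension to Puiseux series -/
noncomputable def pD (f : Pui ℂ) : Pui ℂ := ⟨hatD D f, hatD_mem D f f.2⟩

theorem pD_add (f g : Pui ℂ) : pD D (f + g) = pD D f + pD D g :=
  Subtype.ext (hatD_add D f g)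

theorem pD_mul (hD : ∀ a b, D (a * b) = a * D b + b * D a) (f g : Pui ℂ) :
    pD D (f * g) = f * pD D g + g * pD D f := Subtype.ext (hatD_mul D hD f g)

theorem pD_C (c : ℂ) : pD D (cP c) = cP (D c) := Subtype.ext (hatD_C D c)

theorem pD_T (hD : D 1 = 0) : pD D TP = 0 := by
  apply Subtype.ext
  ext q
  change D ((HahnSeries.single (1 : ℚ) (1 : ℂ)).coeff q) = 0
  rw [HahnSeries.coeff_single]
  split_ifs
  · exact hD
  · exact map_zero D

theorem pD_zero : pD D 0 = 0 := by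
  have := pD_add D 0 0
  rw [add_zero] at this
  simpa using this

theorem pD_neg (f : Pui ℂ) : pD D (-f) = - pD D f := by
  have := pD_add D f (-f)
  rw [add_neg_cancel, pD_zero] at this
  exact (neg_eq_of_add_eq_zero_right this.symm).symm

theorem pD_sub (f g : Pui ℂ) : pD D (f - g) = pD D f - pD D g := by
  rw [sub_eq_add_neg, pD_add, pD_neg, sub_eq_add_neg]

theorem pD_pos (f : Pui ℂ) (h : Pos f) : Pos (pD D f) := hatD_pos D _ h

end der

/-! ### the valuation ring -/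

theorem Pos.mem {x : HQ ℂ} (h : Pos x) : x ∈ (OH : Subring (HQ ℂ)) := fun q hq => h q hq.le

theorem pos_iff {x : HQ ℂ} (hx : x ∈ (OH : Subring (HQ ℂ))) : Pos x ↔ x.coeff 0 = 0 := by
  constructor
  · intro h
    exact h 0 le_rfl
  · intro h q hq
    rcases hq.lt_or_eq with h1 | h1
    · exact hx q h1
    · rw [h1]
      exact h

theorem pos_of_inv_not_mem {x : HQ ℂ} (h : x⁻¹ ∉ (OH : Subring (HQ ℂ))) : Pos x := by
  have h1 := (mem_or_inv_mem x).resolve_right h
  rw [pos_iff h1]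
  by_contra h2
  exact h (inv_mem_of_coeff_ne_zero h1 h2)

theorem not_pos_of_inv_mem {x : HQ ℂ} (hx : x ≠ 0) (h : x⁻¹ ∈ (OH : Subring (HQ ℂ))) :
    ¬ Pos x := by
  intro h1
  have h2 := coeff_zero_mul h1.mem h
  rw [mul_inv_cancel₀ hx, (pos_iff h1.mem).1 h1, zero_mul] at h2
  simp at h2

theorem C_mem (c : ℂ) : (HahnSeries.C c : HQ ℂ) ∈ (OH : Subring (HQ ℂ)) := by
  intro q hq
  rw [coeff_C', if_neg hq.ne]

theorem T_pos : Pos ((TP : Pui ℂ) : HQ ℂ) := by
  intro q hq
  rw [TP_coe, HahnSeries.coeff_single, if_neg]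
  intro h
  rw [h] at hq
  exact absurd hq (by norm_num)

theorem Pos.add {x y : HQ ℂ} (hx : Pos x) (hy : Pos y) : Pos (x + y) := by
  intro q hq
  rw [HahnSeries.coeff_add, hx q hq, hy q hq, add_zero]

theorem Pos.mul {x y : HQ ℂ} (hx : x ∈ (OH : Subring (HQ ℂ))) (hy : Pos y) : Pos (x * y) := by
  rw [pos_iff (mul_mem hx hy.mem), coeff_zero_mul hx hy.mem, hy 0 le_rfl, mul_zero]

end Pool.Agent.Helper16K9.Ver
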