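import Pool.Agent.Helper16K9.Ver.Rho
import Pool.Agent.Helper16K9.Ver.Border

set_option autoImplicit false
set_option linter.unusedSectionVars false

/-!
# The second order identity
-/

namespace Pool.Agent.Helper16K9.Ver

open IsLocalRing MvPolynomial Pool.Agent.Helper165.P1

section

variable {κ : Type} [Fintype κ] [DecidableEq κ] {z : κ → ℂ} {J : Type} (ρ : LR z →+* Pui ℂ)
  (D : J → ℂ →+ ℂ)

/-- second derivatives -/
noncomputable def H2 (f : Pui ℂ) : J → J → Pui ℂ := fun r r' => pD (D r) (pD (D r') f)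

/-- the product term -/
noncomputable def pr (f g : Pui ℂ) : J → J → Pui ℂ := fun r r' =>
  pD (D r) f * pD (D r') g + pD (D r') f * pD (D r) g

theorem H2_add (f g : Pui ℂ) : H2 D (f + g) = H2 D f + H2 D g := by
  funext r r'
  simp only [H2, Pi.add_apply, pD_add]

theorem H2_mul (hD : ∀ r a b, D r (a * b) = a * D r b + b * D r a) (f g : Pui ℂ) :
    H2 D (f * g) = f • H2 D g + g • H2 D f + pr D f g := by
  funext r r'
  simp only [H2, pr, Pi.add_apply, Pi.smul_apply, smul_eq_mul]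
  rw [pD_mul _ (hD r'), pD_add, pD_mul _ (hD r), pD_mul _ (hD r)]
  ring

/-- the corrected second derivative -/
noncomputable def QQ (F : LR z) : J → J → Pui ℂ :=
  H2 D (ρ F) - ∑ a, ρ (dl z a F) • H2 D (ρ (Z z a))

theorem QQ_add (F G : LR z) : QQ ρ D (F + G) = QQ ρ D F + QQ ρ D G := by
  unfold QQ
  simp only [map_add, H2_add, dl_add, add_smul, Finset.sum_add_distrib]
  abel

theorem QQ_mul (hD : ∀ r a b, D r (a * b) = a * D r b + b * D r a) (F G : LR z) :
    QQ ρ D (F * G) = ρ F • QQ ρ D G + ρ G • QQ ρ D F + pr D (ρ F) (ρ G) := by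
  unfold QQ
  simp only [map_mul, H2_mul D hD, dl_mul, map_add, add_smul, Finset.sum_add_distrib, smul_sub,
    Finset.smul_sum, mul_smul]
  abel

theorem QQ_const (hρ : ∀ c : ℂ, ρ (algebraMap ℂ (LR z) c) = cP c) {c : ℂ}
    (hc : ∀ r r', D r (D r' c) = 0) : QQ ρ D (algebraMap ℂ (LR z) c) = 0 := by
  unfold QQ
  have h1 : H2 D (ρ (algebraMap ℂ (LR z) c)) = 0 := by
    funext r r'
    rw [hρ, H2, pD_C, pD_C, hc, map_zero]
    rfl
  rw [h1, zero_sub, neg_eq_zero]
  refine Finset.sum_eq_zero fun a _ => ?_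
  rw [dl_const, map_zero, zero_smul]

theorem QQ_Z (a : κ) : QQ ρ D (Z z a) = 0 := by
  unfold QQ
  rw [Finset.sum_eq_single a]
  · rw [dl_Z, if_pos rfl, map_one, one_smul, sub_self]
  · intro b _ hb
    rw [dl_Z, if_neg (Ne.symm hb), map_zero, zero_smul]
  · intro h
    exact absurd (Finset.mem_univ a) h

theorem QQ_zero : QQ ρ D 0 = 0 := by
  have := QQ_add ρ D 0 0
  rw [add_zero] at this
  simpa using this

theorem QQ_neg (F : LR z) : QQ ρ D (-F) = - QQ ρ D F := by
  have := QQ_add ρ D F (-F)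
  rw [add_neg_cancel, QQ_zero] at this
  exact (neg_eq_of_add_eq_zero_right this.symm).symm

theorem QQ_sub (F G : LR z) : QQ ρ D (F - G) = QQ ρ D F - QQ ρ D G := by
  rw [sub_eq_add_neg, QQ_add, QQ_neg, sub_eq_add_neg]

theorem QQ_sum {ι : Type} (s : Finset ι) (F : ι → LR z) :
    QQ ρ D (∑ i ∈ s, F i) = ∑ i ∈ s, QQ ρ D (F i) := by
  classical
  induction s using Finset.induction_on with
  | empty => simp [QQ_zero]
  | insert a s ha ih => rw [Finset.sum_insert ha, Finset.sum_insert ha, QQ_add, ih]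

/-- multiplication by a constant killed by the derivations -/
theorem QQ_const_mul (hD : ∀ r a b, D r (a * b) = a * D r b + b * D r a)
    (hρ : ∀ c : ℂ, ρ (algebraMap ℂ (LR z) c) = cP c) {c : ℂ} (hc : ∀ r, D r c = 0) (F : LR z) :
    QQ ρ D (algebraMap ℂ (LR z) c * F) = cP c • QQ ρ D F := by
  rw [QQ_mul ρ D hD, QQ_const ρ D hρ (fun r r' => by rw [hc, map_zero]), smul_zero, add_zero, hρ]
  have : pr D (cP c) (ρ F) = 0 := by
    funext r r'
    simp only [pr, pD_C, hc, map_zero, zero_mul, add_zero]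
    rfl
  rw [this, add_zero]

/-- **Identification.** -/
theorem ident (𝒮 : Submodule (Pui ℂ) (J → J → Pui ℂ)) (g : κ → LR z) (v : κ → ℚ)
    (hD : ∀ r a b, D r (a * b) = a * D r b + b * D r a)
    (hDv : ∀ r (q : ℚ), D r (q : ℂ) = 0)
    (hg : ∀ i, ρ (g i) = cP (v i) * TP) (hJ : ρ (JM z g).det ≠ 0)
    (hQ : ∀ i, QQ ρ D (g i) ∈ 𝒮) (a : κ) : H2 D (ρ (Z z a)) ∈ 𝒮 := by
  have h0 : ∀ i, H2 D (ρ (g i)) = 0 := by
    intro i
    funext r r'
    rw [hg, H2, pD_mul _ (hD r'), pD_C, pD_T _ (by simpa using hDv r' 1), hDv, map_zero, mul_zero,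
      mul_zero, add_zero, pD_zero]
    rfl
  have h1 : ∀ i, ∑ b, ρ (dl z b (g i)) • H2 D (ρ (Z z b)) ∈ 𝒮 := by
    intro i
    have h2 := hQ i
    unfold QQ at h2
    rw [h0, zero_sub] at h2
    exact (Submodule.neg_mem_iff _).1 h2
  -- Cramer
  let M : Matrix κ κ (Pui ℂ) := (JM z g).map ρ
  have hM : M.det = ρ (JM z g).det := (RingHom.map_det ρ (JM z g)).symm
  have h2 : M.det • H2 D (ρ (Z z a)) =
      ∑ i, M.adjugate a i • ∑ b, ρ (dl z b (g i)) • H2 D (ρ (Z z b)) := by
    simp only [Finset.smul_sum, smul_smul]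
    rw [Finset.sum_comm]
    have h3 : ∀ b, ∑ i, (M.adjugate a i * ρ (dl z b (g i))) • H2 D (ρ (Z z b)) =
        (if a = b then M.det else 0) • H2 D (ρ (Z z b)) := by
      intro b
      rw [← Finset.sum_smul]
      congr 1
      have h4 := congrFun (congrFun (Matrix.adjugate_mul M) a) b
      rw [Matrix.mul_apply, Matrix.smul_apply, Matrix.one_apply, smul_eq_mul, mul_ite, mul_one,
        mul_zero] at h4
      exact h4
    simp only [h3]
    rw [Finset.sum_eq_single a]
    · rw [if_pos rfl]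
    · intro b _ hb
      rw [if_neg (Ne.symm hb), zero_smul]
    · intro h
      exact absurd (Finset.mem_univ a) h
  have h3 : M.det • H2 D (ρ (Z z a)) ∈ 𝒮 := by
    rw [h2]
    exact Submodule.sum_mem _ fun i _ => Submodule.smul_mem _ _ (h1 i)
  have h4 : M.det ≠ 0 := by
    rw [hM]
    exact hJ
  have h5 := Submodule.smul_mem 𝒮 (M.det)⁻¹ h3
  rwa [smul_smul, inv_mul_cancel₀ h4, one_smul] at h5

end

end Pool.Agent.Helper16K9.Ver
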