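import Mathlib

set_option autoImplicit false

/-!
# Local algebra: generic combinations and curves
-/

namespace Pool.Agent.Helper16K9.Ver

open IsLocalRing

theorem height_succ {R : Type} [CommRing R] [IsNoetherianRing R] (P : Ideal (Polynomial R))
    [P.IsMaximal] : P.height = (P.comap Polynomial.C).height + 1 := by
  have : P.LiesOver (P.comap Polynomial.C) := ⟨rfl⟩
  exact Polynomial.height_eq_height_add_one _ P

/-- A maximal ideal of the polynomial ring in `|κ|` variables over a field has height `|κ|`. -/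
theorem height_mv {κ : Type} [Fintype κ] {K : Type} [Field K] (P : Ideal (MvPolynomial κ K))
    [P.IsMaximal] : P.height = (Fintype.card κ : ℕ∞) := by
  classical
  revert P
  refine Finite.induction_empty_option (P := fun κ => ∀ [Fintype κ] (P : Ideal (MvPolynomial κ K))
    [P.IsMaximal], P.height = (Fintype.card κ : ℕ∞)) ?_ ?_ ?_ κ
  · intro α β e h _ P hP
    have : Fintype α := Fintype.ofEquiv β e.symm
    let E := (MvPolynomial.renameEquiv K e).toRingEquiv
    have hm : (P.comap E).IsMaximal := Ideal.comap_isMaximal_of_equiv E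
    have h1 := h (P.comap E)
    have h2 := E.height_comap P
    rw [← h2, h1, Fintype.card_congr e]
  · intro _ P hP
    let E := MvPolynomial.isEmptyRingEquiv K PEmpty
    have hm : (P.map E).IsMaximal := Ideal.map_isMaximal_of_equiv E
    have h1 : P.map E = ⊥ := (Ideal.eq_bot_or_top _).resolve_right hm.ne_top
    rw [← E.height_map P, h1, Ideal.height_bot]
    simp
  · intro α _ ih _ P hP
    let E := (MvPolynomial.optionEquivLeft K α).toRingEquiv
    have hm : (P.map E).IsMaximal := Ideal.map_isMaximal_of_equiv E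
    have h2 := E.height_map P
    have h3 := height_succ (P.map E)
    have hu : ((P.map E).comap Polynomial.C).IsMaximal :=
      Polynomial.isMaximal_comap_C_of_isJacobsonRing _
    rw [ih] at h3
    have h4 : Fintype.card (Option α) = Fintype.card α + 1 := by
      rw [← Nat.card_eq_fintype_card, ← Nat.card_eq_fintype_card, Finite.card_option]
    rw [← h2, h3, h4]
    push_cast
    rfl

section comb

variable {R : Type} [CommRing R] [Algebra ℂ R]

/-- combination with rational coefficients -/
noncomputable def comb {k : ℕ} (f : Fin k → R) (c : Fin k → ℚ) : R :=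
  ∑ j, algebraMap ℂ R (c j) * f j

theorem comb_add {k : ℕ} (f : Fin k → R) (c d : Fin k → ℚ) :
    comb f (c + d) = comb f c + comb f d := by
  unfold comb
  rw [← Finset.sum_add_distrib]
  refine Finset.sum_congr rfl fun j _ => ?_
  rw [Pi.add_apply, Rat.cast_add, map_add, add_mul]

theorem comb_smul {k : ℕ} (f : Fin k → R) (a : ℚ) (c : Fin k → ℚ) :
    comb f (a • c) = algebraMap ℂ R a * comb f c := by
  unfold comb
  rw [Finset.mul_sum]
  refine Finset.sum_congr rfl fun j _ => ?_
  rw [Pi.smul_apply, smul_eq_mul, Rat.cast_mul, map_mul, mul_assoc]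

theorem comb_single {k : ℕ} (f : Fin k → R) (i : Fin k) :
    comb f (Pi.single i 1) = f i := by
  classical
  unfold comb
  rw [Finset.sum_eq_single i]
  · simp
  · intro j _ hj
    simp [Pi.single_eq_of_ne hj]
  · simp

/-- the coefficients for which the combination lies in `q` -/
noncomputable def csub {k : ℕ} (f : Fin k → R) (q : Ideal R) : Submodule ℚ (Fin k → ℚ) where
  carrier := {c | comb f c ∈ q}
  add_mem' {a b} ha hb := by
    change comb f (a + b) ∈ q
    rw [comb_add]
    exact q.add_mem ha hb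
  zero_mem' := by
    change comb f 0 ∈ q
    have : comb f (0 : Fin k → ℚ) = 0 := by simp [comb]
    rw [this]
    exact q.zero_mem
  smul_mem' a c hc := by
    change comb f (a • c) ∈ q
    rw [comb_smul]
    exact q.mul_mem_left _ hc

theorem exists_avoid {k : ℕ} (f : Fin k → R) (S : Set (Ideal R)) (hS : S.Finite)
    (h : ∀ q ∈ S, ∃ i, f i ∉ q) : ∃ c : Fin k → ℚ, ∀ q ∈ S, comb f c ∉ q := by
  classical
  have h1 := Subspace.biUnion_ne_univ_of_top_notMem (k := ℚ) (E := Fin k → ℚ)
    (s := hS.toFinset.image (csub f)) (by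
      intro hT
      obtain ⟨q, hq, hq2⟩ := Finset.mem_image.1 hT
      obtain ⟨i, hi⟩ := h q (hS.mem_toFinset.1 hq)
      apply hi
      have h3 : Pi.single i 1 ∈ csub f q := by rw [hq2]; trivial
      have h4 : comb f (Pi.single i 1) ∈ q := h3
      rwa [comb_single] at h4)
  obtain ⟨c, hc⟩ := (Set.ne_univ_iff_exists_notMem _).1 h1
  refine ⟨c, fun q hq hcq => hc ?_⟩
  rw [Set.mem_iUnion₂]
  exact ⟨csub f q, Finset.mem_image_of_mem _ (hS.mem_toFinset.2 hq), hcq⟩

end comb

section local_ring

variable {R : Type} [CommRing R] [IsLocalRing R] [IsNoetherianRing R] [Algebra ℂ R]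

theorem exists_combs_aux {k : ℕ} (f : Fin k → R)
    (H : ∀ q : Ideal R, q.IsPrime → (∀ i, f i ∈ q) → q = maximalIdeal R) (i : ℕ) :
    ∃ Λ : ℕ → Fin k → ℚ, ∀ q : Ideal R, q.IsPrime → (∀ a < i, comb f (Λ a) ∈ q) →
      q ≠ maximalIdeal R → (i : ℕ∞) ≤ q.height := by
  classical
  induction i with
  | zero => exact ⟨fun _ => 0, fun q _ _ _ => by simp⟩
  | succ i ih =>
    obtain ⟨Λ, hΛ⟩ := ih
    let I : Ideal R := Ideal.span {x | ∃ a < i, x = comb f (Λ a)}
    have hI : ∀ q : Ideal R, I ≤ q ↔ ∀ a < i, comb f (Λ a) ∈ q := by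
      intro q
      rw [Ideal.span_le]
      constructor
      · intro h a ha
        exact h ⟨a, ha, rfl⟩
      · rintro h x ⟨a, ha, rfl⟩
        exact h a ha
    have hfin : (I.minimalPrimes \ {maximalIdeal R}).Finite :=
      (I.finite_minimalPrimes_of_isNoetherianRing R).subset Set.sdiff_subset
    obtain ⟨c, hc⟩ := exists_avoid f _ hfin (by
      intro q hq
      by_contra hcon
      push Not at hcon
      exact hq.2 (H q hq.1.1.1 hcon))
    refine ⟨fun a => if a < i then Λ a else c, fun q hq h1 h2 => ?_⟩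
    have h3 : ∀ a < i, comb f (Λ a) ∈ q := by
      intro a ha
      have := h1 a (by omega)
      simpa [ha] using this
    have h4 : comb f c ∈ q := by
      have := h1 i (by omega)
      simpa using this
    have h5 := hΛ q hq h3 h2
    rcases h5.lt_or_eq with h6 | h6
    · push_cast
      exact Order.add_one_le_of_lt h6
    · exfalso
      have hmin : q ∈ I.minimalPrimes := by
        have hfh : q.FiniteHeight := ⟨Or.inr (by rw [← h6]; exact ENat.natCast_ne_top i)⟩
        apply Ideal.mem_minimalPrimes_of_height_le ((hI q).2 h3)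
        rw [← h6, Ideal.height_eq_inf_minimalPrimes]
        refine le_iInf₂ fun p hp => ?_
        have hp1 := hp.1.1
        apply hΛ p hp1 ((hI p).1 hp.1.2)
        rintro rfl
        -- then the minimal prime is the maximal ideal, and `q` is equal to it
        have h7 : q ≤ maximalIdeal R := le_maximalIdeal hq.ne_top
        have h8 : maximalIdeal R ≤ q := hp.2 ⟨hq, (hI q).2 h3⟩ h7
        exact h2 (le_antisymm h7 h8)
      exact hc q ⟨hmin, h2⟩ h4

/-- **Generic combinations.** -/
theorem exists_combs {k M : ℕ} (f : Fin k → R) (hM : (maximalIdeal R).height = M)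
    (H : ∀ q : Ideal R, q.IsPrime → (∀ i, f i ∈ q) → q = maximalIdeal R) :
    ∃ Λ : Fin M → Fin k → ℚ, ∀ q : Ideal R, q.IsPrime → (∀ a, comb f (Λ a) ∈ q) →
      q = maximalIdeal R := by
  obtain ⟨Λ, hΛ⟩ := exists_combs_aux f H M
  refine ⟨fun a => Λ a, fun q hq h1 => ?_⟩
  by_contra hne
  have h2 := hΛ q hq (fun a ha => h1 ⟨a, ha⟩) hne
  have h3 : q < maximalIdeal R := lt_of_le_of_ne (le_maximalIdeal hq.ne_top) hne
  have hfh : (maximalIdeal R).FiniteHeight := ⟨Or.inr (by rw [hM]; exact ENat.natCast_ne_top M)⟩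
  have h4 := Ideal.height_strict_mono_of_isPrime_of_isPrime h3
  rw [hM] at h4
  exact absurd h2 (not_le.2 h4)

/-- **A curve in a given direction.** -/
theorem exists_curve {κ : Type} [Fintype κ] [DecidableEq κ]
    (hM : (maximalIdeal R).height = (Fintype.card κ : ℕ∞)) (g : κ → R)
    (hg : ∀ i, g i ∈ maximalIdeal R) (v : κ → ℚ) (i₀ : κ) (hv : v i₀ ≠ 0) :
    ∃ q : Ideal R, q.IsPrime ∧ q ≠ maximalIdeal R ∧
      ∀ i, algebraMap ℂ R (v i₀) * g i - algebraMap ℂ R (v i) * g i₀ ∈ q := by
  classical
  let s : Finset R := (Finset.univ.erase i₀).image fun i =>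
    algebraMap ℂ R (v i₀) * g i - algebraMap ℂ R (v i) * g i₀
  have hs : Ideal.span (s : Set R) ≤ maximalIdeal R := by
    rw [Ideal.span_le]
    intro x hx
    obtain ⟨i, _, rfl⟩ := Finset.mem_image.1 hx
    exact sub_mem (Ideal.mul_mem_left _ _ (hg i)) (Ideal.mul_mem_left _ _ (hg i₀))
  obtain ⟨q, hq, hqm⟩ := Ideal.exists_minimalPrimes_le hs
  have hcard : s.card ≤ Fintype.card κ - 1 := by
    refine Finset.card_image_le.trans ?_
    rw [Finset.card_erase_of_mem (Finset.mem_univ _), Finset.card_univ]
  have hpos : 0 < Fintype.card κ := Fintype.card_pos_iff.2 ⟨i₀⟩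
  refine ⟨q, hq.1.1, ?_, ?_⟩
  · rintro rfl
    have h1 := Ideal.height_le_card_of_mem_minimalPrimes_span_finset hq
    rw [hM] at h1
    have h2 : Fintype.card κ ≤ s.card := by exact_mod_cast h1
    omega
  · intro i
    by_cases hi : i = i₀
    · subst hi
      rw [sub_self]
      exact q.zero_mem
    · exact hq.1.2 (Ideal.subset_span (Finset.mem_image_of_mem _
        (Finset.mem_erase.2 ⟨hi, Finset.mem_univ _⟩)))

end local_ring

end Pool.Agent.Helper16K9.Ver
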