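import Pool.Agent.Helper16K9.Ver.Defs

set_option autoImplicit false
set_option linter.unusedSectionVars false
set_option linter.unusedVariables false

/-!
# Paths of computation trees
-/

namespace Pool.Agent.Helper16K9.Ver

section

variable {I : Type} [Fintype I]

/-- the value of an affine combination in a ring -/
noncomputable def Lin.ev {R : Type} [CommRing R] (l : Lin I) (φ : ℂ →+* R) (x : I → R)
    (w : ℕ → R) (m : ℕ) : R :=
  φ l.const + ∑ i, φ (l.inp i) * x i + ∑ j ∈ Finset.range m, φ (l.prev j) * w j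

theorem Lin.ev_id (l : Lin I) (x : I → ℂ) (w : ℕ → ℂ) (m : ℕ) :
    l.ev (RingHom.id ℂ) x w m = l.val x w m := rfl

section ring

variable {R S : Type} [CommRing R] [CommRing S]

theorem Lin.ev_congr (l : Lin I) (φ : ℂ →+* R) (x : I → R) {w w' : ℕ → R} {m : ℕ}
    (h : ∀ j < m, w j = w' j) : l.ev φ x w m = l.ev φ x w' m := by
  unfold Lin.ev
  congr 1
  refine Finset.sum_congr rfl fun j hj => ?_
  rw [h j (Finset.mem_range.1 hj)]

theorem Lin.ev_hom (l : Lin I) (φ : ℂ →+* R) (f : R →+* S) (x : I → R) (w : ℕ → R) (m : ℕ) :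
    f (l.ev φ x w m) = l.ev (f.comp φ) (f ∘ x) (f ∘ w) m := by
  unfold Lin.ev
  simp only [map_add, map_sum, map_mul, RingHom.comp_apply, Function.comp_apply]

/-- the coefficients lie in a subfield -/
def Lin.In (k : Subfield ℂ) (l : Lin I) : Prop :=
  l.const ∈ k ∧ (∀ i, l.inp i ∈ k) ∧ ∀ j, l.prev j ∈ k

theorem Lin.ev_phi {k : Subfield ℂ} {l : Lin I} (hl : l.In k) {φ φ' : ℂ →+* R}
    (h : ∀ c ∈ k, φ c = φ' c) (x : I → R) (w : ℕ → R) (m : ℕ) :
    l.ev φ x w m = l.ev φ' x w m := by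
  unfold Lin.ev
  rw [h _ hl.1]
  congr 1
  · congr 1
    exact Finset.sum_congr rfl fun i _ => by rw [h _ (hl.2.1 i)]
  · exact Finset.sum_congr rfl fun j _ => by rw [h _ (hl.2.2 j)]

/-- instructions on a path -/
inductive Ins (I : Type) : Type
  | mul (u v : Lin I) : Ins I
  | div (u v : Lin I) : Ins I
  | guess : Ins I
  | eq (u : Lin I) : Ins I
  | ne (u : Lin I) : Ins I

/-- the number of multiplications and divisions -/
def cost : List (Ins I) → ℕ
  | [] => 0
  | .mul _ _ :: l => cost l + 1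
  | .div _ _ :: l => cost l + 1
  | .guess :: l => cost l
  | .eq _ :: l => cost l
  | .ne _ :: l => cost l

/-- the constants lie in a subfield -/
def PIn (k : Subfield ℂ) : List (Ins I) → Prop
  | [] => True
  | .mul u v :: l => u.In k ∧ v.In k ∧ PIn k l
  | .div u v :: l => u.In k ∧ v.In k ∧ PIn k l
  | .guess :: l => PIn k l
  | .eq u :: l => u.In k ∧ PIn k l
  | .ne u :: l => u.In k ∧ PIn k l

/-- `w` is a run along the path with inputs `x` and guesses `g`; at the tests for zero the property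
`E` is required -/
def Sat (φ : ℂ →+* R) (E : R → Prop) (x : I → R) (g w : ℕ → R) : ℕ → List (Ins I) → Prop
  | _, [] => True
  | m, .mul u v :: l => w m = u.ev φ x w m * v.ev φ x w m ∧ Sat φ E x g w (m + 1) l
  | m, .div u v :: l => IsUnit (v.ev φ x w m) ∧ w m * v.ev φ x w m = u.ev φ x w m ∧
      Sat φ E x g w (m + 1) l
  | m, .guess :: l => w m = g m ∧ Sat φ E x g w (m + 1) l
  | m, .eq u :: l => E (u.ev φ x w m) ∧ Sat φ E x g w m l
  | m, .ne u :: l => IsUnit (u.ev φ x w m) ∧ Sat φ E x g w m l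

theorem Sat.map {φ : ℂ →+* R} {E : R → Prop} {E' : S → Prop} {x : I → R} {g w : ℕ → R}
    (f : R →+* S) (hE : ∀ y, E y → E' (f y)) : ∀ {m : ℕ} {π : List (Ins I)},
    Sat φ E x g w m π → Sat (f.comp φ) E' (f ∘ x) (f ∘ g) (f ∘ w) m π
  | _, [], _ => trivial
  | m, .mul u v :: l, h => by
    refine ⟨?_, Sat.map f hE h.2⟩
    rw [← Lin.ev_hom, ← Lin.ev_hom, ← map_mul, ← h.1]
    rfl
  | m, .div u v :: l, h => by
    refine ⟨?_, ?_, Sat.map f hE h.2.2⟩
    · rw [← Lin.ev_hom]
      exact h.1.map f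
    · rw [← Lin.ev_hom, ← Lin.ev_hom, ← h.2.1, map_mul]
      rfl
  | m, .guess :: l, h => ⟨congrArg f h.1, Sat.map f hE h.2⟩
  | m, .eq u :: l, h => by
    refine ⟨?_, Sat.map f hE h.2⟩
    rw [← Lin.ev_hom]
    exact hE _ h.1
  | m, .ne u :: l, h => by
    refine ⟨?_, Sat.map f hE h.2⟩
    rw [← Lin.ev_hom]
    exact h.1.map f

theorem Sat.congr_phi {k : Subfield ℂ} {φ φ' : ℂ →+* R} (hφ : ∀ c ∈ k, φ c = φ' c)
    {E : R → Prop} {x : I → R} {g w : ℕ → R} : ∀ {m : ℕ} {π : List (Ins I)}, PIn k π →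
    Sat φ E x g w m π → Sat φ' E x g w m π
  | _, [], _, _ => trivial
  | m, .mul u v :: l, hk, h => by
    refine ⟨?_, Sat.congr_phi hφ hk.2.2 h.2⟩
    rw [← Lin.ev_phi hk.1 hφ, ← Lin.ev_phi hk.2.1 hφ]
    exact h.1
  | m, .div u v :: l, hk, h => by
    refine ⟨?_, ?_, Sat.congr_phi hφ hk.2.2 h.2.2⟩
    · rw [← Lin.ev_phi hk.2.1 hφ]
      exact h.1
    · rw [← Lin.ev_phi hk.1 hφ, ← Lin.ev_phi hk.2.1 hφ]
      exact h.2.1
  | m, .guess :: l, hk, h => ⟨h.1, Sat.congr_phi hφ hk h.2⟩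
  | m, .eq u :: l, hk, h => by
    refine ⟨?_, Sat.congr_phi hφ hk.2 h.2⟩
    rw [← Lin.ev_phi hk.1 hφ]
    exact h.1
  | m, .ne u :: l, hk, h => by
    refine ⟨?_, Sat.congr_phi hφ hk.2 h.2⟩
    rw [← Lin.ev_phi hk.1 hφ]
    exact h.1

theorem Sat.congr_g {φ : ℂ →+* R} {E : R → Prop} {x : I → R} {g g' w : ℕ → R} :
    ∀ {m : ℕ} {π : List (Ins I)}, (∀ j < m + π.length, g j = g' j) →
    Sat φ E x g w m π → Sat φ E x g' w m π
  | _, [], _, _ => trivial
  | m, .mul u v :: l, hg, h =>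
    ⟨h.1, Sat.congr_g (fun j hj => hg j (by rw [List.length_cons]; omega)) h.2⟩
  | m, .div u v :: l, hg, h =>
    ⟨h.1, h.2.1, Sat.congr_g (fun j hj => hg j (by rw [List.length_cons]; omega)) h.2.2⟩
  | m, .guess :: l, hg, h =>
    ⟨h.1.trans (hg m (by rw [List.length_cons]; omega)),
      Sat.congr_g (fun j hj => hg j (by rw [List.length_cons]; omega)) h.2⟩
  | m, .eq u :: l, hg, h =>
    ⟨h.1, Sat.congr_g (fun j hj => hg j (by rw [List.length_cons]; omega)) h.2⟩
  | m, .ne u :: l, hg, h =>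
    ⟨h.1, Sat.congr_g (fun j hj => hg j (by rw [List.length_cons]; omega)) h.2⟩

/-- the values tested for zero -/
noncomputable def eqs (φ : ℂ →+* R) (x : I → R) (w : ℕ → R) : ℕ → List (Ins I) → List R
  | _, [] => []
  | m, .mul _ _ :: l => eqs φ x w (m + 1) l
  | m, .div _ _ :: l => eqs φ x w (m + 1) l
  | m, .guess :: l => eqs φ x w (m + 1) l
  | m, .eq u :: l => u.ev φ x w m :: eqs φ x w m l
  | m, .ne _ :: l => eqs φ x w m l

theorem Sat.eqs_mem {φ : ℂ →+* R} {E : R → Prop} {x : I → R} {g w : ℕ → R} :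
    ∀ {m : ℕ} {π : List (Ins I)}, Sat φ E x g w m π → ∀ y ∈ eqs φ x w m π, E y
  | _, [], _, y, hy => by simp [eqs] at hy
  | m, .mul u v :: l, h, y, hy => Sat.eqs_mem h.2 y hy
  | m, .div u v :: l, h, y, hy => Sat.eqs_mem h.2.2 y hy
  | m, .guess :: l, h, y, hy => Sat.eqs_mem h.2 y hy
  | m, .eq u :: l, h, y, hy => by
    rcases List.mem_cons.1 hy with h1 | h1
    · rw [h1]
      exact h.1
    · exact Sat.eqs_mem h.2 y h1
  | m, .ne u :: l, h, y, hy => Sat.eqs_mem h.2 y hy

theorem Sat.change {φ : ℂ →+* R} {E E' : R → Prop} {x : I → R} {g w : ℕ → R} :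
    ∀ {m : ℕ} {π : List (Ins I)}, Sat φ E x g w m π → (∀ y ∈ eqs φ x w m π, E' y) →
      Sat φ E' x g w m π
  | _, [], _, _ => trivial
  | m, .mul u v :: l, h, hy => ⟨h.1, Sat.change h.2 hy⟩
  | m, .div u v :: l, h, hy => ⟨h.1, h.2.1, Sat.change h.2.2 hy⟩
  | m, .guess :: l, h, hy => ⟨h.1, Sat.change h.2 hy⟩
  | m, .eq u :: l, h, hy => ⟨hy _ List.mem_cons_self,
      Sat.change h.2 fun y hy' => hy y (List.mem_cons_of_mem _ hy')⟩
  | m, .ne u :: l, h, hy => ⟨h.1, Sat.change h.2 hy⟩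

/-- **Lifting of runs** along a local homomorphism to a field. -/
theorem Sat.lift {F : Type} [Field F] (e : R →+* F) (hloc : ∀ y, e y ≠ 0 → IsUnit y)
    (φ : ℂ →+* R) (X : I → R) (G : ℕ → R) {w : ℕ → F} : ∀ {m : ℕ} {π : List (Ins I)}
    (W : ℕ → R), (∀ j < m, e (W j) = w j) →
    Sat (e.comp φ) (fun y => y = 0) (e ∘ X) (e ∘ G) w m π →
    ∃ W' : ℕ → R, (∀ j < m, W' j = W j) ∧ Sat φ (fun y => e y = 0) X G W' m π
  | _, [], W, _, _ => ⟨W, fun _ _ => rfl, trivial⟩
  | m, .mul u v :: l, W, hW, h => by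
    have h0 : ∀ u : Lin I, e (u.ev φ X W m) = u.ev (e.comp φ) (e ∘ X) w m := by
      intro u
      rw [Lin.ev_hom]
      exact Lin.ev_congr _ _ _ hW
    obtain ⟨W', hW', hs⟩ := Sat.lift e hloc φ X G (m := m + 1) (π := l)
      (Function.update W m (u.ev φ X W m * v.ev φ X W m)) (by
        intro j hj
        by_cases hjm : j = m
        · subst hjm
          rw [Function.update_self, map_mul, h0, h0]
          exact h.1.symm
        · rw [Function.update_of_ne hjm]
          exact hW j (by omega)) h.2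
    have h1 : ∀ j < m, W' j = W j := by
      intro j hj
      rw [hW' j (by omega), Function.update_of_ne (by omega)]
    refine ⟨W', h1, ?_, hs⟩
    rw [hW' m (by omega), Function.update_self, Lin.ev_congr u φ X h1, Lin.ev_congr v φ X h1]
  | m, .div u v :: l, W, hW, h => by
    have h0 : ∀ u : Lin I, e (u.ev φ X W m) = u.ev (e.comp φ) (e ∘ X) w m := by
      intro u
      rw [Lin.ev_hom]
      exact Lin.ev_congr _ _ _ hW
    have hv : IsUnit (v.ev φ X W m) := by
      apply hloc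
      rw [h0]
      exact h.1.ne_zero
    obtain ⟨b, hb⟩ := hv.exists_right_inv
    obtain ⟨W', hW', hs⟩ := Sat.lift e hloc φ X G (m := m + 1) (π := l)
      (Function.update W m (u.ev φ X W m * b)) (by
        intro j hj
        by_cases hjm : j = m
        · subst hjm
          rw [Function.update_self, map_mul, h0]
          have h2 : e (v.ev φ X W j) * e b = 1 := by rw [← map_mul, hb, map_one]
          rw [h0] at h2
          rw [← h.2.1, mul_assoc, h2, mul_one]
        · rw [Function.update_of_ne hjm]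
          exact hW j (by omega)) h.2.2
    have h1 : ∀ j < m, W' j = W j := by
      intro j hj
      rw [hW' j (by omega), Function.update_of_ne (by omega)]
    refine ⟨W', h1, ?_, ?_, hs⟩
    · rw [Lin.ev_congr v φ X h1]
      exact hv
    · rw [hW' m (by omega), Function.update_self, Lin.ev_congr u φ X h1, Lin.ev_congr v φ X h1,
        mul_assoc, mul_comm b, hb, mul_one]
  | m, .guess :: l, W, hW, h => by
    obtain ⟨W', hW', hs⟩ := Sat.lift e hloc φ X G (m := m + 1) (π := l)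
      (Function.update W m (G m)) (by
        intro j hj
        by_cases hjm : j = m
        · subst hjm
          rw [Function.update_self]
          exact h.1.symm
        · rw [Function.update_of_ne hjm]
          exact hW j (by omega)) h.2
    have h1 : ∀ j < m, W' j = W j := by
      intro j hj
      rw [hW' j (by omega), Function.update_of_ne (by omega)]
    refine ⟨W', h1, ?_, hs⟩
    rw [hW' m (by omega), Function.update_self]
  | m, .eq u :: l, W, hW, h => by
    have h0 : ∀ u : Lin I, e (u.ev φ X W m) = u.ev (e.comp φ) (e ∘ X) w m := by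
      intro u
      rw [Lin.ev_hom]
      exact Lin.ev_congr _ _ _ hW
    obtain ⟨W', hW', hs⟩ := Sat.lift e hloc φ X G W hW h.2
    refine ⟨W', hW', ?_, hs⟩
    change e (u.ev φ X W' m) = 0
    rw [Lin.ev_congr u φ X hW', h0]
    exact h.1
  | m, .ne u :: l, W, hW, h => by
    have h0 : ∀ u : Lin I, e (u.ev φ X W m) = u.ev (e.comp φ) (e ∘ X) w m := by
      intro u
      rw [Lin.ev_hom]
      exact Lin.ev_congr _ _ _ hW
    obtain ⟨W', hW', hs⟩ := Sat.lift e hloc φ X G W hW h.2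
    refine ⟨W', hW', ?_, hs⟩
    rw [Lin.ev_congr u φ X hW']
    apply hloc
    rw [h0]
    exact h.1.ne_zero

end ring

/-! ### trees -/

/-- the constants of a tree lie in a subfield -/
def Tree.In (k : Subfield ℂ) : Tree I → Prop
  | .accept => True
  | .reject => True
  | .mul u v t => u.In k ∧ v.In k ∧ t.In k
  | .div u v t => u.In k ∧ v.In k ∧ t.In k
  | .guess t => t.In k
  | .test u s t => u.In k ∧ s.In k ∧ t.In k

/-- the coefficients -/
def Lin.set (l : Lin I) : Set ℂ := {l.const} ∪ Set.range l.inp ∪ Set.range l.prev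

theorem Lin.countable_set (l : Lin I) : l.set.Countable := by
  unfold Lin.set
  refine ((Set.countable_singleton _).union ?_).union (Set.countable_range _)
  exact Set.countable_range _

theorem Lin.in_of_subset {l : Lin I} {k : Subfield ℂ} (h : l.set ⊆ k) : l.In k :=
  ⟨h (Or.inl (Or.inl rfl)), fun i => h (Or.inl (Or.inr ⟨i, rfl⟩)), fun j => h (Or.inr ⟨j, rfl⟩)⟩

/-- all coefficients of a tree -/
def Tree.set : Tree I → Set ℂ
  | .accept => ∅
  | .reject => ∅
  | .mul u v t => u.set ∪ v.set ∪ t.set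
  | .div u v t => u.set ∪ v.set ∪ t.set
  | .guess t => t.set
  | .test u s t => u.set ∪ s.set ∪ t.set

theorem Tree.countable_set : ∀ t : Tree I, t.set.Countable
  | .accept => Set.countable_empty
  | .reject => Set.countable_empty
  | .mul u v t => (u.countable_set.union v.countable_set).union t.countable_set
  | .div u v t => (u.countable_set.union v.countable_set).union t.countable_set
  | .guess t => t.countable_set
  | .test u s t => (u.countable_set.union s.countable_set).union t.countable_set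

theorem Tree.in_of_subset {k : Subfield ℂ} : ∀ {t : Tree I}, t.set ⊆ k → t.In k
  | .accept, _ => trivial
  | .reject, _ => trivial
  | .mul u v t, h => ⟨Lin.in_of_subset fun _ hx => h (Or.inl (Or.inl hx)),
      Lin.in_of_subset fun _ hx => h (Or.inl (Or.inr hx)),
      Tree.in_of_subset fun _ hx => h (Or.inr hx)⟩
  | .div u v t, h => ⟨Lin.in_of_subset fun _ hx => h (Or.inl (Or.inl hx)),
      Lin.in_of_subset fun _ hx => h (Or.inl (Or.inr hx)),
      Tree.in_of_subset fun _ hx => h (Or.inr hx)⟩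
  | .guess t, h => Tree.in_of_subset (t := t) h
  | .test u s t, h => ⟨Lin.in_of_subset fun _ hx => h (Or.inl (Or.inl hx)),
      Tree.in_of_subset fun _ hx => h (Or.inl (Or.inr hx)),
      Tree.in_of_subset fun _ hx => h (Or.inr hx)⟩

/-- **Paths of accepting runs.** -/
theorem exists_path (k : Subfield ℂ) : ∀ (t : Tree I), t.In k → ∀ (m : ℕ) (w : ℕ → ℂ) (L : ℕ)
    (x : I → ℂ), Accepts x t m w L → ∃ π : List (Ins I), PIn k π ∧ cost π ≤ L ∧
      (∃ w' : ℕ → ℂ, (∀ j < m, w' j = w j) ∧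
        Sat (RingHom.id ℂ) (fun y => y = 0) x w' w' m π) ∧
      ∀ (x' : I → ℂ) (g' w' : ℕ → ℂ), Sat (RingHom.id ℂ) (fun y => y = 0) x' g' w' m π →
        Accepts x' t m w' (cost π)
  | .accept, _, m, w, L, x, _ => ⟨[], trivial, Nat.zero_le _, ⟨w, fun _ _ => rfl, trivial⟩,
      fun _ _ _ _ => trivial⟩
  | .reject, _, m, w, L, x, h => h.elim
  | .mul u v t, hk, m, w, L, x, h => by
    obtain ⟨L', rfl, h⟩ := h
    obtain ⟨π, h1, h2, ⟨w', h3, h4⟩, h5⟩ := exists_path k t hk.2.2 _ _ _ _ h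
    have h6 : ∀ j < m, w' j = w j := fun j hj => by
      rw [h3 j (by omega), Function.update_of_ne (by omega)]
    refine ⟨.mul u v :: π, ⟨hk.1, hk.2.1, h1⟩, Nat.succ_le_succ h2, ⟨w', h6, ?_, h4⟩, ?_⟩
    · rw [h3 m (by omega), Function.update_self, Lin.ev_congr u _ x h6, Lin.ev_congr v _ x h6]
      rfl
    · intro x' g' w'' hs
      refine ⟨cost π, rfl, ?_⟩
      have h7 : w'' m = u.val x' w'' m * v.val x' w'' m := hs.1
      rw [← h7, Function.update_eq_self]
      exact h5 x' g' w'' hs.2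
  | .div u v t, hk, m, w, L, x, h => by
    obtain ⟨h0, L', rfl, h⟩ := h
    obtain ⟨π, h1, h2, ⟨w', h3, h4⟩, h5⟩ := exists_path k t hk.2.2 _ _ _ _ h
    have h6 : ∀ j < m, w' j = w j := fun j hj => by
      rw [h3 j (by omega), Function.update_of_ne (by omega)]
    refine ⟨.div u v :: π, ⟨hk.1, hk.2.1, h1⟩, Nat.succ_le_succ h2, ⟨w', h6, ?_, ?_, h4⟩, ?_⟩
    · rw [Lin.ev_congr v _ x h6]
      exact isUnit_iff_ne_zero.2 h0
    · rw [h3 m (by omega), Function.update_self, Lin.ev_congr u _ x h6, Lin.ev_congr v _ x h6]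
      exact div_mul_cancel₀ _ h0
    · intro x' g' w'' hs
      have h8 : v.val x' w'' m ≠ 0 := hs.1.ne_zero
      refine ⟨h8, cost π, rfl, ?_⟩
      have h7 : w'' m = u.val x' w'' m / v.val x' w'' m := by
        rw [eq_div_iff h8]
        exact hs.2.1
      rw [← h7, Function.update_eq_self]
      exact h5 x' g' w'' hs.2.2
  | .guess t, hk, m, w, L, x, h => by
    obtain ⟨y, h⟩ := h
    obtain ⟨π, h1, h2, ⟨w', h3, h4⟩, h5⟩ := exists_path k t hk _ _ _ _ h
    have h6 : ∀ j < m, w' j = w j := fun j hj => by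
      rw [h3 j (by omega), Function.update_of_ne (by omega)]
    refine ⟨.guess :: π, h1, h2, ⟨w', h6, rfl, h4⟩, ?_⟩
    intro x' g' w'' hs
    refine ⟨w'' m, ?_⟩
    rw [Function.update_eq_self]
    exact h5 x' g' w'' hs.2
  | .test u s t, hk, m, w, L, x, h => by
    rcases h with ⟨h0, h⟩ | ⟨h0, h⟩
    · obtain ⟨π, h1, h2, ⟨w', h3, h4⟩, h5⟩ := exists_path k s hk.2.1 _ _ _ _ h
      refine ⟨.eq u :: π, ⟨hk.1, h1⟩, h2, ⟨w', h3, ?_, h4⟩, ?_⟩
      · rw [Lin.ev_congr u _ x h3]
        exact h0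
      · intro x' g' w'' hs
        exact Or.inl ⟨hs.1, h5 x' g' w'' hs.2⟩
    · obtain ⟨π, h1, h2, ⟨w', h3, h4⟩, h5⟩ := exists_path k t hk.2.2 _ _ _ _ h
      refine ⟨.ne u :: π, ⟨hk.1, h1⟩, h2, ⟨w', h3, ?_, h4⟩, ?_⟩
      · rw [Lin.ev_congr u _ x h3]
        exact isUnit_iff_ne_zero.2 h0
      · intro x' g' w'' hs
        exact Or.inr ⟨hs.1.ne_zero, h5 x' g' w'' hs.2⟩

end

end Pool.Agent.Helper16K9.Ver
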