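import Pool.Agent.Helper16K9.Ver.Reduce

set_option autoImplicit false
set_option linter.unusedSectionVars false
set_option linter.unusedVariables false

/-!
# The reduction to the rank
-/

namespace Pool.Agent.Helper16K9.Ver

open Finset Matrix

theorem rank_block {a b : Type} [Fintype a] [Fintype b] [DecidableEq a] [DecidableEq b]
    (A : Matrix b a ℂ) (B : Matrix a b ℂ) (C : Matrix b b ℂ) :
    (Matrix.fromBlocks 1 B A C).rank ≤ Fintype.card a ↔ A * B = C := by
  constructor
  · intro h
    let M := Matrix.fromBlocks 1 B A C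
    let L : Matrix (a ⊕ b) a ℂ := Matrix.fromRows 1 A
    have hL : ∀ y : a → ℂ, L *ᵥ y = M *ᵥ (Sum.elim y 0) := by
      intro y
      rw [Matrix.fromBlocks_mulVec, Matrix.fromRows_mulVec]
      simp
    have hLi : Function.Injective L.mulVecLin := by
      rw [injective_iff_map_eq_zero]
      intro y hy
      rw [Matrix.mulVecLin_apply, Matrix.fromRows_mulVec, Matrix.one_mulVec] at hy
      funext i
      exact congrFun hy (Sum.inl i)
    have h1 : LinearMap.range L.mulVecLin ≤ LinearMap.range M.mulVecLin := by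
      rintro _ ⟨y, rfl⟩
      exact ⟨Sum.elim y 0, (hL y).symm⟩
    have h2 : Module.finrank ℂ (LinearMap.range L.mulVecLin) = Fintype.card a := by
      rw [LinearMap.finrank_range_of_inj hLi, Module.finrank_fintype_fun_eq_card]
    have h3 : LinearMap.range L.mulVecLin = LinearMap.range M.mulVecLin :=
      Submodule.eq_of_le_of_finrank_le h1 (by
        rw [h2]
        exact h)
    ext i j
    have h4 : M *ᵥ (Pi.single (Sum.inr j) 1) ∈ LinearMap.range L.mulVecLin := by
      rw [h3]
      exact ⟨_, rfl⟩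
    obtain ⟨y, hy⟩ := h4
    rw [Matrix.mulVecLin_apply, Matrix.fromRows_mulVec, Matrix.one_mulVec,
      Matrix.mulVec_single_one] at hy
    have h5 : y = fun i => B i j := by
      funext i
      exact congrFun hy (Sum.inl i)
    have h6 := congrFun hy (Sum.inr i)
    simp only [Sum.elim_inr] at h6
    rw [h5] at h6
    rw [Matrix.mul_apply]
    exact h6
  · intro h
    have h1 : Matrix.fromBlocks 1 B A C =
        (Matrix.fromRows 1 A : Matrix (a ⊕ b) a ℂ) * (Matrix.fromCols 1 B) := by
      rw [Matrix.fromRows_mul_fromCols]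
      simp [h]
    rw [h1]
    exact (Matrix.rank_mul_le_left _ _).trans (Matrix.rank_le_card_width _)

theorem exists_index_rank {N r : ℕ} (h : r ≤ N) : ∃ q s : ℕ,
    Fintype.card (Fin (min r (N - r)) ⊕ Fin q) = r ∧
    Nonempty (Fin N ≃ (Fin (min r (N - r)) ⊕ Fin q) ⊕ (Fin (min r (N - r)) ⊕ Fin s)) := by
  refine ⟨r - min r (N - r), N - r - min r (N - r), ?_, ⟨Fintype.equivOfCardEq ?_⟩⟩
  · simp only [Fintype.card_fin, Fintype.card_sum]
    omega
  · simp only [Fintype.card_fin, Fintype.card_sum]
    omega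

theorem red_rank {N r : ℕ} {t : Tree (Fin N × Fin N)} {L : ℕ}
    (h : Decides (rankSet N r) t L) : borderRank (min r (N - r)) ≤ 2 * L := by
  rcases Nat.lt_or_ge N r with hr | hr
  · have h0 : min r (N - r) = 0 := by omega
    rw [h0]
    have h1 : borderRank 0 ≤ 0 := borderRank_le_of_ad
      ⟨0, fun t => t.elim0, fun t => t.elim0, fun t => t.elim0, fun i => i.elim0,
        fun i => i.elim0⟩
    omega
  obtain ⟨q, s, hq, ⟨e⟩⟩ := exists_index_rank hr
  generalize hn : min r (N - r) = n at *
  refine decides_product_bound (h.pull (S := productSet n)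
    (fun x p => ((Matrix.fromBlocks 1 (Matrix.fromBlocks (mB x) 0 0 0)
      (Matrix.fromBlocks (mA x) 0 0 0) (Matrix.fromBlocks (mC x) 0 0 0) :
        Matrix ((Fin n ⊕ Fin q) ⊕ (Fin n ⊕ Fin s)) ((Fin n ⊕ Fin q) ⊕ (Fin n ⊕ Fin s)) ℂ).submatrix
          e e) p.1 p.2) ?_ ?_).choose_spec
  · intro p
    simp only [Matrix.submatrix_apply]
    rcases e p.1 with (a | a) | (a | a) <;> rcases e p.2 with (b | b) | (b | b) <;>
      first | exact aff_A a b | exact aff_B a b | exact aff_C a b | exact isAff_const _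
  · intro x
    rw [mem_productSet]
    have h1 : ∀ X : Matrix (Fin N) (Fin N) ℂ, (fun p : Fin N × Fin N => X p.1 p.2) ∈
      rankSet N r ↔ X.rank ≤ r := fun X => Iff.rfl
    rw [h1, Matrix.rank_submatrix, ← hq, rank_block, Matrix.fromBlocks_multiply,
      Matrix.fromBlocks_inj]
    simp

end Pool.Agent.Helper16K9.Ver
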