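import Pool.Agent.Helper16K9.Ver.Blocks

set_option autoImplicit false
set_option linter.unusedSectionVars false
set_option linter.unusedVariables false

/-!
# The reductions
-/

namespace Pool.Agent.Helper16K9.Ver

open Finset Matrix

section

variable {n N s : ℕ} (e : Fin N ≃ (Fin 4 × Fin n) ⊕ Fin s)

/-- input of two matrices -/
def two (X Y : Matrix (Fin N) (Fin N) ℂ) : ((Fin N × Fin N) ⊕ (Fin N × Fin N)) → ℂ :=
  Sum.elim (fun p => X p.1 p.2) (fun p => Y p.1 p.2)

include e

theorem red_zeroProduct {t : Tree ((Fin N × Fin N) ⊕ (Fin N × Fin N))} {L : ℕ}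
    (h : Decides (zeroProductSet N) t L) : borderRank n ≤ 2 * L := by
  refine decides_product_bound (h.pull (S := productSet n)
    (fun x => two (big e 0 ![![mA x, mC x, 0, 0], ![0, 0, 0, 0], ![0, 0, 0, 0], ![0, 0, 0, 0]])
      (big e 0 ![![mB x, 0, 0, 0], ![-1, 0, 0, 0], ![0, 0, 0, 0], ![0, 0, 0, 0]])) ?_ ?_).choose_spec
  · intro i
    rcases i with p | p
    · apply big_aff
      intro a b i j
      fin_cases a <;> fin_cases b <;>
        first | exact aff_A i j | exact aff_C i j | exact isAff_const _
    · apply big_aff
      intro a b i j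
      fin_cases a <;> fin_cases b <;>
        first | exact aff_B i j | exact isAff_const _
  · intro x
    rw [mem_productSet]
    have h1 : ∀ X Y : Matrix (Fin N) (Fin N) ℂ, two X Y ∈ zeroProductSet N ↔ X * Y = 0 :=
      fun X Y => Iff.rfl
    rw [h1, big_mul, zero_mul, ← big_zero e, big_inj]
    constructor
    · intro h2 a b
      fin_cases a <;> fin_cases b <;> simp [Fin.sum_univ_four, h2]
    · intro h2
      have := h2 0 0
      simp only [Fin.sum_univ_four] at this
      simpa [add_neg_eq_zero] using this

theorem red_commuting {t : Tree ((Fin N × Fin N) ⊕ (Fin N × Fin N))} {L : ℕ}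
    (h : Decides (commutingSet N) t L) : borderRank n ≤ 2 * L := by
  refine decides_product_bound (h.pull (S := productSet n)
    (fun x => two (big e 0 ![![0, mA x, mC x, 0], ![0, 0, 0, 0], ![0, 0, 0, 0], ![0, 0, 0, 0]])
      (big e 0 ![![0, 0, 0, 0], ![0, 0, 0, mB x], ![0, 0, 0, -1], ![0, 0, 0, 0]])) ?_ ?_).choose_spec
  · intro i
    rcases i with p | p
    · apply big_aff
      intro a b i j
      fin_cases a <;> fin_cases b <;>
        first | exact aff_A i j | exact aff_C i j | exact isAff_const _
    · apply big_aff
      intro a b i j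
      fin_cases a <;> fin_cases b <;>
        first | exact aff_B i j | exact isAff_const _
  · intro x
    rw [mem_productSet]
    have h1 : ∀ X Y : Matrix (Fin N) (Fin N) ℂ, two X Y ∈ commutingSet N ↔ X * Y = Y * X :=
      fun X Y => Iff.rfl
    rw [h1, big_mul, big_mul, big_inj]
    constructor
    · intro h2 a b
      fin_cases a <;> fin_cases b <;> simp [Fin.sum_univ_four, h2]
    · intro h2
      have := h2 0 3
      simp only [Fin.sum_univ_four] at this
      simpa [add_neg_eq_zero] using this

theorem red_squareZero {t : Tree (Fin N × Fin N)} {L : ℕ}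
    (h : Decides (squareZeroSet N) t L) : borderRank n ≤ 2 * L := by
  refine decides_product_bound (h.pull (S := productSet n)
    (fun x p => big e 0 ![![0, mA x, mC x, 0], ![0, 0, 0, mB x], ![0, 0, 0, -1], ![0, 0, 0, 0]]
      p.1 p.2) ?_ ?_).choose_spec
  · intro p
    apply big_aff
    intro a b i j
    fin_cases a <;> fin_cases b <;>
      first | exact aff_A i j | exact aff_B i j | exact aff_C i j | exact isAff_const _
  · intro x
    rw [mem_productSet]
    have h1 : ∀ X : Matrix (Fin N) (Fin N) ℂ, (fun p : Fin N × Fin N => X p.1 p.2) ∈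
      squareZeroSet N ↔ X * X = 0 := fun X => Iff.rfl
    rw [h1, big_mul, zero_mul, ← big_zero e, big_inj]
    constructor
    · intro h2 a b
      fin_cases a <;> fin_cases b <;> simp [Fin.sum_univ_four, h2]
    · intro h2
      have := h2 0 3
      simp only [Fin.sum_univ_four] at this
      simpa [add_neg_eq_zero] using this

theorem red_inverse {t : Tree ((Fin N × Fin N) ⊕ (Fin N × Fin N))} {L : ℕ}
    (h : Decides (inverseSet N) t L) : borderRank n ≤ 2 * L := by
  refine decides_product_bound (h.pull (S := productSet n)
    (fun x => two (big e 1 ![![1, mA x, mC x, 0], ![0, 1, 0, mB x], ![0, 0, 1, -1], ![0, 0, 0, 1]])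
      (big e 1 ![![1, -mA x, -mC x, 0], ![0, 1, 0, -mB x], ![0, 0, 1, 1], ![0, 0, 0, 1]])) ?_ ?_).choose_spec
  · intro i
    rcases i with p | p
    · apply big_aff
      intro a b i j
      fin_cases a <;> fin_cases b <;>
        first | exact aff_A i j | exact aff_B i j | exact aff_C i j | exact isAff_const _
    · apply big_aff
      intro a b i j
      fin_cases a <;> fin_cases b <;>
        first | exact (aff_A i j).neg | exact (aff_B i j).neg | exact (aff_C i j).neg |
          exact isAff_const _
  · intro x
    rw [mem_productSet]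
    have h1 : ∀ X Y : Matrix (Fin N) (Fin N) ℂ, two X Y ∈ inverseSet N ↔ X * Y = 1 :=
      fun X Y => Iff.rfl
    rw [h1, big_mul, one_mul, ← big_one e, big_inj]
    constructor
    · intro h2 a b
      fin_cases a <;> fin_cases b <;> simp [Fin.sum_univ_four, h2]
    · intro h2
      have := h2 0 3
      simp only [Fin.sum_univ_four] at this
      simpa [neg_add_eq_zero, add_comm] using this

theorem red_idempotent {t : Tree (Fin N × Fin N)} {L : ℕ}
    (h : Decides (idempotentSet N) t L) : borderRank n ≤ 2 * L := by
  refine decides_product_bound (h.pull (S := productSet n)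
    (fun x p => big e 0 ![![1, mA x, -mC x, 0], ![0, 0, mB x, 0], ![0, 0, 1, 0], ![0, 0, 0, 0]]
      p.1 p.2) ?_ ?_).choose_spec
  · intro p
    apply big_aff
    intro a b i j
    fin_cases a <;> fin_cases b <;>
      first | exact aff_A i j | exact aff_B i j | exact (aff_C i j).neg | exact isAff_const _
  · intro x
    rw [mem_productSet]
    have h1 : ∀ X : Matrix (Fin N) (Fin N) ℂ, (fun p : Fin N × Fin N => X p.1 p.2) ∈
      idempotentSet N ↔ X * X = X := fun X => Iff.rfl
    rw [h1, big_mul, zero_mul, big_inj]
    constructor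
    · intro h2 a b
      fin_cases a <;> fin_cases b <;> simp [Fin.sum_univ_four, h2]
    · intro h2
      have := h2 0 2
      simp only [Fin.sum_univ_four] at this
      have h3 : -mC x + mA x * mB x = 0 := by simpa using this
      exact (neg_add_eq_zero.1 h3).symm

end

end Pool.Agent.Helper16K9.Ver
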