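import Pool.Agent.Helper16K9.Ver.Curve

set_option autoImplicit false
set_option linter.unusedSectionVars false

/-!
# The local homomorphism to the field of Puiseux series
-/

namespace Pool.Agent.Helper16K9.Ver

open IsLocalRing MvPolynomial Pool.Agent.Helper165.P1

section

variable {κ : Type} [Fintype κ] [DecidableEq κ] (z : κ → ℂ) (g : κ → LR z)

/-- a polynomial in the `g i` divisible by the Jacobian determinant -/
theorem exists_mult (hai : AlgebraicIndependent ℂ g) :
    ∃ F : MvPolynomial κ ℂ, F ≠ 0 ∧ (JM z g).det ∣ aeval g F := by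
  have h1 := (basis_g z g hai).isAlgebraic
  have h2 : IsAlgebraic (Algebra.adjoin ℂ (Set.range g)) (JM z g).det := h1.isAlgebraic _
  obtain ⟨r, hr, hd⟩ := h2.exists_nonzero_dvd
    (mem_nonZeroDivisors_of_ne_zero (det_ne_zero z g hai))
  have h3 : (r : LR z) ∈ (aeval g : MvPolynomial κ ℂ →ₐ[ℂ] LR z).range := by
    rw [← Algebra.adjoin_range_eq_range_aeval]
    exact r.2
  obtain ⟨F, hF⟩ := h3
  refine ⟨F, ?_, ?_⟩
  · rintro rfl
    rw [map_zero] at hF
    exact hr (Subtype.ext hF.symm)
  · have h4 : (aeval g) F = (r : LR z) := hF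
    rw [h4]
    exact hd

section fin

variable {E : Type} [Field E] [Algebra ℂ E] (π : LR z →ₐ[ℂ] E) {t : E}

/-- the field of the curve as a field over rational functions -/
noncomputable def ratE (ht : Transcendental ℂ t) : RatFunc ℂ →+* E :=
  IsFractionRing.lift (A := Polynomial ℂ) (K := RatFunc ℂ) (g := (Polynomial.aeval t).toRingHom)
    (transcendental_iff_injective.1 ht)

theorem ratE_algebraMap (ht : Transcendental ℂ t) (p : Polynomial ℂ) :
    ratE ht (algebraMap (Polynomial ℂ) (RatFunc ℂ) p) = Polynomial.aeval t p :=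
  IsFractionRing.lift_algebraMap _ _

theorem chainE (D : E → E) (hadd : ∀ x y, D (x + y) = D x + D y)
    (hmul : ∀ x y, D (x * y) = x * D y + y * D x) (hc : ∀ c : ℂ, D (algebraMap ℂ E c) = 0)
    (hg : ∀ i, D (π (g i)) = 0) (hJ : π (JM z g).det ≠ 0)
    (hgen : ∀ x, ∃ y w, π w ≠ 0 ∧ x * π w = π y) (x : E) : D x = 0 := by
  have hch := chain z (π : LR z →+* E) (fun x => D (π x)) (by
      intro x y
      rw [map_add, hadd]) (by
      intro x y
      rw [map_mul, hmul]
      rfl) (by
      intro c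
      rw [AlgHom.commutes, hc])
  have h1 : ((JM z g).map π).mulVec (fun a => D (π (Z z a))) = 0 := by
    funext i
    rw [Matrix.mulVec, dotProduct]
    have := hch (g i)
    simp only [hg i] at this
    rw [Pi.zero_apply, this]
    rfl
  have h4 : ((JM z g).map π).det ≠ 0 := by
    have := RingHom.map_det (π : LR z →+* E) (JM z g)
    have h5 : ((JM z g).map π).det = π (JM z g).det := this.symm
    rw [h5]
    exact hJ
  have h2 : (fun a => D (π (Z z a))) = 0 := Matrix.eq_zero_of_mulVec_eq_zero h4 h1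
  have h3 : ∀ y, D (π y) = 0 := by
    intro y
    have := hch y
    rw [this]
    refine Finset.sum_eq_zero fun a _ => ?_
    have h5 : D (π (Z z a)) = 0 := congrFun h2 a
    rw [h5, mul_zero]
  obtain ⟨y, w, hw, hy⟩ := hgen x
  have h5 := congrArg D hy
  rw [hmul, h3, h3, mul_zero, zero_add] at h5
  exact (mul_eq_zero.1 h5).resolve_left hw

theorem ratE_alg (ht : Transcendental ℂ t) (v : κ → ℂ)
    (hg : ∀ i, π (g i) = algebraMap ℂ E (v i) * t) (hJ : π (JM z g).det ≠ 0)
    (hgen : ∀ x, ∃ y w, π w ≠ 0 ∧ x * π w = π y) (x : E) :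
    @IsAlgebraic (RatFunc ℂ) E _ _ (ratE ht).toAlgebra x := by
  let : Algebra (RatFunc ℂ) E := (ratE ht).toAlgebra
  by_contra htr
  have h1 : AlgebraicIndependent (RatFunc ℂ) (fun _ : Unit => x) :=
    algebraicIndependent_unique_type_iff.2 htr
  obtain ⟨D, hD⟩ := Pool.Agent.H135R2.VS.exists_der h1 (fun _ => (1 : E))
  have hk : ∀ p : Polynomial ℂ, D (Polynomial.aeval t p) = 0 := by
    intro p
    have h2 := D.map_algebraMap (algebraMap (Polynomial ℂ) (RatFunc ℂ) p)
    have h3 : algebraMap (RatFunc ℂ) E (algebraMap (Polynomial ℂ) (RatFunc ℂ) p) =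
      Polynomial.aeval t p := ratE_algebraMap ht p
    rwa [h3] at h2
  have h2 := chainE z g π D (fun x y => map_add D x y)
    (fun x y => by rw [Derivation.leibniz]; rfl) (fun c => by
      have := hk (Polynomial.C c)
      rwa [Polynomial.aeval_C] at this) (fun i => by
      have := hk (Polynomial.C (v i) * Polynomial.X)
      rw [map_mul, Polynomial.aeval_C, Polynomial.aeval_X] at this
      rw [hg i]
      exact this) hJ hgen x
  have h3 : D x = 1 := hD ()
  rw [h2] at h3
  exact zero_ne_one h3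

theorem ratE_fin (ht : Transcendental ℂ t) (v : κ → ℂ)
    (hg : ∀ i, π (g i) = algebraMap ℂ E (v i) * t) (hJ : π (JM z g).det ≠ 0)
    (hgen : ∀ x, ∃ y w, π w ≠ 0 ∧ x * π w = π y) :
    @FiniteDimensional (RatFunc ℂ) E _ _ (ratE ht).toAlgebra.toModule := by
  let : Algebra (RatFunc ℂ) E := (ratE ht).toAlgebra
  let S : Set E := Set.range fun a => π (Z z a)
  have hS : S.Finite := Set.finite_range _
  have : Finite S := hS
  have h1 : FiniteDimensional (RatFunc ℂ) (IntermediateField.adjoin (RatFunc ℂ) S) := by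
    apply IntermediateField.finiteDimensional_adjoin
    intro x _
    exact (ratE_alg z g π ht v hg hJ hgen x).isIntegral
  let F := IntermediateField.adjoin (RatFunc ℂ) S
  have hC : ∀ c : ℂ, algebraMap ℂ E c ∈ F := by
    intro c
    have h2 : algebraMap (RatFunc ℂ) E (algebraMap (Polynomial ℂ) (RatFunc ℂ) (Polynomial.C c)) =
      Polynomial.aeval t (Polynomial.C c) := ratE_algebraMap ht _
    rw [Polynomial.aeval_C] at h2
    rw [← h2]
    exact F.algebraMap_mem _
  have hp : ∀ p : MvPolynomial κ ℂ, π (algebraMap _ (LR z) p) ∈ F := by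
    intro p
    induction p using MvPolynomial.induction_on with
    | C c =>
      have : algebraMap (MvPolynomial κ ℂ) (LR z) (C c) = algebraMap ℂ (LR z) c :=
        (IsScalarTower.algebraMap_apply ℂ (MvPolynomial κ ℂ) (LR z) c).symm
      rw [this, AlgHom.commutes]
      exact hC c
    | add p q hp hq =>
      rw [map_add, map_add]
      exact add_mem hp hq
    | mul_X p a hp =>
      rw [map_mul, map_mul]
      exact mul_mem hp (IntermediateField.subset_adjoin _ _ ⟨a, rfl⟩)
  have hr : ∀ y : LR z, π y ∈ F := by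
    intro y
    obtain ⟨⟨p, w⟩, h⟩ := IsLocalization.surj (pt z).primeCompl y
    have h2 : π y * π (algebraMap (MvPolynomial κ ℂ) (LR z) w) =
        π (algebraMap (MvPolynomial κ ℂ) (LR z) p) := by
      rw [← map_mul]
      exact congrArg π h
    have h3 : π (algebraMap (MvPolynomial κ ℂ) (LR z) w) ≠ 0 := by
      have h4 : IsUnit (algebraMap (MvPolynomial κ ℂ) (LR z) w) :=
        IsLocalization.map_units (LR z) w
      exact (h4.map π).ne_zero
    rw [← eq_div_iff h3] at h2
    rw [h2]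
    exact div_mem (hp p) (hp w)
  have htop : F = ⊤ := by
    rw [eq_top_iff]
    intro x _
    obtain ⟨y, w, hw, hy⟩ := hgen x
    rw [← eq_div_iff hw] at hy
    rw [hy]
    exact div_mem (hr y) (hr w)
  have h2 : FiniteDimensional (RatFunc ℂ) (⊤ : IntermediateField (RatFunc ℂ) E) := by
    rw [← htop]
    exact h1
  exact (IntermediateField.topEquiv (F := RatFunc ℂ) (E := E)).toLinearEquiv.finiteDimensional

end fin

/-- **The local homomorphism.** -/
theorem exists_rho [Nonempty κ] (hg : ∀ i, g i ∈ maximalIdeal (LR z))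
    (H : ∀ q : Ideal (LR z), q.IsPrime → (∀ i, g i ∈ q) → q = maximalIdeal (LR z)) :
    ∃ (ρ : LR z →+* Pui ℂ) (v : κ → ℚ), (∀ c : ℂ, ρ (algebraMap ℂ (LR z) c) = cP c) ∧
      (∀ w ∈ maximalIdeal (LR z), Pos (ρ w : HQ ℂ)) ∧
      (∀ i, ρ (g i) = cP (v i) * TP) ∧ ρ (JM z g).det ≠ 0 := by
  have hai := algInd_g z g hg H
  obtain ⟨F, hF, hdvd⟩ := exists_mult z g hai
  obtain ⟨i₀⟩ := ‹Nonempty κ›
  obtain ⟨v, hv⟩ := exists_rat_point
    (mul_ne_zero hF (X_ne_zero i₀ : (X i₀ : MvPolynomial κ ℂ) ≠ 0))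
  rw [map_mul, eval_X] at hv
  have hv0 : v i₀ ≠ 0 := by
    have := right_ne_zero_of_mul hv
    exact_mod_cast this
  have hv0' : (v i₀ : ℂ) ≠ 0 := by exact_mod_cast hv0
  obtain ⟨E, _, _, π, t, ht, h1, hgen⟩ := exists_E g (height_LR z) hg H v i₀ hv0
  have hJ : π (JM z g).det ≠ 0 := by
    intro h
    apply aeval_ne_zero_of_trans ht v F (left_ne_zero_of_mul hv)
    have h2 : π (aeval g F) = 0 := by
      obtain ⟨c, hc⟩ := hdvd
      rw [hc, map_mul, h, zero_mul]
    rw [← h2]
    have : π.comp (aeval g) = (aeval (fun i => algebraMap ℂ E (v i) * t) :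
        MvPolynomial κ ℂ →ₐ[ℂ] E) := by
      apply MvPolynomial.algHom_ext
      intro i
      simp [h1]
    exact (DFunLike.congr_fun this F).symm
  have hfin := ratE_fin z g π ht (fun i => (v i : ℂ)) h1 hJ hgen
  let : Algebra (RatFunc ℂ) E := (ratE ht).toAlgebra
  have hal : ∀ p, algebraMap (RatFunc ℂ) E (algebraMap (Polynomial ℂ) (RatFunc ℂ) p) =
      Polynomial.aeval t p := fun p => ratE_algebraMap ht p
  obtain ⟨V, hV, hloc⟩ := exists_factor_valuationRing (π : LR z →+* E)
  have hmem : ∀ y : LR z, π y ∈ V := hV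
  have hmax : ∀ w ∈ maximalIdeal (LR z), V.valuation (π w) < 1 := by
    intro w hw
    have h2 := (V.valuation_lt_one_iff ⟨π w, hmem w⟩).1 ?_
    · exact h2
    · rw [mem_maximalIdeal, mem_nonunits_iff]
      intro hu
      rw [mem_maximalIdeal, mem_nonunits_iff] at hw
      apply hw
      exact hloc.map_nonunit w hu
  have htE : t = π (algebraMap ℂ (LR z) (v i₀ : ℂ)⁻¹ * g i₀) := by
    rw [map_mul, AlgHom.commutes, h1, ← mul_assoc, ← map_mul, inv_mul_cancel₀ hv0', map_one,
      one_mul]
  have hC : ∀ c : ℂ, algebraMap (RatFunc ℂ) E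
      (algebraMap (Polynomial ℂ) (RatFunc ℂ) (Polynomial.C c)) ∈ V := by
    intro c
    rw [hal, Polynomial.aeval_C, ← AlgHom.commutes π]
    exact hmem _
  have htV : V.valuation (algebraMap (RatFunc ℂ) E
      (algebraMap (Polynomial ℂ) (RatFunc ℂ) Polynomial.X)) < 1 := by
    rw [hal, Polynomial.aeval_X, htE]
    exact hmax _ (Ideal.mul_mem_left _ _ (hg i₀))
  obtain ⟨σ, hσ, hpos⟩ := exists_place V hC htV
  have hσC : ∀ c : ℂ, σ (algebraMap ℂ E c) = cP c := by
    intro c
    have := hσ (algebraMap (Polynomial ℂ) (RatFunc ℂ) (Polynomial.C c))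
    rw [hal, Polynomial.aeval_C, ratP_algebraMap] at this
    rw [this]
    exact Polynomial.eval₂_C _ _
  have hσT : σ t = TP := by
    have := hσ (algebraMap (Polynomial ℂ) (RatFunc ℂ) Polynomial.X)
    rw [hal, Polynomial.aeval_X, ratP_algebraMap] at this
    rw [this]
    exact Polynomial.eval₂_X _ _
  refine ⟨σ.comp (π : LR z →+* E), v, ?_, ?_, ?_, ?_⟩
  · intro c
    change σ (π (algebraMap ℂ (LR z) c)) = _
    rw [AlgHom.commutes, hσC]
  · intro w hw
    exact hpos _ (hmax w hw)
  · intro i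
    change σ (π (g i)) = _
    rw [h1, map_mul, hσC, hσT]
  · change σ (π (JM z g).det) ≠ 0
    exact (map_ne_zero _).2 hJ

end

end Pool.Agent.Helper16K9.Ver
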