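import Pool.Agent.Helper16K9.Ver.Loc

set_option autoImplicit false
set_option linter.unusedSectionVars false

/-!
# The local ring of a point of affine space and its partial derivatives
-/

namespace Pool.Agent.Helper16K9.Ver

open IsLocalRing MvPolynomial

section

variable {κ : Type} [Fintype κ] [DecidableEq κ]

/-- the ideal of the point `z` -/
noncomputable def pt (z : κ → ℂ) : Ideal (MvPolynomial κ ℂ) := RingHom.ker (eval z)

instance (z : κ → ℂ) : (pt z).IsMaximal := by
  have hs : Function.Surjective (eval z : MvPolynomial κ ℂ →+* ℂ) := fun c => ⟨C c, eval_C _⟩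
  exact RingHom.ker_isMaximal_of_surjective _ hs

/-- the local ring -/
abbrev LR (z : κ → ℂ) : Type := Localization.AtPrime (pt z)

variable (z : κ → ℂ)

instance : IsNoetherianRing (LR z) :=
  IsLocalization.isNoetherianRing (pt z).primeCompl (LR z) inferInstance

instance : IsDomain (LR z) :=
  IsLocalization.isDomain_localization (pt z).primeCompl_le_nonZeroDivisors

theorem height_LR : (maximalIdeal (LR z)).height = (Fintype.card κ : ℕ∞) := by
  have h1 := IsLocalization.height_under (pt z).primeCompl (maximalIdeal (LR z))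
  rw [← h1, ← height_mv (pt z)]
  congr 1
  exact Localization.AtPrime.under_maximalIdeal

/-- evaluation at the point -/
noncomputable def ev : LR z →+* ℂ :=
  IsLocalization.lift (M := (pt z).primeCompl) (g := (eval z : MvPolynomial κ ℂ →+* ℂ)) (by
    rintro ⟨w, hw⟩
    exact isUnit_iff_ne_zero.2 hw)

theorem ev_algebraMap (p : MvPolynomial κ ℂ) : ev z (algebraMap _ (LR z) p) = eval z p :=
  IsLocalization.lift_eq _ _

theorem ev_const (c : ℂ) : ev z (algebraMap ℂ (LR z) c) = c := by
  rw [IsScalarTower.algebraMap_apply ℂ (MvPolynomial κ ℂ) (LR z), ev_algebraMap]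
  exact eval_C _

theorem mem_max_iff (x : LR z) : x ∈ maximalIdeal (LR z) ↔ ev z x = 0 := by
  rw [mem_maximalIdeal, mem_nonunits_iff]
  constructor
  · intro h
    by_contra h1
    apply h
    obtain ⟨⟨p, w⟩, hp⟩ := IsLocalization.surj (pt z).primeCompl x
    have h2 : ev z x * eval z (w : MvPolynomial κ ℂ) = eval z p := by
      rw [← ev_algebraMap, ← ev_algebraMap, ← map_mul]
      exact congrArg (ev z) hp
    have h3 : p ∈ (pt z).primeCompl := by
      intro h4
      have h5 : eval z p = 0 := h4
      rw [h5] at h2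
      rcases mul_eq_zero.1 h2 with h6 | h6
      · exact h1 h6
      · exact w.2 h6
    have h4 : IsUnit (algebraMap (MvPolynomial κ ℂ) (LR z) p) :=
      IsLocalization.map_units (LR z) ⟨p, h3⟩
    rw [← hp] at h4
    exact isUnit_of_mul_isUnit_left h4
  · intro h h1
    have := h1.map (ev z)
    rw [h] at this
    exact not_isUnit_zero this

/-- the coordinates -/
noncomputable def Z (a : κ) : LR z := algebraMap (MvPolynomial κ ℂ) (LR z) (X a)

theorem ev_Z (a : κ) : ev z (Z z a) = z a := by
  unfold Z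
  rw [ev_algebraMap, eval_X]

theorem max_eq_of_mem {q : Ideal (LR z)} (hq : q.IsPrime)
    (h : ∀ a, Z z a - algebraMap ℂ (LR z) (z a) ∈ q) : q = maximalIdeal (LR z) := by
  refine le_antisymm (le_maximalIdeal hq.ne_top) ?_
  intro x hx
  rw [mem_max_iff] at hx
  obtain ⟨⟨p, w⟩, hp⟩ := IsLocalization.surj (pt z).primeCompl x
  have h1 : ∀ p : MvPolynomial κ ℂ, algebraMap _ (LR z) p - algebraMap ℂ (LR z) (eval z p) ∈ q := by
    intro p
    induction p using MvPolynomial.induction_on with
    | C c =>
      rw [eval_C, IsScalarTower.algebraMap_apply ℂ (MvPolynomial κ ℂ) (LR z)]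
      have : (algebraMap ℂ (MvPolynomial κ ℂ)) c = C c := rfl
      rw [this, sub_self]
      exact q.zero_mem
    | add p p' hp hp' =>
      rw [map_add, map_add, map_add, add_sub_add_comm]
      exact q.add_mem hp hp'
    | mul_X p a hp =>
      rw [map_mul, map_mul, eval_X, map_mul]
      have : algebraMap (MvPolynomial κ ℂ) (LR z) p *
            algebraMap (MvPolynomial κ ℂ) (LR z) (X a) -
          algebraMap ℂ (LR z) (eval z p) * algebraMap ℂ (LR z) (z a) =
          algebraMap (MvPolynomial κ ℂ) (LR z) (X a) *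
            (algebraMap (MvPolynomial κ ℂ) (LR z) p - algebraMap ℂ (LR z) (eval z p)) +
          algebraMap ℂ (LR z) (eval z p) * (Z z a - algebraMap ℂ (LR z) (z a)) := by
        unfold Z
        ring
      rw [this]
      exact q.add_mem (q.mul_mem_left _ hp) (q.mul_mem_left _ (h a))
  have h2 : eval z p = 0 := by
    rw [← ev_algebraMap, ← hp, map_mul]
    exact mul_eq_zero_of_left hx _
  have h3 := h1 p
  rw [h2, map_zero, sub_zero] at h3
  have h4 : IsUnit (algebraMap (MvPolynomial κ ℂ) (LR z) w) := IsLocalization.map_units (LR z) w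
  have h5 : x * algebraMap (MvPolynomial κ ℂ) (LR z) w ∈ q := by
    have : x * algebraMap (MvPolynomial κ ℂ) (LR z) w = algebraMap _ (LR z) p := hp
    rw [this]
    exact h3
  rcases hq.mem_or_mem h5 with h6 | h6
  · exact h6
  · exact absurd (q.eq_top_of_isUnit_mem h6 h4) hq.ne_top

/-- Maps satisfying the product rule are determined by the values at the coordinates. -/
theorem der_unique {S : Type} [CommRing S] (ρ : LR z →+* S) (E : LR z → S)
    (hadd : ∀ x y, E (x + y) = E x + E y) (hmul : ∀ x y, E (x * y) = ρ x * E y + ρ y * E x)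
    (hc : ∀ c : ℂ, E (algebraMap ℂ (LR z) c) = 0) (hZ : ∀ a, E (Z z a) = 0) (x : LR z) :
    E x = 0 := by
  have h1 : ∀ p : MvPolynomial κ ℂ, E (algebraMap _ (LR z) p) = 0 := by
    intro p
    induction p using MvPolynomial.induction_on with
    | C c =>
      have := hc c
      rwa [IsScalarTower.algebraMap_apply ℂ (MvPolynomial κ ℂ) (LR z)] at this
    | add p p' hp hp' => rw [map_add, hadd, hp, hp', add_zero]
    | mul_X p a hp =>
      have h2 : E (algebraMap _ (LR z) (X a : MvPolynomial κ ℂ)) = 0 := hZ a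
      rw [map_mul, hmul, hp, h2, mul_zero, mul_zero, add_zero]
  obtain ⟨⟨p, w⟩, hp⟩ := IsLocalization.surj (pt z).primeCompl x
  have h2 : E (x * algebraMap (MvPolynomial κ ℂ) (LR z) w) = 0 := by
    have : x * algebraMap (MvPolynomial κ ℂ) (LR z) w = algebraMap _ (LR z) p := hp
    rw [this]
    exact h1 p
  rw [hmul, h1, mul_zero, zero_add] at h2
  have h4 : IsUnit (ρ (algebraMap (MvPolynomial κ ℂ) (LR z) w)) :=
    (IsLocalization.map_units (LR z) w).map ρ
  exact (h4.mul_right_eq_zero).1 h2

/-- first order expansion on polynomials -/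
noncomputable def th0 (a : κ) : MvPolynomial κ ℂ →+* DualNumber (LR z) :=
  eval₂Hom ((algebraMap (LR z) (DualNumber (LR z))).comp (algebraMap ℂ (LR z)))
    (fun b => algebraMap (LR z) (DualNumber (LR z)) (Z z b) +
      TrivSqZeroExt.inr (if b = a then 1 else 0))

theorem fst_th0 (a : κ) (p : MvPolynomial κ ℂ) :
    TrivSqZeroExt.fst (th0 z a p) = algebraMap _ (LR z) p := by
  have : (TrivSqZeroExt.fstHom (LR z) (LR z) (LR z)).toRingHom.comp (th0 z a) =
      algebraMap (MvPolynomial κ ℂ) (LR z) := by
    refine MvPolynomial.ringHom_ext (fun c => ?_) fun b => ?_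
    · simp only [th0, RingHom.comp_apply, coe_eval₂Hom, eval₂_C]
      exact (IsScalarTower.algebraMap_apply ℂ (MvPolynomial κ ℂ) (LR z) c)
    · simp only [th0, RingHom.comp_apply, coe_eval₂Hom, eval₂_X]
      show TrivSqZeroExt.fst (TrivSqZeroExt.inl (Z z b) + TrivSqZeroExt.inr _) = _
      rw [TrivSqZeroExt.fst_add, TrivSqZeroExt.fst_inl, TrivSqZeroExt.fst_inr, add_zero]
      rfl
  exact RingHom.congr_fun this p

/-- first order expansion -/
noncomputable def th (a : κ) : LR z →+* DualNumber (LR z) :=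
  IsLocalization.lift (M := (pt z).primeCompl) (g := th0 z a) (by
    intro w
    rw [TrivSqZeroExt.isUnit_iff_isUnit_fst, fst_th0]
    exact IsLocalization.map_units (LR z) w)

theorem th_algebraMap (a : κ) (p : MvPolynomial κ ℂ) :
    th z a (algebraMap _ (LR z) p) = th0 z a p := IsLocalization.lift_eq _ _

theorem fst_th (a : κ) (x : LR z) : TrivSqZeroExt.fst (th z a x) = x := by
  have : (TrivSqZeroExt.fstHom (LR z) (LR z) (LR z)).toRingHom.comp (th z a) =
      RingHom.id (LR z) := by
    refine IsLocalization.ringHom_ext (pt z).primeCompl ?_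
    refine RingHom.ext fun p => ?_
    show TrivSqZeroExt.fst (th z a (algebraMap _ (LR z) p)) = algebraMap _ (LR z) p
    rw [th_algebraMap, fst_th0]
  exact RingHom.congr_fun this x

/-- the partial derivatives -/
noncomputable def dl (a : κ) (x : LR z) : LR z := TrivSqZeroExt.snd (th z a x)

theorem dl_add (a : κ) (x y : LR z) : dl z a (x + y) = dl z a x + dl z a y := by
  unfold dl
  rw [map_add, TrivSqZeroExt.snd_add]

theorem dl_mul (a : κ) (x y : LR z) : dl z a (x * y) = x * dl z a y + y * dl z a x := by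
  unfold dl
  rw [map_mul, TrivSqZeroExt.snd_mul, fst_th, fst_th]
  simp [mul_comm]

theorem dl_const (a : κ) (c : ℂ) : dl z a (algebraMap ℂ (LR z) c) = 0 := by
  unfold dl
  rw [IsScalarTower.algebraMap_apply ℂ (MvPolynomial κ ℂ) (LR z), th_algebraMap]
  have : (algebraMap ℂ (MvPolynomial κ ℂ)) c = C c := rfl
  rw [this]
  simp only [th0, coe_eval₂Hom, eval₂_C]
  rfl

theorem dl_Z (a b : κ) : dl z a (Z z b) = if b = a then 1 else 0 := by
  unfold dl Z
  rw [th_algebraMap]
  simp only [th0, coe_eval₂Hom, eval₂_X]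
  show TrivSqZeroExt.snd (TrivSqZeroExt.inl (Z z b) + TrivSqZeroExt.inr _) = _
  rw [TrivSqZeroExt.snd_add, TrivSqZeroExt.snd_inl, TrivSqZeroExt.snd_inr, zero_add]

/-- **Chain rule.** -/
theorem chain {S : Type} [CommRing S] (ρ : LR z →+* S) (E : LR z → S)
    (hadd : ∀ x y, E (x + y) = E x + E y) (hmul : ∀ x y, E (x * y) = ρ x * E y + ρ y * E x)
    (hc : ∀ c : ℂ, E (algebraMap ℂ (LR z) c) = 0) (x : LR z) :
    E x = ∑ a, ρ (dl z a x) * E (Z z a) := by
  have h := der_unique z ρ (fun x => E x - ∑ a, ρ (dl z a x) * E (Z z a)) ?_ ?_ ?_ ?_ x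
  · exact sub_eq_zero.1 h
  · intro x y
    simp only [hadd, dl_add, map_add, add_mul, Finset.sum_add_distrib]
    ring
  · intro x y
    simp only [hmul, dl_mul, map_add, map_mul, add_mul, Finset.sum_add_distrib, mul_sub,
      Finset.mul_sum]
    have e1 : ∑ a, ρ x * ρ (dl z a y) * E (Z z a) = ∑ a, ρ x * (ρ (dl z a y) * E (Z z a)) :=
      Finset.sum_congr rfl fun a _ => mul_assoc _ _ _
    have e2 : ∑ a, ρ y * ρ (dl z a x) * E (Z z a) = ∑ a, ρ y * (ρ (dl z a x) * E (Z z a)) :=
      Finset.sum_congr rfl fun a _ => mul_assoc _ _ _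
    rw [e1, e2]
    ring
  · intro c
    simp only [hc, dl_const, map_zero, zero_mul, Finset.sum_const_zero, sub_zero]
  · intro b
    simp only [dl_Z]
    rw [Finset.sum_eq_single b]
    · simp
    · intro a _ ha
      rw [if_neg (Ne.symm ha), map_zero, zero_mul]
    · intro h
      exact absurd (Finset.mem_univ b) h

end

end Pool.Agent.Helper16K9.Ver
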