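import Pool.Agent.Helper16K9.Ver.Ident
import Pool.Agent.Helper16K9.Ver.Path

set_option autoImplicit false
set_option linter.unusedSectionVars false
set_option linter.unusedVariables false

/-!
# The second derivatives along a path
-/

namespace Pool.Agent.Helper16K9.Ver

open IsLocalRing MvPolynomial Pool.Agent.Helper165.P1

section

variable {κ : Type} [Fintype κ] [DecidableEq κ] {z : κ → ℂ} {J : Type} (ρ : LR z →+* Pui ℂ)
  (D : J → ℂ →+ ℂ) {I : Type} [Fintype I]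

/-- symmetric product -/
noncomputable def sy (pq : (J → Pui ℂ) × (J → Pui ℂ)) : J → J → Pui ℂ := fun r r' =>
  pq.1 r * pq.2 r' + pq.1 r' * pq.2 r

theorem pr_eq_sy (f g : Pui ℂ) :
    pr D f g = sy (fun r => pD (D r) f, fun r => pD (D r) g) := rfl

/-- the derivatives of the two factors of the multiplications along a path -/
noncomputable def prl (φ : ℂ →+* LR z) (x : I → LR z) (w : ℕ → LR z) :
    ℕ → List (Ins I) → List ((J → Pui ℂ) × (J → Pui ℂ))
  | _, [] => []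
  | m, .mul u v :: l => (fun r => pD (D r) (ρ (u.ev φ x w m)),
      fun r => pD (D r) (ρ (v.ev φ x w m))) :: prl φ x w (m + 1) l
  | m, .div u v :: l => (fun r => pD (D r) (ρ (w m)),
      fun r => pD (D r) (ρ (v.ev φ x w m))) :: prl φ x w (m + 1) l
  | m, .guess :: l => prl φ x w (m + 1) l
  | m, .eq u :: l => prl φ x w m l
  | m, .ne u :: l => prl φ x w m l

theorem length_prl (φ : ℂ →+* LR z) (x : I → LR z) (w : ℕ → LR z) : ∀ (m : ℕ) (π : List (Ins I)),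
    (prl ρ D φ x w m π).length = cost π
  | _, [] => rfl
  | m, .mul u v :: l => by
    rw [prl, cost, List.length_cons, length_prl φ x w (m + 1) l]
  | m, .div u v :: l => by
    rw [prl, cost, List.length_cons, length_prl φ x w (m + 1) l]
  | m, .guess :: l => length_prl φ x w (m + 1) l
  | m, .eq u :: l => length_prl φ x w m l
  | m, .ne u :: l => length_prl φ x w m l

variable (𝒮 : Submodule (Pui ℂ) (J → J → Pui ℂ))

theorem QQ_ev (hD : ∀ r a b, D r (a * b) = a * D r b + b * D r a)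
    (hρ : ∀ c : ℂ, ρ (algebraMap ℂ (LR z) c) = cP c) {k : Subfield ℂ}
    (hk : ∀ r, ∀ c ∈ k, D r c = 0) {X : I → LR z} {W : ℕ → LR z} (hX : ∀ i, QQ ρ D (X i) ∈ 𝒮)
    {m : ℕ} (hW : ∀ j < m, QQ ρ D (W j) ∈ 𝒮) {u : Lin I} (hu : u.In k) :
    QQ ρ D (u.ev (algebraMap ℂ (LR z)) X W m) ∈ 𝒮 := by
  unfold Lin.ev
  rw [QQ_add, QQ_add, QQ_sum, QQ_sum, QQ_const ρ D hρ (fun r r' => by
    rw [hk r' _ hu.1, map_zero]), zero_add]
  refine add_mem (Submodule.sum_mem _ fun i _ => ?_) (Submodule.sum_mem _ fun j hj => ?_)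
  · rw [QQ_const_mul ρ D hD hρ (fun r => hk r _ (hu.2.1 i))]
    exact Submodule.smul_mem _ _ (hX i)
  · rw [QQ_const_mul ρ D hD hρ (fun r => hk r _ (hu.2.2 j))]
    exact Submodule.smul_mem _ _ (hW j (Finset.mem_range.1 hj))

theorem span_path (hD : ∀ r a b, D r (a * b) = a * D r b + b * D r a)
    (hρ : ∀ c : ℂ, ρ (algebraMap ℂ (LR z) c) = cP c) {k : Subfield ℂ}
    (hk : ∀ r, ∀ c ∈ k, D r c = 0) {X : I → LR z} {G W : ℕ → LR z}
    (hX : ∀ i, QQ ρ D (X i) ∈ 𝒮) (hG : ∀ j, QQ ρ D (G j) ∈ 𝒮) {E : LR z → Prop} :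
    ∀ (m : ℕ) (π : List (Ins I)), PIn k π → Sat (algebraMap ℂ (LR z)) E X G W m π →
    (∀ j < m, QQ ρ D (W j) ∈ 𝒮) → (∀ pq ∈ prl ρ D (algebraMap ℂ (LR z)) X W m π, sy pq ∈ 𝒮) →
    ∀ y ∈ eqs (algebraMap ℂ (LR z)) X W m π, QQ ρ D y ∈ 𝒮
  | _, [], _, _, _, _, y, hy => by simp [eqs] at hy
  | m, .mul u v :: l, hk1, hs, hW, hp, y, hy => by
    refine span_path hD hρ hk hX hG (m + 1) l hk1.2.2 hs.2 (fun j hj => ?_) (fun pq hpq =>
      hp pq (List.mem_cons_of_mem _ hpq)) y hy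
    rcases Nat.lt_succ_iff_lt_or_eq.1 hj with h1 | h1
    · exact hW j h1
    · subst h1
      have h4 : sy (fun r => pD (D r) (ρ (u.ev (algebraMap ℂ (LR z)) X W j)),
          fun r => pD (D r) (ρ (v.ev (algebraMap ℂ (LR z)) X W j))) ∈ 𝒮 :=
        hp _ List.mem_cons_self
      rw [hs.1, QQ_mul ρ D hD, pr_eq_sy]
      refine add_mem (add_mem (Submodule.smul_mem _ _ ?_) (Submodule.smul_mem _ _ ?_)) ?_
      · exact QQ_ev ρ D 𝒮 hD hρ hk hX hW hk1.2.1
      · exact QQ_ev ρ D 𝒮 hD hρ hk hX hW hk1.1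
      · exact h4
  | m, .div u v :: l, hk1, hs, hW, hp, y, hy => by
    refine span_path hD hρ hk hX hG (m + 1) l hk1.2.2 hs.2.2 (fun j hj => ?_) (fun pq hpq =>
      hp pq (List.mem_cons_of_mem _ hpq)) y hy
    rcases Nat.lt_succ_iff_lt_or_eq.1 hj with h1 | h1
    · exact hW j h1
    · subst h1
      have h2 := congrArg (QQ ρ D) hs.2.1
      rw [QQ_mul ρ D hD, pr_eq_sy] at h2
      have h3 := QQ_ev ρ D 𝒮 hD hρ hk hX hW hk1.1
      rw [← h2] at h3
      have h4 : sy (fun r => pD (D r) (ρ (W j)),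
          fun r => pD (D r) (ρ (v.ev (algebraMap ℂ (LR z)) X W j))) ∈ 𝒮 :=
        hp _ List.mem_cons_self
      have h5 := (Submodule.add_mem_iff_left 𝒮 h4).1 h3
      have h6 := (Submodule.add_mem_iff_right 𝒮 (Submodule.smul_mem _ (ρ (W j))
        (QQ_ev ρ D 𝒮 hD hρ hk hX hW hk1.2.1))).1 h5
      have h7 : ρ (v.ev (algebraMap ℂ (LR z)) X W j) ≠ 0 := (hs.1.map ρ).ne_zero
      have h8 := Submodule.smul_mem 𝒮 (ρ (v.ev (algebraMap ℂ (LR z)) X W j))⁻¹ h6
      rwa [smul_smul, inv_mul_cancel₀ h7, one_smul] at h8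
  | m, .guess :: l, hk1, hs, hW, hp, y, hy => by
    refine span_path hD hρ hk hX hG (m + 1) l hk1 hs.2 (fun j hj => ?_) hp y hy
    rcases Nat.lt_succ_iff_lt_or_eq.1 hj with h1 | h1
    · exact hW j h1
    · subst h1
      rw [hs.1]
      exact hG j
  | m, .eq u :: l, hk1, hs, hW, hp, y, hy => by
    rcases List.mem_cons.1 hy with h1 | h1
    · rw [h1]
      exact QQ_ev ρ D 𝒮 hD hρ hk hX hW hk1.1
    · exact span_path hD hρ hk hX hG m l hk1.2 hs.2 hW hp y h1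
  | m, .ne u :: l, hk1, hs, hW, hp, y, hy =>
    span_path hD hρ hk hX hG m l hk1.2 hs.2 hW hp y hy

end

end Pool.Agent.Helper16K9.Ver
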