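import Pool.Agent.Helper16K9.Ver.Bounds

set_option autoImplicit false
set_option linter.unusedSectionVars false
set_option linter.unusedVariables false

/-!
# Substitution of affine combinations for the inputs
-/

namespace Pool.Agent.Helper16K9.Ver

open Finset

section

variable {I I' : Type} [Fintype I] [Fintype I']

/-- substitution of affine combinations of the inputs and of the first `m₀` numbers -/
noncomputable def Lin.sub (a : I' → Lin I) (m₀ : ℕ) (l : Lin I') : Lin I where
  const := l.const + ∑ i', l.inp i' * (a i').const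
  inp i := ∑ i', l.inp i' * (a i').inp i
  prev j := if j < m₀ then ∑ i', l.inp i' * (a i').prev j else l.prev (j - m₀)

theorem Lin.sub_val (a : I' → Lin I) (m₀ : ℕ) (l : Lin I') (x : I → ℂ) (w : ℕ → ℂ) (m : ℕ) :
    (l.sub a m₀).val x w (m₀ + m) =
      l.val (fun i' => (a i').val x w m₀) (fun j => w (m₀ + j)) m := by
  unfold Lin.val
  rw [sum_range_add]
  have h1 : ∑ j ∈ range m₀, (l.sub a m₀).prev j * w j =
      ∑ i', l.inp i' * ∑ j ∈ range m₀, (a i').prev j * w j := by
    simp only [mul_sum]
    rw [sum_comm]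
    refine sum_congr rfl fun j hj => ?_
    have : (l.sub a m₀).prev j = ∑ i', l.inp i' * (a i').prev j := by
      simp only [Lin.sub]
      rw [if_pos (mem_range.1 hj)]
    rw [this, sum_mul]
    exact sum_congr rfl fun i _ => by ring
  have h2 : ∑ j ∈ range m, (l.sub a m₀).prev (m₀ + j) * w (m₀ + j) =
      ∑ j ∈ range m, l.prev j * w (m₀ + j) := by
    refine sum_congr rfl fun j _ => ?_
    simp only [Lin.sub]
    rw [if_neg (by omega), Nat.add_sub_cancel_left]
  have h3 : ∑ i, (l.sub a m₀).inp i * x i = ∑ i', l.inp i' * ∑ i, (a i').inp i * x i := by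
    simp only [Lin.sub, sum_mul, mul_sum]
    rw [sum_comm]
    exact sum_congr rfl fun i _ => sum_congr rfl fun j _ => by ring
  rw [h1, h2, h3]
  simp only [Lin.sub, mul_add, sum_add_distrib]
  ring

/-- substitution -/
noncomputable def Tree.sub (a : I' → Lin I) (m₀ : ℕ) : Tree I' → Tree I
  | .accept => .accept
  | .reject => .reject
  | .mul u v t => .mul (u.sub a m₀) (v.sub a m₀) (t.sub a m₀)
  | .div u v t => .div (u.sub a m₀) (v.sub a m₀) (t.sub a m₀)
  | .guess t => .guess (t.sub a m₀)
  | .test u s t => .test (u.sub a m₀) (s.sub a m₀) (t.sub a m₀)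

theorem update_shift (w : ℕ → ℂ) (m₀ m : ℕ) (y : ℂ) :
    (fun j => Function.update w (m₀ + m) y (m₀ + j)) =
      Function.update (fun j => w (m₀ + j)) m y := by
  funext j
  by_cases h : j = m
  · subst h
    rw [Function.update_self, Function.update_self]
  · rw [Function.update_of_ne h, Function.update_of_ne (by omega)]

theorem accepts_sub (a : I' → Lin I) (m₀ : ℕ) (x : I → ℂ) (x' : I' → ℂ) :
    ∀ (t : Tree I') (m : ℕ) (w : ℕ → ℂ) (L : ℕ), (∀ i', (a i').val x w m₀ = x' i') →
      (Accepts x (t.sub a m₀) (m₀ + m) w L ↔ Accepts x' t m (fun j => w (m₀ + j)) L)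
  | .accept, m, w, L, hx => Iff.rfl
  | .reject, m, w, L, hx => Iff.rfl
  | .mul u v t, m, w, L, hx => by
    have hv : ∀ u : Lin I', (u.sub a m₀).val x w (m₀ + m) = u.val x' (fun j => w (m₀ + j)) m := by
      intro u
      rw [Lin.sub_val]
      congr 1
      funext i'
      exact hx i'
    simp only [Tree.sub, Accepts, hv]
    refine exists_congr fun L' => and_congr_right fun _ => ?_
    rw [← update_shift, add_assoc]
    refine accepts_sub a m₀ x x' t (m + 1) _ L' fun i' => ?_
    rw [← hx i']
    exact Lin.val_congr _ _ fun j hj => Function.update_of_ne (by omega) _ _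
  | .div u v t, m, w, L, hx => by
    have hv : ∀ u : Lin I', (u.sub a m₀).val x w (m₀ + m) = u.val x' (fun j => w (m₀ + j)) m := by
      intro u
      rw [Lin.sub_val]
      congr 1
      funext i'
      exact hx i'
    simp only [Tree.sub, Accepts, hv]
    refine and_congr_right fun _ => exists_congr fun L' => and_congr_right fun _ => ?_
    rw [← update_shift, add_assoc]
    refine accepts_sub a m₀ x x' t (m + 1) _ L' fun i' => ?_
    rw [← hx i']
    exact Lin.val_congr _ _ fun j hj => Function.update_of_ne (by omega) _ _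
  | .guess t, m, w, L, hx => by
    simp only [Tree.sub, Accepts]
    refine exists_congr fun y => ?_
    rw [← update_shift, add_assoc]
    refine accepts_sub a m₀ x x' t (m + 1) _ L fun i' => ?_
    rw [← hx i']
    exact Lin.val_congr _ _ fun j hj => Function.update_of_ne (by omega) _ _
  | .test u s t, m, w, L, hx => by
    have hv : (u.sub a m₀).val x w (m₀ + m) = u.val x' (fun j => w (m₀ + j)) m := by
      rw [Lin.sub_val]
      congr 1
      funext i'
      exact hx i'
    simp only [Tree.sub, Accepts, hv]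
    exact or_congr (and_congr_right fun _ => accepts_sub a m₀ x x' s m w L hx)
      (and_congr_right fun _ => accepts_sub a m₀ x x' t m w L hx)

/-- the tree which guesses `k` numbers first -/
def guessN : ℕ → Tree I → Tree I
  | 0, t => t
  | k + 1, t => .guess (guessN k t)

theorem accepts_guessN (x : I → ℂ) (t : Tree I) (L : ℕ) : ∀ (k m : ℕ) (w : ℕ → ℂ),
    Accepts x (guessN k t) m w L ↔ ∃ w' : ℕ → ℂ, (∀ j < m, w' j = w j) ∧
      Accepts x t (m + k) w' L
  | 0, m, w => by
    constructor
    · intro h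
      exact ⟨w, fun _ _ => rfl, h⟩
    · rintro ⟨w', h1, h2⟩
      exact Accepts.congr h1 h2
  | k + 1, m, w => by
    simp only [guessN, Accepts]
    constructor
    · rintro ⟨y, h⟩
      obtain ⟨w', h1, h2⟩ := (accepts_guessN x t L k (m + 1) _).1 h
      refine ⟨w', fun j hj => ?_, ?_⟩
      · rw [h1 j (by omega), Function.update_of_ne (by omega)]
      · have : m + (k + 1) = m + 1 + k := by ring
        rw [this]
        exact h2
    · rintro ⟨w', h1, h2⟩
      refine ⟨w' m, (accepts_guessN x t L k (m + 1) _).2 ⟨w', fun j hj => ?_, ?_⟩⟩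
      · by_cases hjm : j = m
        · rw [hjm, Function.update_self]
        · rw [Function.update_of_ne hjm]
          exact h1 j (by omega)
      · have : m + (k + 1) = m + 1 + k := by ring
        rw [this] at h2
        exact h2

/-! ### Reductions -/

/-- affine functions of the input -/
def IsAff (f : (I → ℂ) → ℂ) : Prop :=
  ∃ l : Lin I, ∀ (x : I → ℂ) (w : ℕ → ℂ) (m : ℕ), l.val x w m = f x

theorem isAff_const (c : ℂ) : IsAff (fun _ : I → ℂ => c) :=
  ⟨⟨c, fun _ => 0, fun _ => 0⟩, fun x w m => by simp [Lin.val]⟩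

theorem isAff_var (i : I) : IsAff (fun x : I → ℂ => x i) := by
  classical
  exact ⟨⟨0, fun j => if j = i then 1 else 0, fun _ => 0⟩, fun x w m => by simp [Lin.val]⟩

theorem IsAff.neg {f : (I → ℂ) → ℂ} (h : IsAff f) : IsAff (fun x => -f x) := by
  obtain ⟨l, hl⟩ := h
  refine ⟨⟨-l.const, fun i => -l.inp i, fun j => -l.prev j⟩, fun x w m => ?_⟩
  change _ = -f x
  rw [← hl x w m]
  simp only [Lin.val, neg_mul, sum_neg_distrib]
  ring

theorem IsAff.add {f g : (I → ℂ) → ℂ} (h : IsAff f) (h' : IsAff g) :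
    IsAff (fun x => f x + g x) := by
  obtain ⟨l, hl⟩ := h
  obtain ⟨l', hl'⟩ := h'
  refine ⟨⟨l.const + l'.const, fun i => l.inp i + l'.inp i, fun j => l.prev j + l'.prev j⟩,
    fun x w m => ?_⟩
  change _ = f x + g x
  rw [← hl x w m, ← hl' x w m]
  simp only [Lin.val, add_mul, sum_add_distrib]
  ring

theorem IsAff.sub {f g : (I → ℂ) → ℂ} (h : IsAff f) (h' : IsAff g) :
    IsAff (fun x => f x - g x) := by
  have := h.add h'.neg
  simpa only [sub_eq_add_neg] using this

theorem Decides.pull {S : Set (I → ℂ)} {S' : Set (I' → ℂ)} {t : Tree I'} {L : ℕ}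
    (h : Decides S' t L) (F : (I → ℂ) → I' → ℂ) (hF : ∀ i', IsAff fun x => F x i')
    (hS : ∀ x, x ∈ S ↔ F x ∈ S') : ∃ t' : Tree I, Decides S t' L := by
  choose a ha using hF
  have key : ∀ (x : I → ℂ) (L : ℕ), Accepts x (t.sub a 0) 0 0 L ↔ Accepts (F x) t 0 0 L := by
    intro x L
    have := accepts_sub a 0 x (F x) t 0 0 L (fun i' => ha i' x _ _)
    simp only [Nat.zero_add] at this
    exact this
  refine ⟨t.sub a 0, fun x hx => (key x L).2 (h.1 _ ((hS x).1 hx)), fun x L' hx => ?_⟩
  exact (hS x).2 (h.2 _ L' ((key x L').1 hx))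

theorem ncost_le {S : Set (I → ℂ)} {t : Tree I} {L : ℕ} (h : Decides S t L) : ncost S ≤ L :=
  Nat.sInf_le ⟨t, h⟩

theorem exists_decides {S : Set (I → ℂ)} (h : ∃ (t : Tree I) (L : ℕ), Decides S t L) :
    ∃ t : Tree I, Decides S t (ncost S) := by
  obtain ⟨t, L, h⟩ := h
  exact Nat.sInf_mem (s := {L | ∃ t : Tree I, Decides S t L}) ⟨L, t, h⟩

end

end Pool.Agent.Helper16K9.Ver
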