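import Mathlib

set_option autoImplicit false
set_option linter.unusedSectionVars false
set_option linter.unusedVariables false

/-!
# Triangular form of a complex matrix
-/

namespace Pool.Agent.Helper16K9.Ver

open Finset Matrix

/-- the block sum with `1` in the corner -/
def cornerSum {n : ℕ} (c : ℂ) (b : Fin n → ℂ) (X : Matrix (Fin n) (Fin n) ℂ) :
    Matrix (Fin (n + 1)) (Fin (n + 1)) ℂ :=
  Matrix.of (Fin.cons (Fin.cons c b) fun i => Fin.cons 0 (X i))

theorem cornerSum_mul {n : ℕ} (c d : ℂ) (b b' : Fin n → ℂ) (X Y : Matrix (Fin n) (Fin n) ℂ) :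
    cornerSum c b X * cornerSum d b' Y = cornerSum (c * d) (fun j => c * b' j + (b ᵥ* Y) j)
      (X * Y) := by
  ext i j
  rw [Matrix.mul_apply, Fin.sum_univ_succ]
  refine Fin.cases ?_ (fun i => ?_) i <;> refine Fin.cases ?_ (fun j => ?_) j <;>
    simp [cornerSum, Matrix.mul_apply, Matrix.vecMul, dotProduct]

theorem cornerSum_one {n : ℕ} : cornerSum 1 0 (1 : Matrix (Fin n) (Fin n) ℂ) = 1 := by
  ext i j
  refine Fin.cases ?_ (fun i => ?_) i <;> refine Fin.cases ?_ (fun j => ?_) j <;>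
    simp [cornerSum, Matrix.one_apply, Fin.succ_ne_zero, (Fin.succ_ne_zero _).symm]

theorem exists_col {n : ℕ} (v : Fin (n + 1) → ℂ) (hv : v ≠ 0) :
    ∃ P : Matrix (Fin (n + 1)) (Fin (n + 1)) ℂ, IsUnit P.det ∧ P *ᵥ Pi.single 0 1 = v := by
  obtain ⟨i₀, hi₀⟩ : ∃ i, v i ≠ 0 := by
    by_contra h
    push Not at h
    exact hv (funext h)
  let σ : Equiv.Perm (Fin (n + 1)) := Equiv.swap 0 i₀
  let P₀ : Matrix (Fin (n + 1)) (Fin (n + 1)) ℂ := (1 : Matrix _ _ ℂ).updateCol 0 (v ∘ σ)
  have hd : P₀.det = v i₀ := by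
    have h1 : P₀.det = Matrix.cramer (1 : Matrix (Fin (n + 1)) (Fin (n + 1)) ℂ) (v ∘ σ) 0 :=
      (Matrix.cramer_apply _ _ _).symm
    rw [h1, Matrix.cramer_one]
    simp [σ]
  refine ⟨P₀.submatrix σ id, ?_, ?_⟩
  · rw [Matrix.det_permute, hd, isUnit_iff_ne_zero]
    refine mul_ne_zero ?_ hi₀
    rcases Int.units_eq_one_or (Equiv.Perm.sign σ) with h | h <;> rw [h] <;> simp
  · ext i
    rw [Matrix.mulVec_single_one]
    simp [P₀, σ, Matrix.col, Matrix.submatrix_apply]

theorem exists_triangular : ∀ (N : ℕ) (A : Matrix (Fin N) (Fin N) ℂ),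
    ∃ X Y T : Matrix (Fin N) (Fin N) ℂ, X * Y = 1 ∧ A = X * T * Y ∧ (∀ i j, j < i → T i j = 0)
  | 0, A => ⟨1, 1, A, by simp, by simp, fun i => i.elim0⟩
  | n + 1, A => by
    obtain ⟨μ, hμ⟩ := Module.End.exists_eigenvalue (Matrix.toLin' A)
    obtain ⟨v, hv⟩ := hμ.exists_hasEigenvector
    have hAv : A *ᵥ v = μ • v := by
      have := hv.apply_eq_smul
      rwa [Matrix.toLin'_apply] at this
    obtain ⟨P, hP, hPv⟩ := exists_col v hv.2
    let B := P⁻¹ * A * P
    have hB : B *ᵥ Pi.single 0 1 = μ • Pi.single 0 1 := by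
      have h1 : P⁻¹ *ᵥ v = Pi.single 0 1 := by
        rw [← hPv, Matrix.mulVec_mulVec, Matrix.nonsing_inv_mul _ hP, Matrix.one_mulVec]
      simp only [B]
      rw [← Matrix.mulVec_mulVec, hPv, ← Matrix.mulVec_mulVec, hAv, Matrix.mulVec_smul, h1]
    have hB0 : ∀ i : Fin n, B i.succ 0 = 0 := by
      intro i
      have := congrFun hB i.succ
      rw [Matrix.mulVec_single_one] at this
      simpa [Matrix.col] using this
    obtain ⟨X, Y, T, hXY, hA, hT⟩ := exists_triangular n (B.submatrix Fin.succ Fin.succ)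
    have hB' : B = cornerSum (B 0 0) (fun j => B 0 j.succ) (B.submatrix Fin.succ Fin.succ) := by
      ext i j
      refine Fin.cases ?_ (fun i => ?_) i <;> refine Fin.cases ?_ (fun j => ?_) j <;>
        simp [cornerSum, hB0]
    refine ⟨P * cornerSum 1 0 X, cornerSum 1 0 Y * P⁻¹,
      cornerSum (B 0 0) ((fun j => B 0 j.succ) ᵥ* X) T, ?_, ?_, ?_⟩
    · calc P * cornerSum 1 0 X * (cornerSum 1 0 Y * P⁻¹) =
          P * (cornerSum 1 0 X * cornerSum 1 0 Y) * P⁻¹ := by simp only [Matrix.mul_assoc]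
        _ = 1 := by
          rw [cornerSum_mul, hXY]
          have : (fun j : Fin n => (1 : ℂ) * (0 : Fin n → ℂ) j + ((0 : Fin n → ℂ) ᵥ* Y) j) = 0 := by
            funext j
            simp
          rw [this, one_mul, cornerSum_one, Matrix.mul_one, Matrix.mul_nonsing_inv _ hP]
    · have h1 : cornerSum 1 0 X * cornerSum (B 0 0) ((fun j => B 0 j.succ) ᵥ* X) T *
          cornerSum 1 0 Y = B := by
        rw [cornerSum_mul, cornerSum_mul]
        conv_rhs => rw [hB', hA]
        congr 1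
        · ring
        · funext j
          have h2 : (fun j => (1 : ℂ) * ((fun j => B 0 j.succ) ᵥ* X) j +
              ((0 : Fin n → ℂ) ᵥ* T) j) = (fun j => B 0 j.succ) ᵥ* X := by
            funext j
            simp
          rw [h2, Matrix.vecMul_vecMul, hXY, Matrix.vecMul_one]
          simp
      calc A = P * B * P⁻¹ := by
            simp only [B]
            rw [← Matrix.mul_assoc, ← Matrix.mul_assoc, Matrix.mul_nonsing_inv _ hP,
              Matrix.one_mul, Matrix.mul_assoc, Matrix.mul_nonsing_inv _ hP, Matrix.mul_one]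
        _ = P * (cornerSum 1 0 X * cornerSum (B 0 0) ((fun j => B 0 j.succ) ᵥ* X) T *
          cornerSum 1 0 Y) * P⁻¹ := by rw [h1]
        _ = _ := by simp only [Matrix.mul_assoc]
    · intro i j
      refine Fin.cases ?_ (fun i => ?_) i <;> refine Fin.cases ?_ (fun j => ?_) j
      · intro h
        exact absurd h (lt_irrefl _)
      · intro h
        exact absurd h (by simp)
      · intro _
        simp [cornerSum]
      · intro h
        simp only [cornerSum, Matrix.of_apply, Fin.cons_succ]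
        exact hT i j (Fin.succ_lt_succ_iff.1 h)

end Pool.Agent.Helper16K9.Ver
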