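import Pool.Agent.Helper16K9.Ver.Comb
import Pool.Agent.Helper16K9.Ver.Tri

set_option autoImplicit false
set_option linter.unusedSectionVars false
set_option linter.unusedVariables false

/-!
# The upper bounds for the determinant
-/

namespace Pool.Agent.Helper16K9.Ver

open Finset Matrix Pool.Agent.W956.KF

theorem up_eq {I : Type} [Fintype I] {N : ℕ} (A B C : (I → ℂ) → Matrix (Fin N) (Fin N) ℂ)
    (hA : ∀ i j, IsAff fun x => A x i j) (hB : ∀ i j, IsAff fun x => B x i j)
    (hC : ∀ i j, IsAff fun x => C x i j) :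
    ∃ t, Decides {x | A x * B x = C x} t (trank ℂ N N N) := by
  obtain ⟨t, h⟩ := up_product N
  refine h.pull (fun x => Sum.elim (Sum.elim (fun p => A x p.1 p.2) (fun p => B x p.1 p.2))
    fun p => C x p.1 p.2) ?_ fun x => Iff.rfl
  rintro ((i | i) | i)
  · exact hA _ _
  · exact hB _ _
  · exact hC _ _

/-- partial products -/
def pprod {N : ℕ} (T : Matrix (Fin N) (Fin N) ℂ) (k : ℕ) : ℂ :=
  ∏ j : Fin N, if j.1 < k then T j j else 1

theorem pprod_zero {N : ℕ} (T : Matrix (Fin N) (Fin N) ℂ) : pprod T 0 = 1 := by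
  simp [pprod]

theorem pprod_last {N : ℕ} (T : Matrix (Fin N) (Fin N) ℂ) : pprod T N = ∏ j, T j j := by
  unfold pprod
  exact prod_congr rfl fun j _ => if_pos j.2

theorem pprod_succ {N : ℕ} (T : Matrix (Fin N) (Fin N) ℂ) (k : Fin N) :
    pprod T (k.1 + 1) = T k k * pprod T k.1 := by
  unfold pprod
  have h : ∀ j : Fin N, (if j.1 < k.1 + 1 then T j j else 1) =
      (if j = k then T j j else 1) * (if j.1 < k.1 then T j j else 1) := by
    intro j
    by_cases h1 : j = k
    · subst h1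
      simp
    · rw [if_neg h1, one_mul]
      have h2 : j.1 ≠ k.1 := fun h => h1 (Fin.ext h)
      exact if_congr (by omega) rfl rfl
  simp only [h]
  rw [prod_mul_distrib]
  congr 1
  simp

section

variable {N : ℕ}

/-- the guesses -/
abbrev KD (N : ℕ) : Type := (Fin 4 × (Fin N × Fin N)) ⊕ Fin (N + 1)

/-- the guessed matrices -/
def GM (a : Fin 4) (z : ((Fin N × Fin N) ⊕ Unit) ⊕ KD N → ℂ) : Matrix (Fin N) (Fin N) ℂ :=
  Matrix.of fun i j => z (.inr (.inl (a, (i, j))))

theorem aff_GM (a : Fin 4) (i j : Fin N) :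
    IsAff fun z : ((Fin N × Fin N) ⊕ Unit) ⊕ KD N → ℂ => GM a z i j := isAff_var _

/-- the matrix of the input -/
def AM (z : ((Fin N × Fin N) ⊕ Unit) ⊕ KD N → ℂ) : Matrix (Fin N) (Fin N) ℂ :=
  Matrix.of fun i j => z (.inl (.inl (i, j)))

theorem aff_AM (i j : Fin N) :
    IsAff fun z : ((Fin N × Fin N) ⊕ Unit) ⊕ KD N → ℂ => AM z i j := isAff_var _

theorem det_of_cert {z : ((Fin N × Fin N) ⊕ Unit) ⊕ KD N → ℂ} (h1 : GM 0 z * GM 1 z = 1)
    (h2 : GM 0 z * GM 2 z = GM 3 z) (h3 : GM 3 z * GM 1 z = AM z)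
    (h4 : ∀ i j, j < i → GM 2 z i j = 0) (h5 : z (.inr (.inr 0)) = 1)
    (h6 : ∀ i : Fin N, GM 2 z i i * z (.inr (.inr i.castSucc)) = z (.inr (.inr i.succ))) :
    (AM z).det = z (.inr (.inr (Fin.last N))) := by
  have h7 : ∀ i : Fin (N + 1), z (.inr (.inr i)) = pprod (GM 2 z) i.1 := by
    intro i
    induction i using Fin.induction with
    | zero => rw [h5]; exact (pprod_zero _).symm
    | succ i ih =>
      rw [← h6 i, ih, Fin.val_castSucc, Fin.val_succ, pprod_succ]
  rw [h7, Fin.val_last, pprod_last, ← Matrix.det_of_upperTriangular (M := GM 2 z)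
    (fun i j hij => h4 i j hij), ← h3, ← h2, Matrix.det_mul, Matrix.det_mul]
  have h8 := congrArg Matrix.det h1
  rw [Matrix.det_mul, Matrix.det_one] at h8
  linear_combination (GM 2 z).det * h8

theorem up_det (N : ℕ) : ∃ t, Decides (detSet N) t (3 * trank ℂ N N N + N) := by
  obtain ⟨t1, h1⟩ := up_eq (I := ((Fin N × Fin N) ⊕ Unit) ⊕ KD N) (GM 0) (GM 1) (fun _ => 1)
    (aff_GM 0) (aff_GM 1) (fun i j => isAff_const _)
  obtain ⟨t2, h2⟩ := up_eq (I := ((Fin N × Fin N) ⊕ Unit) ⊕ KD N) (GM 0) (GM 2) (GM 3)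
    (aff_GM 0) (aff_GM 2) (aff_GM 3)
  obtain ⟨t3, h3⟩ := up_eq (I := ((Fin N × Fin N) ⊕ Unit) ⊕ KD N) (GM 3) (GM 1) AM
    (aff_GM 3) (aff_GM 1) aff_AM
  obtain ⟨t4, h4⟩ := decides_lin (I := ((Fin N × Fin N) ⊕ Unit) ⊕ KD N)
    (K := (Fin N × Fin N) ⊕ Bool)
    (fun k z => match k with
      | .inl p => if p.2 < p.1 then GM 2 z p.1 p.2 else 0
      | .inr false => z (.inr (.inr 0)) - 1
      | .inr true => z (.inr (.inr (Fin.last N))) - z (.inl (.inr ()))) (by
      rintro (p | b)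
      · by_cases hp : p.2 < p.1
        · simp only [if_pos hp]
          exact aff_GM 2 _ _
        · simp only [if_neg hp]
          exact isAff_const _
      · cases b
        · exact (isAff_var _).sub (isAff_const _)
        · exact (isAff_var _).sub (isAff_var _))
  obtain ⟨t5, h5⟩ := decides_quad (I := ((Fin N × Fin N) ⊕ Unit) ⊕ KD N) (K := Fin N)
    (fun i z => GM 2 z i i) (fun i z => z (.inr (.inr i.castSucc)))
    (fun i z => z (.inr (.inr i.succ))) (fun i => aff_GM 2 i i) (fun i => isAff_var _)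
    (fun i => isAff_var _)
  obtain ⟨s1, k1⟩ := h1.inter h2
  obtain ⟨s2, k2⟩ := k1.inter h3
  obtain ⟨s3, k3⟩ := k2.inter h4
  obtain ⟨s4, k4⟩ := k3.inter h5
  obtain ⟨s5, k5⟩ := k4.proj
  refine ⟨s5, ?_⟩
  rw [Fintype.card_fin] at k5
  have hL : trank ℂ N N N + trank ℂ N N N + trank ℂ N N N + 0 + N = 3 * trank ℂ N N N + N := by ring
  rw [hL] at k5
  convert k5 using 1
  ext x
  simp only [Set.mem_inter_iff, Set.mem_setOf_eq]
  constructor
  · intro hx
    obtain ⟨X, Y, T, hXY, hA, hT⟩ := exists_triangular N (mat fun p => x (.inl p))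
    refine ⟨Sum.elim (fun q => (![X, Y, T, X * T] q.1) q.2.1 q.2.2) (fun i => pprod T i.1), ?_⟩
    have e0 : GM 0 (Sum.elim x (Sum.elim (fun q : Fin 4 × (Fin N × Fin N) =>
      (![X, Y, T, X * T] q.1) q.2.1 q.2.2) (fun i : Fin (N + 1) => pprod T i.1))) = X := rfl
    have e1 : GM 1 (Sum.elim x (Sum.elim (fun q : Fin 4 × (Fin N × Fin N) =>
      (![X, Y, T, X * T] q.1) q.2.1 q.2.2) (fun i : Fin (N + 1) => pprod T i.1))) = Y := rfl
    have e2 : GM 2 (Sum.elim x (Sum.elim (fun q : Fin 4 × (Fin N × Fin N) =>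
      (![X, Y, T, X * T] q.1) q.2.1 q.2.2) (fun i : Fin (N + 1) => pprod T i.1))) = T := rfl
    have e3 : GM 3 (Sum.elim x (Sum.elim (fun q : Fin 4 × (Fin N × Fin N) =>
      (![X, Y, T, X * T] q.1) q.2.1 q.2.2) (fun i : Fin (N + 1) => pprod T i.1))) = X * T := rfl
    rw [e0, e1, e2, e3]
    refine ⟨⟨⟨⟨hXY, rfl⟩, hA.symm⟩, ?_⟩, ?_⟩
    · rintro (p | b)
      · by_cases hp : p.2 < p.1
        · simp only [if_pos hp, e2]
          exact hT _ _ hp
        · simp only [if_neg hp]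
      · cases b
        · simp only [Sum.elim_inr, Fin.val_zero, pprod_zero, sub_self]
        · simp only [Sum.elim_inr, Sum.elim_inl, Fin.val_last, pprod_last]
          have hx' : (mat fun p => x (.inl p)).det = x (.inr ()) := hx
          rw [← hx', hA, Matrix.det_mul, Matrix.det_mul,
            ← Matrix.det_of_upperTriangular (M := T) (fun i j hij => hT i j hij)]
          have h8 := congrArg Matrix.det hXY
          rw [Matrix.det_mul, Matrix.det_one] at h8
          linear_combination (-T.det) * h8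
    · intro i
      simp only [Sum.elim_inr, Fin.val_castSucc, Fin.val_succ]
      rw [pprod_succ]
  · rintro ⟨y, ⟨⟨⟨⟨g1, g2⟩, g3⟩, g4⟩, g5⟩⟩
    have g6 := g4 (.inr false)
    have g7 := g4 (.inr true)
    simp only at g6 g7
    have g8 := det_of_cert g1 g2 g3 (fun i j hij => by
      have := g4 (.inl (i, j))
      simp only [if_pos hij] at this
      exact this) (sub_eq_zero.1 g6) g5
    change (mat fun p => x (.inl p)).det = x (.inr ())
    rw [sub_eq_zero.1 g7] at g8
    exact g8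

theorem up_sl (N : ℕ) : ∃ t, Decides (slSet N) t (3 * trank ℂ N N N + N) := by
  obtain ⟨t, h⟩ := up_det N
  refine h.pull (fun x => Sum.elim x fun _ => 1) ?_ fun x => Iff.rfl
  rintro (i | i)
  · exact isAff_var _
  · exact isAff_const _

end

end Pool.Agent.Helper16K9.Ver
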