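import Pool.Agent.Helper16K9.Ver.UpDet

set_option autoImplicit false
set_option linter.unusedSectionVars false
set_option linter.unusedVariables false

/-!
# The upper bounds for traces
-/

namespace Pool.Agent.Helper16K9.Ver

open Finset Matrix Pool.Agent.W956.KF

theorem IsAff.comp_inl {I K : Type} [Fintype I] [Fintype K] {f : (I → ℂ) → ℂ} (h : IsAff f) :
    IsAff fun z : I ⊕ K → ℂ => f fun i => z (.inl i) := by
  obtain ⟨l, hl⟩ := h
  refine ⟨⟨l.const, Sum.elim l.inp fun _ => 0, l.prev⟩, fun x w m => ?_⟩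
  change _ = f fun i => x (.inl i)
  rw [← hl (fun i => x (.inl i)) w m]
  simp [Lin.val, Fintype.sum_sum_type]

theorem isAff_sum {I K : Type} [Fintype I] (s : Finset K) (f : K → (I → ℂ) → ℂ)
    (h : ∀ k, IsAff (f k)) : IsAff fun x => ∑ k ∈ s, f k x := by
  classical
  induction s using Finset.induction_on with
  | empty =>
    simp only [Finset.sum_empty]
    exact isAff_const _
  | insert a s ha ih =>
    simp only [Finset.sum_insert ha]
    exact (h a).add ih

theorem up_tr3 {I : Type} [Fintype I] {N : ℕ} (A B C : (I → ℂ) → Matrix (Fin N) (Fin N) ℂ)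
    (d : (I → ℂ) → ℂ) (hA : ∀ i j, IsAff fun x => A x i j) (hB : ∀ i j, IsAff fun x => B x i j)
    (hC : ∀ i j, IsAff fun x => C x i j) (hd : IsAff d) :
    ∃ t, Decides {x | (A x * B x * C x).trace = d x} t (trank ℂ N N N + N ^ 2) := by
  obtain ⟨t1, h1⟩ := up_eq (I := I ⊕ ((Fin N × Fin N) ⊕ (Fin N × Fin N)))
    (fun z => A fun i => z (.inl i)) (fun z => B fun i => z (.inl i))
    (fun z => Matrix.of fun i j => z (.inr (.inl (i, j))))
    (fun i j => (hA i j).comp_inl) (fun i j => (hB i j).comp_inl) (fun i j => isAff_var _)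
  obtain ⟨t2, h2⟩ := decides_quad (I := I ⊕ ((Fin N × Fin N) ⊕ (Fin N × Fin N)))
    (K := Fin N × Fin N) (fun p z => z (.inr (.inl p)))
    (fun p z => C (fun i => z (.inl i)) p.2 p.1) (fun p z => z (.inr (.inr p)))
    (fun p => isAff_var _) (fun p => (hC _ _).comp_inl) (fun p => isAff_var _)
  obtain ⟨t3, h3⟩ := decides_lin (I := I ⊕ ((Fin N × Fin N) ⊕ (Fin N × Fin N))) (K := Unit)
    (fun _ z => ∑ p, z (.inr (.inr p)) - d fun i => z (.inl i))
    (fun _ => (isAff_sum _ _ fun p => isAff_var _).sub hd.comp_inl)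
  obtain ⟨s1, k1⟩ := h1.inter h2
  obtain ⟨s2, k2⟩ := k1.inter h3
  obtain ⟨s3, k3⟩ := k2.proj
  refine ⟨s3, ?_⟩
  rw [Fintype.card_prod, Fintype.card_fin, add_zero, ← sq] at k3
  convert k3 using 1
  ext x
  simp only [Set.mem_inter_iff, Set.mem_ofPred_eq]
  have hsum : ∀ P : Matrix (Fin N) (Fin N) ℂ, (P * C x).trace =
      ∑ p : Fin N × Fin N, P p.1 p.2 * C x p.2 p.1 := by
    intro P
    rw [Fintype.sum_prod_type]
    simp only [Matrix.trace, Matrix.diag_apply, Matrix.mul_apply]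
  constructor
  · intro hx
    refine ⟨Sum.elim (fun p => (A x * B x) p.1 p.2) (fun p => (A x * B x) p.1 p.2 * C x p.2 p.1),
      ⟨rfl, fun p => rfl⟩, fun _ => ?_⟩
    simp only [Sum.elim_inr, Sum.elim_inl]
    rw [← hsum, hx, sub_self]
  · rintro ⟨y, ⟨g1, g2⟩, g3⟩
    have e1 : A x * B x = Matrix.of fun i j => y (.inl (i, j)) := g1
    have e2 : ∀ p : Fin N × Fin N, y (.inl p) * C x p.2 p.1 = y (.inr p) := g2
    have e3 : ∑ p, y (.inr p) - d x = 0 := g3 ()
    rw [hsum, e1, ← sub_eq_zero.1 e3]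
    exact sum_congr rfl fun p _ => e2 p

theorem aff_mat {I : Type} [Fintype I] {N : ℕ} (e : Fin N × Fin N → I) (i j : Fin N) :
    IsAff fun x : I → ℂ => mat (fun p => x (e p)) i j :=
  isAff_var (e (i, j))

theorem up_trace (N : ℕ) : ∃ t, Decides (traceSet N) t (trank ℂ N N N + N ^ 2) :=
  up_tr3 (I := ((((Fin N × Fin N) ⊕ (Fin N × Fin N)) ⊕ (Fin N × Fin N)) ⊕ Unit))
    (fun x => mat (fun p => x (.inl (.inl (.inl p)))))
    (fun x => mat (fun p => x (.inl (.inl (.inr p))))) (fun x => mat (fun p => x (.inl (.inr p))))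
    (fun x => x (.inr ())) (aff_mat fun p => Sum.inl (Sum.inl (Sum.inl p)))
    (aff_mat fun p => Sum.inl (Sum.inl (Sum.inr p))) (aff_mat fun p => Sum.inl (Sum.inr p))
    (isAff_var _)

theorem up_cubeTrace (N : ℕ) : ∃ t, Decides (cubeTraceSet N) t (trank ℂ N N N + N ^ 2) :=
  up_tr3 (I := Fin N × Fin N) (fun x => mat x) (fun x => mat x) (fun x => mat x)
    (fun x => 0) (aff_mat fun p => p) (aff_mat fun p => p) (aff_mat fun p => p) (isAff_const _)

theorem up_triangle (N : ℕ) : ∃ t, Decides (triangleSet N) t (trank ℂ N N N + N ^ 2) := by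
  obtain ⟨t1, h1⟩ := up_cubeTrace N
  obtain ⟨t2, h2⟩ := decides_lin (I := Fin N × Fin N) (K := (Fin N × Fin N) ⊕ Fin N)
    (fun k x => match k with
      | .inl p => x (p.2, p.1) - x (p.1, p.2)
      | .inr i => x (i, i)) (by
      rintro (p | i)
      · exact (isAff_var _).sub (isAff_var _)
      · exact isAff_var _)
  obtain ⟨t3, h3⟩ := h1.inter h2
  refine ⟨t3, ?_⟩
  rw [add_zero] at h3
  convert h3 using 1
  ext x
  simp only [Set.mem_inter_iff, Set.mem_ofPred_eq]
  have e1 : x ∈ triangleSet N ↔ (mat x).IsSymm ∧ (∀ i, mat x i i = 0) ∧ x ∈ cubeTraceSet N :=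
    Iff.rfl
  rw [e1]
  constructor
  · rintro ⟨g1, g2, g3⟩
    refine ⟨g3, ?_⟩
    rintro (p | i)
    · exact sub_eq_zero.2 (g1.apply p.1 p.2)
    · exact g2 i
  · rintro ⟨g3, g⟩
    refine ⟨?_, fun i => g (.inr i), g3⟩
    ext i j
    exact sub_eq_zero.1 (g (.inl (i, j)))

end Pool.Agent.Helper16K9.Ver
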