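import Pool.Agent.Helper16K9.Ver.RankRed
import Pool.Agent.W956.KF.Growth

set_option autoImplicit false
set_option linter.unusedSectionVars false
set_option linter.unusedVariables false

/-!
# The upper bounds
-/

namespace Pool.Agent.Helper16K9.Ver

open Finset Matrix Pool.Agent.W956.KF

section

variable {I : Type} [Fintype I]

/-- `k` multiplications -/
def mulN (u v : ℕ → Lin I) (t : Tree I) : ℕ → ℕ → Tree I
  | 0, _ => t
  | k + 1, s => .mul (u s) (v s) (mulN u v t k (s + 1))

/-- tests for zero -/
def testL : List (Lin I) → Tree I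
  | [] => .accept
  | u :: ls => .test u (testL ls) .reject

theorem accepts_testL (x : I → ℂ) (m : ℕ) (w : ℕ → ℂ) (L : ℕ) : ∀ ls : List (Lin I),
    Accepts x (testL ls) m w L ↔ ∀ u ∈ ls, u.val x w m = 0
  | [] => by simp [testL, Accepts]
  | u :: ls => by
    simp only [testL, Accepts, and_false, or_false, List.mem_cons, forall_eq_or_imp]
    rw [accepts_testL x m w L ls]

theorem det_testL : ∀ ls : List (Lin I), (testL ls).Det
  | [] => trivial
  | u :: ls => ⟨det_testL ls, trivial⟩

theorem det_mulN (u v : ℕ → Lin I) {t : Tree I} (ht : t.Det) : ∀ k s : ℕ,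
    (mulN u v t k s).Det
  | 0, _ => ht
  | k + 1, s => det_mulN u v ht k (s + 1)

theorem accepts_mulN (x : I → ℂ) (u v : ℕ → Lin I) (t : Tree I) (p : ℕ → ℂ)
    (hp : ∀ s w m, (u s).val x w m * (v s).val x w m = p s) : ∀ (k s : ℕ) (w : ℕ → ℂ) (L : ℕ),
    Accepts x (mulN u v t k s) s w L ↔ ∃ L', L = L' + k ∧
      Accepts x t (s + k) (fun j => if s ≤ j then p j else w j) L'
  | 0, s, w, L => by
    simp only [mulN, add_zero]
    constructor
    · intro h
      refine ⟨L, rfl, Accepts.congr (fun j hj => ?_) h⟩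
      rw [if_neg (by omega)]
    · rintro ⟨L', rfl, h⟩
      refine Accepts.congr (fun j hj => ?_) h
      rw [if_neg (by omega)]
  | k + 1, s, w, L => by
    simp only [mulN, Accepts]
    rw [hp]
    have h1 : (fun j => if s + 1 ≤ j then p j else Function.update w s (p s) j) =
        fun j => if s ≤ j then p j else w j := by
      funext j
      rcases lt_trichotomy j s with h | h | h
      · rw [if_neg (by omega), if_neg (by omega), Function.update_of_ne (by omega)]
      · rw [h, if_neg (by omega), if_pos le_rfl, Function.update_self]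
      · rw [if_pos (by omega), if_pos (by omega)]
    constructor
    · rintro ⟨L', rfl, h⟩
      obtain ⟨L'', rfl, h2⟩ := (accepts_mulN x u v t p hp k (s + 1) _ L').1 h
      refine ⟨L'', by ring, ?_⟩
      rw [h1] at h2
      have : s + (k + 1) = s + 1 + k := by ring
      rw [this]
      exact h2
    · rintro ⟨L', rfl, h⟩
      refine ⟨L' + k, by ring, (accepts_mulN x u v t p hp k (s + 1) _ _).2 ⟨L', rfl, ?_⟩⟩
      rw [h1]
      have : s + (k + 1) = s + 1 + k := by ring
      rw [this] at h
      exact h

end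

section product

variable {n r : ℕ}

/-- a linear form in the inputs -/
def linIn {I : Type} (f : I → ℂ) : Lin I := ⟨0, f, fun _ => 0⟩

theorem linIn_val {I : Type} [Fintype I] (f : I → ℂ) (x : I → ℂ) (w : ℕ → ℂ) (m : ℕ) :
    (linIn f).val x w m = ∑ i, f i * x i := by
  simp [linIn, Lin.val]

variable (U V W : Fin r → Matrix (Fin n) (Fin n) ℂ)

/-- first factor -/
def uu (s : ℕ) : Lin (((Fin n × Fin n) ⊕ (Fin n × Fin n)) ⊕ (Fin n × Fin n)) :=
  linIn (Sum.elim (Sum.elim (fun p => if h : s < r then U ⟨s, h⟩ p.1 p.2 else 0) fun _ => 0)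
    fun _ => 0)

/-- second factor -/
def vv (s : ℕ) : Lin (((Fin n × Fin n) ⊕ (Fin n × Fin n)) ⊕ (Fin n × Fin n)) :=
  linIn (Sum.elim (Sum.elim (fun _ => 0) fun p => if h : s < r then V ⟨s, h⟩ p.1 p.2 else 0)
    fun _ => 0)

/-- the difference to be tested -/
def tt (p : Fin n × Fin n) : Lin (((Fin n × Fin n) ⊕ (Fin n × Fin n)) ⊕ (Fin n × Fin n)) :=
  ⟨0, fun i => if i = Sum.inr p then -1 else 0,
    fun j => if h : j < r then W ⟨j, h⟩ p.1 p.2 else 0⟩

/-- the tree -/
noncomputable def prodTree : Tree (((Fin n × Fin n) ⊕ (Fin n × Fin n)) ⊕ (Fin n × Fin n)) :=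
  mulN (uu U) (vv V) (testL ((univ : Finset (Fin n × Fin n)).toList.map (tt W))) r 0

theorem decides_prodTree
    (h : ∀ (i i' : Fin n) (j j' : Fin n) (k k' : Fin n),
      ∑ l, U l i j * V l j' k * W l i' k' = if i = i' ∧ j = j' ∧ k = k' then 1 else 0) :
    Decides (productSet n) (prodTree U V W) r := by
  have key : ∀ (x : (((Fin n × Fin n) ⊕ (Fin n × Fin n)) ⊕ (Fin n × Fin n)) → ℂ) (L : ℕ),
      Accepts x (prodTree U V W) 0 0 L ↔ (∃ L', L = L' + r) ∧ x ∈ productSet n := by
    intro x L
    let p : ℕ → ℂ := fun s => (if h : s < r then ∑ i, ∑ j, U ⟨s, h⟩ i j * mA x i j else 0) *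
      (if h : s < r then ∑ i, ∑ j, V ⟨s, h⟩ i j * mB x i j else 0)
    have hp : ∀ s w m, (uu U s).val x w m * (vv V s).val x w m = p s := by
      intro s w m
      simp only [uu, vv, p, linIn_val, Fintype.sum_sum_type, Sum.elim_inl, Sum.elim_inr, zero_mul,
        sum_const_zero, add_zero, zero_add]
      congr 1
      · split_ifs
        · rw [Fintype.sum_prod_type]
          rfl
        · simp
      · split_ifs
        · rw [Fintype.sum_prod_type]
          rfl
        · simp
    unfold prodTree
    rw [accepts_mulN x (uu U) (vv V) _ p hp r 0 0 L]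
    have hval : ∀ q : Fin n × Fin n, (tt W q).val x (fun j => if 0 ≤ j then p j else 0) (0 + r) =
        (mA x * mB x) q.1 q.2 - mC x q.1 q.2 := by
      intro q
      simp only [tt, Lin.val, Nat.zero_le, if_true, zero_add, ite_mul, neg_mul, one_mul, zero_mul,
        sum_ite_eq', mem_univ]
      have h1 : ∑ j ∈ range r, (if h : j < r then W ⟨j, h⟩ q.1 q.2 else 0) * p j =
          ∑ l : Fin r, W l q.1 q.2 * ((∑ i, ∑ j, U l i j * mA x i j) *
            ∑ i, ∑ j, V l i j * mB x i j) := by
        rw [Finset.sum_range]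
        refine sum_congr rfl fun l _ => ?_
        simp only [p, l.2, dif_pos]
      rw [h1, Matrix.mul_apply]
      have h2 : ∀ l : Fin r, W l q.1 q.2 * ((∑ i, ∑ j, U l i j * mA x i j) *
          ∑ i, ∑ j, V l i j * mB x i j) = ∑ i, ∑ j, ∑ j', ∑ k,
            (U l i j * V l j' k * W l q.1 q.2) * (mA x i j * mB x j' k) := by
        intro l
        rw [Finset.sum_mul, Finset.mul_sum]
        refine sum_congr rfl fun i _ => ?_
        rw [Finset.sum_mul, Finset.mul_sum]
        refine sum_congr rfl fun j _ => ?_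
        rw [Finset.mul_sum, Finset.mul_sum]
        refine sum_congr rfl fun j' _ => ?_
        rw [Finset.mul_sum, Finset.mul_sum]
        refine sum_congr rfl fun k _ => by ring
      have h3 : ∑ l : Fin r, ∑ i, ∑ j, ∑ j', ∑ k,
            (U l i j * V l j' k * W l q.1 q.2) * (mA x i j * mB x j' k) =
          ∑ i, ∑ j, ∑ j', ∑ k, (∑ l : Fin r, U l i j * V l j' k * W l q.1 q.2) *
            (mA x i j * mB x j' k) := by
        rw [sum_comm]
        refine sum_congr rfl fun i _ => ?_
        rw [sum_comm]
        refine sum_congr rfl fun j _ => ?_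
        rw [sum_comm]
        refine sum_congr rfl fun j' _ => ?_
        rw [sum_comm]
        refine sum_congr rfl fun k _ => ?_
        rw [sum_mul]
      simp only [h2]
      rw [h3]
      simp only [h]
      have h4 : ∑ i, ∑ j, ∑ j', ∑ k, (if i = q.1 ∧ j = j' ∧ k = q.2 then (1 : ℂ) else 0) *
          (mA x i j * mB x j' k) = ∑ j, mA x q.1 j * mB x j q.2 := by
        rw [Finset.sum_eq_single q.1]
        · refine sum_congr rfl fun j _ => ?_
          rw [Finset.sum_eq_single j]
          · rw [Finset.sum_eq_single q.2]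
            · simp
            · intro k _ hk
              rw [if_neg (by tauto), zero_mul]
            · simp
          · intro j' _ hj
            refine sum_eq_zero fun k _ => ?_
            rw [if_neg (fun h' => hj h'.2.1.symm), zero_mul]
          · simp
        · intro i _ hi
          refine sum_eq_zero fun j _ => sum_eq_zero fun j' _ => sum_eq_zero fun k _ => ?_
          rw [if_neg (fun h' => hi h'.1), zero_mul]
        · simp
      rw [h4]
      have h5 : mC x q.1 q.2 = x (Sum.inr q) := rfl
      rw [h5]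
      ring
    have htest : ∀ L', Accepts x (testL ((univ : Finset (Fin n × Fin n)).toList.map (tt W)))
        (0 + r) (fun j => if 0 ≤ j then p j else (0 : ℕ → ℂ) j) L' ↔ x ∈ productSet n := by
      intro L'
      rw [accepts_testL, mem_productSet]
      constructor
      · intro h1
        ext i k
        have h2 := h1 (tt W (i, k)) (List.mem_map.2 ⟨(i, k), by simp, rfl⟩)
        have h3 := hval (i, k)
        rw [sub_eq_zero.1 (h3.symm.trans h2)]
      · intro h1 u hu
        obtain ⟨q, _, rfl⟩ := List.mem_map.1 hu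
        have h3 := hval q
        rw [h1, sub_self] at h3
        exact h3
    constructor
    · rintro ⟨L', hL, h1⟩
      exact ⟨⟨L', hL⟩, (htest L').1 h1⟩
    · rintro ⟨⟨L', hL⟩, h1⟩
      exact ⟨L', hL, (htest L').2 h1⟩
  constructor
  · intro x hx
    exact (key x r).2 ⟨⟨0, (Nat.zero_add r).symm⟩, hx⟩
  · intro x L' hx
    exact ((key x L').1 hx).2

theorem det_prodTree : (prodTree U V W).Det := det_mulN _ _ (det_testL _) _ _

end product

theorem exists_prodTree (n : ℕ) :
    ∃ t : Tree (((Fin n × Fin n) ⊕ (Fin n × Fin n)) ⊕ (Fin n × Fin n)),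
      t.Det ∧ Decides (productSet n) t (trank ℂ n n n) := by
  obtain ⟨U, V, W, h⟩ := rankLE_trank ℂ n n n
  exact ⟨prodTree U V W, det_prodTree U V W, decides_prodTree U V W h⟩

end Pool.Agent.Helper16K9.Ver
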