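import Pool.Agent.Helper16K9.Ver.Upper

set_option autoImplicit false
set_option linter.unusedSectionVars false
set_option linter.unusedVariables false

/-!
# The upper bounds for the other sets
-/

namespace Pool.Agent.Helper16K9.Ver

open Finset Matrix Pool.Agent.W956.KF

theorem up_product (N : ℕ) :
    ∃ t, Decides (productSet N) t (trank ℂ N N N) := by
  obtain ⟨t, _, h⟩ := exists_prodTree N
  exact ⟨t, h⟩

theorem up_zeroProduct (N : ℕ) :
    ∃ t, Decides (zeroProductSet N) t (trank ℂ N N N) := by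
  obtain ⟨t, h⟩ := up_product N
  refine h.pull (fun x => Sum.elim (Sum.elim (fun p => x (.inl p)) (fun p => x (.inr p)))
    fun _ => 0) ?_ fun x => Iff.rfl
  rintro ((i | i) | i)
  · exact isAff_var _
  · exact isAff_var _
  · exact isAff_const _

theorem up_inverse (N : ℕ) :
    ∃ t, Decides (inverseSet N) t (trank ℂ N N N) := by
  obtain ⟨t, h⟩ := up_product N
  refine h.pull (fun x => Sum.elim (Sum.elim (fun p => x (.inl p)) (fun p => x (.inr p)))
    fun p => (1 : Matrix (Fin N) (Fin N) ℂ) p.1 p.2) ?_ fun x => Iff.rfl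
  rintro ((i | i) | i)
  · exact isAff_var _
  · exact isAff_var _
  · exact isAff_const _

theorem up_squareZero (N : ℕ) :
    ∃ t, Decides (squareZeroSet N) t (trank ℂ N N N) := by
  obtain ⟨t, h⟩ := up_product N
  refine h.pull (fun x => Sum.elim (Sum.elim (fun p => x p) (fun p => x p))
    fun _ => 0) ?_ fun x => Iff.rfl
  rintro ((i | i) | i)
  · exact isAff_var _
  · exact isAff_var _
  · exact isAff_const _

theorem up_idempotent (N : ℕ) :
    ∃ t, Decides (idempotentSet N) t (trank ℂ N N N) := by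
  obtain ⟨t, h⟩ := up_product N
  refine h.pull (fun x => Sum.elim (Sum.elim (fun p => x p) (fun p => x p))
    fun p => x p) ?_ fun x => Iff.rfl
  rintro ((i | i) | i)
  · exact isAff_var _
  · exact isAff_var _
  · exact isAff_var _

theorem up_commuting (N : ℕ) :
    ∃ t, Decides (commutingSet N) t (trank ℂ (2 * N) (2 * N) (2 * N)) := by
  obtain ⟨t, h⟩ := up_zeroProduct (2 * N)
  let e : Fin (2 * N) ≃ Fin N ⊕ Fin N := Fintype.equivOfCardEq (by
    simp only [Fintype.card_fin, Fintype.card_sum]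
    omega)
  refine h.pull (fun x => two
    ((Matrix.fromBlocks (mat fun p => x (.inl p)) (-mat fun p => x (.inr p)) 0 0).submatrix e e)
    ((Matrix.fromBlocks (mat fun p => x (.inr p)) 0 (mat fun p => x (.inl p)) 0).submatrix e e))
    ?_ fun x => ?_
  · rintro (p | p)
    · simp only [two, Sum.elim_inl, Matrix.submatrix_apply]
      rcases e p.1 with a | a <;> rcases e p.2 with b | b
      · exact isAff_var _
      · exact (isAff_var (I := (Fin N × Fin N) ⊕ (Fin N × Fin N)) (Sum.inr (a, b))).neg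
      · exact isAff_const _
      · exact isAff_const _
    · simp only [two, Sum.elim_inr, Matrix.submatrix_apply]
      rcases e p.1 with a | a <;> rcases e p.2 with b | b
      · exact isAff_var _
      · exact isAff_const _
      · exact isAff_var _
      · exact isAff_const _
  · have h1 : ∀ X Y : Matrix (Fin (2 * N)) (Fin (2 * N)) ℂ,
      two X Y ∈ zeroProductSet (2 * N) ↔ X * Y = 0 := fun X Y => Iff.rfl
    have h2 : (x ∈ commutingSet N) ↔ (mat fun p => x (.inl p)) * (mat fun p => x (.inr p)) =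
      (mat fun p => x (.inr p)) * (mat fun p => x (.inl p)) := Iff.rfl
    rw [h1, h2, Matrix.submatrix_mul_equiv, Matrix.fromBlocks_multiply]
    have h3 : ∀ M : Matrix (Fin N ⊕ Fin N) (Fin N ⊕ Fin N) ℂ, M.submatrix e e = 0 ↔ M = 0 := by
      intro M
      constructor
      · intro h4
        have h5 := congrArg (fun X => Matrix.submatrix X e.symm e.symm) h4
        simpa using h5
      · rintro rfl
        rfl
    rw [h3, ← Matrix.fromBlocks_zero, Matrix.fromBlocks_inj]
    simp only [Matrix.mul_zero, Matrix.zero_mul, add_zero, and_true, Matrix.neg_mul,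
      add_neg_eq_zero]

/-! ### the rank -/

theorem exists_factor {N r : ℕ} (A : Matrix (Fin N) (Fin N) ℂ) (h : A.rank ≤ r) :
    ∃ X Y : Matrix (Fin N) (Fin N) ℂ, (∀ i j : Fin N, r ≤ j → X i j = 0) ∧ A = X * Y := by
  have hf : Module.finrank ℂ (LinearMap.range A.mulVecLin) = A.rank := rfl
  let b := Module.finBasisOfFinrankEq ℂ (LinearMap.range A.mulVecLin) hf
  have hcol : ∀ j : Fin N, A.col j ∈ LinearMap.range A.mulVecLin := by
    intro j
    refine ⟨Pi.single j 1, ?_⟩
    simp
  have hN : A.rank ≤ N := A.rank_le_width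
  refine ⟨Matrix.of fun i k => if hk : k.1 < A.rank then (b ⟨k, hk⟩ : Fin N → ℂ) i else 0,
    Matrix.of fun k j => if hk : k.1 < A.rank then b.repr ⟨A.col j, hcol j⟩ ⟨k, hk⟩ else 0,
    ?_, ?_⟩
  · intro i j hj
    rw [Matrix.of_apply, dif_neg (by omega)]
  · ext i j
    rw [Matrix.mul_apply]
    have h1 := b.sum_repr ⟨A.col j, hcol j⟩
    have h2 : ((∑ k, b.repr ⟨A.col j, hcol j⟩ k • b k : LinearMap.range A.mulVecLin) :
        Fin N → ℂ) i = A.col j i := by rw [h1]
    simp only [Submodule.coe_sum, Submodule.coe_smul, Finset.sum_apply, Pi.smul_apply,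
      smul_eq_mul] at h2
    rw [show A i j = A.col j i from rfl, ← h2]
    refine Fintype.sum_of_injective (Fin.castLE hN) (Fin.castLE_injective hN) _ _ ?_ ?_
    · intro k hk
      simp only [Matrix.of_apply]
      rw [dif_neg, zero_mul]
      intro h3
      exact hk ⟨⟨k, h3⟩, rfl⟩
    · intro k
      simp only [Matrix.of_apply, Fin.val_castLE, k.2, dif_pos]
      ring

theorem rank_of_factor {N r : ℕ} {X Y : Matrix (Fin N) (Fin N) ℂ}
    (h : ∀ i j : Fin N, r ≤ j → X i j = 0) : (X * Y).rank ≤ r := by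
  classical
  have h1 : X = X * Matrix.diagonal (fun j : Fin N => if j.1 < r then (1 : ℂ) else 0) := by
    ext i j
    rw [Matrix.mul_diagonal]
    by_cases hj : j.1 < r
    · rw [if_pos hj, mul_one]
    · rw [if_neg hj, mul_zero]
      exact h i j (by omega)
  rw [h1]
  refine (Matrix.rank_mul_le_left _ _).trans ((Matrix.rank_mul_le_right _ _).trans ?_)
  rw [Matrix.rank_diagonal]
  have h2 : Fintype.card {i : Fin N // (if i.1 < r then (1 : ℂ) else 0) ≠ 0} ≤
      Fintype.card (Fin r) := by
    refine Fintype.card_le_of_injective (fun i => ⟨i.1.1, by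
      by_contra hc
      exact i.2 (if_neg hc)⟩) ?_
    intro i j hij
    apply Subtype.ext
    apply Fin.ext
    exact congrArg (fun y : Fin r => y.1) hij
  rwa [Fintype.card_fin] at h2

/-- the position of the guesses -/
noncomputable def pos (N : ℕ) : (Fin N × Fin N) ⊕ (Fin N × Fin N) ≃
    Fin (Fintype.card ((Fin N × Fin N) ⊕ (Fin N × Fin N))) := Fintype.equivFin _

/-- a computed number as an affine combination -/
noncomputable def linPrev {I : Type} (q : ℕ) : Lin I :=
  ⟨0, fun _ => 0, fun j => if j = q then 1 else 0⟩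

theorem linPrev_val {I : Type} [Fintype I] (q : ℕ) (x : I → ℂ) (w : ℕ → ℂ) (m : ℕ) (h : q < m) :
    (linPrev q : Lin I).val x w m = w q := by
  simp [linPrev, Lin.val, h]

theorem up_rank (N r : ℕ) :
    ∃ t, Decides (rankSet N r) t (trank ℂ N N N) := by
  obtain ⟨t, h⟩ := up_product N
  let m₀ := Fintype.card ((Fin N × Fin N) ⊕ (Fin N × Fin N))
  let a : (((Fin N × Fin N) ⊕ (Fin N × Fin N)) ⊕ (Fin N × Fin N)) → Lin (Fin N × Fin N) :=
    Sum.elim (Sum.elim (fun p => if r ≤ p.2 then linIn 0 else linPrev (pos N (.inl p)))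
      (fun p => linPrev (pos N (.inr p)))) (fun p => linIn (Pi.single p 1))
  let X : (ℕ → ℂ) → Matrix (Fin N) (Fin N) ℂ := fun w => Matrix.of fun i j =>
    if r ≤ j then 0 else w (pos N (.inl (i, j)))
  let Y : (ℕ → ℂ) → Matrix (Fin N) (Fin N) ℂ := fun w => Matrix.of fun i j =>
    w (pos N (.inr (i, j)))
  have ha : ∀ (x : Fin N × Fin N → ℂ) (w : ℕ → ℂ) i', (a i').val x w m₀ =
      (Sum.elim (Sum.elim (fun p => X w p.1 p.2) (fun p => Y w p.1 p.2)) x :
        (((Fin N × Fin N) ⊕ (Fin N × Fin N)) ⊕ (Fin N × Fin N)) → ℂ) i' := by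
    intro x w i'
    rcases i' with (p | p) | p
    · simp only [a, X, Sum.elim_inl, Matrix.of_apply]
      split_ifs
      · simp [linIn_val]
      · exact linPrev_val _ _ _ _ (pos N _).2
    · simp only [a, Y, Sum.elim_inl, Sum.elim_inr, Matrix.of_apply]
      exact linPrev_val _ _ _ _ (pos N _).2
    · simp only [a, Sum.elim_inr, linIn_val]
      rw [Finset.sum_eq_single p]
      · rw [Pi.single_eq_same, one_mul]
      · intro q _ hq
        rw [Pi.single_eq_of_ne hq, zero_mul]
      · intro hp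
        exact absurd (Finset.mem_univ p) hp
  have key : ∀ (x : Fin N × Fin N → ℂ) (L : ℕ),
      Accepts x (guessN m₀ (t.sub a m₀)) 0 0 L ↔ ∃ w : ℕ → ℂ,
        Accepts (Sum.elim (Sum.elim (fun p => X w p.1 p.2) (fun p => Y w p.1 p.2)) x) t 0 0 L := by
    intro x L
    rw [accepts_guessN]
    have h1 : ∀ w : ℕ → ℂ, Accepts x (t.sub a m₀) (0 + m₀) w L ↔
        Accepts (Sum.elim (Sum.elim (fun p => X w p.1 p.2) (fun p => Y w p.1 p.2)) x) t 0 0 L := by
      intro w
      rw [Nat.zero_add]
      have h2 := accepts_sub a m₀ x _ t 0 w L (ha x w)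
      rw [Nat.add_zero] at h2
      rw [h2]
      exact ⟨Accepts.congr (fun j hj => absurd hj (Nat.not_lt_zero j)),
        Accepts.congr (fun j hj => absurd hj (Nat.not_lt_zero j))⟩
    constructor
    · rintro ⟨w, _, hw⟩
      exact ⟨w, (h1 w).1 hw⟩
    · rintro ⟨w, hw⟩
      exact ⟨w, fun j hj => absurd hj (Nat.not_lt_zero j), (h1 w).2 hw⟩
  have hmem : ∀ (x : Fin N × Fin N → ℂ) (w : ℕ → ℂ),
      (Sum.elim (Sum.elim (fun p => X w p.1 p.2) (fun p => Y w p.1 p.2)) x ∈ productSet N) ↔
        X w * Y w = mat x := fun x w => Iff.rfl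
  refine ⟨guessN m₀ (t.sub a m₀), fun x hx => ?_, fun x L' hx => ?_⟩
  · rw [key]
    obtain ⟨X0, Y0, hX0, hXY⟩ := exists_factor (mat x) hx
    let w : ℕ → ℂ := fun q => if hq : q < m₀ then
      (Sum.elim (fun p => X0 p.1 p.2) (fun p => Y0 p.1 p.2) ((pos N).symm ⟨q, hq⟩)) else 0
    refine ⟨w, h.1 _ ((hmem x w).2 ?_)⟩
    have h1 : ∀ i, w (pos N i) = (Sum.elim (fun p => X0 p.1 p.2) (fun p => Y0 p.1 p.2) :
        (Fin N × Fin N) ⊕ (Fin N × Fin N) → ℂ) i := by
      intro i
      have : ((pos N i : Fin _) : ℕ) < m₀ := (pos N i).2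
      simp only [w, dif_pos this, Fin.eta, Equiv.symm_apply_apply]
    have hX : X w = X0 := by
      ext i j
      simp only [X, Matrix.of_apply, h1, Sum.elim_inl]
      split_ifs with h2
      · exact (hX0 i j h2).symm
      · rfl
    have hY : Y w = Y0 := by
      ext i j
      simp only [Y, Matrix.of_apply, h1, Sum.elim_inr]
    rw [hX, hY, hXY]
  · rw [key] at hx
    obtain ⟨w, hw⟩ := hx
    have h1 := (hmem x w).1 (h.2 _ L' hw)
    change (mat x).rank ≤ r
    rw [← h1]
    apply rank_of_factor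
    intro i j hj
    simp only [X, Matrix.of_apply]
    rw [if_pos hj]

end Pool.Agent.Helper16K9.Ver
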